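import Pool.Agent.Helper53.DV.Defs

/-!
# DV project (MP_d684b1_an): statements of the modules, with proofs in words

Paper proof: /team-store/MP_d684b1-DV.md.  Module `X` proves `theorem pX (h.. : St..) : StX`.
-/

set_option autoImplicit false

open scoped BigOperators RealInnerProductSpace
open MeasureTheory

namespace DV

/-! ### Borsuk-Ulam for joins of `ZMod p` -/

/-- MODULE BU1 (combinatorial core, about 200-300 lines).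
PROOF. `R = ZMod p` (a field). Call `Z` the `R`-submodule of `Ch p V` (`V = ZMod p × Fin T`) spanned by all
`single (l₁ ++ a :: b :: l₂) 1 + single (l₁ ++ b :: a :: l₂) 1` and `single (l₁ ++ a :: a :: l₂) 1`.
(1) `cone a Z ≤ Z` (clear on generators), and `dd Z ≤ Z`: induction on `l₁`; for `l₁ = []`:
`dl (a :: b :: l) + dl (b :: a :: l) = cone a (cone b (dl l)) + cone b (cone a (dl l))` and
`dl (a :: a :: l) = cone a (cone a (dl l))`, which are in `Z` (linear in `dl l`); for `x :: l₁`: `dl (x :: w) = w - cone x (dl w)`.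
(2) a list with a repeated entry is in `Z` (`single l 1 ∈ Z` if `¬ l.Nodup`): move the second copy next to the first by
adjacent swaps (each swap changes the sign modulo `Z`).
(3) `dd (dd x) = 0`, `dd` and `cone` commute with `mp f` (`mp f ∘ cone a = cone (f a) ∘ mp f`); `mp (shl k)` preserves `Z`,
`mp (shl k) ∘ mp (shl k') = mp (shl (k + k'))`, `mp (shl 0) = id`.
(4) weights. For a list `l` of labels with `NoFib l`, `l ≠ []`, let `a` be the least `a : Fin T` occurring in `l`,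
`F = {g | (g, a) ∈ l}` (a Finset of `ZMod p`, `0 < card F < p`), and `c(l) = (card F)⁻¹ * (if 0 ∈ F then 1 else 0)` in `ZMod p`.
`c` depends only on the set of entries of `l`, and `∑ k, c (l.map (shl k)) = 1` (`shl k` translates `F` to `F + k`, so
`0 ∈ F + k` for `card F` values of `k`). Let `μ` be the linear map `single l 1 ↦ c(l) • single l 1`; `μ Z ≤ Z` (the two lists in a
generator have the same entries). For `x` supported on nonempty `NoFib` lists (this set is stable under `shl k`):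
`x = ∑ k, mp (shl k) (μ (mp (shl (-k)) x))`.
(5) exactness modulo `Z`, for `x` supported on `NoFib` lists of length `n ≥ 1`, `g = mp (shl 1)`, `Nm = ∑ k, mp (shl k)`:
if `Nm x ∈ Z` then there is such a `y` (same kind of support) with `x - (g - 1) y ∈ Z`; if `(g - 1) x ∈ Z` then there is such a `y`
with `x - Nm y ∈ Z`. Proof: in the second case `mp (shl (-k)) x - x ∈ Z` for all `k` so `x - Nm (μ x) ∈ Z` by (4). In the first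
case `x = ∑_{i < p} g^i μ g^{-i} x` and `∑_i μ g^{-i} x = μ (Nm x) ∈ Z`, so `x - ∑_i (g^i - 1) μ g^{-i} x ∈ Z`, and
`g^i - 1 = (g - 1)(1 + g + ... + g^{i-1})`.
(6) a `NoFib` list of length `> T (p - 1)` has a repeated entry (at most `p - 1` distinct labels over each `a : Fin T`), so is in `Z`.
(7) descending induction on `j ≤ J = T (p - 1)`: there are `b` supported on `NoFib` lists of length `j + 2` and `b'` on `NoFib` lists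
of length `j + 1` with `x j - dd b - al (j) b' ∈ Z` (here `al j` = `al p shl j` is `g - 1` for odd `j`, `Nm` for even `j`). `j = J`: `b = b' = 0`
by (6). Step `j → j - 1`: apply `dd`: `al j (x (j - 1)) - al j (dd b') ∈ Z` (as `dd (x j) = al j (x (j-1))`, `dd dd = 0`, `dd` commutes
with `al j`), so by (5) (for the length `j ≥ 1`) `x (j - 1) - dd b' - al (j-1) b'' ∈ Z`.
(8) at `j = 0`: `x 0 - dd b - Nm b' ∈ Z`; apply `dd`: `single [] 1 - Nm (dd b') ∈ Z`, `dd b'` is a multiple of `single [] 1` (lists of length 0), which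
`shl` fixes, so `Nm (dd b') = p • dd b' = 0`. But `single [] 1 ∉ Z`: the coefficient of `[]` vanishes on `Z`. (`x` supported on lists of
length `n + 1` has `dd x` supported on lists of length `n`, sublists, so `NoFib` is kept.) -/
def StBU1 : Prop := ∀ (p T : ℕ) [Fact p.Prime] (x : ℕ → Ch p (ZMod p × Fin T)),
  (∀ j ≤ T * (p - 1), Supp (j + 1) NoFib (x j)) → dd p (x 0) = Finsupp.single [] 1 →
  (∀ j < T * (p - 1), dd p (x (j + 1)) = al p shl (j + 1) (x j)) → False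

/-- MODULE BU2 (subdivision, about 150-250 lines).
PROOF. `bar l` = the average of the entries of the list `l` (`(1 / length) • sum`). Define on lists, by recursion on a bound `n` of the length:
`s 0 l = single l 1`, `s (n + 1) [] = single [] 1`, `s (n + 1) l = cone (bar l) (∑ over the terms of dl l of s n)` (linear extension of `s n` applied to
`dl l`), and `S l = s (length l) l` (all bounds `≥ length l` give the same value), extended linearly: so `S [] = []` and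
`S l = cone (bar l) (S (dl l))` for `l ≠ []`. `dd (cone a x) = x - cone a (dd x)`, `dd (dl l) = 0`. Chain map: induction on the length,
`dd (S l) = S (dl l) - cone (bar l) (dd (S (dl l))) = S (dl l) - cone (bar l) (S (dd (dl l))) = S (dl l)`. Commutes with `mp f`, `f` linear, because
`bar (l.map f) = f (bar l)` and `dl`, `cone` are natural. Support: the lists in `S l` are `bar l :: l''` with `l''` in the support of `S m`,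
`m` a sublist of `l` of length one less (terms of `dl l`). So the length is kept, all entries are in the convex hull of `l`. Diameter: for entries `a, b` of
`l''` by induction `‖a - b‖ ≤ (1 - 1/N) D` (length of `m` is `≤ N`); for `a` in the convex hull of `l`, `‖bar l - a‖ ≤ max over b ∈ l of
‖bar l - b‖ ≤ (1 - 1/length l) D ≤ (1 - 1/N) D` (`bar l - b` is the average of the `c - b`, `c ∈ l`, one of which is `0`), `0 ≤ D` if `l ≠ []`. -/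
def StBU2 : Prop := ∀ (p : ℕ) [Fact p.Prime] (E : Type) [NormedAddCommGroup E] [NormedSpace ℝ E] (N : ℕ), 1 ≤ N →
  ∃ S : Ch p E →ₗ[ZMod p] Ch p E, (∀ x, dd p (S x) = S (dd p x)) ∧
    (∀ (f : E →ₗ[ℝ] E) (x : Ch p E), S (mp p f x) = mp p f (S x)) ∧
    S (Finsupp.single [] 1) = Finsupp.single [] 1 ∧
    ∀ l : List E, ∀ l' ∈ (S (Finsupp.single l 1)).support, l'.length = l.length ∧
      (∀ a ∈ l', a ∈ convexHull ℝ {b | b ∈ l}) ∧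
      ∀ D : ℝ, l.length ≤ N → (∀ a ∈ l, ∀ b ∈ l, ‖a - b‖ ≤ D) → ∀ a ∈ l', ∀ b ∈ l', ‖a - b‖ ≤ (1 - 1 / (N : ℝ)) * D

/-- The vertices of the join. -/
noncomputable def vx {p N : ℕ} (j : Fin N) (g : ZMod p) : Fin N × ZMod p → ℝ := Pi.single (j, g) 1

/-- The maximal simplices of the join. -/
noncomputable def smx {p N : ℕ} (n : Fin N → ZMod p) : Set (Fin N × ZMod p → ℝ) :=
  convexHull ℝ (Set.range fun j => vx j (n j))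

/-- The action on the join. -/
def tau {p N : ℕ} (k : ZMod p) : (Fin N × ZMod p → ℝ) →ₗ[ℝ] (Fin N × ZMod p → ℝ) where
  toFun v q := v (q.1, q.2 - k)
  map_add' _ _ := rfl
  map_smul' _ _ := rfl

/-- MODULE BU3 (about 150-250 lines; uses BU1, BU2).
PROOF. `J = T (p - 1)`, `J + 1 ≤ N`. In `Ch p E`, `E = Fin N × ZMod p → ℝ`, let `c 0 = single [vx 0 0] 1` and
`c (j + 1) = cone (vx (j+1) 0) (al (j + 1) (c j))` for `j + 1 ≤ J` (`al` = `al p tau`; anything for larger `j`). By induction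
`dd (c 0) = single [] 1` and `dd (c (j + 1)) = al (j + 1) (c j)`: `dd (cone v x) = x - cone v (dd x)` and `dd (al (j+1) (c j)) =
al (j+1) (dd (c j)) = al (j+1) (al j (c (j-1))) = 0` because `(g - 1) Nm = Nm (g - 1) = 0`; for `j = 0`: `(g - 1) (single [] 1) = 0`.
All lists in `c j` have length `j + 1`, entries `vx i g` with distinct `i ≤ j`, so all entries of such a list are in one `smx n`; distances of
vertices are `≤ 1` (sup norm). Let `S` be as in `StBU2` with this `E` and bound `N`, `S^r` its iterate with `(1 - 1/N)^r ≤ δ` (if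
`N = 1` fine; `D = 1`). The lists in `S^r (c j)` have length `j + 1`, lie in one `smx n` (convex), distances `≤ δ`. Put `x j = mp lam (S^r (c j))`.
`Supp (j + 1) NoFib (x j)` by `hfib`. `dd (x 0) = single [] 1`, and `dd (x (j+1)) = mp lam (S^r (al (j+1) (c j))) = mp lam (al (j+1) (S^r (c j)))`
(`tau k` is linear) `= al p shl (j+1) (x j)` by `heq` (on chains supported on lists inside some `smx n`; `tau k` maps `smx n` to `smx (n + k)`).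
Contradiction with `StBU1`. -/
def StBU3 : Prop := ∀ (p T N : ℕ) [Fact p.Prime], T * (p - 1) + 1 ≤ N →
  ∀ (lam : (Fin N × ZMod p → ℝ) → ZMod p × Fin T) (δ : ℝ), 0 < δ →
  (∀ n : Fin N → ZMod p, ∀ v ∈ smx n, ∀ k : ZMod p, lam (tau k v) = shl k (lam v)) →
  (∀ n : Fin N → ZMod p, ∀ l : List (Fin N × ZMod p → ℝ), (∀ v ∈ l, v ∈ smx n) →
    (∀ v ∈ l, ∀ w ∈ l, ‖v - w‖ ≤ δ) → NoFib (l.map lam)) → False

/-- MODULE BU4 (about 200-300 lines; uses BU3).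
PROOF. `T = 0`: any point (`N ≥ 1`). Suppose there is no such `(t, n)`. `osc a t n = max over g, g' of |f a t (n + g) - f a t (n + g')|`; the maximum over
`a` is `> 0` at each `(t, n)`, `t` in the compact simplex, `n` in a finite set, continuous in `t`: so `≥ κ > 0`. Uniform continuity (compactness, finitely many
`a, n`): `δ0 > 0` with `|f a t n - f a t' n| ≤ κ/8` for `‖t - t'‖ ≤ δ0`. For `v ∈ smx n`: `v (j, g) = t j` if `g = n j`, else `0`, with `t` in the simplex,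
`t j = ∑ g, v (j, g)` (`tt v`). For general `v` put `tt v j = ∑ g, v (j, g)`, `nn v j` = some `g` with `v (j, g) ≠ 0` if there is one, else `0`. For
`v ∈ smx n`: `nn v j = n j` whenever `tt v j ≠ 0`, so `f a (tt v) (n + g) = f a (tt v) (nn v + g)` by `hi`. `j0 v` = the least `j` with
`tt v j ≠ 0` (exists). `n' v = nn v - nn v (j0 v)` (constant subtracted, normalised). `aa v` = the least `a` with `osc a (tt v) (n' v) ≥ κ` (osc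
does not change when a constant is added to `n`), `mm v` = the least natural `m < p` such that `f (aa v) (tt v) (n' v - m)` is the maximum over `m`.
`lam v = (nn v (j0 v) + mm v, aa v)`. Then `f a (tt v) (nn v - g)` is the maximum over `g` at `g = nn v (j0 v) + mm v`, the first component of the
label. Equivariance on `smx n`: `tt (tau k v) = tt v`, `nn (tau k v) j = nn v j + k` where `tt v j ≠ 0`, `n'` agrees on these `j`; use `hi`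
(careful: `nn` has junk values where `tt v j = 0`; `osc`, `f` do not see them by `hi`). `hfib`: let all `v ∈ l` be in `smx n`, distances `≤ δ`,
`p δ ≤ δ0` (then `‖tt v - tt w‖ ≤ p δ`), and suppose `(g, a) ∈ l.map lam` for all `g`, by `v_g ∈ l`. Then `f a (tt v_g) (n - g) ≥ f a (tt v_g) (n - g')`
for all `g'`. With `t0 = tt v_0`: `f a t0 (n - g) ≥ f a t0 (n - g') - κ/4` for all `g, g'`, so `osc a t0 n ≤ κ/4 < κ ≤ osc a t0 n`, as `v_0`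
has label `a`. So some `g` is missing: `NoFib`. Apply `StBU3`. -/
def StBU4 : Prop := ∀ (p T N : ℕ) [Fact p.Prime], T * (p - 1) + 1 ≤ N →
  ∀ f : Fin T → (Fin N → ℝ) → (Fin N → ZMod p) → ℝ,
  (∀ a n, ContinuousOn (fun t => f a t n) (stdSimplex ℝ (Fin N))) →
  (∀ a t n n', t ∈ stdSimplex ℝ (Fin N) → (∀ j, t j ≠ 0 → n j = n' j) → f a t n = f a t n') →
  ∃ t ∈ stdSimplex ℝ (Fin N), ∃ n : Fin N → ZMod p, ∀ (a : Fin T) (g : ZMod p),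
    f a t (fun j => n j + g) = f a t n

/-! ### Core -/

/-- MODULE CF (about 120-180 lines; uses BU4).
PROOF. `b s t n = Φ (c ↦ if c.2 = s then t c.1 * β s (n c.1) else 0)`, `M s t n = (∑ g, b s t (n + g)) / P`. `M s t n > 0` on the simplex: some `t j > 0`,
take `g = - n j`: `β s 0 = 1`, `b ≥` sup norm `≥ t j`. Test functions: the `m` functions `b s` and the `q` functions
`f x t n = Φ (c ↦ (M c.2 t n)⁻¹ * t c.1 * h x c.2 (n c.1))`. Continuous in `t` (a seminorm on `ι → ℝ`, `ι` finite, is continuous: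
here `Φ ≤ (1 + η) sup norm`), independent of `n j` where `t j = 0`. `StBU4` with `T = q + m` (index `Fin (q + m)`, `Fin.append` or `finSumFinEquiv`)
gives `(t, n)`. Note `M s t (n + g) = M s t n` (reindex the sum), so `f x t (n + g) = Φ (c ↦ a c.1 c.2 * h x c.2 (n c.1 + g))` with `a j s = t j / M s t n`; and
`b s t (n + g) = b s t n` for all `g`, so `= M s t n`. `a j s ≤ 1`: `g = - n j`: `t j ≤ b s t (n + g) = M`. Third claim: `M = b s t (n - g) ≤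
(1 + η) * (sup norm)`, the sup norm is attained at some `c`, `c.2 = s` as `M > 0`: `M ≤ (1 + η) t j β s (n j - g)`. -/
def StCF : Prop := ∀ (P m q N : ℕ) [Fact P.Prime], (q + m) * (P - 1) + 1 ≤ N → ∀ η : ℝ, 0 ≤ η →
  ∀ Φ : Seminorm ℝ (Fin N × Fin m → ℝ), NearMax η Φ →
  ∀ (h : Fin q → Fin m → ZMod P → ℝ) (β : Fin m → ZMod P → ℝ), (∀ s g, 0 ≤ β s g ∧ β s g ≤ 1) → (∀ s, β s 0 = 1) →
  ∃ (a : Fin N → Fin m → ℝ) (n : Fin N → ZMod P), (∀ j s, 0 ≤ a j s ∧ a j s ≤ 1) ∧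
    (∀ s g, ∃ j, 1 / (1 + η) ≤ a j s * β s (n j - g)) ∧
    ∀ x g, Φ (fun c => a c.1 c.2 * h x c.2 (n c.1 + g)) = Φ (fun c => a c.1 c.2 * h x c.2 (n c.1))

/-- MODULE NL (about 80-120 lines).
PROOF. By symmetry bound `Φ Y - Φ Y'`. Hahn-Banach (`exists_extension_of_le_sublinear` or `Seminorm` version): a linear functional `w` with `w y ≤ Φ y` for all
`y`, `w Y = Φ Y`; `w y = ∑ w_i y_i`. `∑ |w_i| = w (sign w) ≤ Φ (sign w) ≤ 1 + η ≤ 2`. `∑ |w_i| (1 - |Y_i|) ≤ ∑ |w_i| - w Y ≤ 1 + η - Φ Y ≤ (1 + C) η`.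
`Φ Y - Φ Y' ≤ w (Y - Y') ≤ ∑ |w_i| |Y_i - Y'_i| ≤ A (2 η + (1 + C) η) + B ∑ |w_i| sqrt (1 - |Y_i|) + 2 D` and by Cauchy-Schwarz
`∑ |w_i| sqrt (1 - |Y_i|) ≤ sqrt (2 (1 + C) η) ≤ (2 + C) sqrt η`. -/
def StNL : Prop := ∀ (ι : Type) [Fintype ι] (η C A B D : ℝ), 0 < η → η ≤ 1 → 0 ≤ C → 0 ≤ A → 0 ≤ B → 0 ≤ D →
  ∀ Φ : Seminorm ℝ (ι → ℝ), NearMax η Φ → ∀ Y Y' : ι → ℝ, (∀ i, |Y i| ≤ 1) → (∀ i, |Y' i| ≤ 1) →
  1 - C * η ≤ Φ Y → 1 - C * η ≤ Φ Y' →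
  (∀ i, |Y i - Y' i| ≤ A * (η + (1 - |Y i|)) + B * Real.sqrt (1 - |Y i|) + D) →
  (∀ i, |Y i - Y' i| ≤ A * (η + (1 - |Y' i|)) + B * Real.sqrt (1 - |Y' i|) + D) →
  |Φ Y - Φ Y'| ≤ (3 + C) * (A * η + B * Real.sqrt η + D)

/-- MODULE MO (about 150-220 lines; uses NL).
PROOF. No unit vectors: trivial. `F x = Φ (i ↦ a i * ⟪v i, x⟫)`; for unit `x`: `1 - C0 η ≤ F x ≤ 1 + η` (entries `≤ 1` in absolute value), `F (-x) = F x`.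
`G x = inf over unit y of (F y + C1 K ‖x - y‖)`: `G ≤ F`, `G ≥ F - C1 ε ≥ 1 - C0 η - C1 η ≥ 1/2`, `|G x - G y| ≤ C1 K ‖x - y‖`, `G (-x) = G x`, `G ≤ 1 + η`.
`ρ = 1 / G` on unit vectors: `1/(1+η) ≤ ρ ≤ R := 1 / (1 - (C0 + C1) η) ≤ 2`, `|ρ x - ρ y| ≤ 4 C1 K ‖x - y‖`, `ρ (-x) = ρ x`.
`T x i = ρ (v i) * a i * ⟪v i, x⟫`. Fix a unit `x`. `Y i = ρ x * a i * ⟪v i, x⟫ / R`, `Y' i = ρ (v i) * a i * ⟪v i, x⟫ / R`, entries `≤ |⟪v i, x⟫| ≤ 1`.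
`Φ Y = ρ x F x / R ≥ 1 - C η`; `Φ Y' ≥` sup norm `≥ (1/(1+η)) * (F x / (1 + η)) / R ≥ 1 - C η` (`F x ≤ (1 + η) max |a_i ⟪v i, x⟫|`).
`|Y i - Y' i| ≤ |ρ x - ρ (v i)| |⟪v i, x⟫| ≤ 4 C1 K min (‖x - v i‖, ‖x + v i‖) = 4 C1 K sqrt (2 (1 - |⟪v i, x⟫|)) ≤ 6 C1 K sqrt (1 - |Y i|)` and the same with
`Y'`. `StNL` with `A = D = 0`: `|Φ (T x) - ρ x F x| ≤ C K sqrt η`. Finally `|ρ x F x - 1| = (F x - G x)/G x ≤ 2 C1 ε`. -/
def StMO : Prop := ∀ C0 C1 : ℝ, 0 ≤ C0 → 0 ≤ C1 → ∃ C2 : ℝ, 0 < C2 ∧ ∀ (k : ℕ) (ε η K : ℝ), 0 < ε → ε ≤ η →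
  0 < η → C0 * η ≤ 1 / 4 → C1 * η ≤ 1 / 4 → η ≤ 1 → 0 ≤ K →
  ∀ (ι : Type) [Fintype ι] (Φ : Seminorm ℝ (ι → ℝ)), NearMax η Φ → ∀ (a : ι → ℝ) (v : ι → Eu k),
  (∀ i, |a i| ≤ 1) → (∀ i, ‖v i‖ = 1) →
  (∀ x : Eu k, ‖x‖ = 1 → 1 - C0 * η ≤ Φ (fun i => a i * ⟪v i, x⟫)) →
  (∀ x y : Eu k, ‖x‖ = 1 → ‖y‖ = 1 →
    |Φ (fun i => a i * ⟪v i, x⟫) - Φ (fun i => a i * ⟪v i, y⟫)| ≤ C1 * (ε + K * ‖x - y‖)) →
  ∃ T : Eu k →ₗ[ℝ] (ι → ℝ), ∀ x : Eu k, ‖x‖ = 1 → |Φ (T x) - 1| ≤ C2 * (ε + K * Real.sqrt η)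

/-- The properties of the homomorphism to the torus `ℝ ^ ι` modulo `16`, with density `δ`. -/
def Tor {P : ℕ} {ι : Type} (δ : ℝ) (π : ZMod P → ι → ℝ) : Prop :=
  (∀ i, π 0 i = 0) ∧ (∀ n i, |π n i| ≤ 8) ∧ (∀ n n' i, |π n i| + |π n' i| < 8 → π (n + n') i = π n i + π n' i) ∧
    (∀ n i, |π n i| < 8 → π (-n) i = -π n i) ∧ ∀ θ : ι → ℝ, (∀ i, |θ i| ≤ 7) → ∃ n, ∀ i, |π n i - θ i| ≤ δ

/-- MODULE TO (about 120-180 lines).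
PROOF. `D = card ι`, `e : ι ≃ Fin D`, `Q = ⌈64 / δ⌉₊ ≥ 2`, `P` prime with `Q ^ D < P ≤ 2 Q ^ D` (`Nat.exists_prime_lt_and_le_two_mul`; if `D = 0` take `P = 2`).
`π n i` = the representative of `16 * n.val * Q ^ (e i) / P` modulo `16` in `[-8, 8)` (`toIcoMod`). Additivity modulo `16` since `P * (16 Q^a / P)` is a
multiple of `16`; no wrap if `|π n i| + |π n' i| < 8`. Density: `x_a ∈ [0, 1)` the fractional part of `θ / 16` for the coordinate `a = e i`,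
`d_a = ⌊Q x_a⌋`, `β = ∑_a d_a Q^(-(a+1))` over `a : Fin D`; the fractional part of `β Q^a` is in `[d_a / Q, (d_a + 1)/Q)`. `n = ⌊β P⌋`:
`n Q^a / P ∈ (β Q^a - Q^a / P, β Q^a]`, `Q^a / P < 1 / Q`. So `n Q^a / P` is within `2 / Q` of `x_a` modulo `1`, and `16 n Q^a / P` within `32 / Q ≤ δ / 2` of `θ`
modulo `16`; `|θ| + δ/2 < 8` so the representative is within `δ`. `P ≤ 2 Q^D ≤ (C / δ)^(D + 1)` with `C = 130`. -/
def StTO : Prop := ∀ (ι : Type) [Fintype ι], ∃ C : ℝ, 0 < C ∧ ∀ δ : ℝ, 0 < δ → δ ≤ 1 →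
  ∃ P : ℕ, P.Prime ∧ (P : ℝ) ≤ (C / δ) ^ (Fintype.card ι + 1) ∧ ∃ π : ZMod P → ι → ℝ, Tor δ π

/-- The cut-off functions. -/
def Cut (η : ℝ) (χ : ℝ → ℝ) : Prop :=
  (∀ t, 0 ≤ χ t ∧ χ t ≤ 1) ∧ (∀ t, t ≤ 3 / 2 → χ t = 1) ∧ (∀ t, 2 ≤ t → χ t = 0) ∧
    ∀ t t', 2 * Real.log (1 + 1 / η) * |t - t'| ≤ 1 →
      |χ t - χ t'| ≤ 2 * (2 * Real.log (1 + 1 / η)) * |t - t'| * (η + (1 - χ t))

/-- MODULE CU (about 60-100 lines).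
PROOF. `Λ = 2 log (1 + 1/η)`, `u t = min (1 + η) (max η (η * exp (Λ (t - 3/2))))`, `χ t = 1 + η - u t`. `η exp (Λ / 2) = 1 + η`. `log u` is `Λ`-Lipschitz:
`u t' ≤ u t * exp (Λ |t - t'|)` and `u t' ≥ u t * exp (-Λ |t - t'|)`. So `|u t - u t'| ≤ u t (exp (Λ |t - t'|) - 1) ≤ 2 Λ |t - t'| u t` as `exp s - 1 ≤ 2 s` on
`[0, 1]`. -/
def StCU : Prop := ∀ η : ℝ, 0 < η → η ≤ 1 → ∃ χ : ℝ → ℝ, Cut η χ

/-- MODULE CH1 (about 80-120 lines). Charts: unit vectors; every unit vector is in a chart with `‖z‖ ≤ 1`; Lipschitz.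
PROOF. `‖ev s z‖ ≥ 1`. Cover: `s` with `|x s|` maximal (`> 0`), `z i = x (s.succAbove i) / x s`; `x = x s • ev s z`. Lipschitz:
`‖u/‖u‖ - v/‖v‖‖ ≤ 2 ‖u - v‖ / ‖u‖`, `‖ev s z - ev s ξ‖ ≤ sqrt d ‖z - ξ‖`; `C = 2 sqrt d + 1` (or `2 d + 1`). -/
def StCH1 : Prop := (∀ (d : ℕ) (s : Fin (d + 1)) (z : Fin d → ℝ), ‖Ec s z‖ = 1) ∧
  (∀ (d : ℕ) (x : Eu (d + 1)), ‖x‖ = 1 → ∃ (s : Fin (d + 1)) (z : Fin d → ℝ), ‖z‖ ≤ 1 ∧ (x = Ec s z ∨ x = -Ec s z)) ∧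
  ∀ d : ℕ, ∃ C : ℝ, 0 < C ∧ ∀ (s : Fin (d + 1)) (z ξ : Fin d → ℝ), ‖Ec s z - Ec s ξ‖ ≤ C * ‖z - ξ‖

/-- MODULE CH2 (about 60-100 lines).
PROOF. `t = ⟪Ec s z, Ec s ξ⟫ = (1 + z·ξ) / sqrt ((1 + |z|²) (1 + |ξ|²))` (Euclidean `|·|`). `(1 - t²) (1 + |z|²) (1 + |ξ|²) = |z - ξ|² + |z|² |ξ|² - (z·ξ)² ≥ |z - ξ|²`
(Lagrange / Cauchy-Schwarz), `1 + |z|² ≤ 1 + 64 d`, `1 - |t| ≥ (1 - t²)/2`. `C = 2 (1 + 64 d)²`. -/
def StCH2 : Prop := ∀ d : ℕ, ∃ C : ℝ, 0 < C ∧ ∀ (s : Fin (d + 1)) (z ξ : Fin d → ℝ), ‖z‖ ≤ 8 → ‖ξ‖ ≤ 8 →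
  ‖z - ξ‖ ^ 2 ≤ C * (1 - |⟪Ec s z, Ec s ξ⟫|)

/-- MODULE CH3 (about 80-140 lines).
PROOF. `Ec s` is smooth on `Fin d → ℝ` (`ContDiff`, norm of a nonvanishing smooth function); its derivative is Lipschitz with a constant `C` on the ball of radius
`16` (`ContDiff` of order 2, compact convex set, finitely many `s`), so the map `z ↦ Ec s (z + g) - Ec s z` has derivative of norm `≤ C ‖g‖` on the ball of
radius `8`, and is `C ‖g‖`-Lipschitz there (`Convex.norm_image_sub_le_of_norm_fderiv_le` or so). Alternative without calculus: write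
`Ec s z = φ z • ev s z`, `φ z = (1 + |z|²)^(-1/2)`, second differences of products. -/
def StCH3 : Prop := ∀ d : ℕ, ∃ C : ℝ, 0 < C ∧ ∀ (s : Fin (d + 1)) (z ξ g : Fin d → ℝ), ‖z‖ ≤ 8 → ‖ξ‖ ≤ 8 → ‖g‖ ≤ 8 →
  ‖Ec s (z + g) - Ec s (ξ + g) - Ec s z + Ec s ξ‖ ≤ C * ‖g‖ * ‖z - ξ‖

/-- MODULE CH4 (about 100-160 lines).
PROOF. First: if `x s ≠ 0` then `x = ± Ec s ξ` with `ξ = x' / x s` (`x' i = x (s.succAbove i)`), so the hypothesis says: `x s = 0` or some `|x' i| > 3 |x s|`; in both cases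
some `i` has `|x' i| ≥ 3 |x s|` (`d ≥ 1`; for `d = 0` the hypothesis is contradictory). Let `E = Ec s z`: `|E' i| ≤ (5/2) E_s`, `E_s = 1/‖ev s z‖ ≥ 1/(1 + 3 d) =: e0`.
Let `ω = ±1` be the sign of `⟪E, x⟫`; `‖x - ω E‖² = 2 - 2 |⟪E, x⟫|`. If `‖x - ω E‖ = r`: `3 |x s| ≤ |x' i| ≤ (5/2) E_s + r ≤ (5/2)(|x s| + r) + r`, so `|x s| ≤ 7 r`,
`E_s ≤ 8 r`, so `r ≥ e0 / 8`: `c = e0² / 128`. Or compactness.
Second (Ec_near): `E = Ec s ξ`, `E_s ≥ 1 / (1 + 4 d) = e1`; `r = ‖E - y‖ ≤ c`: `y_s ≥ e1 - r ≥ e1 / 2 > 0`, `ξ' = y' / y_s`, `y = Ec s ξ'` (unit, positive multiple of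
`ev s ξ'`), `|ξ'_i - ξ_i| = |y'_i / y_s - E'_i / E_s| ≤ (r + |ξ_i| r)/y_s ≤ 8 r / e1`, `‖ξ'‖ ≤ 3 + 8 c / e1 ≤ 4`. -/
def StCH4 : Prop := (∀ d : ℕ, ∃ c : ℝ, 0 < c ∧ ∀ (s : Fin (d + 1)) (x : Eu (d + 1)), ‖x‖ = 1 →
    (∀ ξ : Fin d → ℝ, ‖ξ‖ ≤ 3 → x ≠ Ec s ξ ∧ x ≠ -Ec s ξ) → ∀ z : Fin d → ℝ, ‖z‖ ≤ 5 / 2 → |⟪Ec s z, x⟫| ≤ 1 - c) ∧
  ∀ d : ℕ, ∃ c C : ℝ, 0 < c ∧ 0 < C ∧ ∀ (s : Fin (d + 1)) (ξ : Fin d → ℝ) (y : Eu (d + 1)), ‖ξ‖ ≤ 3 →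
    ‖y‖ = 1 → ‖Ec s ξ - y‖ ≤ c → ∃ ξ' : Fin d → ℝ, ‖ξ'‖ ≤ 4 ∧ y = Ec s ξ' ∧ ‖ξ - ξ'‖ ≤ C * ‖Ec s ξ - y‖

/-- MODULE EN (entry lemma, about 200-300 lines; uses CH1, CH2, CH3, CH4).
PROOF. For each `s`: near case: `x = ω Ec s ξ`, `‖ξ‖ ≤ 3`, `ω = ±1`; by `StCH4` (second part for `ω y`) `y = ω Ec s ξ'`, `‖ξ'‖ ≤ 4`, `u s = ξ - ξ'`,
`‖u s‖ ≤ C ‖x - y‖ ≤ 1/8`. Far case: `u s = 0`. Let `z, z'` with `‖z' - z - u s‖ ≤ δ`, `Y = a χ(‖z‖) ⟪Ec s z, y⟫`, `Y' = a χ(‖z'‖) ⟪Ec s z', x⟫`. If `‖z‖ ≥ 2` and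
`‖z'‖ ≥ 2` then `Y = Y' = 0` and the right sides are `≥ 0` (`|Y|, |Y'| ≤ 1`). Else both norms are `≤ 5/2`. `|Y - Y'| ≤ |χ(‖z‖) - χ(‖z'‖)| + |⟪Ec s z, y⟫ - ⟪Ec s z', x⟫|` times
`a χ`..: use `|A B - A' B'| ≤ |A - A'| |B'| + A |B - B'|` for the first bound, `≤ |A - A'| |B| + A' |B - B'|` for the second. The `χ` part:
`|‖z‖ - ‖z'‖| ≤ ‖u s‖ + δ`, `Λ (‖u s‖ + δ) ≤ 1` for `c` small, so `≤ 2 Λ (C ‖x-y‖ + δ) (η + (1 - χ ‖z‖))` and `1 - χ ‖z‖ ≤ 1 - |Y|`; same with `z'` (the hypothesis on `χ` is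
symmetric in `t, t'` up to the last factor). Near: `2 (⟪E z', E ξ⟫ - ⟪E z, E ξ'⟫) = ‖E z - E ξ'‖² - ‖E z' - E ξ‖² = ⟪(E z - E ξ') - (E z' - E ξ), (E z - E ξ') + (E z' - E ξ)⟫`.
First bound, `w = ‖z - ξ'‖`: `‖(E z' - E ξ) - (E z - E ξ')‖ ≤ C ‖u s‖ w + C δ` (`StCH3` for `z + u, ξ' + u = ξ`, and `StCH1` for `z' = z + u + O(δ)`), and
`‖E z - E ξ'‖ + ‖E z' - E ξ‖ ≤ C w + C δ`. Product `≤ C (‖u s‖ w² + δ w + δ²)` (as `‖u s‖, δ ≤ 1`), `w² ≤ C (1 - |⟪E z, E ξ'⟫|) ≤ C (1 - |Y|)` by `StCH2`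
(`|⟪E z, E ξ'⟫| = |⟪E z, y⟫| ≥ |Y|`). Second bound: the same with `(z', ξ, -u)`, `w' = ‖z' - ξ‖`. Far: `1 - |⟪E z, x⟫| ≥ c0` for `‖z‖ ≤ 5/2`, so
`1 - |⟪E z, y⟫| ≥ c0 - ‖x - y‖ ≥ c0/2`, and the same for `z'`; `|⟪E z, y⟫ - ⟪E z', x⟫| ≤ C δ + ‖x - y‖ ≤ (C δ + ‖x - y‖) (2/c0) (1 - |Y|)`, same with `Y'`. -/
def StEN : Prop := ∀ d : ℕ, ∃ c C : ℝ, 0 < c ∧ 0 < C ∧ ∀ (Λ η δ : ℝ) (χ : ℝ → ℝ), 1 ≤ Λ → 0 < η → η ≤ 1 → 0 < δ →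
  (∀ t, 0 ≤ χ t ∧ χ t ≤ 1) → (∀ t, 2 ≤ t → χ t = 0) →
  (∀ t t', Λ * |t - t'| ≤ 1 → |χ t - χ t'| ≤ 2 * Λ * |t - t'| * (η + (1 - χ t))) →
  ∀ x y : Eu (d + 1), ‖x‖ = 1 → ‖y‖ = 1 → Λ * (‖x - y‖ + δ) ≤ c →
  ∃ u : Fin (d + 1) → Fin d → ℝ, (∀ s, ‖u s‖ ≤ 1 / 8) ∧
    ∀ (s : Fin (d + 1)) (z z' : Fin d → ℝ), ‖z' - z - u s‖ ≤ δ → ∀ a : ℝ, 0 ≤ a → a ≤ 1 →
      |a * (χ ‖z‖ * ⟪Ec s z, y⟫) - a * (χ ‖z'‖ * ⟪Ec s z', x⟫)| ≤
        C * (Λ * (‖x - y‖ + δ)) * (η + (1 - |a * (χ ‖z‖ * ⟪Ec s z, y⟫)|)) +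
          C * δ * Real.sqrt (1 - |a * (χ ‖z‖ * ⟪Ec s z, y⟫)|) + C * δ ^ 2 ∧
      |a * (χ ‖z‖ * ⟪Ec s z, y⟫) - a * (χ ‖z'‖ * ⟪Ec s z', x⟫)| ≤
        C * (Λ * (‖x - y‖ + δ)) * (η + (1 - |a * (χ ‖z'‖ * ⟪Ec s z', x⟫)|)) +
          C * δ * Real.sqrt (1 - |a * (χ ‖z'‖ * ⟪Ec s z', x⟫)|) + C * δ ^ 2

/-- MODULE NE (about 80-120 lines).
PROOF. `k = 0`: empty. Maximal `ρ`-separated subset of the unit sphere; the balls of radius `ρ/2` are disjoint inside the ball of radius `1 + ρ/2 ≤ 3/2`: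
card `≤ (3/ρ)^k` (volumes). Or a grid: points of the grid of mesh `ρ / (4 k)` in the cube `[-1, 1]^k`, normalised: card `≤ (2 ⌈4 k / ρ⌉ + 1)^k`. -/
def StNE : Prop := ∀ k : ℕ, ∃ C : ℝ, 0 < C ∧ ∀ ρ : ℝ, 0 < ρ → ρ ≤ 1 → ∃ X0 : Finset (Eu k), (∀ x ∈ X0, ‖x‖ = 1) ∧
  (X0.card : ℝ) ≤ (C / ρ) ^ k ∧ ∀ y : Eu k, ‖y‖ = 1 → ∃ x ∈ X0, ‖x - y‖ ≤ ρ

/-- The coordinates of the chart `s`. -/
def pr {P d : ℕ} (π : ZMod P → Fin (d + 1) × Fin d → ℝ) (s : Fin (d + 1)) (g : ZMod P) : Fin d → ℝ := fun i => π g (s, i)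

/-- The test function of the unit vector `x`. -/
noncomputable def tf {P d : ℕ} (π : ZMod P → Fin (d + 1) × Fin d → ℝ) (χ : ℝ → ℝ) (x : Eu (d + 1)) (s : Fin (d + 1))
    (g : ZMod P) : ℝ := χ ‖pr π s g‖ * ⟪Ec s (pr π s g), x⟫

/-- MODULE PC1 (about 80-120 lines; uses CH1).
PROOF. `C0` large (`≥ 64`); if `C0 η ≥ 1` trivial. So `sqrt η ≤ 1/8`. `x = ± Ec s ξ`, `‖ξ‖ ≤ 1`. `g` with `|π g i - θ i| ≤ δ`, `θ (s, ·) = ξ`. `j` with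
`1/(1+η) ≤ a j s * max 0 (1 - ‖pr π s (n j - g)‖²)`: so `a j s ≥ 1 - η` and `‖pr π s (n j - g)‖² ≤ η`. No wrap: `pr π s (n j) = pr π s (n j - g) + pr π s g`, within
`sqrt η + δ ≤ 2 sqrt η` of `ξ`, norm `≤ 3/2`, so `χ = 1`, `|⟪Ec s z, x⟫| = 1 - ‖Ec s z - Ec s ξ‖²/2 ≥ 1 - 2 C² η`. `Φ ≥` sup norm `≥` the entry `(j, s)`. -/
def StPC1 : Prop := ∀ d : ℕ, ∃ C0 : ℝ, 0 < C0 ∧ ∀ η δ : ℝ, 0 < η → η ≤ 1 → 0 < δ → δ ≤ Real.sqrt η →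
  ∀ (P : ℕ) (π : ZMod P → Fin (d + 1) × Fin d → ℝ), Tor δ π → ∀ χ : ℝ → ℝ, Cut η χ →
  ∀ (N : ℕ) (Φ : Seminorm ℝ (Fin N × Fin (d + 1) → ℝ)), NearMax η Φ → ∀ (a : Fin N → Fin (d + 1) → ℝ) (n : Fin N → ZMod P),
  (∀ j s, 0 ≤ a j s ∧ a j s ≤ 1) → (∀ s g, ∃ j, 1 / (1 + η) ≤ a j s * max 0 (1 - ‖pr π s (n j - g)‖ ^ 2)) →
  ∀ x : Eu (d + 1), ‖x‖ = 1 → 1 - C0 * η ≤ Φ (fun c => a c.1 c.2 * tf π χ x c.2 (n c.1))

/-- MODULE PC2 (about 120-180 lines; uses NL, EN, CH1).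
PROOF. `F x = Φ (c ↦ a c.1 c.2 * tf π χ x c.2 (n c.1))`, `1 - C0 η ≤ F ≤ 1 + η` on unit vectors. `c, C` from `StEN d`, `Λ = 2 log (1 + 1/η) ≥ 1`. If `Λ (‖x - y‖ + δ) > c`:
`|F x - F y| ≤ (1 + C0) η ≤ ((1 + C0)/c) Λ η (‖x - y‖ + δ)`. Else (`c ≤ 1/2` wlog, so `δ ≤ 1/2`) `u` from `StEN`; `g` with `‖pr π s g - u s‖ ≤ δ` for all `s` (density).
`z = pr π s (n j)`, `z' = pr π s (n j + g)`. If `‖z‖ ≤ 7`: `z' = z + pr π s g` (no wrap), `‖z' - z - u s‖ ≤ δ`. If `‖z‖ > 7`: `χ ‖z‖ = 0`, and `χ ‖z'‖ = 0` because `‖z'‖ < 2` would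
give `z = z' + pr π s (-g) = z' - pr π s g`, norm `≤ 3`. So the entries `Y = a (χ ‖z‖ ⟪Ec s z, y⟫)` and `Y' = a (χ ‖z'‖ ⟪Ec s z', x⟫)` satisfy the hypotheses of `StNL` with
`A = C Λ (‖x - y‖ + δ)`, `B = C δ`, `D = C δ²`; `Φ Y = F y`, `Φ Y' = F x` by the invariance. -/
def StPC2 : Prop := ∀ (d : ℕ) (C0 : ℝ), 0 < C0 → ∃ C1 : ℝ, 0 < C1 ∧ ∀ η δ : ℝ, 0 < η → η ≤ 1 → 0 < δ → δ ≤ Real.sqrt η →
  ∀ (P : ℕ) (π : ZMod P → Fin (d + 1) × Fin d → ℝ), Tor δ π → ∀ χ : ℝ → ℝ, Cut η χ →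
  ∀ (N : ℕ) (Φ : Seminorm ℝ (Fin N × Fin (d + 1) → ℝ)), NearMax η Φ → ∀ (a : Fin N → Fin (d + 1) → ℝ) (n : Fin N → ZMod P),
  (∀ j s, 0 ≤ a j s ∧ a j s ≤ 1) →
  (∀ x : Eu (d + 1), ‖x‖ = 1 → 1 - C0 * η ≤ Φ (fun c => a c.1 c.2 * tf π χ x c.2 (n c.1))) →
  ∀ x y : Eu (d + 1), ‖x‖ = 1 → ‖y‖ = 1 →
  (∀ g, Φ (fun c => a c.1 c.2 * tf π χ x c.2 (n c.1 + g)) = Φ (fun c => a c.1 c.2 * tf π χ x c.2 (n c.1))) →
  |Φ (fun c => a c.1 c.2 * tf π χ x c.2 (n c.1)) - Φ (fun c => a c.1 c.2 * tf π χ y c.2 (n c.1))| ≤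
    C1 * (2 * Real.log (1 + 1 / η) * η * (‖x - y‖ + δ) + δ * Real.sqrt η + δ ^ 2)

/-- MODULE PC3 (about 150-220 lines; uses CF, TO, CU, NE, PC1, PC2, MO, CH1).
PROOF. `Λ = 2 log (1 + 1/η) ≥ 1`, `δ = ε / sqrt η ≤ sqrt η ≤ 1`, `ρ1 = ε / (Λ η) ≤ 1`. `P, π` from `StTO` (`ι = Fin (d+1) × Fin d`), `χ` from `StCU`, net `X0` from `StNE` for
`ρ1`, `q = card X0`, enumerate `X0`. `StCF` with `m = d + 1`, `h x s g = tf π χ x s g`, `β s g = max 0 (1 - ‖pr π s g‖²)`, when `(q + d + 1)(P - 1) + 1 ≤ N`: `q ≤ (C/ρ1)^(d+1)`,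
`1/ρ1 = Λ η / ε ≤ 1/ε` (`Λ η ≤ Λ sqrt η ≤ 1`), `P ≤ (C/δ)^(D+1)`, `1/δ ≤ 1/ε`: all `≤ (C/ε)^C`. `F` as in PC2. `StPC1`: `1 - C0 η ≤ F`. `StPC2` for `x ∈ X0`:
`|F x - F y| ≤ C1 (Λ η ‖x - y‖ + Λ η δ + δ sqrt η + δ²) ≤ C1 (3 ε + Λ η ‖x - y‖)` (`Λ η δ = Λ sqrt η ε ≤ ε`, `δ² = ε²/η ≤ ε`). For all unit `x, y`, with `x0 ∈ X0` near `x`:
`|F x - F y| ≤ C1 (6 ε + Λ η (2 ρ1 + ‖x - y‖)) ≤ 8 C1 (ε + Λ η ‖x - y‖)`. `StMO` with `K = Λ η`, labels `v c = Ec c.2 (pr π c.2 (n c.1))`, amplitudes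
`a c.1 c.2 * χ ‖..‖`; `c` small makes `C0 η, 8 C1 η ≤ 1/4`. -/
def StPC3 : Prop := ∀ d : ℕ, ∃ c C : ℝ, 0 < c ∧ 0 < C ∧ ∀ ε η : ℝ, 0 < ε → ε ≤ η → η ≤ c → η ≤ 1 →
  2 * Real.log (1 + 1 / η) * Real.sqrt η ≤ 1 → ∀ N : ℕ, (C / ε) ^ C ≤ N →
  ∀ Φ : Seminorm ℝ (Fin N × Fin (d + 1) → ℝ), NearMax η Φ →
  ∃ T : Eu (d + 1) →ₗ[ℝ] (Fin N × Fin (d + 1) → ℝ), ∀ x : Eu (d + 1), ‖x‖ = 1 →
    |Φ (T x) - 1| ≤ C * (ε + 2 * Real.log (1 + 1 / η) * η * Real.sqrt η)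

/-- MODULE PC4 (about 120-180 lines; uses PC3).
PROOF. `c1, C1` from `StPC3`. `η = c (ε / log (1/ε))^(2/3)`. For `ε ≤ c`, `c` small: `ε ≤ η ≤ c1, 1`, `log (1 + 1/η) ≤ C log (1/ε)` (e.g. `1/η ≤ ε⁻²`), so `2 log(1+1/η) sqrt η ≤ 1` and
`2 log (1 + 1/η) η sqrt η ≤ C log (1/ε) c^(3/2) ε / log (1/ε) ≤ C ε`. It is enough to have a smaller coefficient than the one used: `NearMax` is monotone in `η`, so one may
use a fixed coefficient `1` (i.e. `η1 = (ε / log (1/ε))^(2/3) ≥ η`). `N = L / (d + 1)`, an injection `Fin N × Fin (d+1) → Fin L`; `Φ'` = `Φ` of the extension by zero. -/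
def StCore : Prop := ∀ d : ℕ, ∃ c C : ℝ, 0 < c ∧ c ≤ 1 ∧ 0 < C ∧ ∀ ε : ℝ, 0 < ε → ε ≤ c → ∀ L : ℕ, (1 / ε) ^ C ≤ L →
  ∀ Φ : Seminorm ℝ (Fin L → ℝ), NearMax (c * (ε / Real.log (1 / ε)) ^ (2 / 3 : ℝ)) Φ →
  ∃ T : Eu (d + 1) →ₗ[ℝ] (Fin L → ℝ), ∀ x : Eu (d + 1), ‖x‖ = 1 → |Φ (T x) - 1| ≤ C * ε

/-! ### First stage -/

/-- MODULE DR1 (about 150-200 lines).
PROOF. Fix a linear equivalence `b : Eu n ≃ X`. On the finite-dimensional space of linear maps `u : Eu n → X` the set `‖u a‖ ≤ ‖a‖ for all a` is compact (closed, bounded); maximise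
`|det (b⁻¹ ∘ u)|`: maximum `> 0` (a small multiple of `b`), so `u` is an equivalence. For `v` with `‖v a‖ ≤ c ‖a‖` (`c ≥ 0` as `n > 0`) and `t ≥ 0`: `(u + t v)/(1 + t c)` is in the set, so
`|det (1 + t u⁻¹ v)| ≤ (1 + t c)^n`; derivative at `t = 0+`: `tr (u⁻¹ v) ≤ n c` (`det (1 + t A) = 1 + t tr A + O(t²)`, e.g. `Matrix.det_one_add_smul` / derivative of the
characteristic polynomial). -/
def StDR1 : Prop := ∀ (X : Type) [NormedAddCommGroup X] [NormedSpace ℝ X] [FiniteDimensional ℝ X] (n : ℕ),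
  Module.finrank ℝ X = n → 0 < n →
  ∃ u : Eu n ≃ₗ[ℝ] X, (∀ a, ‖u a‖ ≤ ‖a‖) ∧ ∀ (v : Eu n →ₗ[ℝ] X) (c : ℝ), (∀ a, ‖v a‖ ≤ c * ‖a‖) →
    LinearMap.trace ℝ (Eu n) (u.symm.toLinearMap ∘ₗ v) ≤ n * c

/-- MODULE DR2 (about 100-150 lines; uses DR1).
PROOF. `u` from DR1. For a subspace `F` of `Eu n` of dimension `f` let `v = u ∘ P_F` (orthogonal projection), trace `f`; if `‖u a‖ ≤ c ‖a‖` on `F` then `f ≤ n c`; so
(compactness of the unit sphere of `F`, or take `c = f/n - small` and a limit) some unit `a ∈ F` has `‖u a‖ ≥ f / n`. Choose successively orthonormal `a_1, a_2, ...`, `a_i` in the orthogonal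
complement of the previous ones (dimension `n - i + 1 ≥ n/2` for `i ≤ m = ⌊n/2⌋ + 1`... take `m = ⌈n/2⌉`), `x_i = u a_i`. `‖∑ c_i x_i‖ = ‖u (∑ c_i a_i)‖ ≤ sqrt (∑ c_i²)`. -/
def StDR2 : Prop := ∀ (X : Type) [NormedAddCommGroup X] [NormedSpace ℝ X] [FiniteDimensional ℝ X] (n : ℕ),
  Module.finrank ℝ X = n → 0 < n → ∃ m : ℕ, n ≤ 2 * m ∧ ∃ x : Fin m → X, Weak2 x ∧ ∀ i, 1 / 2 ≤ ‖x i‖

/-- MODULE ES (Efron-Stein, about 150-220 lines).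
PROOF. Induction on `m` or the telescoping proof: `Var f ≤ ∑ i, E (Var_i f)`, `Var_i f = (1/2) E_{ω'} (f ω - f (update ω i ω'))² ` and by symmetry `E (f ω - f (update ω i ω' i))² =
2 E (max 0 (f ω - f (update ω i ω' i)))²`. So `Var f ≤ ∫∫ ∑ i (max 0 (...))² ≤ V`. Induction on `m` (law of total variance): `Var f = E Var(f | ω_0) + Var (E(f | ω_0))`, the second term is
`≤ E_{rest} Var_0 f` by Jensen. (Search Mathlib for `variance` and the repository for an existing tensorisation of the variance.) -/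
def StES : Prop := ∀ (Ω : Type) [MeasurableSpace Ω] (μ : Measure Ω) [IsProbabilityMeasure μ] (m : ℕ)
  (f : (Fin m → Ω) → ℝ), Measurable f → ∀ B : ℝ, (∀ ω, |f ω| ≤ B) → ∀ V : ℝ,
  (∀ ω ω' : Fin m → Ω, ∑ i, (max 0 (f ω - f (Function.update ω i (ω' i)))) ^ 2 ≤ V) →
  ∫ ω, (f ω - ∫ ω', f ω' ∂(Measure.pi fun _ => μ)) ^ 2 ∂(Measure.pi fun _ => μ) ≤ V

/-- MODULE BM (about 80-120 lines): the uniform measure on the ball.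
PROOF. `0 < volume (ball 0 1) < ∞`. Isometries preserve the volume (`LinearIsometryEquiv.measurePreserving`) and the ball. Last: the integral does not depend on the unit vector `e` (rotation: any unit
vector is mapped to any other by a linear isometry) and is positive (continuous function, positive on an open set); or a direct bound. -/
def StBM : Prop := (∀ k : ℕ, IsProbabilityMeasure (ballM k)) ∧
  (∀ (k : ℕ) (R : Eu k ≃ₗᵢ[ℝ] Eu k), MeasurePreserving R (ballM k) (ballM k)) ∧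
  (∀ k : ℕ, ∀ᵐ v ∂(ballM k), ‖v‖ ≤ 1) ∧
  (∀ (k : ℕ) (e e' : Eu k), ‖e‖ = 1 → ‖e'‖ = 1 → ∃ R : Eu k ≃ₗᵢ[ℝ] Eu k, R e = e') ∧
  ∀ k : ℕ, ∃ c : ℝ, 0 < c ∧ ∀ e : Eu k, ‖e‖ = 1 → c ≤ ∫ v, |⟪v, e⟫| ∂(ballM k)

/-- MODULE RE (random labels, about 200-300 lines; uses ES, BM, NE).
PROOF. `μ = ballM k`, `f_z (v) = ‖∑ i, ⟪v i, z⟫ • x i‖`, `A = E f_e`; `E f_z = A` for all unit `z` (rotation of all labels, `measurePreserving_pi`). Suppose `A > C (1/ε)^(k+2)`. For unit `z` let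
`φ(v) = max (-1) (min 1 ⟪v, z⟫)`, `F(v) = ‖∑ i, φ(v i) • x i‖` (equal to `f_z` almost everywhere): `F(v) - F(update v i v'_i) ≤ |x*(x i)| |φ(v_i) - φ(v'_i)| ≤ 2 |x*(x i)|` with
`x*` a norming functional of `∑ φ(v i) x i` (Hahn-Banach, `‖x*‖ ≤ 1`), and `∑ x*(x i)² ≤ 1` because `Weak2` (test with `a i = x*(x i)`: `∑ a_i² = x*(∑ a_i x_i) ≤ sqrt (∑ a_i²)`). So
`V = 4` in `StES`: `Var ≤ 4`; `F ≤ m` bounded. Chebyshev: `P(|f_z - A| > (ε/8) A) ≤ 4 * 64 / (ε² A²)`. Net `X0` with `ρ = ε/8`, card `≤ (8 C'/ε)^k`: the sum of the probabilities is `< 1` if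
`C` is large (`A² ≥ C² ε^(-2k-4)`). So there are labels `v` with `|‖T z‖ - A| ≤ (ε/8) A` on the net, `T z = ∑ ⟪v i, z⟫ • x i`. Standard: `M = sup ‖T z‖` over unit `z` satisfies
`M ≤ (1 + ε/8) A + (ε/8) M`, so `M ≤ (1 + ε/3) A`, and `‖T z‖ ≥ (1 - ε/8) A - (ε/8) M ≥ (1 - ε/3) A`. Rescale: ratio `(1 + ε/3)/(1 - ε/3) ≤ 1 + ε` for `ε ≤ 1/2`. -/
def StRE : Prop := ∀ k : ℕ, 1 ≤ k → ∃ C : ℝ, 0 < C ∧ ∀ ε : ℝ, 0 < ε → ε ≤ 1 / 2 →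
  ∀ (X : Type) [NormedAddCommGroup X] [NormedSpace ℝ X] (m : ℕ) (x : Fin m → X), Weak2 x → HasEu k ε X ∨
    ∀ e : Eu k, ‖e‖ = 1 →
      ∫ v : Fin m → Eu k, ‖∑ i, ⟪v i, e⟫ • x i‖ ∂(Measure.pi fun _ => ballM k) ≤ C * (1 / ε) ^ (k + 2)

/-- MODULE RC (about 100-150 lines; uses BM).
PROOF. `μ = ballM k` is symmetric (`v ↦ -v` is an isometry), so for every sign vector `s` the integral equals `∫ ‖∑ sg (s i) ⟪v i, e⟫ x i‖`, hence equals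
`∫ (2^(-m) ∑_s ‖∑ sg (s i) ⟪v i, e⟫ x i‖)`; for fixed `v` the average over `s` is unchanged if `⟪v i, e⟫` is replaced by `|⟪v i, e⟫|`. Then exchange, and for each `s`:
`∫ ‖∑ sg (s i) |⟪v i, e⟫| x i‖ ≥ ‖∑ sg (s i) (∫ |⟪v, e⟫|) x i‖ = c_e ‖∑ sg (s i) x i‖` (`norm_integral_le_integral_norm`; the span of the `x i` is finite-dimensional, or use a
norming functional of `∑ sg (s i) x i` to avoid completeness). `C = 1/c`. -/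
def StRC : Prop := ∀ k : ℕ, 1 ≤ k → ∃ C : ℝ, 0 < C ∧ ∀ (X : Type) [NormedAddCommGroup X] [NormedSpace ℝ X] (m : ℕ)
  (x : Fin m → X) (e : Eu k), ‖e‖ = 1 →
    radAvg x ≤ C * ∫ v : Fin m → Eu k, ‖∑ i, ⟪v i, e⟫ • x i‖ ∂(Measure.pi fun _ => ballM k)

/-- MODULE CP (contraction principle, about 80-120 lines).
PROOF. Replace the absolute values one coordinate at a time (mixed family: `|t i j|` for `j` in a set `A`, `t i j` otherwise; induction on `A`). For one coordinate `j`, pair `s` with the sign vector that differs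
at `j`: for any functions `u, v : I → ℝ` bounded: `sup_i (u i + |v i|) + sup_i (u i - |v i|) ≤ sup_i (u i + v i) + sup_i (u i - v i)`: for `i, i'`: `u i + |v i| + u i' - |v i'| ≤ u i + u i' + |v i - v i'|`, and
`|v i - v i'|` is `v i - v i'` or `v i' - v i`. -/
def StCP : Prop := ∀ (b : ℕ) (I : Type) [Nonempty I] (t : I → Fin b → ℝ) (B : ℝ), (∀ i j, |t i j| ≤ B) →
  ∑ s : Fin b → Bool, (⨆ i, ∑ j, sg (s j) * |t i j|) ≤ ∑ s : Fin b → Bool, (⨆ i, ∑ j, sg (s j) * t i j)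

/-- MODULE AM (Alon-Milman, about 200-300 lines; uses CP).
PROOF. Index `Fin b × Fin b ↪ Fin m` (`b² ≤ m`); `y (j, r)` the vectors. For `κ : Fin b → Fin b` (`b^b` of them) `K(κ) = sup over functionals x*, ‖x*‖ ≤ 1, of ∑_j |x*(y (j, κ j))|`
`= max_{|a| ≤ 1} ‖∑ a_j y (j, κ j)‖`. Let `t i (j, r) = x*_i (y (j, r))`, `i` in the unit ball `I` of the dual (nonempty, bounded). Average over `κ` (and an independent `κ'`):
`E K(κ) ≤ sup_i ∑_j avg_r |t i (j, r)| + E_{κ, κ'} sup_i ∑_j (|t i (j, κ j)| - |t i (j, κ' j)|)`. First term: `(1/b) ∑_{(j, r)} |t i (j, r)| ≤ (1/b) * b * sqrt (∑ t²) ≤ 1` (`Weak2` gives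
`∑ x*(x i)² ≤ 1`). Second: exchanging `κ j, κ' j` for `j` in a set (sign vector `s`) does not change the average, so it is `E_{κ,κ',s} sup_i ∑_j sg (s j) (|t i (j, κ j)| - |t i (j, κ' j)|) ≤
2 E_{κ, s} sup_i ∑_j sg (s j) |t i (j, κ j)| ≤ 2 E_{κ, s} sup_i ∑_j sg (s j) t i (j, κ j)` (`StCP`) `= 2 E ‖∑ sg (s j) y (j, κ j)‖ ≤ 2 radAvg x ≤ 2 K` (a partial sum: average over the other signs,
triangle inequality). So some `κ` has `K(κ) ≤ 1 + 2 K`; `ι j = (j, κ j)`. `b = 0` trivial (`radAvg ≥ 0`). -/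
def StAM : Prop := ∀ (X : Type) [NormedAddCommGroup X] [NormedSpace ℝ X] (m b : ℕ), b ^ 2 ≤ m → ∀ x : Fin m → X, Weak2 x →
  ∀ K : ℝ, radAvg x ≤ K →
  ∃ ι : Fin b → Fin m, Function.Injective ι ∧ ∀ a : Fin b → ℝ, (∀ j, |a j| ≤ 1) → ‖∑ j, a j • x (ι j)‖ ≤ 1 + 2 * K

/-- MODULE LS (about 120-180 lines).
PROOF. `x*_i` with `‖x*_i‖ ≤ 1`, `x*_i (x i) = ‖x i‖ ≥ 1/2`; `w i j = |x*_i (x j)|`, `∑_j w i j ≤ K` (signs). `Q = ⌈8 K⌉₊ ≤ 9 K`. Average over the colourings `κ : Fin b → Fin Q`: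
`∑_i ∑_{j ≠ i, κ j = κ i} w i j` has average `≤ b K / Q ≤ b/8`, so some `κ` has it `≤ b/8`; at most `b/2` indices `i` have inner sum `> 1/4`; among the `≥ b/2` others some colour class has
`≥ b/(2Q) ≥ b/(18K) ≥ n` elements; take `n` of them. For `a` and `i` with `|a i|` maximal: `‖∑‖ ≥ |x*_i (∑)| ≥ |a i|/2 - |a i|/4`. -/
def StLS : Prop := ∀ (X : Type) [NormedAddCommGroup X] [NormedSpace ℝ X] (b n : ℕ) (x : Fin b → X), (∀ i, 1 / 2 ≤ ‖x i‖) →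
  ∀ K : ℝ, 1 ≤ K → (∀ a : Fin b → ℝ, (∀ j, |a j| ≤ 1) → ‖∑ j, a j • x j‖ ≤ K) → (n : ℝ) * (18 * K) ≤ b →
  ∃ ι : Fin n → Fin b, Function.Injective ι ∧ ∀ (a : Fin n → ℝ) (j : Fin n), |a j| / 4 ≤ ‖∑ i, a i • x (ι i)‖

/-- MODULE JA (James blocking, about 150-220 lines).
PROOF. For a Finset `S` of indices `K(S) = sup over a with |a j| ≤ 1 of ‖∑_{j ∈ S} a j • x j‖` (attained: compact cube), monotone in `S`, `1/4 ≤ K(S) ≤ K` for `S` nonempty. Claim: there are `r ≤ t`, a set `S` of size `L^(r+1)` with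
`K(S)` and a partition in `L` parts of size `L^r`, all with `K(part) ≥ K(S)/(1+η)`. Otherwise, starting with all indices, one finds `S_0 ⊃ S_1 ⊃ ...`, `card S_i = L^(t+1-i)`, `K(S_{i+1}) < K(S_i)/(1+η)`, up to
`i = t + 1`: `1/4 ≤ K(S_{t+1}) < K/(1+η)^(t+1)`, contradiction with `4 K < (1+η)^t`. Let `u_l = ∑_{part l} a j • x j` attain `K(part l)`, divide all by `K(S)`: `S c = ∑ c_l u_l`.
Upper: coefficients `|c_l a j| ≤ ‖c‖`. Lower: let `‖c‖ = |c_1|` (scale to `1`), `w = ∑_{l ≠ 1} c_l u_l`: `2 ‖u_1‖ = ‖(c_1 u_1 + w) + (c_1 u_1 - w)‖ ≤ ‖S c‖ + 1`, `‖u_1‖ ≥ 1/(1+η)`, so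
`‖S c‖ ≥ 2/(1+η) - 1 ≥ 1 - 2 η`. -/
def StJA : Prop := ∀ (X : Type) [NormedAddCommGroup X] [NormedSpace ℝ X] (L t : ℕ), 1 ≤ L → ∀ (x : Fin (L ^ (t + 1)) → X) (K η : ℝ),
  0 < η → η ≤ 1 / 4 → 4 * K < (1 + η) ^ t → (∀ a : Fin (L ^ (t + 1)) → ℝ, (∀ j, |a j| ≤ 1) → ‖∑ j, a j • x j‖ ≤ K) →
  (∀ (a : Fin (L ^ (t + 1)) → ℝ) (j : Fin (L ^ (t + 1))), |a j| / 4 ≤ ‖∑ i, a i • x i‖) →
  ∃ S : (Fin L → ℝ) →ₗ[ℝ] X, ∀ c : Fin L → ℝ, (1 - 2 * η) * ‖c‖ ≤ ‖S c‖ ∧ ‖S c‖ ≤ ‖c‖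

/-- MODULE FS (assembly of the first stage, about 150-220 lines; uses DR2, RE, RC, AM, LS, JA).
PROOF. `n = finrank`, `m ≥ n/2` vectors `x` from DR2. If not `HasEu`: `radAvg x ≤ C (1/ε)^(k+2) =: K0` (RE, RC; unit vector `e` exists as `k ≥ 1`). `b = ⌊sqrt m⌋`, AM: `b` of them with upper bound
`K = 1 + 2 K0` (K ≥ 1). `η' = η/8`, `t = ⌈log (4 K + 1) / log (1 + η')⌉₊` so `4 K < (1+η')^t`; LS with `n' = L^(t+1)` (needs `L^(t+1) * 18 K ≤ b`), then JA with `η'` on these `L^(t+1)` vectors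
(upper bound `K` is inherited by subsets). `S' = (1 - 2η')⁻¹ S`: `‖c‖ ≤ ‖S' c‖ ≤ ‖c‖/(1 - 2η') ≤ (1 + η) ‖c‖`. Sizes: `log (1 + η') ≥ η'/2 = η/16`, `t + 1 ≤ C log(1/ε)/η`, so
`L^(t+1) 18 K ≤ exp (C log (1/ε) log L / η)` and `b + 1 ≥ sqrt (n/2)`; all for `C` large since `log (1/ε), log L ≥ log 2`, `1/η ≥ 2`. -/
def StFS : Prop := ∀ k : ℕ, 1 ≤ k → ∃ C : ℝ, 0 < C ∧ ∀ ε η : ℝ, 0 < ε → ε ≤ 1 / 2 → 0 < η → η ≤ 1 / 2 →
  ∀ L : ℕ, 2 ≤ L → ∀ (X : Type) [NormedAddCommGroup X] [NormedSpace ℝ X] [FiniteDimensional ℝ X],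
  Real.exp (C * Real.log (1 / ε) * Real.log L / η) ≤ Module.finrank ℝ X →
  HasEu k ε X ∨ ∃ S : (Fin L → ℝ) →ₗ[ℝ] X, ∀ a : Fin L → ℝ, ‖a‖ ≤ ‖S a‖ ∧ ‖S a‖ ≤ (1 + η) * ‖a‖

/-- MODULE TD (about 120-180 lines; uses FS, Core).
PROOF. `k = d + 1`. `c1, C1` from `StCore d`, `C2` from `StFS k`. For small `ε0` (`ε0 ≤ c1`, and such that everything below is fine) and `ε ≤ ε0` put `ε' = ε/(4 C1 + 4)`, `η = c1 (ε'/log (1/ε'))^(2/3) ≤ 1/2`,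
`L = ⌈(1/ε')^C1⌉₊ + 2`. `C2 log (1/ε) log L / η ≤ C ε^(-2/3) log (1/ε)^(8/3) ≤ C ε^(-2/3) log (1/ε)^3` (`log (1/ε) ≥ 1`). So FS gives `HasEu k ε X` or `S`; in the second case `Φ a = ‖S a‖` (a seminorm) is
`NearMax η`, `T` from Core: `|‖S T x‖ - 1| ≤ C1 ε' ≤ ε/4` for unit `x`; `(1 - ε/4)⁻¹ • (S ∘ T)` has `‖z‖ ≤ .. ≤ (1 + ε/4)/(1 - ε/4) ‖z‖ ≤ (1 + ε) ‖z‖`. For `ε0 < ε ≤ 1/2` use the case `ε0`
(`HasEu` is monotone in `ε`), and enlarge `C` (`ε^(-2/3) log (1/ε)^3 ≥ (log 2)^3`). -/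
def StTD : Prop := ∀ k : ℕ, 2 ≤ k → ∃ C : ℝ, 0 < C ∧ ∀ ε : ℝ, 0 < ε → ε ≤ 1 / 2 →
  ∀ (X : Type) [NormedAddCommGroup X] [NormedSpace ℝ X] [FiniteDimensional ℝ X],
  Real.exp (C * ε ^ (-(2 / 3 : ℝ)) * Real.log (1 / ε) ^ 3) ≤ Module.finrank ℝ X → HasEu k ε X

/-! ### The final statement -/

/-- The Banach-Mazur distance. -/
noncomputable def bmDist (X Y : Type) [NormedAddCommGroup X] [NormedSpace ℝ X] [NormedAddCommGroup Y] [NormedSpace ℝ Y] : ℝ :=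
  sInf {r : ℝ | ∃ T : X ≃L[ℝ] Y, r = ‖(T : X →L[ℝ] Y)‖ * ‖(T.symm : Y →L[ℝ] X)‖}

/-- `X` has a `k`-dimensional subspace within Banach-Mazur distance `1 + ε` of `ℓ_2^k`. -/
def AlmostEuclidean (k : ℕ) (ε : ℝ) (X : Type) [NormedAddCommGroup X] [NormedSpace ℝ X] : Prop :=
  ∃ E : Submodule ℝ X, Module.finrank ℝ E = k ∧ bmDist E (Eu k) ≤ 1 + ε

/-- The number `N(k, ε)` of the problem. -/
noncomputable def NDv (k : ℕ) (ε : ℝ) : ℕ :=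
  sInf {n : ℕ | ∀ (X : Type) [NormedAddCommGroup X] [NormedSpace ℝ X] [FiniteDimensional ℝ X],
    Module.finrank ℝ X = n → AlmostEuclidean k ε X}

/-- MODULE FI (about 80-120 lines; uses TD).
PROOF. `HasEu k ε X` gives `T` injective (`‖z‖ ≤ ‖T z‖`), `E = range T`, `finrank = k`, the equivalence `E ≃ Eu k` has `‖T⁻¹‖ ≤ 1`, `‖T‖ ≤ 1 + ε`, so an element `≤ 1 + ε` of the set, bounded below by `0`:
`bmDist ≤ 1 + ε`. Second part: `n0 = ⌈exp (C ..)⌉₊` is in the set, `n0 ≤ exp (C ..) + 1 ≤ exp (C' ..)` for `C'` large (`ε^(-2/3) log (1/ε)^3 ≥ (log 2)^3`); use the same `C'` in the first part. -/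
def StFI : Prop := ∀ k : ℕ, 2 ≤ k → ∃ C : ℝ, 0 < C ∧ ∀ ε : ℝ, 0 < ε → ε ≤ 1 / 2 →
  (∀ n : ℕ, Real.exp (C * ε ^ (-(2 / 3 : ℝ)) * Real.log (1 / ε) ^ 3) ≤ n →
    ∀ (X : Type) [NormedAddCommGroup X] [NormedSpace ℝ X] [FiniteDimensional ℝ X],
      Module.finrank ℝ X = n → AlmostEuclidean k ε X) ∧
  (NDv k ε : ℝ) ≤ Real.exp (C * ε ^ (-(2 / 3 : ℝ)) * Real.log (1 / ε) ^ 3)

end DV
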