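import Pool.Agent.Helper53.DV.St

/-!
# DV project (MP_d684b1_an), module ES: the Efron-Stein inequality
-/

set_option autoImplicit false

open scoped BigOperators
open MeasureTheory

namespace DV

namespace ES

variable {Ω : Type} {m : ℕ}

/-- Exchange the coordinates in `A`. -/
def sw (A : Finset (Fin m)) (z : Fin m → Ω × Ω) : Fin m → Ω × Ω :=
  fun j => if j ∈ A then (z j).swap else z j

/-- Second coordinates on `A`, first coordinates off `A`. -/
def pt (A : Finset (Fin m)) (z : Fin m → Ω × Ω) : Fin m → Ω :=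
  fun j => if j ∈ A then (z j).2 else (z j).1

theorem pt_sw (A B C : Finset (Fin m)) (h : ∀ j, j ∈ C ↔ ¬ (j ∈ A ↔ j ∈ B)) (z : Fin m → Ω × Ω) :
    pt B (sw A z) = pt C z := by
  funext j
  simp only [pt, sw]
  by_cases hA : j ∈ A <;> by_cases hB : j ∈ B
  · have hC : j ∉ C := fun hc => (h j).1 hc (iff_of_true hA hB)
    simp [hA, hB, hC]
  · have hC : j ∈ C := (h j).2 fun hc => hB (hc.1 hA)
    simp [hA, hB, hC]
  · have hC : j ∈ C := (h j).2 fun hc => hA (hc.2 hB)
    simp [hA, hB, hC]
  · have hC : j ∉ C := fun hc => (h j).1 hc (iff_of_false hA hB)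
    simp [hA, hB, hC]

variable [MeasurableSpace Ω]

theorem pt_meas (A : Finset (Fin m)) : Measurable (pt A : (Fin m → Ω × Ω) → Fin m → Ω) := by
  refine measurable_pi_iff.2 fun j => ?_
  by_cases hj : j ∈ A
  · simp only [pt, hj, if_true]
    exact measurable_snd.comp (measurable_pi_apply j)
  · simp only [pt, hj, if_false]
    exact measurable_fst.comp (measurable_pi_apply j)

variable (μ : Measure Ω) [IsProbabilityMeasure μ]

theorem sw_mp (A : Finset (Fin m)) : MeasurePreserving (sw A : (Fin m → Ω × Ω) → Fin m → Ω × Ω)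
    (Measure.pi fun _ => μ.prod μ) (Measure.pi fun _ => μ.prod μ) := by
  refine measurePreserving_pi (fun _ : Fin m => μ.prod μ) (fun _ : Fin m => μ.prod μ)
    (f := fun j z => if j ∈ A then z.swap else z) (fun j => ?_)
  by_cases hj : j ∈ A
  · simp only [hj, if_true]
    exact Measure.measurePreserving_swap
  · simp only [hj, if_false]
    exact MeasurePreserving.id _

theorem int_sw (A : Finset (Fin m)) (G : (Fin m → Ω × Ω) → ℝ) (hG : Measurable G) :
    ∫ z, G (sw A z) ∂(Measure.pi fun _ => μ.prod μ) = ∫ z, G z ∂(Measure.pi fun _ => μ.prod μ) := by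
  have hmp := sw_mp (m := m) μ A
  have h := integral_map (μ := Measure.pi fun _ : Fin m => μ.prod μ) (φ := sw A)
    hmp.measurable.aemeasurable (f := G) hG.aestronglyMeasurable
  rw [hmp.map_eq] at h
  exact h.symm

theorem int_bd (G : (Fin m → Ω × Ω) → ℝ) (hG : Measurable G) (B : ℝ) (hB : ∀ z, |G z| ≤ B) :
    Integrable G (Measure.pi fun _ => μ.prod μ) :=
  Integrable.of_bound hG.aestronglyMeasurable B (Filter.Eventually.of_forall fun z => by
    rw [Real.norm_eq_abs]
    exact hB z)

/-- One coordinate. -/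
theorem one (f : (Fin m → Ω) → ℝ) (hf : Measurable f) (B : ℝ) (hB : ∀ ω, |f ω| ≤ B)
    (i : Fin m) (A A' : Finset (Fin m)) (hA : i ∉ A) (hA' : ∀ j, j ∈ A' ↔ j ∈ A ∨ j = i) :
    ∫ z, f (pt ∅ z) * (f (pt A z) - f (pt A' z)) ∂(Measure.pi fun _ => μ.prod μ) ≤
      ∫ z, (max 0 (f (pt ∅ z) - f (pt {i} z))) ^ 2 ∂(Measure.pi fun _ => μ.prod μ) := by
  set Q : Measure (Fin m → Ω × Ω) := Measure.pi fun _ => μ.prod μ with hQ
  set F : Finset (Fin m) → (Fin m → Ω × Ω) → ℝ := fun C z => f (pt C z) with hF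
  have hFm : ∀ C, Measurable (F C) := fun C => hf.comp (pt_meas C)
  have hFb : ∀ C z, |F C z| ≤ B := fun C z => hB _
  have h1 : ∫ z, F ∅ z * (F A z - F A' z) ∂Q = ∫ z, F {i} z * (F A' z - F A z) ∂Q := by
    rw [← int_sw μ {i} (fun z => F ∅ z * (F A z - F A' z))
      ((hFm _).mul ((hFm _).sub (hFm _)))]
    refine integral_congr_ae (Filter.Eventually.of_forall fun z => ?_)
    simp only [hF]
    rw [pt_sw {i} ∅ {i} (by intro j; simp) z, pt_sw {i} A A' ?_ z, pt_sw {i} A' A ?_ z]
    · intro j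
      rw [hA' j, Finset.mem_singleton]
      by_cases hj : j = i
      · subst hj
        simp [hA]
      · simp [hj]
    · intro j
      rw [hA' j, Finset.mem_singleton]
      by_cases hj : j = i
      · subst hj
        simp [hA]
      · simp [hj]
  have h2 : ∫ z, (F A z - F A' z) ^ 2 ∂Q = ∫ z, (F ∅ z - F {i} z) ^ 2 ∂Q := by
    rw [← int_sw μ A (fun z => (F ∅ z - F {i} z) ^ 2) (((hFm _).sub (hFm _)).pow_const 2)]
    refine integral_congr_ae (Filter.Eventually.of_forall fun z => ?_)
    simp only [hF]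
    rw [pt_sw A ∅ A (by intro j; simp) z, pt_sw A {i} A' ?_ z]
    intro j
    rw [hA' j, Finset.mem_singleton]
    by_cases hj : j = i
    · subst hj
      simp [hA]
    · simp [hj]
  have h3 : ∫ z, (max 0 (F {i} z - F ∅ z)) ^ 2 ∂Q = ∫ z, (max 0 (F ∅ z - F {i} z)) ^ 2 ∂Q := by
    rw [← int_sw μ {i} (fun z => (max 0 (F ∅ z - F {i} z)) ^ 2)
      ((measurable_const.max ((hFm _).sub (hFm _))).pow_const 2)]
    refine integral_congr_ae (Filter.Eventually.of_forall fun z => ?_)
    simp only [hF]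
    rw [pt_sw {i} ∅ {i} (by intro j; simp) z, pt_sw {i} {i} ∅ (by intro j; simp) z]
  have hsub : ∀ C C' z, |F C z - F C' z| ≤ 2 * B := by
    intro C C' z
    have ha := hFb C z
    have hb := hFb C' z
    rw [abs_le] at ha hb ⊢
    constructor <;> linarith
  have hB0 : 0 ≤ B ∨ IsEmpty (Fin m → Ω × Ω) := by
    rcases isEmpty_or_nonempty (Fin m → Ω × Ω) with he | ⟨⟨z⟩⟩
    · exact Or.inr he
    · exact Or.inl ((abs_nonneg _).trans (hFb ∅ z))
  have hsq : ∀ C C' z, |(F C z - F C' z) ^ 2| ≤ (2 * B) ^ 2 := by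
    intro C C' z
    rw [abs_pow]
    exact pow_le_pow_left₀ (abs_nonneg _) (hsub C C' z) 2
  have hmx : ∀ C C' z, |(max 0 (F C z - F C' z)) ^ 2| ≤ (2 * B) ^ 2 := by
    intro C C' z
    rw [abs_pow]
    refine pow_le_pow_left₀ (abs_nonneg _) ?_ 2
    rw [abs_of_nonneg (le_max_left _ _)]
    exact max_le ((abs_nonneg _).trans (hsub C C' z)) ((le_abs_self _).trans (hsub C C' z))
  have hpr : ∀ C C' C'' z, |F C z * (F C' z - F C'' z)| ≤ B * (2 * B) := by
    intro C C' C'' z
    rw [abs_mul]
    exact mul_le_mul (hFb _ _) (hsub _ _ _) (abs_nonneg _) ((abs_nonneg _).trans (hFb C z))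
  have iP : ∀ C C' C'', Integrable (fun z => F C z * (F C' z - F C'' z)) Q := fun C C' C'' =>
    int_bd μ _ ((hFm _).mul ((hFm _).sub (hFm _))) _ (hpr C C' C'')
  have iS : ∀ C C', Integrable (fun z => (F C z - F C' z) ^ 2) Q := fun C C' =>
    int_bd μ _ (((hFm _).sub (hFm _)).pow_const 2) _ (hsq C C')
  have iM : ∀ C C', Integrable (fun z => (max 0 (F C z - F C' z)) ^ 2) Q := fun C C' =>
    int_bd μ _ ((measurable_const.max ((hFm _).sub (hFm _))).pow_const 2) _ (hmx C C')
  have h4 : 2 * ∫ z, F ∅ z * (F A z - F A' z) ∂Q ≤ ∫ z, (F ∅ z - F {i} z) ^ 2 ∂Q := by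
    have e1 : 2 * ∫ z, F ∅ z * (F A z - F A' z) ∂Q =
        ∫ z, (F ∅ z * (F A z - F A' z) + F {i} z * (F A' z - F A z)) ∂Q := by
      rw [integral_add (iP _ _ _) (iP _ _ _), ← h1]
      ring
    have e2 : ∫ z, (F ∅ z * (F A z - F A' z) + F {i} z * (F A' z - F A z)) ∂Q ≤
        ∫ z, ((1 / 2) * (F ∅ z - F {i} z) ^ 2 + (1 / 2) * (F A z - F A' z) ^ 2) ∂Q := by
      refine integral_mono ((iP _ _ _).add (iP _ _ _))
        (((iS _ _).const_mul _).add ((iS _ _).const_mul _)) fun z => ?_
      simp only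
      nlinarith [sq_nonneg ((F ∅ z - F {i} z) - (F A z - F A' z))]
    rw [e1]
    refine e2.trans ?_
    rw [integral_add ((iS _ _).const_mul _) ((iS _ _).const_mul _), integral_const_mul,
      integral_const_mul, h2]
    linarith
  have h5 : ∫ z, (F ∅ z - F {i} z) ^ 2 ∂Q = 2 * ∫ z, (max 0 (F ∅ z - F {i} z)) ^ 2 ∂Q := by
    have e1 : ∫ z, (F ∅ z - F {i} z) ^ 2 ∂Q =
        ∫ z, ((max 0 (F ∅ z - F {i} z)) ^ 2 + (max 0 (F {i} z - F ∅ z)) ^ 2) ∂Q := by
      refine integral_congr_ae (Filter.Eventually.of_forall fun z => ?_)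
      simp only
      rcases le_total 0 (F ∅ z - F {i} z) with h | h
      · rw [max_eq_right h, max_eq_left (by linarith : F {i} z - F ∅ z ≤ 0)]
        ring
      · rw [max_eq_left h, max_eq_right (by linarith : 0 ≤ F {i} z - F ∅ z)]
        ring
    rw [e1, integral_add (iM _ _) (iM _ _), h3]
    ring
  have h6 : ∫ z, F ∅ z * (F A z - F A' z) ∂Q ≤ ∫ z, (max 0 (F ∅ z - F {i} z)) ^ 2 ∂Q := by
    linarith
  exact h6

end ES

theorem pES : StES := by
  intro Ω _ μ _ m f hf B hB V hV
  set P : Measure (Fin m → Ω) := Measure.pi fun _ => μ with hP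
  set Q : Measure (Fin m → Ω × Ω) := Measure.pi fun _ => μ.prod μ with hQ
  set F : Finset (Fin m) → (Fin m → Ω × Ω) → ℝ := fun C z => f (ES.pt C z) with hF
  have hFm : ∀ C, Measurable (F C) := fun C => hf.comp (ES.pt_meas C)
  have hFb : ∀ C z, |F C z| ≤ B := fun C z => hB _
  have hmp := measurePreserving_arrowProdEquivProdArrow Ω Ω (Fin m) (fun _ => μ) (fun _ => μ)
  set c : ℝ := ∫ ω, f ω ∂P with hc
  have hΩ : Nonempty Ω := by
    by_contra hne
    rw [not_nonempty_iff] at hne
    have h1 : μ Set.univ = 1 := measure_univ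
    rw [Set.eq_empty_of_isEmpty (Set.univ : Set Ω), measure_empty] at h1
    exact zero_ne_one h1
  have hB0 : 0 ≤ B := (abs_nonneg _).trans (hB fun _ => hΩ.some)
  -- the variance as an integral over the double space
  have hfi : Integrable f P := Integrable.of_bound hf.aestronglyMeasurable B
    (Filter.Eventually.of_forall fun ω => by
      rw [Real.norm_eq_abs]
      exact hB ω)
  have hf2 : Integrable (fun ω => f ω ^ 2) P := Integrable.of_bound
    (hf.pow_const 2).aestronglyMeasurable (B ^ 2) (Filter.Eventually.of_forall fun ω => by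
      rw [Real.norm_eq_abs, abs_pow]
      exact pow_le_pow_left₀ (abs_nonneg _) (hB ω) 2)
  have hvar : ∫ ω, (f ω - c) ^ 2 ∂P = (∫ ω, f ω ^ 2 ∂P) - c * c := by
    have e1 : ∀ ω, (f ω - c) ^ 2 = f ω ^ 2 - (2 * c * f ω - c * c) := fun ω => by ring
    simp only [e1]
    have i1 : Integrable (fun ω => 2 * c * f ω - c * c) P :=
      (hfi.const_mul (2 * c)).sub (integrable_const _)
    rw [integral_sub hf2 i1, integral_sub (hfi.const_mul (2 * c)) (integrable_const _),
      integral_const_mul, integral_const]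
    simp only [probReal_univ, smul_eq_mul, one_mul]
    ring
  have hpair : ∀ g : (Fin m → Ω) × (Fin m → Ω) → ℝ, Measurable g →
      ∫ z, g (fun j => (z j).1, fun j => (z j).2) ∂Q = ∫ w, g w ∂(P.prod P) := by
    intro g hg
    have h := integral_map (μ := Q) (φ := MeasurableEquiv.arrowProdEquivProdArrow Ω Ω (Fin m))
      hmp.measurable.aemeasurable (f := g) hg.aestronglyMeasurable
    rw [hmp.map_eq] at h
    exact h.symm
  have hpt0 : ∀ z : Fin m → Ω × Ω, ES.pt ∅ z = fun j => (z j).1 := fun z => by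
    funext j
    simp [ES.pt]
  have hptu : ∀ z : Fin m → Ω × Ω, ES.pt Finset.univ z = fun j => (z j).2 := fun z => by
    funext j
    simp [ES.pt]
  have hsq0 : ∫ z, F ∅ z * F ∅ z ∂Q = ∫ ω, f ω ^ 2 ∂P := by
    have e1 := hpair (fun w => f w.1 * f w.1)
      ((hf.comp measurable_fst).mul (hf.comp measurable_fst))
    have e2 : ∫ w, f w.1 * f w.1 ∂(P.prod P) = ∫ ω, f ω ^ 2 ∂P := by
      have h := integral_prod_mul (μ := P) (ν := P) (fun ω => f ω * f ω) (fun _ => (1 : ℝ))
      simp only [mul_one, integral_const, probReal_univ, smul_eq_mul] at h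
      rw [h]
      simp only [pow_two]
    rw [← e2, ← e1]
    simp only [hF, hpt0]
  have hmul0 : ∫ z, F ∅ z * F Finset.univ z ∂Q = c * c := by
    have e1 := hpair (fun w => f w.1 * f w.2)
      ((hf.comp measurable_fst).mul (hf.comp measurable_snd))
    have e2 : ∫ w, f w.1 * f w.2 ∂(P.prod P) = c * c := integral_prod_mul f f
    rw [← e2, ← e1]
    simp only [hF, hpt0, hptu]
  have hpr : ∀ C C' z, |F C z * F C' z| ≤ B * B := by
    intro C C' z
    rw [abs_mul]
    exact mul_le_mul (hFb _ _) (hFb _ _) (abs_nonneg _) hB0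
  have iP : ∀ C C', Integrable (fun z => F C z * F C' z) Q := fun C C' =>
    ES.int_bd μ _ ((hFm _).mul (hFm _)) _ (hpr C C')
  have hv2 : ∫ ω, (f ω - c) ^ 2 ∂P = ∫ z, F ∅ z * (F ∅ z - F Finset.univ z) ∂Q := by
    rw [hvar, ← hsq0, ← hmul0, ← integral_sub (iP _ _) (iP _ _)]
    refine integral_congr_ae (Filter.Eventually.of_forall fun z => ?_)
    simp only
    ring
  -- telescoping
  set A : ℕ → Finset (Fin m) := fun k => Finset.univ.filter fun j : Fin m => j.val < k with hA
  have hA0 : A 0 = ∅ := by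
    ext j
    simp [hA]
  have hAm : A m = Finset.univ := by
    ext j
    simp [hA]
  have htel : ∀ z, F ∅ z - F Finset.univ z = ∑ i : Fin m, (F (A i) z - F (A (i + 1)) z) := by
    intro z
    have h := Finset.sum_range_sub' (fun k => F (A k) z) m
    rw [hA0, hAm] at h
    rw [← h, Finset.sum_range]
  have hint : ∀ i : Fin m, Integrable (fun z => F ∅ z * (F (A i) z - F (A (i + 1)) z)) Q := by
    intro i
    have : (fun z => F ∅ z * (F (A i) z - F (A (i + 1)) z)) =
        fun z => F ∅ z * F (A i) z - F ∅ z * F (A (i + 1)) z := by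
      funext z
      ring
    rw [this]
    exact (iP _ _).sub (iP _ _)
  have hmxb : ∀ (i : Fin m) z, |(max 0 (F ∅ z - F {i} z)) ^ 2| ≤ (2 * B) ^ 2 := by
    intro i z
    rw [abs_pow]
    refine pow_le_pow_left₀ (abs_nonneg _) ?_ 2
    rw [abs_of_nonneg (le_max_left _ _)]
    have ha := hFb ∅ z
    have hb := hFb {i} z
    rw [abs_le] at ha hb
    exact max_le (by linarith) (by linarith)
  have iM : ∀ i : Fin m, Integrable (fun z => (max 0 (F ∅ z - F {i} z)) ^ 2) Q := fun i =>
    ES.int_bd μ _ ((measurable_const.max ((hFm _).sub (hFm _))).pow_const 2) _ (hmxb i)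
  rw [hv2]
  calc ∫ z, F ∅ z * (F ∅ z - F Finset.univ z) ∂Q
      = ∫ z, ∑ i : Fin m, F ∅ z * (F (A i) z - F (A (i + 1)) z) ∂Q := by
        refine integral_congr_ae (Filter.Eventually.of_forall fun z => ?_)
        simp only
        rw [htel z, Finset.mul_sum]
    _ = ∑ i : Fin m, ∫ z, F ∅ z * (F (A i) z - F (A (i + 1)) z) ∂Q :=
        integral_finsetSum _ fun i _ => hint i
    _ ≤ ∑ i : Fin m, ∫ z, (max 0 (F ∅ z - F {i} z)) ^ 2 ∂Q := by
        refine Finset.sum_le_sum fun i _ => ?_
        refine ES.one μ f hf B hB i (A i) (A (i + 1)) ?_ ?_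
        · simp [hA]
        · intro j
          simp only [hA, Finset.mem_filter, Finset.mem_univ, true_and]
          constructor
          · intro h
            rcases Nat.lt_succ_iff_lt_or_eq.1 h with h | h
            · exact Or.inl h
            · exact Or.inr (Fin.ext h)
          · rintro (h | h)
            · exact Nat.lt_succ_of_lt h
            · rw [h]
              exact Nat.lt_succ_self _
    _ = ∫ z, ∑ i : Fin m, (max 0 (F ∅ z - F {i} z)) ^ 2 ∂Q :=
        (integral_finsetSum _ fun i _ => iM i).symm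
    _ ≤ ∫ _z, V ∂Q := by
        refine integral_mono (integrable_finsetSum _ fun i _ => iM i) (integrable_const _)
          fun z => ?_
        have h := hV (fun j => (z j).1) (fun j => (z j).2)
        refine le_trans (le_of_eq ?_) h
        refine Finset.sum_congr rfl fun i _ => ?_
        have e1 : ES.pt {i} z = Function.update (fun j => (z j).1) i (z i).2 := by
          funext j
          by_cases hj : j = i
          · subst hj
            simp [ES.pt]
          · simp [ES.pt, Function.update, hj]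
        simp only [hF, hpt0, e1]
    _ = V := by
        rw [integral_const]
        simp
end DV
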