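import Pool.Agent.Helper53.DV.St

/-!
# DV project (MP_d684b1_an): module RE, random labels
-/

set_option autoImplicit false

open scoped BigOperators RealInnerProductSpace
open MeasureTheory

namespace DV

namespace RE

/-- The squares of a functional of norm at most one on a weak `ℓ_2` system sum to at most one. -/
theorem weak_dual {X : Type} [NormedAddCommGroup X] [NormedSpace ℝ X] {m : ℕ} (x : Fin m → X)
    (hx : Weak2 x) (g : X →L[ℝ] ℝ) (hg : ‖g‖ ≤ 1) : ∑ i, (g (x i)) ^ 2 ≤ 1 := by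
  have h0 : 0 ≤ ∑ i, (g (x i)) ^ 2 := Finset.sum_nonneg fun i _ => sq_nonneg _
  have h1 : g (∑ i, g (x i) • x i) = ∑ i, (g (x i)) ^ 2 := by
    rw [map_sum]
    refine Finset.sum_congr rfl fun i _ => ?_
    rw [map_smul, smul_eq_mul, sq]
  have h2 : g (∑ i, g (x i) • x i) ≤ Real.sqrt (∑ i, (g (x i)) ^ 2) := by
    calc g (∑ i, g (x i) • x i) ≤ ‖g (∑ i, g (x i) • x i)‖ := le_abs_self _
      _ ≤ ‖g‖ * ‖∑ i, g (x i) • x i‖ := g.le_opNorm _
      _ ≤ 1 * ‖∑ i, g (x i) • x i‖ := mul_le_mul_of_nonneg_right hg (norm_nonneg _)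
      _ = ‖∑ i, g (x i) • x i‖ := one_mul _
      _ ≤ _ := hx _
  rw [h1] at h2
  set S := ∑ i, (g (x i)) ^ 2 with hS
  have h3 : Real.sqrt S * Real.sqrt S = S := Real.mul_self_sqrt h0
  have h4 : 0 ≤ Real.sqrt S := Real.sqrt_nonneg _
  by_contra hcon
  push Not at hcon
  have h5 : 1 < Real.sqrt S := by
    rw [show (1 : ℝ) = Real.sqrt 1 from Real.sqrt_one.symm]
    exact Real.sqrt_lt_sqrt (by norm_num) hcon
  nlinarith

/-- The clamp to `[-1, 1]`. -/
noncomputable def cl (t : ℝ) : ℝ := max (-1) (min 1 t)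

theorem cl_ge (t : ℝ) : -1 ≤ cl t := le_max_left _ _

theorem cl_le (t : ℝ) : cl t ≤ 1 := max_le (by norm_num) (min_le_left _ _)

theorem cl_abs (t : ℝ) : |cl t| ≤ 1 := abs_le.2 ⟨cl_ge t, cl_le t⟩

theorem cl_eq (t : ℝ) (h : |t| ≤ 1) : cl t = t := by
  unfold cl
  rw [min_eq_right (abs_le.1 h).2, max_eq_right (abs_le.1 h).1]

theorem cl_cont : Continuous cl := continuous_const.max (continuous_const.min continuous_id)

/-- The clamped norm. -/
noncomputable def FF {X : Type} [NormedAddCommGroup X] [NormedSpace ℝ X] {m k : ℕ} (x : Fin m → X)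
    (z : Eu k) (v : Fin m → Eu k) : ℝ := ‖∑ i, cl ⟪v i, z⟫ • x i‖

theorem FF_cont {X : Type} [NormedAddCommGroup X] [NormedSpace ℝ X] {m k : ℕ} (x : Fin m → X)
    (z : Eu k) : Continuous (FF x z) := by
  unfold FF
  refine continuous_norm.comp (continuous_finsetSum _ fun i _ => ?_)
  exact (cl_cont.comp ((continuous_apply i).inner continuous_const)).smul continuous_const

theorem ff_cont {X : Type} [NormedAddCommGroup X] [NormedSpace ℝ X] {m k : ℕ} (x : Fin m → X)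
    (z : Eu k) : Continuous (fun v : Fin m → Eu k => ‖∑ i, ⟪v i, z⟫ • x i‖) := by
  refine continuous_norm.comp (continuous_finsetSum _ fun i _ => ?_)
  exact ((continuous_apply i).inner continuous_const).smul continuous_const

theorem FF_bdd {X : Type} [NormedAddCommGroup X] [NormedSpace ℝ X] {m k : ℕ} (x : Fin m → X)
    (z : Eu k) (v : Fin m → Eu k) : |FF x z v| ≤ ∑ i, ‖x i‖ := by
  unfold FF
  rw [abs_of_nonneg (norm_nonneg _)]
  refine (norm_sum_le _ _).trans (Finset.sum_le_sum fun i _ => ?_)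
  rw [norm_smul]
  calc ‖cl ⟪v i, z⟫‖ * ‖x i‖ ≤ 1 * ‖x i‖ :=
        mul_le_mul_of_nonneg_right (cl_abs _) (norm_nonneg _)
    _ = _ := one_mul _

theorem FF_V {X : Type} [NormedAddCommGroup X] [NormedSpace ℝ X] {m k : ℕ} (x : Fin m → X)
    (hx : Weak2 x) (z : Eu k) (v v' : Fin m → Eu k) :
    ∑ i, (max 0 (FF x z v - FF x z (Function.update v i (v' i)))) ^ 2 ≤ 4 := by
  obtain ⟨g, hg, hgw⟩ := exists_dual_vector'' ℝ (∑ i, cl ⟪v i, z⟫ • x i)
  have hS := weak_dual x hx g hg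
  have hle : ∀ w : X, g w ≤ ‖w‖ := fun w => by
    calc g w ≤ ‖g w‖ := le_abs_self _
      _ ≤ ‖g‖ * ‖w‖ := g.le_opNorm _
      _ ≤ 1 * ‖w‖ := mul_le_mul_of_nonneg_right hg (norm_nonneg _)
      _ = ‖w‖ := one_mul _
  have hi : ∀ i, (max 0 (FF x z v - FF x z (Function.update v i (v' i)))) ^ 2 ≤
      4 * (g (x i)) ^ 2 := by
    intro i
    have h1 : FF x z v - FF x z (Function.update v i (v' i)) ≤ 2 * |g (x i)| := by
      have h2 : g (∑ j, cl ⟪(Function.update v i (v' i)) j, z⟫ • x j) ≤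
          FF x z (Function.update v i (v' i)) := hle _
      have h3 : g (∑ j, cl ⟪v j, z⟫ • x j) = FF x z v := hgw
      have h4 : (∑ j, cl ⟪v j, z⟫ • x j) - (∑ j, cl ⟪(Function.update v i (v' i)) j, z⟫ • x j) =
          (cl ⟪v i, z⟫ - cl ⟪v' i, z⟫) • x i := by
        rw [← Finset.sum_sub_distrib]
        rw [Finset.sum_eq_single i]
        · rw [Function.update_self, ← sub_smul]
        · intro j _ hj
          rw [Function.update_of_ne hj, sub_self]
        · intro h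
          exact absurd (Finset.mem_univ i) h
      have h5 : FF x z v - FF x z (Function.update v i (v' i)) ≤
          (cl ⟪v i, z⟫ - cl ⟪v' i, z⟫) * g (x i) := by
        rw [← smul_eq_mul, ← map_smul, ← h4, map_sub, h3]
        linarith
      refine h5.trans ((le_abs_self _).trans ?_)
      rw [abs_mul]
      refine mul_le_mul_of_nonneg_right ?_ (abs_nonneg _)
      rw [abs_le]
      have a1 := cl_ge ⟪v i, z⟫
      have a2 := cl_le ⟪v i, z⟫
      have a3 := cl_ge ⟪v' i, z⟫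
      have a4 := cl_le ⟪v' i, z⟫
      constructor <;> linarith
    have h6 : max 0 (FF x z v - FF x z (Function.update v i (v' i))) ≤ 2 * |g (x i)| :=
      max_le (by positivity) h1
    calc (max 0 (FF x z v - FF x z (Function.update v i (v' i)))) ^ 2 ≤ (2 * |g (x i)|) ^ 2 :=
          pow_le_pow_left₀ (le_max_left _ _) h6 2
      _ = 4 * (g (x i)) ^ 2 := by rw [mul_pow, sq_abs]; norm_num
  calc _ ≤ ∑ i, 4 * (g (x i)) ^ 2 := Finset.sum_le_sum fun i _ => hi i
    _ = 4 * ∑ i, (g (x i)) ^ 2 := by rw [Finset.mul_sum]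
    _ ≤ 4 := by linarith

/-- Rotation invariance. -/
theorem rot {X : Type} [NormedAddCommGroup X] [NormedSpace ℝ X] {m k : ℕ} (x : Fin m → X)
    (hBM : StBM) (e e' : Eu k) (he : ‖e‖ = 1) (he' : ‖e'‖ = 1) :
    ∫ v : Fin m → Eu k, ‖∑ i, ⟪v i, e⟫ • x i‖ ∂(Measure.pi fun _ => ballM k) =
      ∫ v : Fin m → Eu k, ‖∑ i, ⟪v i, e'⟫ • x i‖ ∂(Measure.pi fun _ => ballM k) := by
  have _inst : ∀ k, IsProbabilityMeasure (ballM k) := hBM.1
  obtain ⟨R, hR⟩ := hBM.2.2.2.1 k e e' he he'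
  have hmp : MeasurePreserving (fun (v : Fin m → Eu k) i => R (v i)) (Measure.pi fun _ => ballM k)
      (Measure.pi fun _ => ballM k) :=
    measurePreserving_pi (fun _ => ballM k) (fun _ => ballM k) fun _ => hBM.2.1 k R
  have h1 : ∫ v : Fin m → Eu k, ‖∑ i, ⟪v i, e'⟫ • x i‖ ∂(Measure.pi fun _ => ballM k) =
      ∫ v : Fin m → Eu k, ‖∑ i, ⟪R (v i), e'⟫ • x i‖ ∂(Measure.pi fun _ => ballM k) := by
    conv_lhs => rw [← hmp.map_eq]
    rw [integral_map hmp.measurable.aemeasurable]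
    exact (ff_cont x e').aestronglyMeasurable
  rw [h1]
  refine integral_congr_ae (Filter.Eventually.of_forall fun v => ?_)
  have h2 : ∀ i, ⟪R (v i), e'⟫ = ⟪v i, e⟫ := fun i => by
    rw [← hR]
    exact R.inner_map_map _ _
  show ‖∑ i, ⟪v i, e⟫ • x i‖ = ‖∑ i, ⟪R (v i), e'⟫ • x i‖
  simp only [h2]

/-- From a net to an embedding. -/
theorem net {X : Type} [NormedAddCommGroup X] [NormedSpace ℝ X] {k : ℕ} (T : Eu k →ₗ[ℝ] X)
    (X0 : Finset (Eu k)) (a A : ℝ) (ha : 0 < a) (ha' : a ≤ 1 / 16) (hA : 0 < A)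
    (hnet : ∀ y : Eu k, ‖y‖ = 1 → ∃ x ∈ X0, ‖x - y‖ ≤ a)
    (hT : ∀ x ∈ X0, |‖T x‖ - A| ≤ a * A) : HasEu k (8 * a) X := by
  set M : ℝ := ‖LinearMap.toContinuousLinearMap T‖ with hM
  have hM0 : 0 ≤ M := norm_nonneg _
  have hTM : ∀ z, ‖T z‖ ≤ M * ‖z‖ := fun z =>
    (LinearMap.toContinuousLinearMap T).le_opNorm z
  have hup : ∀ y : Eu k, ‖y‖ = 1 → ‖T y‖ ≤ (1 + a) * A + a * M := by
    intro y hy
    obtain ⟨x, hx, hxy⟩ := hnet y hy
    have h1 := (abs_le.1 (hT x hx)).2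
    have h2 : ‖T (y - x)‖ ≤ M * a := by
      refine (hTM _).trans (mul_le_mul_of_nonneg_left ?_ hM0)
      rw [norm_sub_rev]
      exact hxy
    have h3 : ‖T y‖ ≤ ‖T x‖ + ‖T (y - x)‖ := by
      have : T y = T x + T (y - x) := by rw [← map_add]; congr 1; abel
      rw [this]
      exact norm_add_le _ _
    linarith
  have hlo : ∀ y : Eu k, ‖y‖ = 1 → (1 - a) * A - a * M ≤ ‖T y‖ := by
    intro y hy
    obtain ⟨x, hx, hxy⟩ := hnet y hy
    have h1 := (abs_le.1 (hT x hx)).1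
    have h2 : ‖T (x - y)‖ ≤ M * a := (hTM _).trans (mul_le_mul_of_nonneg_left hxy hM0)
    have h3 : ‖T x‖ ≤ ‖T y‖ + ‖T (x - y)‖ := by
      have : T x = T y + T (x - y) := by rw [← map_add]; congr 1; abel
      rw [this]
      exact norm_add_le _ _
    linarith
  have hsc : ∀ z : Eu k, z ≠ 0 → ∃ y : Eu k, ‖y‖ = 1 ∧ T z = ‖z‖ • T y := by
    intro z hz
    have hz' : ‖z‖ ≠ 0 := norm_ne_zero_iff.2 hz
    refine ⟨‖z‖⁻¹ • z, ?_, ?_⟩
    · rw [norm_smul, norm_inv, norm_norm, inv_mul_cancel₀ hz']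
    · rw [map_smul, smul_smul, mul_inv_cancel₀ hz', one_smul]
  have hM1 : M ≤ (1 + a) * A + a * M := by
    refine ContinuousLinearMap.opNorm_le_bound _ (by positivity) fun z => ?_
    show ‖T z‖ ≤ _
    by_cases hz : z = 0
    · rw [hz, map_zero, norm_zero, norm_zero, mul_zero]
    · obtain ⟨y, hy, hTz⟩ := hsc z hz
      rw [hTz, norm_smul, norm_norm, mul_comm]
      exact mul_le_mul_of_nonneg_right (hup y hy) (norm_nonneg _)
  have hM2 : M ≤ (1 + 3 * a) * A := by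
    have h1 : M * (1 - a) ≤ (1 + a) * A := by linarith
    have h2 : (1 + a) * A ≤ (1 + 3 * a) * A * (1 - a) := by
      have : 0 ≤ a * (1 - 3 * a) * A := by
        have : 0 ≤ 1 - 3 * a := by linarith
        positivity
      nlinarith
    have h3 : 0 < 1 - a := by linarith
    exact le_of_mul_le_mul_right (h1.trans h2) h3
  have haM : a * M ≤ 2 * a * A := by
    have h1 : a * M ≤ a * ((1 + 3 * a) * A) := mul_le_mul_of_nonneg_left hM2 ha.le
    have h2 : (1 + 3 * a) * A ≤ 2 * A := mul_le_mul_of_nonneg_right (by linarith) hA.le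
    have h3 : a * ((1 + 3 * a) * A) ≤ a * (2 * A) := mul_le_mul_of_nonneg_left h2 ha.le
    linarith
  have hB : 0 < (1 - 3 * a) * A := mul_pos (by linarith) hA
  have hlo2 : ∀ y : Eu k, ‖y‖ = 1 → (1 - 3 * a) * A ≤ ‖T y‖ := by
    intro y hy
    have := hlo y hy
    linarith
  have hup2 : ∀ y : Eu k, ‖y‖ = 1 → ‖T y‖ ≤ (1 + 3 * a) * A := by
    intro y hy
    have := hup y hy
    linarith
  have hratio : (1 + 3 * a) * A ≤ (1 + 8 * a) * ((1 - 3 * a) * A) := by
    have : 0 ≤ a * (2 - 24 * a) * A := by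
      have : 0 ≤ 2 - 24 * a := by linarith
      positivity
    nlinarith
  refine ⟨((1 - 3 * a) * A)⁻¹ • T, fun z => ?_⟩
  rw [LinearMap.smul_apply, norm_smul, norm_inv, Real.norm_of_nonneg hB.le]
  by_cases hz : z = 0
  · rw [hz, map_zero, norm_zero, norm_zero, mul_zero, mul_zero]
    exact ⟨le_refl _, le_refl _⟩
  obtain ⟨y, hy, hTz⟩ := hsc z hz
  rw [hTz, norm_smul, norm_norm]
  have hz0 : 0 ≤ ‖z‖ := norm_nonneg _
  constructor
  · have h1 := mul_le_mul_of_nonneg_left (hlo2 y hy) hz0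
    rw [← div_eq_inv_mul, le_div_iff₀ hB]
    exact h1
  · rw [← div_eq_inv_mul, div_le_iff₀ hB]
    calc ‖z‖ * ‖T y‖ ≤ ‖z‖ * ((1 + 8 * a) * ((1 - 3 * a) * A)) :=
          mul_le_mul_of_nonneg_left ((hup2 y hy).trans hratio) hz0
      _ = _ := by ring

end RE

open RE

theorem pRE (hES : StES) (hBM : StBM) (hNE : StNE) : StRE := by
  intro k _
  obtain ⟨C', hC', hN⟩ := hNE k
  have _inst : ∀ k, IsProbabilityMeasure (ballM k) := hBM.1
  set M : ℝ := (8 * C') ^ k with hM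
  have hM0 : 0 < M := by positivity
  refine ⟨16 * (1 + M), by positivity, fun ε hε hε' X _ _ m x hx => ?_⟩
  by_contra hcon
  push Not at hcon
  obtain ⟨hnot, e, he, hA⟩ := hcon
  apply hnot
  obtain ⟨X0, hX0, hcard, hnet⟩ := hN (ε / 8) (by positivity) (by linarith)
  set A : ℝ := ∫ v : Fin m → Eu k, ‖∑ i, ⟪v i, e⟫ • x i‖ ∂(Measure.pi fun _ => ballM k) with hAdef
  have hA0 : 0 < A := lt_trans (by positivity) hA
  set ν : Measure (Fin m → Eu k) := Measure.pi fun _ => ballM k with hν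
  -- almost everywhere the labels are in the unit ball
  have hae : ∀ᵐ v ∂ν, ∀ i, ‖v i‖ ≤ 1 := by
    rw [ae_all_iff]
    intro i
    exact (Measure.tendsto_eval_ae_ae (μ := fun _ : Fin m => ballM k) (i := i)).eventually
      (hBM.2.2.1 k)
  have hin : ∀ (v : Fin m → Eu k), (∀ i, ‖v i‖ ≤ 1) → ∀ z : Eu k, ‖z‖ = 1 →
      FF x z v = ‖∑ i, ⟪v i, z⟫ • x i‖ := by
    intro v hv z hz
    unfold FF
    have : ∀ i, cl ⟪v i, z⟫ = ⟪v i, z⟫ := fun i => by
      apply cl_eq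
      calc |⟪v i, z⟫| ≤ ‖v i‖ * ‖z‖ := abs_real_inner_le_norm _ _
        _ ≤ 1 := by rw [hz, mul_one]; exact hv i
    simp only [this]
  have hFA : ∀ z : Eu k, ‖z‖ = 1 → ∫ v, FF x z v ∂ν = A := by
    intro z hz
    rw [hAdef, rot x hBM e z he hz]
    refine integral_congr_ae ?_
    filter_upwards [hae] with v hv
    exact hin v hv z hz
  have hvar : ∀ z ∈ X0, ∫ v, (FF x z v - A) ^ 2 ∂ν ≤ 4 := by
    intro z hz
    have h1 := hES (Eu k) (ballM k) m (FF x z) (FF_cont x z).measurable (∑ i, ‖x i‖)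
      (FF_bdd x z) 4 (FF_V x hx z)
    rw [← hν, hFA z (hX0 z hz)] at h1
    exact h1
  have hint : ∀ z, Integrable (fun v => (FF x z v - A) ^ 2) ν := by
    intro z
    refine Integrable.of_bound (C := (∑ i, ‖x i‖ + |A|) ^ 2)
      ((((FF_cont x z).sub continuous_const).pow 2).aestronglyMeasurable)
      (Filter.Eventually.of_forall fun v => ?_)
    rw [Real.norm_of_nonneg (sq_nonneg _), ← sq_abs (FF x z v - A)]
    refine pow_le_pow_left₀ (abs_nonneg _) ?_ 2
    refine (abs_sub _ _).trans ?_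
    have := FF_bdd x z v
    linarith
  have hnull : ν {v | ¬ ∀ i, ‖v i‖ ≤ 1} = 0 := by
    rw [ae_iff] at hae
    exact hae
  obtain ⟨v, hv, hvle⟩ := exists_notMem_null_le_integral
    (μ := ν) (f := fun v => ∑ z ∈ X0, (FF x z v - A) ^ 2)
    (integrable_finsetSum _ fun z _ => hint z) hnull
  have hv1 : ∀ i, ‖v i‖ ≤ 1 := by
    by_contra h
    exact hv h
  have hsum : ∑ z ∈ X0, (FF x z v - A) ^ 2 ≤ 4 * X0.card := by
    refine hvle.trans ?_
    rw [integral_finsetSum _ fun z _ => hint z]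
    calc ∑ z ∈ X0, ∫ v, (FF x z v - A) ^ 2 ∂ν ≤ ∑ _z ∈ X0, (4 : ℝ) :=
          Finset.sum_le_sum fun z hz => hvar z hz
      _ = 4 * X0.card := by rw [Finset.sum_const, nsmul_eq_mul, mul_comm]
  have hsmall : 4 * (X0.card : ℝ) ≤ (ε / 8 * A) ^ 2 := by
    have h1 : (1 : ℝ) ≤ 1 / ε := by rw [le_div_iff₀ hε]; linarith
    have h2 : (X0.card : ℝ) ≤ M * (1 / ε) ^ k := by
      refine hcard.trans (le_of_eq ?_)
      rw [hM, ← mul_pow]
      congr 1
      field_simp
    have h3 : 2 * (1 + M) * (1 / ε) ^ (k + 1) ≤ ε / 8 * A := by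
      calc 2 * (1 + M) * (1 / ε) ^ (k + 1) = ε / 8 * (16 * (1 + M) * (1 / ε) ^ (k + 2)) := by
            rw [show k + 2 = (k + 1) + 1 from rfl, pow_succ (1 / ε) (k + 1)]
            field_simp
            ring
        _ ≤ ε / 8 * A := mul_le_mul_of_nonneg_left hA.le (by positivity)
    have h4 : 1 ≤ (1 / ε) ^ (k + 1) := one_le_pow₀ h1
    have h5 : (1 / ε) ^ k ≤ (1 / ε) ^ (k + 1) := pow_le_pow_right₀ h1 (Nat.le_succ _)
    have h6 : (2 * (1 + M) * (1 / ε) ^ (k + 1)) ^ 2 ≤ (ε / 8 * A) ^ 2 :=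
      pow_le_pow_left₀ (by positivity) h3 2
    refine le_trans ?_ h6
    set y := (1 / ε) ^ (k + 1) with hy
    calc 4 * (X0.card : ℝ) ≤ 4 * (M * y) := by
          have : M * (1 / ε) ^ k ≤ M * y := mul_le_mul_of_nonneg_left h5 hM0.le
          linarith
      _ ≤ 4 * ((1 + M) ^ 2 * y ^ 2) := by
          have h7 : y ≤ y ^ 2 := by nlinarith
          have h8 : M ≤ (1 + M) ^ 2 := by nlinarith
          have h9 : M * y ≤ (1 + M) ^ 2 * y ^ 2 := mul_le_mul h8 h7 (by linarith) (by positivity)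
          linarith
      _ = _ := by ring
  -- the linear map
  set T : Eu k →ₗ[ℝ] X := ∑ i, (LinearMap.smulRight ((innerSL ℝ (v i)).toLinearMap) (x i)) with hT
  have hTz : ∀ z, T z = ∑ i, ⟪v i, z⟫ • x i := by
    intro z
    rw [hT, LinearMap.sum_apply]
    rfl
  have hfin : ∀ z ∈ X0, |‖T z‖ - A| ≤ ε / 8 * A := by
    intro z hz
    rw [hTz, ← hin v hv1 z (hX0 z hz)]
    have h1 : (FF x z v - A) ^ 2 ≤ (ε / 8 * A) ^ 2 := by
      refine le_trans ?_ (hsum.trans hsmall)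
      exact Finset.single_le_sum (f := fun z => (FF x z v - A) ^ 2)
        (fun z _ => sq_nonneg _) hz
    exact abs_le_of_sq_le_sq h1 (by positivity)
  have := net T X0 (ε / 8) A (by positivity) (by linarith) hA0 hnet hfin
  rw [show 8 * (ε / 8) = ε by ring] at this
  exact this

end DV
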