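import Pool.Agent.Helper53.DV.St

/-!
# DV project (MP_d684b1_an): module AM (Alon-Milman)
-/

set_option autoImplicit false
set_option linter.unusedSectionVars false

open scoped BigOperators

namespace DV.AM

/-! ### signs -/

theorem sg_xor (a b : Bool) : sg (xor a b) = if b then -sg a else sg a := by
  cases a <;> cases b <;> simp [sg]

theorem xor_self_right (a b : Bool) : xor (xor a b) b = a := by
  cases a <;> cases b <;> rfl

/-- translation by `w` -/
def tr {α : Type} (w : α → Bool) : Equiv.Perm (α → Bool) where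
  toFun s := fun i => xor (s i) (w i)
  invFun s := fun i => xor (s i) (w i)
  left_inv s := by
    funext i
    exact xor_self_right (s i) (w i)
  right_inv s := by
    funext i
    exact xor_self_right (s i) (w i)

theorem tr_apply {α : Type} (w s : α → Bool) (i : α) : tr w s i = xor (s i) (w i) := rfl

theorem sum_tr {α : Type} [Fintype α] [DecidableEq α] (w : α → Bool) (F : (α → Bool) → ℝ) :
    ∑ s, F (tr w s) = ∑ s, F s := Equiv.sum_comp (tr w) F

theorem tr_comm {α : Type} (w s : α → Bool) : tr w s = tr s w := by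
  funext i
  rw [tr_apply, tr_apply, Bool.xor_comm]

/-- averaging over fewer signs -/
theorem avg_comp {m b : ℕ} (ι : Fin b → Fin m) (hι : Function.Injective ι)
    (F : (Fin b → Bool) → ℝ) :
    (2 : ℝ) ^ b * ∑ s : Fin m → Bool, F (s ∘ ι) = (2 : ℝ) ^ m * ∑ s : Fin b → Bool, F s := by
  have h1 : ∀ u : Fin b → Bool,
      ∑ s : Fin m → Bool, F (s ∘ ι) = ∑ s : Fin m → Bool, F (tr u (s ∘ ι)) := by
    intro u
    rw [← sum_tr (Function.extend ι u fun _ => false) fun s => F (s ∘ ι)]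
    refine Finset.sum_congr rfl fun s _ => ?_
    congr 1
    funext j
    show tr (Function.extend ι u fun _ => false) s (ι j) = tr u (s ∘ ι) j
    rw [tr_apply, tr_apply, hι.extend_apply]
    rfl
  have h2 : ∑ u : Fin b → Bool, ∑ s : Fin m → Bool, F (tr u (s ∘ ι)) =
      (2 : ℝ) ^ b * ∑ s : Fin m → Bool, F (s ∘ ι) := by
    rw [Finset.sum_congr rfl fun u _ => (h1 u).symm, Finset.sum_const, Finset.card_univ,
      Fintype.card_fun, Fintype.card_bool, Fintype.card_fin, nsmul_eq_mul]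
    push_cast
    ring
  rw [← h2, Finset.sum_comm]
  have h3 : ∀ s : Fin m → Bool, ∑ u : Fin b → Bool, F (tr u (s ∘ ι)) = ∑ u, F u := by
    intro s
    rw [← sum_tr (s ∘ ι) F]
    exact Finset.sum_congr rfl fun u _ => by rw [tr_comm]
  rw [Finset.sum_congr rfl fun s _ => h3 s, Finset.sum_const, Finset.card_univ,
    Fintype.card_fun, Fintype.card_bool, Fintype.card_fin, nsmul_eq_mul]
  push_cast
  ring

section X

variable {X : Type} [NormedAddCommGroup X] [NormedSpace ℝ X] {m b : ℕ}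

/-- a partial sum has a smaller Rademacher average -/
theorem rad_sub (x : Fin m → X) (ι : Fin b → Fin m) (hι : Function.Injective ι) :
    ∑ s : Fin b → Bool, ‖∑ j, sg (s j) • x (ι j)‖ ≤ (2 : ℝ) ^ b * radAvg x := by
  classical
  have h1 := avg_comp ι hι fun s => ‖∑ j, sg (s j) • x (ι j)‖
  have h2 : ∑ s : Fin m → Bool, ‖∑ j, sg ((s ∘ ι) j) • x (ι j)‖ ≤
      ∑ s : Fin m → Bool, ‖∑ l, sg (s l) • x l‖ := by
    have h3 : ∀ s : Fin m → Bool, 2 * ‖∑ j, sg ((s ∘ ι) j) • x (ι j)‖ ≤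
        ‖∑ l, sg (s l) • x l‖ +
          ‖∑ l, sg (tr (fun l => decide (l ∉ Set.range ι)) s l) • x l‖ := by
      intro s
      have h4 : (2 : ℝ) • ∑ j, sg ((s ∘ ι) j) • x (ι j) = ∑ l, sg (s l) • x l +
          ∑ l, sg (tr (fun l => decide (l ∉ Set.range ι)) s l) • x l := by
        rw [← Finset.sum_add_distrib]
        have h5 : ∑ j, sg ((s ∘ ι) j) • x (ι j) =
            ∑ l ∈ Finset.univ.map ⟨ι, hι⟩, sg (s l) • x l := by
          rw [Finset.sum_map]
          rfl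
        rw [h5, Finset.smul_sum]
        refine Finset.sum_subset_zero_on_sdiff (Finset.subset_univ _) ?_ ?_
        · intro l hl
          have h6 : l ∉ Set.range ι := by
            rintro ⟨j, rfl⟩
            exact (Finset.mem_sdiff.1 hl).2 (Finset.mem_map.2 ⟨j, Finset.mem_univ _, rfl⟩)
          rw [tr_apply, sg_xor, if_pos (by simpa using h6), neg_smul, add_neg_cancel]
        · intro l hl
          obtain ⟨j, -, rfl⟩ := Finset.mem_map.1 hl
          have h6 : ¬ ((decide (ι j ∉ Set.range ι)) = true) := by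
            simp
          show (2 : ℝ) • sg (s (ι j)) • x (ι j) = sg (s (ι j)) • x (ι j) +
            sg (tr (fun l => decide (l ∉ Set.range ι)) s (ι j)) • x (ι j)
          rw [tr_apply, sg_xor, if_neg h6, two_smul]
      have h7 := norm_add_le (∑ l, sg (s l) • x l)
        (∑ l, sg (tr (fun l => decide (l ∉ Set.range ι)) s l) • x l)
      rw [← h4, norm_smul, Real.norm_eq_abs, abs_of_pos (by norm_num : (0 : ℝ) < 2)] at h7
      exact h7
    have h8 := Finset.sum_le_sum fun s (_ : s ∈ (Finset.univ : Finset (Fin m → Bool))) => h3 s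
    rw [← Finset.mul_sum, Finset.sum_add_distrib,
      sum_tr (fun l => decide (l ∉ Set.range ι)) fun s => ‖∑ l, sg (s l) • x l‖] at h8
    linarith
  have h9 : ∑ s : Fin m → Bool, ‖∑ l, sg (s l) • x l‖ = (2 : ℝ) ^ m * radAvg x := by
    unfold radAvg
    rw [Fintype.card_fin]
    field_simp
  rw [h9] at h2
  have hb : (0 : ℝ) < 2 ^ b := by positivity
  have hm : (0 : ℝ) < 2 ^ m := by positivity
  have h10 : (2 : ℝ) ^ m * ∑ s : Fin b → Bool, ‖∑ j, sg (s j) • x (ι j)‖ ≤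
      (2 : ℝ) ^ m * ((2 : ℝ) ^ b * radAvg x) := by
    rw [← h1]
    calc (2 : ℝ) ^ b * ∑ s : Fin m → Bool, ‖∑ j, sg ((s ∘ ι) j) • x (ι j)‖
        ≤ (2 : ℝ) ^ b * ((2 : ℝ) ^ m * radAvg x) := mul_le_mul_of_nonneg_left h2 hb.le
      _ = (2 : ℝ) ^ m * ((2 : ℝ) ^ b * radAvg x) := by ring
  exact le_of_mul_le_mul_left h10 hm

/-- functionals are bounded in `ℓ_2` on a system with weak `ℓ_2` norm at most one -/
theorem weak2_dual (x : Fin m → X) (hx : Weak2 x) (f : X →L[ℝ] ℝ) (hf : ‖f‖ ≤ 1) :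
    ∑ l, f (x l) ^ 2 ≤ 1 := by
  have h1 : f (∑ l, f (x l) • x l) = ∑ l, f (x l) ^ 2 := by
    rw [map_sum]
    refine Finset.sum_congr rfl fun l _ => ?_
    rw [map_smul, smul_eq_mul, sq]
  have h2 : f (∑ l, f (x l) • x l) ≤ Real.sqrt (∑ l, f (x l) ^ 2) := by
    calc f (∑ l, f (x l) • x l) ≤ ‖f (∑ l, f (x l) • x l)‖ := le_abs_self _
      _ ≤ ‖f‖ * ‖∑ l, f (x l) • x l‖ := f.le_opNorm _
      _ ≤ 1 * ‖∑ l, f (x l) • x l‖ := mul_le_mul_of_nonneg_right hf (norm_nonneg _)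
      _ = ‖∑ l, f (x l) • x l‖ := one_mul _
      _ ≤ Real.sqrt (∑ l, f (x l) ^ 2) := hx fun l => f (x l)
  rw [h1] at h2
  have h3 : 0 ≤ ∑ l, f (x l) ^ 2 := Finset.sum_nonneg fun l _ => sq_nonneg _
  have h4 := Real.sq_sqrt h3
  have h5 := Real.sqrt_nonneg (∑ l, f (x l) ^ 2)
  nlinarith

end X

theorem sum_inj_le {α β : Type} [Fintype α] [Fintype β] (φ : α → β) (hφ : Function.Injective φ)
    (h : β → ℝ) (h0 : ∀ b, 0 ≤ h b) : ∑ a, h (φ a) ≤ ∑ b, h b := by
  have h1 : ∑ a, h (φ a) = ∑ b ∈ Finset.univ.map ⟨φ, hφ⟩, h b := by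
    rw [Finset.sum_map]
    rfl
  rw [h1]
  exact Finset.sum_le_sum_of_subset_of_nonneg (Finset.subset_univ _) fun b _ _ => h0 b

/-- averages over all maps of a function of one value -/
theorem sum_eval {b : ℕ} (j : Fin b) (g : Fin b → ℝ) :
    (b : ℝ) * ∑ κ : Fin b → Fin b, g (κ j) = (Fintype.card (Fin b → Fin b) : ℝ) * ∑ r, g r := by
  have h1 : ∑ κ : Fin b → Fin b, g (κ j) =
      ∑ q : Fin b × ({ j' // j' ≠ j } → Fin b), g q.1 :=
    Fintype.sum_equiv (Equiv.funSplitAt j (Fin b)) _ _ fun κ => rfl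
  have h2 : Fintype.card (Fin b → Fin b) = b * Fintype.card ({ j' // j' ≠ j } → Fin b) := by
    rw [Fintype.card_congr (Equiv.funSplitAt j (Fin b)), Fintype.card_prod, Fintype.card_fin]
  rw [h1, Fintype.sum_prod_type, h2]
  simp only [Finset.sum_const, Finset.card_univ, nsmul_eq_mul]
  rw [← Finset.mul_sum]
  push_cast
  ring

/-- exchange of two maps on the set where `s` is false -/
def sw {b : ℕ} (s : Fin b → Bool) : Equiv.Perm ((Fin b → Fin b) × (Fin b → Fin b)) where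
  toFun q := (fun j => if s j then q.1 j else q.2 j, fun j => if s j then q.2 j else q.1 j)
  invFun q := (fun j => if s j then q.1 j else q.2 j, fun j => if s j then q.2 j else q.1 j)
  left_inv q := by
    refine Prod.ext ?_ ?_ <;> funext j <;> by_cases h : s j <;> simp [h]
  right_inv q := by
    refine Prod.ext ?_ ?_ <;> funext j <;> by_cases h : s j <;> simp [h]

section sup

variable {I : Type} [Nonempty I]

theorem sup_add (u v : I → ℝ) (hu : BddAbove (Set.range u)) (hv : BddAbove (Set.range v)) :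
    (⨆ i, (u i + v i)) ≤ (⨆ i, u i) + ⨆ i, v i :=
  ciSup_le fun i => add_le_add (le_ciSup hu i) (le_ciSup hv i)

theorem bdd (u : I → ℝ) (B : ℝ) (h : ∀ i, u i ≤ B) : BddAbove (Set.range u) := by
  refine ⟨B, ?_⟩
  rintro _ ⟨i, rfl⟩
  exact h i

theorem sg_abs (a : Bool) : |sg a| = 1 := by
  cases a <;> simp [sg]

/-- the averaging argument -/
theorem main (hCP : StCP) {b : ℕ} (T : I → Fin b × Fin b → ℝ) (B : ℝ) (hB : ∀ i q, |T i q| ≤ B)
    (h2 : ∀ i, ∑ q, T i q ^ 2 ≤ 1) (K : ℝ)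
    (hR : ∀ κ : Fin b → Fin b, ∑ s : Fin b → Bool, (⨆ i, ∑ j, sg (s j) * T i (j, κ j)) ≤
      (2 : ℝ) ^ b * K) :
    ∃ κ : Fin b → Fin b, ∀ i, ∑ j, |T i (j, κ j)| ≤ 1 + 2 * K := by
  classical
  have hbb : (0 : ℝ) ≤ b := Nat.cast_nonneg b
  obtain ⟨N, hN⟩ : ∃ N : ℝ, N = (Fintype.card (Fin b → Fin b) : ℝ) := ⟨_, rfl⟩
  have hNpos : 0 < N := by
    rw [hN]
    have : Nonempty (Fin b → Fin b) := ⟨id⟩
    exact_mod_cast Fintype.card_pos
  -- bounds
  have hb1 : ∀ (i : I) (κ : Fin b → Fin b), ∑ j, |T i (j, κ j)| ≤ b * B := by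
    intro i κ
    refine (Finset.sum_le_card_nsmul _ _ B fun j _ => hB i _).trans ?_
    rw [Finset.card_univ, Fintype.card_fin, nsmul_eq_mul]
  have hb2 : ∀ (i : I) (κ : Fin b → Fin b) (c : Fin b → ℝ), (∀ j, |c j| ≤ 1) →
      ∑ j, c j * |T i (j, κ j)| ≤ b * B := by
    intro i κ c hc
    refine le_trans (Finset.sum_le_sum fun j _ => ?_) (hb1 i κ)
    refine (le_abs_self _).trans ?_
    rw [abs_mul, abs_abs]
    exact mul_le_of_le_one_left (abs_nonneg _) (hc j)
  -- the first term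
  have h1 : ∀ i, ∑ κ : Fin b → Fin b, ∑ j, |T i (j, κ j)| ≤ N := by
    intro i
    rcases Nat.eq_zero_or_pos b with hb0 | hb0
    · subst hb0
      rw [Finset.sum_eq_zero fun κ _ => by simp]
      exact hNpos.le
    have hbp : (0 : ℝ) < b := by exact_mod_cast hb0
    have h3 : (b : ℝ) * ∑ κ : Fin b → Fin b, ∑ j, |T i (j, κ j)| =
        N * ∑ q : Fin b × Fin b, |T i q| := by
      rw [Finset.sum_comm, Finset.mul_sum, Fintype.sum_prod_type, Finset.mul_sum]
      refine Finset.sum_congr rfl fun j _ => ?_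
      rw [hN]
      exact sum_eval j fun r => |T i (j, r)|
    have h4 : (∑ q : Fin b × Fin b, |T i q|) ^ 2 ≤ (b : ℝ) ^ 2 := by
      refine (sq_sum_le_card_mul_sum_sq).trans ?_
      rw [Finset.card_univ, Fintype.card_prod, Fintype.card_fin]
      have h5 : ∑ q : Fin b × Fin b, |T i q| ^ 2 ≤ 1 := by
        refine le_trans (le_of_eq (Finset.sum_congr rfl fun q _ => sq_abs _)) (h2 i)
      push_cast
      nlinarith
    have h6 : ∑ q : Fin b × Fin b, |T i q| ≤ b := by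
      refine le_of_sq_le_sq ?_ hbp.le
      exact h4
    have h7 : (b : ℝ) * ∑ κ : Fin b → Fin b, ∑ j, |T i (j, κ j)| ≤ b * N := by
      rw [h3, mul_comm (b : ℝ) N]
      exact mul_le_mul_of_nonneg_left h6 hNpos.le
    exact le_of_mul_le_mul_left h7 hbp
  -- the second term
  let D : (Fin b → Fin b) × (Fin b → Fin b) → ℝ :=
    fun q => ⨆ i, ∑ j, (|T i (j, q.1 j)| - |T i (j, q.2 j)|)
  let R : (Fin b → Fin b) → ℝ := fun κ => ∑ s : Fin b → Bool, ⨆ i, ∑ j, sg (s j) * |T i (j, κ j)|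
  have hD : ∀ (i : I) (κ κ' : Fin b → Fin b),
      ∑ j, (|T i (j, κ j)| - |T i (j, κ' j)|) ≤ D (κ, κ') := by
    intro i κ κ'
    refine le_ciSup (f := fun i => ∑ j, (|T i (j, κ j)| - |T i (j, κ' j)|))
      (bdd _ (b * B) fun i => ?_) i
    refine le_trans (Finset.sum_le_sum fun j _ => ?_) (hb1 i κ)
    exact sub_le_self _ (abs_nonneg _)
  have hswap : ∀ s : Fin b → Bool, ∑ q, D q ≤
      ∑ q : (Fin b → Fin b) × (Fin b → Fin b), ((⨆ i, ∑ j, sg (s j) * |T i (j, q.1 j)|) +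
        ⨆ i, ∑ j, sg (tr (fun _ => true) s j) * |T i (j, q.2 j)|) := by
    intro s
    rw [← Equiv.sum_comp (sw s) D]
    refine Finset.sum_le_sum fun q _ => ?_
    refine le_trans (le_of_eq ?_) (sup_add (fun i => ∑ j, sg (s j) * |T i (j, q.1 j)|)
      (fun i => ∑ j, sg (tr (fun _ => true) s j) * |T i (j, q.2 j)|)
      (bdd _ (b * B) fun i => hb2 i _ _ fun j => (sg_abs _).le)
      (bdd _ (b * B) fun i => hb2 i _ _ fun j => (sg_abs _).le))
    show (⨆ i, ∑ j, (|T i (j, (sw s q).1 j)| - |T i (j, (sw s q).2 j)|)) = _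
    congr 1
    funext i
    rw [← Finset.sum_add_distrib]
    refine Finset.sum_congr rfl fun j _ => ?_
    show |T i (j, if s j then q.1 j else q.2 j)| - |T i (j, if s j then q.2 j else q.1 j)| = _
    rw [tr_apply, sg_xor, if_pos rfl]
    by_cases h : s j
    · simp [h, sg]
      ring
    · simp [h, sg]
      ring
  have hDR : (2 : ℝ) ^ b * ∑ q, D q ≤ 2 * N * ∑ κ, R κ := by
    have h3 := Finset.sum_le_sum fun s (_ : s ∈ (Finset.univ : Finset (Fin b → Bool))) => hswap s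
    rw [Finset.sum_const, Finset.card_univ, Fintype.card_fun, Fintype.card_bool,
      Fintype.card_fin, nsmul_eq_mul] at h3
    push_cast at h3
    refine h3.trans (le_of_eq ?_)
    rw [Finset.sum_comm]
    have h4 : ∀ q : (Fin b → Fin b) × (Fin b → Fin b),
        ∑ s : Fin b → Bool, ((⨆ i, ∑ j, sg (s j) * |T i (j, q.1 j)|) +
          ⨆ i, ∑ j, sg (tr (fun _ => true) s j) * |T i (j, q.2 j)|) = R q.1 + R q.2 := by
      intro q
      rw [Finset.sum_add_distrib,
        sum_tr (fun _ => true) fun s => ⨆ i, ∑ j, sg (s j) * |T i (j, q.2 j)|]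
    rw [Finset.sum_congr rfl fun q _ => h4 q, Finset.sum_add_distrib, Fintype.sum_prod_type,
      Fintype.sum_prod_type]
    simp only [Finset.sum_const, Finset.card_univ, nsmul_eq_mul]
    rw [← Finset.mul_sum, ← hN]
    ring
  have hRK : ∀ κ, R κ ≤ (2 : ℝ) ^ b * K := by
    intro κ
    exact (hCP b I (fun i j => T i (j, κ j)) B fun i j => hB i _).trans (hR κ)
  -- conclusion
  let A : (Fin b → Fin b) → ℝ := fun κ => ⨆ i, ∑ j, |T i (j, κ j)|
  have hA : ∀ κ, N * A κ ≤ N + ∑ κ', D (κ, κ') := by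
    intro κ
    rw [← le_div_iff₀' hNpos]
    refine ciSup_le fun i => ?_
    rw [le_div_iff₀' hNpos]
    have h3 : N * ∑ j, |T i (j, κ j)| = ∑ κ' : Fin b → Fin b, ∑ j, |T i (j, κ' j)| +
        ∑ κ' : Fin b → Fin b, ∑ j, (|T i (j, κ j)| - |T i (j, κ' j)|) := by
      rw [← Finset.sum_add_distrib]
      have h4 : ∀ κ' : Fin b → Fin b, ∑ j, |T i (j, κ' j)| +
          ∑ j, (|T i (j, κ j)| - |T i (j, κ' j)|) = ∑ j, |T i (j, κ j)| := by
        intro κ'
        rw [← Finset.sum_add_distrib]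
        exact Finset.sum_congr rfl fun j _ => by ring
      rw [Finset.sum_congr rfl fun κ' _ => h4 κ', Finset.sum_const, Finset.card_univ,
        nsmul_eq_mul, ← hN]
    rw [h3]
    exact add_le_add (h1 i) (Finset.sum_le_sum fun κ' _ => hD i κ κ')
  have hsum : ∑ κ, A κ ≤ ∑ _κ : Fin b → Fin b, (1 + 2 * K) := by
    rw [Finset.sum_const, Finset.card_univ, nsmul_eq_mul, ← hN]
    have h3 := Finset.sum_le_sum fun κ (_ : κ ∈ (Finset.univ : Finset (Fin b → Fin b))) => hA κ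
    rw [← Finset.mul_sum, Finset.sum_add_distrib, Finset.sum_const, Finset.card_univ,
      nsmul_eq_mul, ← hN, ← Fintype.sum_prod_type'] at h3
    have h4 : ∑ κ, R κ ≤ N * ((2 : ℝ) ^ b * K) := by
      refine (Finset.sum_le_card_nsmul _ _ _ fun κ _ => hRK κ).trans ?_
      rw [Finset.card_univ, nsmul_eq_mul, ← hN]
    have h5 : (2 : ℝ) ^ b * ∑ q, D q ≤ (2 : ℝ) ^ b * (2 * N * (N * K)) := by
      refine hDR.trans ?_
      calc 2 * N * ∑ κ, R κ ≤ 2 * N * (N * ((2 : ℝ) ^ b * K)) :=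
            mul_le_mul_of_nonneg_left h4 (by positivity)
        _ = (2 : ℝ) ^ b * (2 * N * (N * K)) := by ring
    have h6 : ∑ q, D q ≤ 2 * N * (N * K) := le_of_mul_le_mul_left h5 (by positivity)
    have h7 : N * ∑ κ, A κ ≤ N * (N * (1 + 2 * K)) := by
      have h8 : ∑ q : (Fin b → Fin b) × (Fin b → Fin b), D (q.1, q.2) = ∑ q, D q := rfl
      rw [h8] at h3
      calc N * ∑ κ, A κ ≤ N * N + ∑ q, D q := h3
        _ ≤ N * N + 2 * N * (N * K) := by linarith
        _ = N * (N * (1 + 2 * K)) := by ring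
    exact le_of_mul_le_mul_left h7 hNpos
  obtain ⟨κ, -, hκ⟩ := Finset.exists_le_of_sum_le ⟨id, Finset.mem_univ _⟩ hsum
  refine ⟨κ, fun i => le_trans ?_ hκ⟩
  exact le_ciSup (f := fun i => ∑ j, |T i (j, κ j)|) (bdd _ (b * B) fun i => hb1 i κ) i

end sup

end DV.AM

namespace DV

open AM in
theorem pAM (hCP : StCP) : StAM := by
  classical
  intro X _ _ m b hbm x hx K hK
  -- an injection of the square
  have hcard : Fintype.card (Fin b × Fin b) ≤ Fintype.card (Fin m) := by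
    rw [Fintype.card_prod, Fintype.card_fin, Fintype.card_fin, ← sq]
    exact hbm
  obtain ⟨φ⟩ := Function.Embedding.nonempty_of_card_le hcard
  have hφ : Function.Injective φ := φ.injective
  have : Nonempty {f : X →L[ℝ] ℝ // ‖f‖ ≤ 1} := ⟨⟨0, by rw [norm_zero]; exact zero_le_one⟩⟩
  have hιinj : ∀ κ : Fin b → Fin b, Function.Injective fun j => φ (j, κ j) := by
    intro κ j j' h
    exact (Prod.ext_iff.1 (hφ h)).1
  have H1 : ∀ (i : {f : X →L[ℝ] ℝ // ‖f‖ ≤ 1}) (q : Fin b × Fin b),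
      |i.1 (x (φ q))| ≤ ∑ l, ‖x l‖ := by
    intro i q
    have h1 : |i.1 (x (φ q))| ≤ ‖x (φ q)‖ := by
      have h2 := i.1.le_opNorm (x (φ q))
      rw [Real.norm_eq_abs] at h2
      refine h2.trans ?_
      exact mul_le_of_le_one_left (norm_nonneg _) i.2
    exact h1.trans (Finset.single_le_sum (f := fun l => ‖x l‖) (fun l _ => norm_nonneg _)
      (Finset.mem_univ (φ q)))
  have H2 : ∀ i : {f : X →L[ℝ] ℝ // ‖f‖ ≤ 1}, ∑ q : Fin b × Fin b, i.1 (x (φ q)) ^ 2 ≤ 1 := by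
    intro i
    exact (sum_inj_le φ hφ (fun l => i.1 (x l) ^ 2) fun l => sq_nonneg _).trans
      (weak2_dual x hx i.1 i.2)
  have H3 : ∀ κ : Fin b → Fin b, ∑ s : Fin b → Bool,
      (⨆ i : {f : X →L[ℝ] ℝ // ‖f‖ ≤ 1}, ∑ j, sg (s j) * i.1 (x (φ (j, κ j)))) ≤
      (2 : ℝ) ^ b * K := by
    intro κ
    have h1 : ∑ s : Fin b → Bool, (⨆ i : {f : X →L[ℝ] ℝ // ‖f‖ ≤ 1},
        ∑ j, sg (s j) * i.1 (x (φ (j, κ j)))) ≤
        ∑ s : Fin b → Bool, ‖∑ j, sg (s j) • x (φ (j, κ j))‖ := by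
      refine Finset.sum_le_sum fun s _ => ciSup_le fun i => ?_
      have h2 : ∑ j, sg (s j) * i.1 (x (φ (j, κ j))) =
          i.1 (∑ j, sg (s j) • x (φ (j, κ j))) := by
        rw [map_sum]
        exact Finset.sum_congr rfl fun j _ => by rw [map_smul, smul_eq_mul]
      rw [h2]
      refine (le_abs_self _).trans ?_
      have h3 := i.1.le_opNorm (∑ j, sg (s j) • x (φ (j, κ j)))
      rw [Real.norm_eq_abs] at h3
      exact h3.trans (mul_le_of_le_one_left (norm_nonneg _) i.2)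
    refine h1.trans ((rad_sub x (fun j => φ (j, κ j)) (hιinj κ)).trans ?_)
    exact mul_le_mul_of_nonneg_left hK (by positivity)
  obtain ⟨κ, hκ⟩ := main (I := {f : X →L[ℝ] ℝ // ‖f‖ ≤ 1}) hCP (fun i q => i.1 (x (φ q)))
    (∑ l, ‖x l‖) H1 H2 K H3
  refine ⟨fun j => φ (j, κ j), hιinj κ, ?_⟩
  intro a ha
  obtain ⟨g, hg, hg2⟩ := exists_dual_vector'' ℝ (∑ j, a j • x (φ (j, κ j)))
  have h1 : ‖∑ j, a j • x (φ (j, κ j))‖ = g (∑ j, a j • x (φ (j, κ j))) := by
    rw [hg2]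
    rfl
  rw [h1, map_sum]
  refine le_trans (Finset.sum_le_sum fun j _ => ?_) (hκ ⟨g, hg⟩)
  rw [map_smul, smul_eq_mul]
  refine (le_abs_self _).trans ?_
  rw [abs_mul]
  exact mul_le_of_le_one_left (abs_nonneg _) (ha j)

end DV
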