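import Pool.Agent.Helper53.DV.St

/-!
# DV project, module BM: the uniform measure on the ball
-/

set_option autoImplicit false

open scoped BigOperators RealInnerProductSpace ENNReal
open MeasureTheory

namespace DV

namespace BM

theorem vpos (k : ℕ) : volume (Metric.ball (0 : Eu k) 1) ≠ 0 :=
  (Metric.measure_ball_pos volume 0 one_pos).ne'

theorem vtop (k : ℕ) : volume (Metric.ball (0 : Eu k) 1) ≠ ⊤ := measure_ball_lt_top.ne

theorem prob (k : ℕ) : IsProbabilityMeasure (ballM k) := by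
  constructor
  unfold ballM
  rw [Measure.smul_apply, Measure.restrict_apply MeasurableSet.univ, Set.univ_inter, smul_eq_mul]
  exact ENNReal.inv_mul_cancel (vpos k) (vtop k)

theorem pres (k : ℕ) (R : Eu k ≃ₗᵢ[ℝ] Eu k) : MeasurePreserving R (ballM k) (ballM k) := by
  unfold ballM
  have h1 : MeasurePreserving R (volume : Measure (Eu k)) volume := R.measurePreserving
  have h2 := h1.restrict_preimage (s := Metric.ball (0 : Eu k) 1) measurableSet_ball
  have h3 : R ⁻¹' (Metric.ball (0 : Eu k) 1) = Metric.ball (0 : Eu k) 1 := by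
    ext v
    simp
  rw [h3] at h2
  exact h2.smul_measure _

theorem ae_le (k : ℕ) : ∀ᵐ v ∂(ballM k), ‖v‖ ≤ 1 := by
  unfold ballM
  refine Measure.ae_smul_measure ?_ _
  filter_upwards [ae_restrict_mem measurableSet_ball] with v hv
  rw [mem_ball_zero_iff] at hv
  exact hv.le

theorem rot (k : ℕ) (e e' : Eu k) (h : ‖e‖ = 1) (h' : ‖e'‖ = 1) :
    ∃ R : Eu k ≃ₗᵢ[ℝ] Eu k, R e = e' :=
  ⟨_, Submodule.reflection_sub (h.trans h'.symm)⟩

theorem integrable (k : ℕ) (e : Eu k) : Integrable (fun v => |⟪v, e⟫|) (ballM k) := by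
  have := prob k
  refine Integrable.mono' (integrable_const ‖e‖) ?_ ?_
  · exact (continuous_abs.comp (continuous_id.inner continuous_const)).aestronglyMeasurable
  · filter_upwards [ae_le k] with v hv
    rw [Real.norm_eq_abs, abs_abs]
    calc |⟪v, e⟫| ≤ ‖v‖ * ‖e‖ := abs_real_inner_le_norm v e
      _ ≤ 1 * ‖e‖ := mul_le_mul_of_nonneg_right hv (norm_nonneg _)
      _ = ‖e‖ := one_mul _

theorem pos (k : ℕ) (e : Eu k) (he : ‖e‖ = 1) : 0 < ∫ v, |⟪v, e⟫| ∂(ballM k) := by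
  rw [integral_pos_iff_support_of_nonneg (fun v => abs_nonneg _) (integrable k e)]
  have hs : Function.support (fun v : Eu k => |⟪v, e⟫|) = {v | ⟪v, e⟫ ≠ 0} := by
    ext v
    simp
  rw [hs]
  have ho : IsOpen {v : Eu k | ⟪v, e⟫ ≠ 0} :=
    isOpen_ne_fun (continuous_id.inner continuous_const) continuous_const
  unfold ballM
  rw [Measure.smul_apply, Measure.restrict_apply ho.measurableSet, smul_eq_mul]
  refine ENNReal.mul_pos (ENNReal.inv_ne_zero.2 (vtop k)) ?_
  refine ((ho.inter Metric.isOpen_ball).measure_pos volume ⟨(1 / 2 : ℝ) • e, ?_, ?_⟩).ne'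
  · show ⟪(1 / 2 : ℝ) • e, e⟫ ≠ 0
    rw [real_inner_smul_left, real_inner_self_eq_norm_sq, he]
    norm_num
  · rw [mem_ball_zero_iff, norm_smul, he]
    norm_num

theorem indep (k : ℕ) (e e' : Eu k) (h : ‖e‖ = 1) (h' : ‖e'‖ = 1) :
    ∫ v, |⟪v, e'⟫| ∂(ballM k) = ∫ v, |⟪v, e⟫| ∂(ballM k) := by
  obtain ⟨R, rfl⟩ := rot k e e' h h'
  have h1 := (pres k R).integral_comp R.toHomeomorph.measurableEmbedding (fun v => |⟪v, R e⟫|)
  rw [← h1]
  refine integral_congr_ae (Filter.Eventually.of_forall fun v => ?_)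
  show |⟪R v, R e⟫| = |⟪v, e⟫|
  rw [R.inner_map_map]

end BM

/-- MODULE BM. -/
theorem pBM : StBM := by
  refine ⟨BM.prob, BM.pres, BM.ae_le, BM.rot, fun k => ?_⟩
  by_cases h : ∃ e : Eu k, ‖e‖ = 1
  · obtain ⟨e, he⟩ := h
    exact ⟨_, BM.pos k e he, fun e' he' => (BM.indep k e e' he he').ge⟩
  · exact ⟨1, one_pos, fun e he => absurd ⟨e, he⟩ h⟩

end DV
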