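import Pool.Agent.Helper53.DV.Defs

/-! DV project: basic facts on the list chains. -/

set_option autoImplicit false

open scoped BigOperators

namespace DV

variable {p : ℕ} {E F G : Type*}

@[simp] theorem cone_single (a : E) (l : List E) (c : ZMod p) :
    cone p a (Finsupp.single l c) = Finsupp.single (a :: l) c := by
  simp [cone, Finsupp.lmapDomain_apply, Finsupp.mapDomain_single]

@[simp] theorem mp_single (f : E → F) (l : List E) (c : ZMod p) :
    mp p f (Finsupp.single l c) = Finsupp.single (l.map f) c := by
  simp [mp, Finsupp.lmapDomain_apply, Finsupp.mapDomain_single]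

@[simp] theorem dd_single (l : List E) (c : ZMod p) : dd p (Finsupp.single l c) = c • dl p l := by
  simp [dd]

@[simp] theorem dl_nil : dl p ([] : List E) = 0 := rfl

theorem dl_cons (a : E) (l : List E) : dl p (a :: l) = Finsupp.single l 1 - cone p a (dl p l) := rfl

/-- Two linear maps on chains which agree on lists are equal. -/
theorem ch_ext {M : Type*} [AddCommGroup M] [Module (ZMod p) M] {f g : Ch p E →ₗ[ZMod p] M}
    (h : ∀ l : List E, f (Finsupp.single l 1) = g (Finsupp.single l 1)) : f = g := by
  refine Finsupp.lhom_ext' fun l => LinearMap.ext_ring ?_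
  simpa using h l

theorem dd_cone (a : E) (x : Ch p E) : dd p (cone p a x) = x - cone p a (dd p x) := by
  have h : (dd p) ∘ₗ (cone p a) = LinearMap.id - (cone p a) ∘ₗ (dd p : Ch p E →ₗ[ZMod p] Ch p E) := by
    refine ch_ext fun l => ?_
    simp [dl_cons]
  exact LinearMap.congr_fun h x

theorem dd_dl (l : List E) : dd p (dl p l) = 0 := by
  induction l with
  | nil => simp
  | cons a l ih => rw [dl_cons, map_sub, dd_single, one_smul, dd_cone, ih, map_zero, sub_zero, sub_self]

theorem dd_dd (x : Ch p E) : dd p (dd p x) = 0 := by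
  have h : (dd p) ∘ₗ (dd p : Ch p E →ₗ[ZMod p] Ch p E) = 0 := by
    refine ch_ext fun l => ?_
    simp [dd_dl]
  exact LinearMap.congr_fun h x

theorem mp_cone (f : E → F) (a : E) (x : Ch p E) : mp p f (cone p a x) = cone p (f a) (mp p f x) := by
  have h : (mp p f) ∘ₗ (cone p a) = (cone p (f a)) ∘ₗ (mp p f) := by
    refine ch_ext fun l => ?_
    simp
  exact LinearMap.congr_fun h x

theorem mp_dl (f : E → F) (l : List E) : mp p f (dl p l) = dl p (l.map f) := by
  induction l with
  | nil => simp
  | cons a l ih => rw [List.map_cons, dl_cons, dl_cons, map_sub, mp_single, mp_cone, ih]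

theorem mp_dd (f : E → F) (x : Ch p E) : mp p f (dd p x) = dd p (mp p f x) := by
  have h : (mp p f) ∘ₗ (dd p) = (dd p) ∘ₗ (mp p f) := by
    refine ch_ext fun l => ?_
    simp [mp_dl]
  exact LinearMap.congr_fun h x

theorem mp_mp (f : E → F) (g : F → G) (x : Ch p E) : mp p g (mp p f x) = mp p (g ∘ f) x := by
  have h : (mp p g) ∘ₗ (mp p f) = mp p (g ∘ f) := by
    refine ch_ext fun l => ?_
    simp
  exact LinearMap.congr_fun h x

theorem mp_id (x : Ch p E) : mp p (fun a : E => a) x = x := by
  have h : mp p (fun a : E => a) = LinearMap.id := by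
    refine ch_ext fun l => ?_
    simp
  exact LinearMap.congr_fun h x

theorem al_odd [NeZero p] (g : ZMod p → E → E) {j : ℕ} (hj : Odd j) (x : Ch p E) :
    al p g j x = mp p (g 1) x - x := by
  simp [al, hj]

theorem al_even [NeZero p] (g : ZMod p → E → E) {j : ℕ} (hj : ¬ Odd j) (x : Ch p E) :
    al p g j x = ∑ k : ZMod p, mp p (g k) x := by
  simp [al, hj, LinearMap.sum_apply]

theorem dd_al [NeZero p] (g : ZMod p → E → E) (j : ℕ) (x : Ch p E) : dd p (al p g j x) = al p g j (dd p x) := by
  by_cases hj : Odd j
  · rw [al_odd g hj, al_odd g hj, map_sub, mp_dd]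
  · rw [al_even g hj, al_even g hj, map_sum]
    exact Finset.sum_congr rfl fun k _ => (mp_dd (g k) x).symm

/-- Coefficients of `cone a x` live on lists `a :: l`. -/
theorem support_cone (a : E) (x : Ch p E) {l : List E} (h : l ∈ (cone p a x).support) :
    ∃ m ∈ x.support, l = a :: m := by
  classical
  have h1 := Finsupp.mapDomain_support (f := List.cons a) (s := x) h
  obtain ⟨m, hm, rfl⟩ := Finset.mem_image.1 h1
  exact ⟨m, hm, rfl⟩

theorem support_mp (f : E → F) (x : Ch p E) {l : List F} (h : l ∈ (mp p f x).support) :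
    ∃ m ∈ x.support, l = m.map f := by
  classical
  have h1 := Finsupp.mapDomain_support (f := List.map f) (s := x) h
  obtain ⟨m, hm, rfl⟩ := Finset.mem_image.1 h1
  exact ⟨m, hm, rfl⟩

/-- The terms of the boundary of a list are sublists, of length one less. -/
theorem support_dl (l : List E) {m : List E} (h : m ∈ (dl p l).support) : m.Sublist l ∧ m.length + 1 = l.length := by
  classical
  induction l generalizing m with
  | nil => simp at h
  | cons a l ih =>
    rw [dl_cons] at h
    rcases Finset.mem_union.1 (Finsupp.support_sub h) with h1 | h1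
    · have := Finsupp.support_single_subset h1
      rw [Finset.mem_singleton] at this
      subst this
      exact ⟨List.sublist_cons_self a m, rfl⟩
    · obtain ⟨m', hm', rfl⟩ := support_cone a _ h1
      obtain ⟨h2, h3⟩ := ih hm'
      exact ⟨h2.cons_cons a, by simp [h3]⟩

/-- The support of a linear combination. -/
theorem support_lin (S : Ch p E →ₗ[ZMod p] Ch p F) (x : Ch p E) {l : List F} (h : l ∈ (S x).support) :
    ∃ m ∈ x.support, l ∈ (S (Finsupp.single m 1)).support := by
  classical
  by_contra hcon
  push Not at hcon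
  have h1 : S x = x.sum fun m c => c • S (Finsupp.single m 1) := by
    conv_lhs => rw [← Finsupp.sum_single x]
    rw [Finsupp.sum, map_sum]
    refine Finset.sum_congr rfl fun m _ => ?_
    change S (Finsupp.single m (x m)) = x m • S (Finsupp.single m 1)
    rw [← map_smul, Finsupp.smul_single, smul_eq_mul, mul_one]
  rw [Finsupp.mem_support_iff, h1] at h
  apply h
  rw [Finsupp.sum, Finsupp.finsetSum_apply]
  refine Finset.sum_eq_zero fun m hm => ?_
  have := hcon m hm
  rw [Finsupp.notMem_support_iff] at this
  rw [Finsupp.smul_apply, this, smul_zero]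

theorem support_dd (x : Ch p E) {l : List E} (h : l ∈ (dd p x).support) :
    ∃ m ∈ x.support, l.Sublist m ∧ l.length + 1 = m.length := by
  obtain ⟨m, hm, h1⟩ := support_lin (dd p) x h
  rw [dd_single, one_smul] at h1
  exact ⟨m, hm, support_dl m h1⟩

end DV
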