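import Pool.Agent.Helper53.DV.St
import Pool.Agent.Helper53.DV.Api

/-! DV project, module BU2: barycentric subdivision of list chains. -/

set_option autoImplicit false
set_option linter.unusedSectionVars false

open scoped BigOperators

namespace DV

namespace BU2

section

variable {p : ℕ} {E : Type}

theorem lin_congr {M : Type*} [AddCommGroup M] [Module (ZMod p) M] (f g : Ch p E →ₗ[ZMod p] M)
    (x : Ch p E) (h : ∀ m ∈ x.support, f (Finsupp.single m 1) = g (Finsupp.single m 1)) :
    f x = g x := by
  have key : ∀ f : Ch p E →ₗ[ZMod p] M,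
      f x = ∑ m ∈ x.support, x m • f (Finsupp.single m 1) := by
    intro f
    conv_lhs => rw [← Finsupp.sum_single x]
    rw [Finsupp.sum, map_sum]
    refine Finset.sum_congr rfl fun m _ => ?_
    rw [← map_smul, Finsupp.smul_single, smul_eq_mul, mul_one]
  rw [key f, key g]
  exact Finset.sum_congr rfl fun m hm => by rw [h m hm]

variable [NormedAddCommGroup E] [NormedSpace ℝ E]

/-- the barycentre -/
noncomputable def bar (l : List E) : E := (l.length : ℝ)⁻¹ • l.sum

theorem bar_map (f : E →ₗ[ℝ] E) (l : List E) : bar (l.map f) = f (bar l) := by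
  unfold bar
  rw [List.length_map, map_smul, map_list_sum]

/-- subdivision of lists of a given length -/
noncomputable def Sn (p : ℕ) (E : Type) [NormedAddCommGroup E] [NormedSpace ℝ E] :
    ℕ → (Ch p E →ₗ[ZMod p] Ch p E)
  | 0 => LinearMap.id
  | n + 1 => Finsupp.lsum (ZMod p) fun l => LinearMap.toSpanSingleton (ZMod p) (Ch p E)
      (cone p (bar l) (Sn p E n (dl p l)))

/-- the subdivision -/
noncomputable def S (p : ℕ) (E : Type) [NormedAddCommGroup E] [NormedSpace ℝ E] :
    Ch p E →ₗ[ZMod p] Ch p E :=
  Finsupp.lsum (ZMod p) fun l => LinearMap.toSpanSingleton (ZMod p) (Ch p E)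
    (Sn p E l.length (Finsupp.single l 1))

theorem S_single (l : List E) :
    S p E (Finsupp.single l 1) = Sn p E l.length (Finsupp.single l 1) := by
  simp [S]

theorem Sn_succ (n : ℕ) (l : List E) :
    Sn p E (n + 1) (Finsupp.single l 1) = cone p (bar l) (Sn p E n (dl p l)) := by
  simp [Sn]

theorem S_nil : S p E (Finsupp.single [] 1) = Finsupp.single [] 1 := by
  rw [S_single]
  rfl

theorem S_cons (a : E) (l : List E) :
    S p E (Finsupp.single (a :: l) 1) = cone p (bar (a :: l)) (S p E (dl p (a :: l))) := by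
  rw [S_single, List.length_cons, Sn_succ]
  congr 1
  refine lin_congr _ _ _ fun m hm => ?_
  have h1 := (support_dl (a :: l) hm).2
  rw [List.length_cons] at h1
  have h2 : m.length = l.length := by omega
  rw [S_single, h2]

theorem dd_S_list (n : ℕ) : ∀ l : List E, l.length = n →
    dd p (S p E (Finsupp.single l 1)) = S p E (dl p l) := by
  induction n with
  | zero =>
    intro l hl
    rw [List.length_eq_zero_iff] at hl
    subst hl
    rw [S_nil]
    simp
  | succ n ih =>
    intro l hl
    cases l with
    | nil => simp at hl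
    | cons a l =>
      rw [S_cons, dd_cone]
      have h1 : dd p (S p E (dl p (a :: l))) = S p E (dd p (dl p (a :: l))) := by
        have h2 := lin_congr ((dd p) ∘ₗ (S p E)) ((S p E) ∘ₗ (dd p)) (dl p (a :: l)) (by
          intro m hm
          have h3 := (support_dl (a :: l) hm).2
          rw [LinearMap.comp_apply, LinearMap.comp_apply, dd_single, one_smul]
          exact ih m (by omega))
        rwa [LinearMap.comp_apply, LinearMap.comp_apply] at h2
      rw [h1, dd_dl, map_zero, map_zero, sub_zero]

theorem dd_S (x : Ch p E) : dd p (S p E x) = S p E (dd p x) := by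
  have h := lin_congr ((dd p) ∘ₗ (S p E)) ((S p E) ∘ₗ (dd p)) x (by
    intro m _
    rw [LinearMap.comp_apply, LinearMap.comp_apply, dd_single, one_smul]
    exact dd_S_list m.length m rfl)
  rwa [LinearMap.comp_apply, LinearMap.comp_apply] at h

theorem mp_S_list (f : E →ₗ[ℝ] E) (n : ℕ) : ∀ l : List E, l.length = n →
    S p E (mp p f (Finsupp.single l 1)) = mp p f (S p E (Finsupp.single l 1)) := by
  induction n with
  | zero =>
    intro l hl
    rw [List.length_eq_zero_iff] at hl
    subst hl
    rw [mp_single, List.map_nil, S_nil, mp_single, List.map_nil]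
  | succ n ih =>
    intro l hl
    cases l with
    | nil => simp at hl
    | cons a l =>
      rw [mp_single, List.map_cons, S_cons, S_cons, mp_cone, ← List.map_cons, bar_map, ← mp_dl]
      congr 1
      have h2 := lin_congr ((S p E) ∘ₗ (mp p f)) ((mp p f) ∘ₗ (S p E)) (dl p (a :: l)) (by
        intro m hm
        have h3 := (support_dl (a :: l) hm).2
        rw [LinearMap.comp_apply, LinearMap.comp_apply]
        exact ih m (by omega))
      rwa [LinearMap.comp_apply, LinearMap.comp_apply] at h2

theorem mp_S (f : E →ₗ[ℝ] E) (x : Ch p E) : S p E (mp p f x) = mp p f (S p E x) := by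
  have h := lin_congr ((S p E) ∘ₗ (mp p f)) ((mp p f) ∘ₗ (S p E)) x (by
    intro m _
    rw [LinearMap.comp_apply, LinearMap.comp_apply]
    exact mp_S_list f m.length m rfl)
  rwa [LinearMap.comp_apply, LinearMap.comp_apply] at h

/-! ### the barycentre -/

theorem bar_mem {l : List E} (hl : l ≠ []) : bar l ∈ convexHull ℝ {b | b ∈ l} := by
  have hpos : (0 : ℝ) < l.length := by
    have := List.length_pos_iff.2 hl
    exact_mod_cast this
  have h1 : bar l = ∑ i : Fin l.length, (l.length : ℝ)⁻¹ • l[i.1] := by
    unfold bar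
    rw [← Finset.smul_sum, Fin.sum_univ_getElem]
  rw [h1]
  refine (convex_convexHull ℝ _).sum_mem (fun i _ => by positivity) ?_ fun i _ =>
    subset_convexHull ℝ _ (List.getElem_mem i.2)
  rw [Finset.sum_const, Finset.card_univ, Fintype.card_fin, nsmul_eq_mul,
    mul_inv_cancel₀ hpos.ne']

theorem sum_sub (c : E) (l : List E) :
    (l.map (fun b => b - c)).sum = l.sum - (l.length : ℝ) • c := by
  induction l with
  | nil => simp
  | cons a l ih =>
    rw [List.map_cons, List.sum_cons, List.sum_cons, List.length_cons, ih]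
    push_cast
    rw [add_smul, one_smul]
    abel

theorem norm_sum_le (c : E) (D : ℝ) (l : List E) (h : ∀ b ∈ l, ‖b - c‖ ≤ D) :
    ‖(l.map (fun b => b - c)).sum‖ ≤ l.length * D := by
  induction l with
  | nil => simp
  | cons a l ih =>
    rw [List.map_cons, List.sum_cons, List.length_cons]
    have h1 := h a (List.mem_cons_self)
    have h2 := ih fun b hb => h b (List.mem_cons_of_mem a hb)
    refine (norm_add_le _ _).trans ?_
    push_cast
    linarith

theorem bar_dist {l : List E} {c : E} (hc : c ∈ l) {D : ℝ} (h : ∀ b ∈ l, ‖b - c‖ ≤ D) :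
    ‖bar l - c‖ ≤ (1 - 1 / (l.length : ℝ)) * D := by
  obtain ⟨s, t, rfl⟩ := List.append_of_mem hc
  have hlen : ((s ++ c :: t).length : ℝ) = s.length + t.length + 1 := by
    rw [List.length_append, List.length_cons]
    push_cast
    ring
  have hpos : (0 : ℝ) < (s ++ c :: t).length := by
    rw [hlen]
    positivity
  have h1 : bar (s ++ c :: t) - c =
      ((s ++ c :: t).length : ℝ)⁻¹ • ((s ++ c :: t).map (fun b => b - c)).sum := by
    rw [sum_sub, smul_sub, smul_smul, inv_mul_cancel₀ hpos.ne', one_smul]
    rfl
  have h2 : ‖((s ++ c :: t).map (fun b => b - c)).sum‖ ≤ (s.length + t.length) * D := by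
    rw [List.map_append, List.map_cons, List.sum_append, List.sum_cons, sub_self, zero_add]
    have h3 := norm_sum_le c D s fun b hb => h b (List.mem_append_left _ hb)
    have h4 := norm_sum_le c D t fun b hb =>
      h b (List.mem_append_right _ (List.mem_cons_of_mem c hb))
    refine (norm_add_le _ _).trans ?_
    linarith
  rw [h1, norm_smul, norm_inv, Real.norm_of_nonneg hpos.le]
  have h5 : (1 - 1 / ((s ++ c :: t).length : ℝ)) * D =
      ((s ++ c :: t).length : ℝ)⁻¹ * ((s.length + t.length) * D) := by
    have h6 : ((s.length : ℝ) + t.length) = ((s ++ c :: t).length : ℝ) - 1 := by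
      rw [hlen]
      ring
    rw [h6]
    field_simp
  rw [h5]
  exact mul_le_mul_of_nonneg_left h2 (inv_nonneg.2 hpos.le)

theorem bar_hull {l : List E} {D : ℝ} (h : ∀ a ∈ l, ∀ b ∈ l, ‖a - b‖ ≤ D) {a : E}
    (ha : a ∈ convexHull ℝ {b | b ∈ l}) : ‖bar l - a‖ ≤ (1 - 1 / (l.length : ℝ)) * D := by
  have h1 : convexHull ℝ {b | b ∈ l} ⊆ Metric.closedBall (bar l) ((1 - 1 / (l.length : ℝ)) * D) := by
    refine convexHull_min (fun c hc => ?_) (convex_closedBall _ _)
    rw [Metric.mem_closedBall, dist_comm, dist_eq_norm]
    exact bar_dist hc fun b hb => h b hb c hc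
  have h2 := h1 ha
  rwa [Metric.mem_closedBall, dist_comm, dist_eq_norm] at h2

theorem supp (N : ℕ) (hN : 1 ≤ N) (n : ℕ) : ∀ l : List E, l.length = n →
    ∀ l' ∈ (S p E (Finsupp.single l 1)).support, l'.length = l.length ∧
      (∀ a ∈ l', a ∈ convexHull ℝ {b | b ∈ l}) ∧
      ∀ D : ℝ, l.length ≤ N → (∀ a ∈ l, ∀ b ∈ l, ‖a - b‖ ≤ D) →
        ∀ a ∈ l', ∀ b ∈ l', ‖a - b‖ ≤ (1 - 1 / (N : ℝ)) * D := by
  have hN' : (1 : ℝ) ≤ N := by exact_mod_cast hN
  have hN1 : 0 ≤ 1 - 1 / (N : ℝ) := by
    rw [sub_nonneg, div_le_one (by linarith)]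
    exact hN'
  induction n with
  | zero =>
    intro l hl l' hl'
    rw [List.length_eq_zero_iff] at hl
    subst hl
    rw [S_nil] at hl'
    have h1 := Finsupp.support_single_subset hl'
    rw [Finset.mem_singleton] at h1
    subst h1
    exact ⟨rfl, fun a ha => absurd ha List.not_mem_nil,
      fun D _ _ a ha => absurd ha List.not_mem_nil⟩
  | succ n ih =>
    intro l hl l' hl'
    cases l with
    | nil => simp at hl
    | cons x l =>
      rw [S_cons] at hl'
      obtain ⟨l'', hl'', rfl⟩ := support_cone _ _ hl'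
      obtain ⟨m, hm, hm'⟩ := support_lin (S p E) _ hl''
      obtain ⟨hsub, hlen⟩ := support_dl (x :: l) hm
      have hml : m.length = n := by omega
      obtain ⟨i1, i2, i3⟩ := ih m hml l'' hm'
      have hss : {b | b ∈ m} ⊆ {b | b ∈ x :: l} := fun b hb => hsub.subset hb
      have hmem : ∀ a ∈ l'', a ∈ convexHull ℝ {b | b ∈ x :: l} := fun a ha =>
        convexHull_mono hss (i2 a ha)
      have hbar : bar (x :: l) ∈ convexHull ℝ {b | b ∈ x :: l} := bar_mem (List.cons_ne_nil x l)
      refine ⟨?_, ?_, ?_⟩
      · rw [List.length_cons, i1, hlen]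
      · intro a ha
        rcases List.mem_cons.1 ha with rfl | ha
        · exact hbar
        · exact hmem a ha
      · intro D hle hD a ha b hb
        have hD0 : 0 ≤ D := by
          have := hD x List.mem_cons_self x List.mem_cons_self
          rwa [sub_self, norm_zero] at this
        have hfac : (1 - 1 / ((x :: l).length : ℝ)) * D ≤ (1 - 1 / (N : ℝ)) * D := by
          refine mul_le_mul_of_nonneg_right ?_ hD0
          have h1 : (0 : ℝ) < (x :: l).length := by
            rw [List.length_cons]
            positivity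
          have h2 : ((x :: l).length : ℝ) ≤ N := by exact_mod_cast hle
          have h3 := one_div_le_one_div_of_le h1 h2
          linarith
        rcases List.mem_cons.1 ha with rfl | ha
        · rcases List.mem_cons.1 hb with rfl | hb
          · rw [sub_self, norm_zero]
            exact mul_nonneg hN1 hD0
          · exact (bar_hull hD (hmem b hb)).trans hfac
        · rcases List.mem_cons.1 hb with rfl | hb
          · rw [norm_sub_rev]
            exact (bar_hull hD (hmem a ha)).trans hfac
          · exact i3 D (by omega) (fun a ha b hb => hD a (hss ha) b (hss hb)) a ha b hb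

end

end BU2

theorem pBU2 : StBU2 := by
  intro p _ E _ _ N hN
  exact ⟨BU2.S p E, BU2.dd_S, BU2.mp_S, BU2.S_nil, fun l l' hl' =>
    BU2.supp N hN l.length l rfl l' hl'⟩

end DV
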