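import Pool.Agent.Helper53.DV.St
import Pool.Agent.Helper53.DV.Api

/-! DV project, module BU3: Borsuk-Ulam for labellings of the join. -/

set_option autoImplicit false

open scoped BigOperators

namespace DV

namespace BU3

variable {p N : ℕ}

theorem tau_vx (k g : ZMod p) (j : Fin N) : tau k (vx j g) = vx j (g + k) := by
  funext q
  show vx j g (q.1, q.2 - k) = vx j (g + k) q
  unfold vx
  have h : ((q.1, q.2 - k) = (j, g)) ↔ (q = (j, g + k)) := by
    rw [Prod.ext_iff, Prod.ext_iff]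
    simp only [sub_eq_iff_eq_add]
  rw [Pi.single_apply, Pi.single_apply]
  by_cases h1 : q = (j, g + k)
  · rw [if_pos h1, if_pos (h.2 h1)]
  · rw [if_neg h1, if_neg (fun h2 => h1 (h.1 h2))]

theorem tau_tau (k k' : ZMod p) (v : Fin N × ZMod p → ℝ) : tau k (tau k' v) = tau (k + k') v := by
  funext q
  show v (q.1, q.2 - k - k') = v (q.1, q.2 - (k + k'))
  rw [sub_sub]

theorem vx_dist [NeZero p] (i i' : Fin N) (g g' : ZMod p) : ‖vx i g - vx i' g'‖ ≤ 1 := by
  rw [pi_norm_le_iff_of_nonneg zero_le_one]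
  intro q
  unfold vx
  rw [Pi.sub_apply, Pi.single_apply, Pi.single_apply]
  split_ifs <;> norm_num

/-- lists with a property, under linear operations -/
def Gd {E : Type*} (P : List E → Prop) (x : Ch p E) : Prop := ∀ l ∈ x.support, P l

theorem gd_add {E : Type*} {P : List E → Prop} {x y : Ch p E} (hx : Gd P x) (hy : Gd P y) : Gd P (x + y) := by
  classical
  intro l hl
  rcases Finset.mem_union.1 (Finsupp.support_add hl) with h | h
  · exact hx l h
  · exact hy l h

theorem gd_sub {E : Type*} {P : List E → Prop} {x y : Ch p E} (hx : Gd P x) (hy : Gd P y) : Gd P (x - y) := by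
  classical
  intro l hl
  rcases Finset.mem_union.1 (Finsupp.support_sub hl) with h | h
  · exact hx l h
  · exact hy l h

theorem gd_sum {E ι : Type*} {P : List E → Prop} (s : Finset ι) {x : ι → Ch p E} (hx : ∀ i ∈ s, Gd P (x i)) :
    Gd P (∑ i ∈ s, x i) := by
  classical
  induction s using Finset.induction_on with
  | empty =>
    intro l hl
    simp at hl
  | insert a s ha ih =>
    rw [Finset.sum_insert ha]
    exact gd_add (hx a (Finset.mem_insert_self a s)) (ih fun i hi => hx i (Finset.mem_insert_of_mem hi))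

theorem gd_mp {E F : Type*} {P : List E → Prop} {Q : List F → Prop} (f : E → F) {x : Ch p E} (hx : Gd P x)
    (h : ∀ l, P l → Q (l.map f)) : Gd Q (mp p f x) := by
  intro l hl
  obtain ⟨m, hm, rfl⟩ := support_mp f x hl
  exact h m (hx m hm)

theorem gd_al [NeZero p] {E : Type*} {P : List E → Prop} (g : ZMod p → E → E) (j : ℕ) {x : Ch p E} (hx : Gd P x)
    (h : ∀ k l, P l → P (l.map (g k))) : Gd P (al p g j x) := by
  by_cases hj : Odd j
  · rw [al_odd g hj]
    exact gd_sub (gd_mp (g 1) hx (h 1)) hx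
  · rw [al_even g hj]
    exact gd_sum _ fun k _ => gd_mp (g k) hx (h k)

theorem mp_congr {E F : Type*} (f f' : E → F) {x : Ch p E} (h : ∀ l ∈ x.support, l.map f = l.map f') :
    mp p f x = mp p f' x := by
  unfold mp
  rw [Finsupp.lmapDomain_apply, Finsupp.lmapDomain_apply]
  exact Finsupp.mapDomain_congr h

theorem al_al [NeZero p] {E : Type*} (g : ZMod p → E → E) (hg : ∀ k k' v, g k (g k' v) = g (k + k') v) (j : ℕ)
    (x : Ch p E) : al p g (j + 1) (al p g j x) = 0 := by
  have hshift : ∀ y : Ch p E, ∑ k : ZMod p, mp p (g (1 + k)) y = ∑ k : ZMod p, mp p (g k) y := fun y =>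
    Equiv.sum_comp (Equiv.addLeft (1 : ZMod p)) fun k => mp p (g k) y
  have hshift' : ∀ y : Ch p E, ∑ k : ZMod p, mp p (g (k + 1)) y = ∑ k : ZMod p, mp p (g k) y := fun y =>
    Equiv.sum_comp (Equiv.addRight (1 : ZMod p)) fun k => mp p (g k) y
  by_cases hj : Odd j
  · have hj1 : ¬ Odd (j + 1) := by
      rw [Nat.not_odd_iff_even]
      exact hj.add_one
    rw [al_odd g hj, al_even g hj1]
    have h1 : ∀ k : ZMod p, mp p (g k) (mp p (g 1) x - x) = mp p (g (k + 1)) x - mp p (g k) x := by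
      intro k
      have h2 : g k ∘ g 1 = g (k + 1) := funext fun v => hg k 1 v
      rw [map_sub, mp_mp, h2]
    rw [Finset.sum_congr rfl fun k _ => h1 k, Finset.sum_sub_distrib, hshift', sub_self]
  · have hj1 : Odd (j + 1) := by
      rw [Nat.not_odd_iff_even] at hj
      exact hj.add_one
    rw [al_even g hj, al_odd g hj1, map_sum]
    have h1 : ∀ k : ZMod p, mp p (g 1) (mp p (g k) x) = mp p (g (1 + k)) x := by
      intro k
      have h2 : g 1 ∘ g k = g (1 + k) := funext fun v => hg 1 k v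
      rw [mp_mp, h2]
    rw [Finset.sum_congr rfl fun k _ => h1 k, hshift, sub_self]

/-- the basic chains -/
noncomputable def cc [NeZero p] (ix : ℕ → Fin N) : ℕ → Ch p (Fin N × ZMod p → ℝ)
  | 0 => Finsupp.single [vx (ix 0) 0] 1
  | j + 1 => cone p (vx (ix (j + 1)) 0) (al p (fun k => ⇑(tau (p := p) (N := N) k)) (j + 1) (cc ix j))

theorem dd_cc0 [NeZero p] (ix : ℕ → Fin N) : dd p (cc (p := p) ix 0) = Finsupp.single [] 1 := by
  unfold cc
  rw [dd_single, one_smul, dl_cons, dl_nil, map_zero, sub_zero]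

theorem dd_cc [NeZero p] (ix : ℕ → Fin N) (j : ℕ) :
    dd p (cc (p := p) ix (j + 1)) = al p (fun k => ⇑(tau (p := p) (N := N) k)) (j + 1) (cc ix j) := by
  induction j with
  | zero =>
    have h1 : cc (p := p) ix 1 = cone p (vx (ix 1) 0) (al p (fun k => ⇑(tau (p := p) (N := N) k)) 1 (cc ix 0)) := rfl
    rw [h1, dd_cone, dd_al, dd_cc0]
    have h2 : al p (fun k => ⇑(tau (p := p) (N := N) k)) 1 (Finsupp.single [] 1) = 0 := by
      rw [al_odd _ odd_one, mp_single, List.map_nil, sub_self]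
    rw [h2, map_zero, sub_zero]
  | succ j ih =>
    have h1 : cc (p := p) ix (j + 1 + 1) = cone p (vx (ix (j + 1 + 1)) 0)
      (al p (fun k => ⇑(tau (p := p) (N := N) k)) (j + 1 + 1) (cc ix (j + 1))) := rfl
    rw [h1, dd_cone, dd_al, ih, al_al _ (fun k k' v => tau_tau k k' v), map_zero, sub_zero]

/-- lists of vertices of one simplex, with indices at most `j` -/
def Pv (p N j : ℕ) (l : List (Fin N × ZMod p → ℝ)) : Prop :=
  l.length = j + 1 ∧ ∃ n : Fin N → ZMod p, ∀ v ∈ l, ∃ i : Fin N, i.1 ≤ j ∧ v = vx i (n i)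

theorem pv_tau {j : ℕ} (k : ZMod p) (l : List (Fin N × ZMod p → ℝ)) (h : Pv p N j l) :
    Pv p N j (l.map ⇑(tau (p := p) (N := N) k)) := by
  obtain ⟨h1, n, h2⟩ := h
  refine ⟨by rw [List.length_map, h1], fun i => n i + k, fun v hv => ?_⟩
  obtain ⟨w, hw, rfl⟩ := List.mem_map.1 hv
  obtain ⟨i, hi, rfl⟩ := h2 w hw
  exact ⟨i, hi, tau_vx k (n i) i⟩

theorem gd_cc [NeZero p] (ix : ℕ → Fin N) (J : ℕ) (hix : ∀ j ≤ J, (ix j).1 = j) :
    ∀ j ≤ J, Gd (Pv p N j) (cc (p := p) ix j) := by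
  intro j
  induction j with
  | zero =>
    intro _ l hl
    have h1 := Finsupp.support_single_subset hl
    rw [Finset.mem_singleton] at h1
    subst h1
    refine ⟨rfl, fun _ => 0, fun v hv => ⟨ix 0, ?_, ?_⟩⟩
    · rw [hix 0 (Nat.zero_le J)]
    · exact List.mem_singleton.1 hv
  | succ j ih =>
    intro hj l hl
    have h1 : cc (p := p) ix (j + 1) = cone p (vx (ix (j + 1)) 0)
      (al p (fun k => ⇑(tau (p := p) (N := N) k)) (j + 1) (cc ix j)) := rfl
    rw [h1] at hl
    obtain ⟨m, hm, rfl⟩ := support_cone _ _ hl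
    obtain ⟨h2, n, h3⟩ := gd_al _ (j + 1) (ih (by omega)) (fun k l h => pv_tau k l h) m hm
    refine ⟨by rw [List.length_cons, h2], Function.update n (ix (j + 1)) 0, fun v hv => ?_⟩
    have hval := hix (j + 1) hj
    rcases List.mem_cons.1 hv with rfl | hv
    · exact ⟨ix (j + 1), by rw [hval], by rw [Function.update_self]⟩
    · obtain ⟨i, hi, rfl⟩ := h3 v hv
      refine ⟨i, by omega, ?_⟩
      rw [Function.update_of_ne]
      intro h
      rw [h, hval] at hi
      omega

/-- small lists in one simplex -/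
def Ps (p N j : ℕ) [NeZero p] (δ : ℝ) (l : List (Fin N × ZMod p → ℝ)) : Prop :=
  l.length = j + 1 ∧ ∃ n : Fin N → ZMod p, (∀ v ∈ l, v ∈ smx n) ∧ ∀ v ∈ l, ∀ w ∈ l, ‖v - w‖ ≤ δ

theorem ps_pv [NeZero p] {j : ℕ} (l : List (Fin N × ZMod p → ℝ)) (h : Pv p N j l) : Ps p N j 1 l := by
  obtain ⟨h1, n, h2⟩ := h
  refine ⟨h1, n, fun v hv => ?_, fun v hv w hw => ?_⟩
  · obtain ⟨i, -, rfl⟩ := h2 v hv
    exact subset_convexHull ℝ _ (Set.mem_range_self i)
  · obtain ⟨i, -, rfl⟩ := h2 v hv
    obtain ⟨i', -, rfl⟩ := h2 w hw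
    exact vx_dist i i' (n i) (n i')

end BU3

open BU3 in
/-- MODULE BU3 -/
theorem pBU3 (h1 : StBU1) (h2 : StBU2) : StBU3 := by
  intro p T N _ hN lam δ hδ heq hfib
  have hN0 : 1 ≤ N := by omega
  obtain ⟨S, hSd, hSm, hS0, hSs⟩ := h2 p (Fin N × ZMod p → ℝ) N hN0
  have hNR : (0 : ℝ) < N := by exact_mod_cast hN0
  have hy0 : 0 ≤ 1 - 1 / (N : ℝ) := by
    have : 1 / (N : ℝ) ≤ 1 := by
      rw [div_le_one hNR]
      exact_mod_cast hN0
    linarith
  have hy1 : 1 - 1 / (N : ℝ) < 1 := by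
    have : 0 < 1 / (N : ℝ) := by positivity
    linarith
  obtain ⟨r, hr⟩ := exists_pow_lt_of_lt_one hδ hy1
  -- the iterates of the subdivision
  have hRd : ∀ (r : ℕ) (x : Ch p (Fin N × ZMod p → ℝ)), dd p ((S ^ r) x) = (S ^ r) (dd p x) := by
    intro r
    induction r with
    | zero => intro x; rfl
    | succ r ih =>
      intro x
      rw [pow_succ', Module.End.mul_apply, Module.End.mul_apply, hSd, ih]
  have hRm : ∀ (r : ℕ) (f : (Fin N × ZMod p → ℝ) →ₗ[ℝ] (Fin N × ZMod p → ℝ)) (x : Ch p (Fin N × ZMod p → ℝ)),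
      (S ^ r) (mp p f x) = mp p f ((S ^ r) x) := by
    intro r f
    induction r with
    | zero => intro x; rfl
    | succ r ih =>
      intro x
      rw [pow_succ', Module.End.mul_apply, Module.End.mul_apply, ih, hSm]
  have hR0 : ∀ r : ℕ, (S ^ r) (Finsupp.single [] 1) = Finsupp.single [] 1 := by
    intro r
    induction r with
    | zero => rfl
    | succ r ih => rw [pow_succ', Module.End.mul_apply, ih, hS0]
  have hRa : ∀ (r j : ℕ) (x : Ch p (Fin N × ZMod p → ℝ)), (S ^ r) (al p (fun k => ⇑(tau (p := p) (N := N) k)) j x) =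
      al p (fun k => ⇑(tau (p := p) (N := N) k)) j ((S ^ r) x) := by
    intro r j x
    by_cases hj : Odd j
    · rw [al_odd _ hj, al_odd _ hj, map_sub, hRm]
    · rw [al_even _ hj, al_even _ hj, map_sum]
      exact Finset.sum_congr rfl fun k _ => hRm r (tau k) x
  have hRs : ∀ (j : ℕ), j + 1 ≤ N → ∀ (r : ℕ) (x : Ch p (Fin N × ZMod p → ℝ)), Gd (Ps p N j 1) x →
      Gd (Ps p N j ((1 - 1 / (N : ℝ)) ^ r)) ((S ^ r) x) := by
    intro j hj r
    induction r with
    | zero => intro x hx; simpa using hx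
    | succ r ih =>
      intro x hx l hl
      rw [pow_succ', Module.End.mul_apply] at hl
      obtain ⟨m, hm, hlm⟩ := support_lin S _ hl
      obtain ⟨k1, n, k2, k3⟩ := ih x hx m hm
      obtain ⟨k4, k5, k6⟩ := hSs m l hlm
      refine ⟨by rw [k4, k1], n, fun v hv => ?_, fun v hv w hw => ?_⟩
      · have h3 : convexHull ℝ {b | b ∈ m} ⊆ smx n := convexHull_min (fun b hb => k2 b hb) (convex_convexHull ℝ _)
        exact h3 (k5 v hv)
      · rw [pow_succ']
        exact k6 _ (by omega) k3 v hv w hw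
  -- the chains
  set J := T * (p - 1) with hJ
  let ix : ℕ → Fin N := fun j => if h : j < N then ⟨j, h⟩ else ⟨0, by omega⟩
  have hix : ∀ j ≤ J, (ix j).1 = j := by
    intro j hj
    have h : j < N := by omega
    show (if h : j < N then (⟨j, h⟩ : Fin N) else ⟨0, by omega⟩).1 = j
    rw [dif_pos h]
  have hc := gd_cc (p := p) ix J hix
  have hsm : ∀ j ≤ J, Gd (Ps p N j ((1 - 1 / (N : ℝ)) ^ r)) ((S ^ r) (cc ix j)) := by
    intro j hj
    apply hRs j (by omega) r
    intro l hl
    exact ps_pv l (hc j hj l hl)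
  refine h1 p T (fun j => mp p lam ((S ^ r) (cc ix j))) ?_ ?_ ?_
  · intro j hj l hl
    obtain ⟨m, hm, rfl⟩ := support_mp lam _ hl
    obtain ⟨k1, n, k2, k3⟩ := hsm j hj m hm
    refine ⟨by rw [List.length_map, k1], ?_⟩
    exact hfib n m k2 fun v hv w hw => (k3 v hv w hw).trans hr.le
  · show dd p (mp p lam ((S ^ r) (cc ix 0))) = _
    rw [← mp_dd, hRd, dd_cc0, hR0, mp_single, List.map_nil]
  · intro j hj
    show dd p (mp p lam ((S ^ r) (cc ix (j + 1)))) = al p shl (j + 1) (mp p lam ((S ^ r) (cc ix j)))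
    rw [← mp_dd, hRd, dd_cc, hRa]
    have hkey : ∀ k : ZMod p, mp p lam (mp p (⇑(tau (p := p) (N := N) k)) ((S ^ r) (cc ix j))) =
        mp p (shl k) (mp p lam ((S ^ r) (cc ix j))) := by
      intro k
      rw [mp_mp, mp_mp]
      apply mp_congr
      intro l hl
      obtain ⟨k1, n, k2, k3⟩ := hsm j hj.le l hl
      apply List.map_congr_left
      intro v hv
      exact heq n v (k2 v hv) k
    by_cases hj' : Odd (j + 1)
    · rw [al_odd _ hj', al_odd _ hj', map_sub, hkey]
    · rw [al_even _ hj', al_even _ hj', map_sum]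
      exact Finset.sum_congr rfl fun k _ => hkey k

end DV

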