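import Pool.Agent.Helper53.DV.St

/-! DV project, module BU4: a common point of constancy of test functions. -/

set_option autoImplicit false

open scoped BigOperators

namespace DV

namespace BU4

variable {p N T : ℕ}

/-- The barycentric coordinates. -/
noncomputable def tt [NeZero p] (v : Fin N × ZMod p → ℝ) (j : Fin N) : ℝ := ∑ g : ZMod p, v (j, g)

open Classical in
/-- The vertex of the fibre. -/
noncomputable def nn (v : Fin N × ZMod p → ℝ) (j : Fin N) : ZMod p :=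
  if h : ∃ g, v (j, g) ≠ 0 then h.choose else 0

/-- The point `v` is in the simplex `n`. -/
def Rn [NeZero p] (n : Fin N → ZMod p) (v : Fin N × ZMod p → ℝ) : Prop :=
  tt v ∈ stdSimplex ℝ (Fin N) ∧ ∀ j g, v (j, g) = if g = n j then tt v j else 0

theorem Rn_of_mem [NeZero p] {n : Fin N → ZMod p} {v : Fin N × ZMod p → ℝ} (hv : v ∈ smx n) : Rn n v := by
  have h1 : smx n ⊆ {v | ∃ t ∈ stdSimplex ℝ (Fin N), ∀ j g, v (j, g) = if g = n j then t j else 0} := by
    refine convexHull_min ?_ ?_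
    · rintro _ ⟨i, rfl⟩
      refine ⟨Pi.single i 1, single_mem_stdSimplex ℝ i, fun j g => ?_⟩
      change vx i (n i) (j, g) = _
      unfold vx
      by_cases hj : j = i
      · subst hj
        by_cases hg : g = n j
        · subst hg
          rw [Pi.single_eq_same, if_pos rfl, Pi.single_eq_same]
        · rw [if_neg hg, Pi.single_eq_of_ne]
          intro h
          exact hg (congrArg Prod.snd h)
      · rw [Pi.single_eq_of_ne (fun h => hj (congrArg Prod.fst h)), Pi.single_eq_of_ne hj, ite_self]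
    · rintro v ⟨t, ht, hvt⟩ w ⟨s, hs, hws⟩ a b ha hb hab
      refine ⟨a • t + b • s, convex_stdSimplex ℝ (Fin N) ht hs ha hb hab, fun j g => ?_⟩
      rw [Pi.add_apply, Pi.smul_apply, Pi.smul_apply, hvt, hws, Pi.add_apply, Pi.smul_apply, Pi.smul_apply]
      simp only [smul_eq_mul]
      split_ifs <;> ring
  obtain ⟨t, ht, hvt⟩ := h1 hv
  have h2 : tt v = t := by
    funext j
    unfold tt
    rw [Finset.sum_congr rfl fun g _ => hvt j g]
    simp
  unfold Rn
  rw [h2]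
  exact ⟨ht, hvt⟩

theorem tt_tau [NeZero p] (k : ZMod p) (v : Fin N × ZMod p → ℝ) : tt (tau k v) = tt v := by
  funext j
  unfold tt
  exact Fintype.sum_equiv (Equiv.subRight k) _ _ fun g => rfl

theorem Rn_tau [NeZero p] {n : Fin N → ZMod p} {v : Fin N × ZMod p → ℝ} (hv : Rn n v) (k : ZMod p) :
    Rn (fun j => n j + k) (tau k v) := by
  refine ⟨by rw [tt_tau]; exact hv.1, fun j g => ?_⟩
  rw [tt_tau]
  change v (j, g - k) = _
  rw [hv.2]
  refine if_congr ?_ rfl rfl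
  exact sub_eq_iff_eq_add

theorem nn_eq [NeZero p] {n : Fin N → ZMod p} {v : Fin N × ZMod p → ℝ} (hv : Rn n v) {j : Fin N}
    (hj : tt v j ≠ 0) : nn v j = n j := by
  classical
  have h : ∃ g, v (j, g) ≠ 0 := ⟨n j, by rw [hv.2, if_pos rfl]; exact hj⟩
  unfold nn
  rw [dif_pos h]
  by_contra hne
  have h1 := h.choose_spec
  rw [hv.2, if_neg hne] at h1
  exact h1 rfl

theorem norm_tt [NeZero p] {n : Fin N → ZMod p} {v w : Fin N × ZMod p → ℝ} (hv : Rn n v) (hw : Rn n w) :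
    ‖tt v - tt w‖ ≤ ‖v - w‖ := by
  rw [pi_norm_le_iff_of_nonneg (norm_nonneg _)]
  intro j
  have h1 := norm_le_pi_norm (v - w) (j, n j)
  rw [Pi.sub_apply, hv.2, hw.2, if_pos rfl, if_pos rfl] at h1
  exact h1

theorem exists_ne {t : Fin N → ℝ} (ht : t ∈ stdSimplex ℝ (Fin N)) : ∃ j, t j ≠ 0 := by
  by_contra h
  push Not at h
  have h1 := ht.2
  rw [Finset.sum_eq_zero fun j _ => h j] at h1
  exact zero_ne_one h1

theorem exists_kappa [NeZero p] (f : Fin T → (Fin N → ℝ) → (Fin N → ZMod p) → ℝ)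
    (hne : (stdSimplex ℝ (Fin N)).Nonempty)
    (hc : ∀ a n, ContinuousOn (fun t => f a t n) (stdSimplex ℝ (Fin N)))
    (h : ∀ t ∈ stdSimplex ℝ (Fin N), ∀ n : Fin N → ZMod p, ∃ a g, f a t (fun j => n j + g) ≠ f a t n) :
    ∃ κ : ℝ, 0 < κ ∧ ∀ t ∈ stdSimplex ℝ (Fin N), ∀ n : Fin N → ZMod p,
      ∃ a g, κ ≤ |f a t (fun j => n j + g) - f a t n| := by
  have h1 : ∀ n : Fin N → ZMod p, ∃ c : ℝ, 0 < c ∧ ∀ t ∈ stdSimplex ℝ (Fin N),
      c ≤ ∑ q : Fin T × ZMod p, |f q.1 t (fun j => n j + q.2) - f q.1 t n| := by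
    intro n
    have hcont : ContinuousOn (fun t => ∑ q : Fin T × ZMod p, |f q.1 t (fun j => n j + q.2) - f q.1 t n|)
        (stdSimplex ℝ (Fin N)) :=
      continuousOn_finsetSum _ fun q _ => ((hc q.1 _).sub (hc q.1 _)).abs
    obtain ⟨t0, ht0, hmin⟩ := (isCompact_stdSimplex ℝ (Fin N)).exists_isMinOn hne hcont
    refine ⟨_, ?_, fun t ht => hmin ht⟩
    obtain ⟨a, g, hag⟩ := h t0 ht0 n
    have h2 : 0 < |f a t0 (fun j => n j + g) - f a t0 n| := abs_pos.2 (sub_ne_zero.2 hag)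
    exact lt_of_lt_of_le h2 (Finset.single_le_sum
      (f := fun q : Fin T × ZMod p => |f q.1 t0 (fun j => n j + q.2) - f q.1 t0 n|)
      (fun q _ => abs_nonneg _) (Finset.mem_univ (a, g)))
  choose c hc0 hc1 using h1
  obtain ⟨n0, hn0⟩ := Finite.exists_min c
  have hcard : (0 : ℝ) < (Fintype.card (Fin T × ZMod p) : ℝ) + 1 := by positivity
  refine ⟨c n0 / ((Fintype.card (Fin T × ZMod p) : ℝ) + 1), div_pos (hc0 n0) hcard, fun t ht n => ?_⟩
  by_contra hcon
  push Not at hcon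
  have h2 : ∑ q : Fin T × ZMod p, |f q.1 t (fun j => n j + q.2) - f q.1 t n| ≤
      ∑ _q : Fin T × ZMod p, c n0 / ((Fintype.card (Fin T × ZMod p) : ℝ) + 1) :=
    Finset.sum_le_sum fun q _ => (hcon q.1 q.2).le
  rw [Finset.sum_const, Finset.card_univ, nsmul_eq_mul, mul_div_assoc'] at h2
  have h3 : (Fintype.card (Fin T × ZMod p) : ℝ) * c n0 / ((Fintype.card (Fin T × ZMod p) : ℝ) + 1) < c n0 := by
    rw [div_lt_iff₀ hcard]
    have := hc0 n0
    nlinarith
  have h4 := hc1 n t ht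
  have h5 := hn0 n
  linarith

theorem exists_delta [NeZero p] (f : Fin T → (Fin N → ℝ) → (Fin N → ZMod p) → ℝ)
    (hc : ∀ a n, ContinuousOn (fun t => f a t n) (stdSimplex ℝ (Fin N))) (ε : ℝ) (hε : 0 < ε) :
    ∃ δ : ℝ, 0 < δ ∧ ∀ t ∈ stdSimplex ℝ (Fin N), ∀ t' ∈ stdSimplex ℝ (Fin N), ‖t - t'‖ ≤ δ →
      ∀ a n, |f a t n - f a t' n| ≤ ε := by
  have h1 : ContinuousOn (fun t => fun q : Fin T × (Fin N → ZMod p) => f q.1 t q.2)
      (stdSimplex ℝ (Fin N)) := continuousOn_pi.2 fun q => hc q.1 q.2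
  have h2 := (isCompact_stdSimplex ℝ (Fin N)).uniformContinuousOn_of_continuous h1
  rw [Metric.uniformContinuousOn_iff_le] at h2
  obtain ⟨δ, hδ, h3⟩ := h2 ε hε
  refine ⟨δ, hδ, fun t ht t' ht' hd a n => ?_⟩
  have h4 := h3 t ht t' ht' (by rwa [dist_eq_norm])
  have h5 := (dist_pi_le_iff hε.le).1 h4 (a, n)
  rwa [Real.dist_eq] at h5

/-- A choice of a label for a table of values. -/
theorem exists_choice [NeZero p] (hT : 0 < T) (κ : ℝ) : ∃ ch : (Fin T → ZMod p → ℝ) → ZMod p × Fin T,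
    ∀ F : Fin T → ZMod p → ℝ, (∃ a g g', κ ≤ F a g - F a g') →
      (∃ g g', κ ≤ F (ch F).2 g - F (ch F).2 g') ∧ ∀ c, F (ch F).2 c ≤ F (ch F).2 (ch F).1 := by
  have h1 : ∀ F : Fin T → ZMod p → ℝ, ∃ q : ZMod p × Fin T, (∃ a g g', κ ≤ F a g - F a g') →
      (∃ g g', κ ≤ F q.2 g - F q.2 g') ∧ ∀ c, F q.2 c ≤ F q.2 q.1 := by
    intro F
    by_cases h : ∃ a g g', κ ≤ F a g - F a g'
    · obtain ⟨a, hg⟩ := h
      obtain ⟨m, hm⟩ := Finite.exists_max (F a)
      exact ⟨(m, a), fun _ => ⟨hg, hm⟩⟩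
    · exact ⟨(0, ⟨0, hT⟩), fun h' => absurd h' h⟩
  choose ch hch using h1
  exact ⟨ch, hch⟩

end BU4

open BU4 in
theorem pBU4 (h3 : StBU3) : StBU4 := by
  intro p T N hp hN f hc hi
  have hN1 : 0 < N := lt_of_lt_of_le (Nat.succ_pos _) hN
  have hne : (stdSimplex ℝ (Fin N)).Nonempty := ⟨_, single_mem_stdSimplex ℝ (⟨0, hN1⟩ : Fin N)⟩
  rcases Nat.eq_zero_or_pos T with hT | hT
  · subst hT
    obtain ⟨t, ht⟩ := hne
    exact ⟨t, ht, fun _ => 0, fun a => a.elim0⟩
  by_contra hcon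
  push Not at hcon
  obtain ⟨κ, hκ, hκ2⟩ := exists_kappa f hne hc hcon
  obtain ⟨δ, hδ, hδ2⟩ := exists_delta f hc (κ / 8) (by positivity)
  obtain ⟨ch, hch⟩ := exists_choice (p := p) hT κ
  -- a coordinate which does not vanish
  have hj0 : ∀ t : Fin N → ℝ, ∃ j : Fin N, (∃ j, t j ≠ 0) → t j ≠ 0 := by
    intro t
    by_cases h : ∃ j, t j ≠ 0
    · exact ⟨h.choose, fun _ => h.choose_spec⟩
    · exact ⟨⟨0, hN1⟩, fun h' => absurd h' h⟩
  choose j0 hj0 using hj0
  -- the base point and the table of values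
  let b : (Fin N × ZMod p → ℝ) → ZMod p := fun v => nn v (j0 (tt v))
  let F : (Fin N × ZMod p → ℝ) → Fin T → ZMod p → ℝ := fun v a c => f a (tt v) (fun j => nn v j - b v - c)
  have hb : ∀ n v, Rn n v → b v = n (j0 (tt v)) := fun n v hv => nn_eq hv (hj0 _ (exists_ne hv.1))
  have hF : ∀ n v, Rn n v → ∀ a c, F v a c = f a (tt v) (fun j => n j - b v - c) := by
    intro n v hv a c
    exact hi a (tt v) _ _ hv.1 fun j hj => by rw [nn_eq hv hj]
  have hbt : ∀ n v, Rn n v → ∀ k, b (tau k v) = b v + k := by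
    intro n v hv k
    rw [hb _ _ (Rn_tau hv k), hb _ _ hv, tt_tau]
  have hFt : ∀ n v, Rn n v → ∀ k, F (tau k v) = F v := by
    intro n v hv k
    funext a c
    rw [hF _ _ (Rn_tau hv k), hF _ _ hv, tt_tau, hbt n v hv k]
    congr 1
    funext j
    ring
  have hQ : ∀ n v, Rn n v → ∃ a g g', κ ≤ F v a g - F v a g' := by
    intro n v hv
    obtain ⟨a, g, hag⟩ := hκ2 (tt v) hv.1 (fun j => n j - b v)
    have e1 : F v a (-g) = f a (tt v) (fun j => n j - b v + g) := by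
      rw [hF n v hv]
      congr 1
      funext j
      ring
    have e2 : F v a 0 = f a (tt v) (fun j => n j - b v) := by
      rw [hF n v hv]
      congr 1
      funext j
      ring
    rw [← e1, ← e2] at hag
    rcases le_abs.1 hag with h | h
    · exact ⟨a, -g, 0, h⟩
    · exact ⟨a, 0, -g, by linarith⟩
  refine h3 p T N hN (fun v => (b v + (ch (F v)).1, (ch (F v)).2)) δ hδ ?_ ?_
  · intro n v hv k
    have hR := Rn_of_mem hv
    change (b (tau k v) + (ch (F (tau k v))).1, (ch (F (tau k v))).2) =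
      (b v + (ch (F v)).1 + k, (ch (F v)).2)
    rw [hbt n v hR k, hFt n v hR k]
    congr 1
    ring
  · intro n l hl hd a
    by_contra hno
    push Not at hno
    have h4 : ∀ g : ZMod p, ∃ v ∈ l, b v + (ch (F v)).1 = g ∧ (ch (F v)).2 = a := by
      intro g
      obtain ⟨v, hv, he⟩ := List.mem_map.1 (hno g)
      exact ⟨v, hv, congrArg Prod.fst he, congrArg Prod.snd he⟩
    choose w hw hw1 hw2 using h4
    have hR : ∀ g, Rn n (w g) := fun g => Rn_of_mem (hl _ (hw g))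
    have h5 : ∀ g g' : ZMod p, f a (tt (w g)) (fun j => n j - g') ≤ f a (tt (w g)) (fun j => n j - g) := by
      intro g g'
      have h6 := (hch (F (w g)) (hQ n _ (hR g))).2 (g' - b (w g))
      rw [hw2 g, hF n _ (hR g), hF n _ (hR g)] at h6
      have e1 : (fun j => n j - b (w g) - (g' - b (w g))) = fun j => n j - g' := by
        funext j
        ring
      have e2 : (fun j => n j - b (w g) - (ch (F (w g))).1) = fun j => n j - g := by
        funext j
        linear_combination (-1 : ZMod p) * hw1 g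
      rw [e1, e2] at h6
      exact h6
    have h7 : ∀ g g' : ZMod p, f a (tt (w 0)) (fun j => n j - g') - f a (tt (w 0)) (fun j => n j - g) ≤ κ / 4 := by
      intro g g'
      have hdd : ‖tt (w 0) - tt (w g)‖ ≤ δ :=
        le_trans (norm_tt (hR 0) (hR g)) (hd _ (hw 0) _ (hw g))
      have a1 := abs_le.1 (hδ2 _ (hR 0).1 _ (hR g).1 hdd a (fun j => n j - g'))
      have a2 := abs_le.1 (hδ2 _ (hR 0).1 _ (hR g).1 hdd a (fun j => n j - g))
      have a3 := h5 g g'
      linarith [a1.2, a2.1]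
    obtain ⟨g, g', hgg⟩ := (hch (F (w 0)) (hQ n _ (hR 0))).1
    rw [hw2 0, hF n _ (hR 0), hF n _ (hR 0)] at hgg
    have e1 : ∀ c : ZMod p, (fun j => n j - b (w 0) - c) = fun j => n j - (b (w 0) + c) := by
      intro c
      funext j
      ring
    rw [e1, e1] at hgg
    have h8 := h7 (b (w 0) + g') (b (w 0) + g)
    linarith

end DV
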