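import Pool.Agent.Helper53.DV.St

/-!
# DV project, module CF
-/

set_option autoImplicit false

open scoped BigOperators RealInnerProductSpace
open MeasureTheory

namespace DV

namespace CF

variable {P m N : ℕ}

theorem cont {ι : Type*} [Fintype ι] {η : ℝ} (hη : 0 ≤ η) {Φ : Seminorm ℝ (ι → ℝ)}
    (hΦ : NearMax η Φ) : Continuous Φ := by
  have hL : LipschitzWith (Real.toNNReal (1 + η)) Φ := by
    refine LipschitzWith.of_dist_le_mul fun x y => ?_
    rw [Real.dist_eq, dist_eq_norm, Real.coe_toNNReal _ (by linarith)]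
    exact (abs_sub_map_le_sub Φ x y).trans (hΦ _).2
  exact hL.continuous

/-- The test functions of the bumps. -/
noncomputable def bb (Φ : Seminorm ℝ (Fin N × Fin m → ℝ)) (β : Fin m → ZMod P → ℝ) (s : Fin m)
    (t : Fin N → ℝ) (n : Fin N → ZMod P) : ℝ :=
  Φ (fun c => if c.2 = s then t c.1 * β s (n c.1) else 0)

/-- Their averages. -/
noncomputable def MM [NeZero P] (Φ : Seminorm ℝ (Fin N × Fin m → ℝ)) (β : Fin m → ZMod P → ℝ)
    (s : Fin m) (t : Fin N → ℝ) (n : Fin N → ZMod P) : ℝ :=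
  (∑ g : ZMod P, bb Φ β s t (fun j => n j + g)) / P

theorem bb_congr (Φ : Seminorm ℝ (Fin N × Fin m → ℝ)) (β : Fin m → ZMod P → ℝ) (s : Fin m)
    (t : Fin N → ℝ) (n n' : Fin N → ZMod P) (h : ∀ j, t j ≠ 0 → n j = n' j) :
    bb Φ β s t n = bb Φ β s t n' := by
  unfold bb
  congr 1
  funext c
  by_cases hc : c.2 = s
  · rw [if_pos hc, if_pos hc]
    by_cases ht : t c.1 = 0
    · rw [ht, zero_mul, zero_mul]
    · rw [h _ ht]
  · rw [if_neg hc, if_neg hc]

theorem MM_congr [NeZero P] (Φ : Seminorm ℝ (Fin N × Fin m → ℝ)) (β : Fin m → ZMod P → ℝ)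
    (s : Fin m) (t : Fin N → ℝ) (n n' : Fin N → ZMod P) (h : ∀ j, t j ≠ 0 → n j = n' j) :
    MM Φ β s t n = MM Φ β s t n' := by
  unfold MM
  congr 1
  refine Finset.sum_congr rfl fun g _ => bb_congr Φ β s t _ _ fun j hj => ?_
  rw [h j hj]

theorem le_bb {η : ℝ} {Φ : Seminorm ℝ (Fin N × Fin m → ℝ)} (hΦ : NearMax η Φ)
    {β : Fin m → ZMod P → ℝ} (hβ0 : ∀ s, β s 0 = 1) (s : Fin m) (t : Fin N → ℝ)
    (n : Fin N → ZMod P) (j : Fin N) : t j ≤ bb Φ β s t (fun i => n i + -(n j)) := by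
  have h1 := (hΦ (fun c : Fin N × Fin m =>
    if c.2 = s then t c.1 * β s (n c.1 + -(n j)) else 0)).1
  have h2 := norm_le_pi_norm (fun c : Fin N × Fin m =>
    if c.2 = s then t c.1 * β s (n c.1 + -(n j)) else 0) (j, s)
  have h3 : ‖(if ((j, s) : Fin N × Fin m).2 = s then
      t ((j, s) : Fin N × Fin m).1 * β s (n ((j, s) : Fin N × Fin m).1 + -(n j)) else (0 : ℝ))‖
      = |t j| := by
    rw [if_pos rfl]
    simp only [add_neg_cancel, hβ0, mul_one, Real.norm_eq_abs]
  have h4 : |t j| ≤ Φ (fun c : Fin N × Fin m =>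
      if c.2 = s then t c.1 * β s (n c.1 + -(n j)) else 0) := by
    rw [← h3]; exact h2.trans h1
  exact (le_abs_self _).trans h4

theorem MM_pos [NeZero P] {η : ℝ} {Φ : Seminorm ℝ (Fin N × Fin m → ℝ)} (hΦ : NearMax η Φ)
    {β : Fin m → ZMod P → ℝ} (hβ0 : ∀ s, β s 0 = 1) (s : Fin m) (t : Fin N → ℝ)
    (ht : t ∈ stdSimplex ℝ (Fin N)) (n : Fin N → ZMod P) : 0 < MM Φ β s t n := by
  obtain ⟨h0, h1⟩ := ht
  obtain ⟨j, hj⟩ : ∃ j, 0 < t j := by
    by_contra hne
    push Not at hne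
    have : ∑ j, t j ≤ 0 := Finset.sum_nonpos fun j _ => hne j
    rw [h1] at this
    linarith
  have hP : (0 : ℝ) < P := Nat.cast_pos.mpr (Nat.pos_of_ne_zero (NeZero.ne P))
  refine div_pos ?_ hP
  refine lt_of_lt_of_le (lt_of_lt_of_le hj (le_bb hΦ hβ0 s t n j))
    (Finset.single_le_sum (f := fun g : ZMod P => bb Φ β s t (fun j => n j + g))
      (fun g _ => apply_nonneg Φ _) (Finset.mem_univ (-(n j))))

theorem bb_cont {η : ℝ} (hη : 0 ≤ η) {Φ : Seminorm ℝ (Fin N × Fin m → ℝ)} (hΦ : NearMax η Φ)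
    (β : Fin m → ZMod P → ℝ) (s : Fin m) (n : Fin N → ZMod P) :
    Continuous (fun t => bb Φ β s t n) := by
  refine (cont hη hΦ).comp (continuous_pi fun c => ?_)
  by_cases hc : c.2 = s
  · simp only [if_pos hc]
    exact (continuous_apply c.1).mul continuous_const
  · simp only [if_neg hc]
    exact continuous_const

theorem MM_cont [NeZero P] {η : ℝ} (hη : 0 ≤ η) {Φ : Seminorm ℝ (Fin N × Fin m → ℝ)}
    (hΦ : NearMax η Φ) (β : Fin m → ZMod P → ℝ) (s : Fin m) (n : Fin N → ZMod P) :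
    Continuous (fun t => MM Φ β s t n) :=
  (continuous_finsetSum _ fun _ _ => bb_cont hη hΦ β s _).div_const _

/-- The test functions of the charts. -/
noncomputable def ff [NeZero P] (Φ : Seminorm ℝ (Fin N × Fin m → ℝ)) (β : Fin m → ZMod P → ℝ)
    (hx : Fin m → ZMod P → ℝ) (t : Fin N → ℝ) (n : Fin N → ZMod P) : ℝ :=
  Φ (fun c => (MM Φ β c.2 t n)⁻¹ * t c.1 * hx c.2 (n c.1))

end CF

open CF in
theorem pCF (h4 : StBU4) : StCF := by
  intro P m q N hPp hN η hη Φ hΦ h β hβ hβ0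
  have hP0 : (0 : ℝ) < P := Nat.cast_pos.mpr hPp.out.pos
  have h1η : (0 : ℝ) < 1 + η := by linarith
  obtain ⟨t, ht, n, hinv⟩ := h4 P (q + m) N hN
    (Fin.addCases (fun x => ff Φ β (h x)) (fun s => bb Φ β s))
    (by
      intro a n
      refine Fin.addCases (fun x => ?_) (fun s => ?_) a
      · simp only [Fin.addCases_left]
        refine (cont hη hΦ).comp_continuousOn (continuousOn_pi.mpr fun c => ?_)
        refine ContinuousOn.mul (ContinuousOn.mul ?_ (continuous_apply c.1).continuousOn)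
          continuousOn_const
        exact (MM_cont hη hΦ β c.2 n).continuousOn.inv₀
          fun t ht => (MM_pos hΦ hβ0 c.2 t ht n).ne'
      · simp only [Fin.addCases_right]
        exact (bb_cont hη hΦ β s n).continuousOn)
    (by
      intro a t n n' _ hnn
      refine Fin.addCases (fun x => ?_) (fun s => ?_) a
      · simp only [Fin.addCases_left]
        unfold ff
        congr 1
        funext c
        rw [MM_congr Φ β c.2 t n n' hnn]
        by_cases ht : t c.1 = 0
        · rw [ht, mul_zero, zero_mul, zero_mul]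
        · rw [hnn _ ht]
      · simp only [Fin.addCases_right]
        exact bb_congr Φ β s t n n' hnn)
  have hb : ∀ s g, bb Φ β s t (fun j => n j + g) = bb Φ β s t n := by
    intro s g
    have := hinv (Fin.natAdd q s) g
    simpa only [Fin.addCases_right] using this
  have hf : ∀ x g, ff Φ β (h x) t (fun j => n j + g) = ff Φ β (h x) t n := by
    intro x g
    have := hinv (Fin.castAdd m x) g
    simpa only [Fin.addCases_left] using this
  have hMg : ∀ s g, MM Φ β s t (fun j => n j + g) = bb Φ β s t n := by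
    intro s g
    unfold MM
    have h1 : ∀ g' : ZMod P, bb Φ β s t (fun j => n j + g + g') = bb Φ β s t n := by
      intro g'
      rw [← hb s (g + g')]
      congr 1
      funext j
      ring
    rw [Finset.sum_congr rfl fun g' _ => h1 g', Finset.sum_const, Finset.card_univ, ZMod.card,
      nsmul_eq_mul, mul_div_cancel_left₀ _ hP0.ne']
  have hM : ∀ s, MM Φ β s t n = bb Φ β s t n := by
    intro s
    have := hMg s 0
    simpa only [add_zero] using this
  have hMpos : ∀ s, 0 < MM Φ β s t n := fun s => MM_pos hΦ hβ0 s t ht n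
  refine ⟨fun j s => t j / MM Φ β s t n, n, fun j s => ⟨?_, ?_⟩, fun s g => ?_, fun x g => ?_⟩
  · exact div_nonneg (ht.1 j) (hMpos s).le
  · rw [div_le_one (hMpos s), hM s, ← hb s (-(n j))]
    exact le_bb hΦ hβ0 s t n j
  · have h1 := (hΦ (fun c : Fin N × Fin m =>
      if c.2 = s then t c.1 * β s (n c.1 + -g) else 0)).2
    have h2 : MM Φ β s t n = Φ (fun c : Fin N × Fin m =>
      if c.2 = s then t c.1 * β s (n c.1 + -g) else 0) := by
      rw [hM s, ← hb s (-g)]; rfl
    rw [← h2] at h1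
    have hN0 : 0 < N := by omega
    have : Nonempty (Fin N × Fin m) := ⟨(⟨0, hN0⟩, s)⟩
    obtain ⟨c, hc⟩ := Finite.exists_max (fun c : Fin N × Fin m =>
      ‖(if c.2 = s then t c.1 * β s (n c.1 + -g) else (0 : ℝ))‖)
    have h3 : ‖(fun c : Fin N × Fin m => if c.2 = s then t c.1 * β s (n c.1 + -g) else (0 : ℝ))‖
        ≤ ‖(if c.2 = s then t c.1 * β s (n c.1 + -g) else (0 : ℝ))‖ :=
      (pi_norm_le_iff_of_nonneg (norm_nonneg _)).mpr hc
    have h4 : MM Φ β s t n ≤
        (1 + η) * ‖(if c.2 = s then t c.1 * β s (n c.1 + -g) else (0 : ℝ))‖ :=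
      h1.trans (mul_le_mul_of_nonneg_left h3 h1η.le)
    have hcs : c.2 = s := by
      by_contra hne
      rw [if_neg hne, norm_zero, mul_zero] at h4
      exact absurd (hMpos s) (not_lt.mpr h4)
    rw [if_pos hcs, Real.norm_eq_abs,
      abs_of_nonneg (mul_nonneg (ht.1 _) (hβ s _).1)] at h4
    refine ⟨c.1, ?_⟩
    rw [sub_eq_add_neg, div_mul_eq_mul_div, div_le_div_iff₀ h1η (hMpos s)]
    linarith
  · have h1 := hf x g
    unfold ff at h1
    have h2 : ∀ s, MM Φ β s t (fun j => n j + g) = MM Φ β s t n := fun s => by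
      rw [hMg s g, hM s]
    simp only [h2] at h1
    have h3 : ∀ (c : Fin N × Fin m) (y : ℝ), t c.1 / MM Φ β c.2 t n * y
        = (MM Φ β c.2 t n)⁻¹ * t c.1 * y := fun c y => by rw [div_eq_inv_mul]
    simp only [h3]
    exact h1

end DV
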