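import Pool.Agent.Helper53.DV.St

/-!
# DV project (MP_d684b1_an): module CH1
-/

set_option autoImplicit false

open scoped BigOperators RealInnerProductSpace
open MeasureTheory

namespace DV

namespace CH1

theorem ev_self {d : ℕ} (s : Fin (d + 1)) (z : Fin d → ℝ) : ev s z s = 1 := by
  simp [ev]

theorem ev_succ {d : ℕ} (s : Fin (d + 1)) (z : Fin d → ℝ) (i : Fin d) :
    ev s z (s.succAbove i) = z i := by
  simp [ev]

theorem one_le_norm_ev {d : ℕ} (s : Fin (d + 1)) (z : Fin d → ℝ) : 1 ≤ ‖ev s z‖ := by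
  have h := PiLp.norm_apply_le (ev s z) s
  rw [ev_self, norm_one] at h
  exact h

theorem norm_Ec {d : ℕ} (s : Fin (d + 1)) (z : Fin d → ℝ) : ‖Ec s z‖ = 1 := by
  have h := one_le_norm_ev s z
  unfold Ec
  rw [norm_smul, norm_inv, norm_norm]
  exact inv_mul_cancel₀ (by linarith)

theorem norm_ev_sub {d : ℕ} (s : Fin (d + 1)) (z ξ : Fin d → ℝ) :
    ‖ev s z - ev s ξ‖ ≤ Real.sqrt (d + 1) * ‖z - ξ‖ := by
  rw [EuclideanSpace.norm_eq]
  have h1 : ∀ i : Fin (d + 1), ‖(ev s z - ev s ξ) i‖ ^ 2 ≤ ‖z - ξ‖ ^ 2 := by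
    intro i
    have h2 : ‖(ev s z - ev s ξ) i‖ ≤ ‖z - ξ‖ := by
      rw [PiLp.sub_apply]
      rcases Fin.eq_self_or_eq_succAbove s i with h | ⟨j, h⟩
      · rw [h, ev_self, ev_self, sub_self, norm_zero]
        exact norm_nonneg _
      · rw [h, ev_succ, ev_succ]
        exact norm_le_pi_norm (z - ξ) j
    exact pow_le_pow_left₀ (norm_nonneg _) h2 2
  have h3 : ∑ i : Fin (d + 1), ‖(ev s z - ev s ξ) i‖ ^ 2 ≤ ((d : ℝ) + 1) * ‖z - ξ‖ ^ 2 := by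
    have h4 := Finset.sum_le_card_nsmul (Finset.univ : Finset (Fin (d + 1)))
      (fun i => ‖(ev s z - ev s ξ) i‖ ^ 2) (‖z - ξ‖ ^ 2) (fun i _ => h1 i)
    rw [Finset.card_univ, Fintype.card_fin, nsmul_eq_mul] at h4
    push_cast at h4
    exact h4
  refine (Real.sqrt_le_sqrt h3).trans (le_of_eq ?_)
  rw [Real.sqrt_mul (by positivity), Real.sqrt_sq (norm_nonneg _)]

/-- normalisation is Lipschitz outside of the unit ball -/
theorem normalize_sub {E : Type*} [NormedAddCommGroup E] [NormedSpace ℝ E] (u v : E) (hu : 1 ≤ ‖u‖)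
    (hv : 1 ≤ ‖v‖) : ‖(‖u‖)⁻¹ • u - (‖v‖)⁻¹ • v‖ ≤ 2 * ‖u - v‖ := by
  have hu0 : 0 < ‖u‖ := by linarith
  have hv0 : 0 < ‖v‖ := by linarith
  have e : (‖u‖)⁻¹ • u - (‖v‖)⁻¹ • v = (‖u‖)⁻¹ • (u - v) + ((‖u‖)⁻¹ - (‖v‖)⁻¹) • v := by
    rw [smul_sub, sub_smul]
    abel
  rw [e]
  have h1 : ‖(‖u‖)⁻¹ • (u - v)‖ ≤ ‖u - v‖ := by
    rw [norm_smul, norm_inv, norm_norm]
    have h2 : (‖u‖)⁻¹ ≤ 1 := inv_le_one_of_one_le₀ hu
    calc (‖u‖)⁻¹ * ‖u - v‖ ≤ 1 * ‖u - v‖ := mul_le_mul_of_nonneg_right h2 (norm_nonneg _)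
      _ = ‖u - v‖ := one_mul _
  have h2 : ‖((‖u‖)⁻¹ - (‖v‖)⁻¹) • v‖ ≤ ‖u - v‖ := by
    rw [norm_smul]
    have e2 : (‖u‖)⁻¹ - (‖v‖)⁻¹ = (‖v‖ - ‖u‖) * ((‖u‖)⁻¹ * (‖v‖)⁻¹) := by
      field_simp
    rw [e2, norm_mul, norm_mul, norm_inv, norm_inv, norm_norm, norm_norm]
    have h3 : ‖(‖v‖ - ‖u‖ : ℝ)‖ ≤ ‖u - v‖ := by
      rw [Real.norm_eq_abs, abs_sub_comm]
      exact abs_norm_sub_norm_le u v
    have h4 : (‖u‖)⁻¹ ≤ 1 := inv_le_one_of_one_le₀ hu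
    calc ‖(‖v‖ - ‖u‖ : ℝ)‖ * ((‖u‖)⁻¹ * (‖v‖)⁻¹) * ‖v‖ = ‖(‖v‖ - ‖u‖ : ℝ)‖ * (‖u‖)⁻¹ := by
          field_simp
      _ ≤ ‖u - v‖ * 1 := mul_le_mul h3 h4 (by positivity) (norm_nonneg _)
      _ = ‖u - v‖ := mul_one _
  calc ‖(‖u‖)⁻¹ • (u - v) + ((‖u‖)⁻¹ - (‖v‖)⁻¹) • v‖ ≤
      ‖(‖u‖)⁻¹ • (u - v)‖ + ‖((‖u‖)⁻¹ - (‖v‖)⁻¹) • v‖ := norm_add_le _ _
    _ ≤ 2 * ‖u - v‖ := by linarith

theorem cover {d : ℕ} (x : Eu (d + 1)) (hx : ‖x‖ = 1) :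
    ∃ (s : Fin (d + 1)) (z : Fin d → ℝ), ‖z‖ ≤ 1 ∧ (x = Ec s z ∨ x = -Ec s z) := by
  obtain ⟨s, hs⟩ := Finite.exists_max (fun i : Fin (d + 1) => |x i|)
  have hs0 : x s ≠ 0 := by
    intro h0
    have h1 : x = 0 := by
      ext i
      have h2 := hs i
      rw [h0, abs_zero] at h2
      rw [PiLp.zero_apply]
      exact abs_eq_zero.1 (le_antisymm h2 (abs_nonneg _))
    rw [h1, norm_zero] at hx
    exact zero_ne_one hx
  have hs1 : 0 < |x s| := abs_pos.2 hs0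
  refine ⟨s, fun i => x (s.succAbove i) / x s, ?_, ?_⟩
  · rw [pi_norm_le_iff_of_nonneg zero_le_one]
    intro i
    rw [Real.norm_eq_abs, abs_div, div_le_one hs1]
    exact hs _
  · set z : Fin d → ℝ := fun i => x (s.succAbove i) / x s with hz
    have hxe : x = x s • ev s z := by
      ext i
      rw [PiLp.smul_apply, smul_eq_mul]
      rcases Fin.eq_self_or_eq_succAbove s i with h | ⟨j, h⟩
      · rw [h, ev_self, mul_one]
      · rw [h, ev_succ, hz]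
        show x (s.succAbove j) = x s * (x (s.succAbove j) / x s)
        field_simp
    have hn : |x s| * ‖ev s z‖ = 1 := by
      rw [← Real.norm_eq_abs, ← norm_smul, ← hxe, hx]
    have hinv : (‖ev s z‖)⁻¹ = |x s| := by
      have h1 := one_le_norm_ev s z
      have h2 : ‖ev s z‖ ≠ 0 := by
        intro h
        rw [h] at h1
        linarith
      rw [inv_eq_iff_eq_inv, eq_comm, inv_eq_iff_eq_inv]
      exact eq_inv_of_mul_eq_one_left hn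
    unfold Ec
    rw [hinv]
    rcases abs_choice (x s) with h | h
    · left
      rw [h]
      exact hxe
    · right
      rw [h, neg_smul, neg_neg]
      exact hxe

end CH1

theorem pCH1 : StCH1 := by
  refine ⟨fun d s z => CH1.norm_Ec s z, fun d x hx => CH1.cover x hx, fun d => ?_⟩
  refine ⟨2 * Real.sqrt (d + 1), by positivity, fun s z ξ => ?_⟩
  have h1 := CH1.normalize_sub (ev s z) (ev s ξ) (CH1.one_le_norm_ev s z) (CH1.one_le_norm_ev s ξ)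
  have h2 := CH1.norm_ev_sub s z ξ
  unfold Ec
  linarith

end DV
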