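import Pool.Agent.Helper53.DV.St

/-!
# DV project, module CH2: the chordal distance in a chart
-/

set_option autoImplicit false

open scoped BigOperators RealInnerProductSpace

namespace DV

namespace CH2

theorem inner_ev {d : ℕ} (s : Fin (d + 1)) (z ξ : Fin d → ℝ) : ⟪ev s z, ev s ξ⟫ = 1 + ∑ i, z i * ξ i := by
  rw [PiLp.inner_apply, Fin.sum_univ_succAbove _ s]
  simp only [ev, Fin.insertNth_apply_same, Fin.insertNth_apply_succAbove, RCLike.inner_apply,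
    map_one, conj_trivial, mul_one]
  congr 1
  exact Finset.sum_congr rfl fun i _ => mul_comm _ _

theorem norm_ev_sq {d : ℕ} (s : Fin (d + 1)) (z : Fin d → ℝ) : ‖ev s z‖ ^ 2 = 1 + ∑ i, z i ^ 2 := by
  rw [← real_inner_self_eq_norm_sq, inner_ev]
  congr 1
  exact Finset.sum_congr rfl fun i _ => (pow_two _).symm

/-- Lagrange. -/
theorem lagrange {d : ℕ} (z ξ : Fin d → ℝ) :
    ∑ i, (z i - ξ i) ^ 2 ≤ (1 + ∑ i, z i ^ 2) * (1 + ∑ i, ξ i ^ 2) - (1 + ∑ i, z i * ξ i) ^ 2 := by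
  have h := Finset.sum_mul_sq_le_sq_mul_sq Finset.univ z ξ
  have h1 : ∑ i, (z i - ξ i) ^ 2 = ∑ i, z i ^ 2 + ∑ i, ξ i ^ 2 - 2 * ∑ i, z i * ξ i := by
    rw [Finset.mul_sum, ← Finset.sum_add_distrib, ← Finset.sum_sub_distrib]
    exact Finset.sum_congr rfl fun i _ => by ring
  rw [h1]
  nlinarith [h]

theorem sum_sq_le {d : ℕ} (z : Fin d → ℝ) (hz : ‖z‖ ≤ 8) : ∑ i, z i ^ 2 ≤ 64 * d := by
  have h : ∀ i ∈ Finset.univ, z i ^ 2 ≤ (64 : ℝ) := by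
    intro i _
    have h1 : |z i| ≤ 8 := (Real.norm_eq_abs (z i)) ▸ (norm_le_pi_norm z i).trans hz
    have h2 := abs_le.1 h1
    nlinarith [h2.1, h2.2]
  have h2 := Finset.sum_le_card_nsmul Finset.univ (fun i => z i ^ 2) 64 h
  simp only [Finset.card_univ, Fintype.card_fin, nsmul_eq_mul] at h2
  linarith

theorem norm_sq_le {d : ℕ} (z : Fin d → ℝ) : ‖z‖ ^ 2 ≤ ∑ i, z i ^ 2 := by
  have h0 : 0 ≤ ∑ i, z i ^ 2 := Finset.sum_nonneg fun i _ => sq_nonneg _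
  have h : ‖z‖ ≤ Real.sqrt (∑ i, z i ^ 2) := by
    rw [pi_norm_le_iff_of_nonneg (Real.sqrt_nonneg _)]
    intro i
    rw [Real.norm_eq_abs]
    apply Real.abs_le_sqrt
    exact Finset.single_le_sum (f := fun i => z i ^ 2) (fun i _ => sq_nonneg _) (Finset.mem_univ i)
  calc ‖z‖ ^ 2 ≤ Real.sqrt (∑ i, z i ^ 2) ^ 2 := by gcongr
    _ = ∑ i, z i ^ 2 := Real.sq_sqrt h0

end CH2

open CH2 in
/-- MODULE CH2. -/
theorem pCH2 : StCH2 := by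
  intro d
  refine ⟨2 * (1 + 64 * (d : ℝ)) ^ 2, by positivity, fun s z ξ hz hξ => ?_⟩
  set a : ℝ := 1 + ∑ i, z i ^ 2 with ha
  set b : ℝ := 1 + ∑ i, ξ i ^ 2 with hb
  set p : ℝ := 1 + ∑ i, z i * ξ i with hp
  have ha1 : 1 ≤ a := by
    have : 0 ≤ ∑ i, z i ^ 2 := Finset.sum_nonneg fun i _ => sq_nonneg _
    linarith
  have hb1 : 1 ≤ b := by
    have : 0 ≤ ∑ i, ξ i ^ 2 := Finset.sum_nonneg fun i _ => sq_nonneg _
    linarith
  have ha2 : a ≤ 1 + 64 * d := by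
    have := sum_sq_le z hz
    linarith
  have hb2 : b ≤ 1 + 64 * d := by
    have := sum_sq_le ξ hξ
    linarith
  have hza : ‖ev s z‖ ^ 2 = a := norm_ev_sq s z
  have hξb : ‖ev s ξ‖ ^ 2 = b := norm_ev_sq s ξ
  have hin : ⟪ev s z, ev s ξ⟫ = p := inner_ev s z ξ
  set t : ℝ := ⟪Ec s z, Ec s ξ⟫ with ht
  have ht1 : t = (‖ev s z‖)⁻¹ * ((‖ev s ξ‖)⁻¹ * p) := by
    rw [ht, Ec, Ec, real_inner_smul_left, real_inner_smul_right, hin]
  have ht2 : t ^ 2 * (a * b) = p ^ 2 := by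
    have hz0 : ‖ev s z‖ ≠ 0 := by
      intro h
      rw [h] at hza
      norm_num at hza
      linarith
    have hξ0 : ‖ev s ξ‖ ≠ 0 := by
      intro h
      rw [h] at hξb
      norm_num at hξb
      linarith
    rw [ht1, ← hza, ← hξb]
    field_simp
  have hlag : ∑ i, (z i - ξ i) ^ 2 ≤ a * b - p ^ 2 := lagrange z ξ
  have hn : ‖z - ξ‖ ^ 2 ≤ ∑ i, (z i - ξ i) ^ 2 := norm_sq_le (z - ξ)
  have hn0 : 0 ≤ ‖z - ξ‖ ^ 2 := sq_nonneg _
  have hab : a * b ≤ (1 + 64 * (d : ℝ)) ^ 2 := by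
    rw [pow_two]
    exact mul_le_mul ha2 hb2 (by linarith) (by positivity)
  have hab0 : 0 < a * b := by positivity
  have h1 : 0 ≤ 1 - t ^ 2 := by
    have : 0 ≤ (1 - t ^ 2) * (a * b) := by
      have : (1 - t ^ 2) * (a * b) = a * b - p ^ 2 := by rw [← ht2]; ring
      rw [this]
      linarith
    exact nonneg_of_mul_nonneg_left this hab0
  have h2 : ‖z - ξ‖ ^ 2 ≤ (1 + 64 * (d : ℝ)) ^ 2 * (1 - t ^ 2) := by
    calc ‖z - ξ‖ ^ 2 ≤ a * b - p ^ 2 := hn.trans hlag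
      _ = (a * b) * (1 - t ^ 2) := by rw [← ht2]; ring
      _ ≤ (1 + 64 * (d : ℝ)) ^ 2 * (1 - t ^ 2) := by gcongr
  have h3 : |t| ≤ 1 := by
    rw [← sq_le_one_iff_abs_le_one]
    linarith
  have h4 : 1 - t ^ 2 ≤ 2 * (1 - |t|) := by
    have : t ^ 2 = |t| ^ 2 := (sq_abs t).symm
    rw [this]
    nlinarith [abs_nonneg t]
  calc ‖z - ξ‖ ^ 2 ≤ (1 + 64 * (d : ℝ)) ^ 2 * (1 - t ^ 2) := h2
    _ ≤ (1 + 64 * (d : ℝ)) ^ 2 * (2 * (1 - |t|)) := by gcongr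
    _ = 2 * (1 + 64 * (d : ℝ)) ^ 2 * (1 - |t|) := by ring

end DV
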