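import Pool.Agent.Helper53.DV.St

/-!
# DV project, module CH3: second differences of the charts
-/

set_option autoImplicit false

namespace DV

namespace CH3

/-- second differences of a function of class `C²` -/
theorem key {V W : Type*} [NormedAddCommGroup V] [NormedSpace ℝ V] [ProperSpace V] [NormedAddCommGroup W]
    [NormedSpace ℝ W] (f : V → W) (hf : ContDiff ℝ 2 f) :
    ∃ C : ℝ, 0 < C ∧ ∀ z ξ g : V, ‖z‖ ≤ 8 → ‖ξ‖ ≤ 8 → ‖g‖ ≤ 8 →
      ‖f (z + g) - f (ξ + g) - f z + f ξ‖ ≤ C * ‖g‖ * ‖z - ξ‖ := by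
  have hf1 : ContDiff ℝ 1 (fderiv ℝ f) := hf.fderiv_right (m := 1) (by norm_num)
  have hc := hf1.continuous_fderiv (by norm_num)
  have hcn : Continuous (fun x : V => ‖fderiv ℝ (fderiv ℝ f) x‖) := continuous_norm.comp hc
  obtain ⟨C, hC'⟩ := (isCompact_closedBall (0 : V) 16).exists_bound_of_continuousOn hcn.continuousOn
  have hC : ∀ x ∈ Metric.closedBall (0 : V) 16, ‖fderiv ℝ (fderiv ℝ f) x‖ ≤ C :=
    fun x hx => (Real.le_norm_self _).trans (hC' x hx)
  have hC0 : 0 ≤ C := (norm_nonneg ‖fderiv ℝ (fderiv ℝ f) 0‖).trans (hC' 0 (by simp))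
  refine ⟨C + 1, by linarith, ?_⟩
  intro z ξ g hz hξ hg
  have hd1 : Differentiable ℝ f := hf.differentiable (by norm_num)
  have hd2 : Differentiable ℝ (fderiv ℝ f) := hf1.differentiable (by norm_num)
  have hL : ∀ x ∈ Metric.closedBall (0 : V) 8, ‖fderiv ℝ f (x + g) - fderiv ℝ f x‖ ≤ C * ‖g‖ := by
    intro x hx
    have hx8 : ‖x‖ ≤ 8 := by simpa using hx
    have hx1 : x ∈ Metric.closedBall (0 : V) 16 := by
      simp only [Metric.mem_closedBall, dist_zero_right]
      linarith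
    have hx2 : x + g ∈ Metric.closedBall (0 : V) 16 := by
      simp only [Metric.mem_closedBall, dist_zero_right]
      have := norm_add_le x g
      linarith
    have h := Convex.norm_image_sub_le_of_norm_fderiv_le (𝕜 := ℝ) (f := fderiv ℝ f) (fun y _ => hd2 y) hC
      (convex_closedBall (0 : V) 16) hx1 hx2
    rwa [add_sub_cancel_left] at h
  have hdd : ∀ x : V, HasFDerivAt (fun y : V => f (y + g) - f y) (fderiv ℝ f (x + g) - fderiv ℝ f x) x := by
    intro x
    have h1 : HasFDerivAt (fun y : V => y + g) (ContinuousLinearMap.id ℝ V) x := (hasFDerivAt_id x).add_const g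
    have h2 : HasFDerivAt (fun y : V => f (y + g)) ((fderiv ℝ f (x + g)).comp (ContinuousLinearMap.id ℝ V)) x :=
      HasFDerivAt.comp x (hd1 (x + g)).hasFDerivAt h1
    rw [ContinuousLinearMap.comp_id] at h2
    exact h2.sub (hd1 x).hasFDerivAt
  have h := Convex.norm_image_sub_le_of_norm_hasFDerivWithin_le (𝕜 := ℝ) (f := fun y : V => f (y + g) - f y)
    (s := Metric.closedBall (0 : V) 8) (fun x _ => (hdd x).hasFDerivWithinAt) hL (convex_closedBall (0 : V) 8)
    (x := ξ) (y := z) (by simpa using hξ) (by simpa using hz)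
  have e : f (z + g) - f (ξ + g) - f z + f ξ = (f (z + g) - f z) - (f (ξ + g) - f ξ) := by abel
  rw [e]
  refine h.trans ?_
  have h3 : C * ‖g‖ ≤ (C + 1) * ‖g‖ := by nlinarith [norm_nonneg g]
  exact mul_le_mul_of_nonneg_right h3 (norm_nonneg _)

theorem contDiff_ev {d : ℕ} (s : Fin (d + 1)) : ContDiff ℝ 2 (ev s : (Fin d → ℝ) → Eu (d + 1)) := by
  rw [contDiff_euclidean]
  intro i
  have h : ∀ z : Fin d → ℝ, (ev s z) i = s.insertNth (α := fun _ => ℝ) (1 : ℝ) z i := fun z => rfl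
  simp only [h]
  rcases Fin.eq_self_or_eq_succAbove s i with hi | ⟨j, hj⟩
  · subst hi
    simp only [Fin.insertNth_apply_same]
    exact contDiff_const
  · subst hj
    simp only [Fin.insertNth_apply_succAbove]
    exact contDiff_apply ℝ ℝ j

theorem ev_ne {d : ℕ} (s : Fin (d + 1)) (z : Fin d → ℝ) : ev s z ≠ 0 := by
  intro h
  have h1 : (ev s z) s = 0 := by rw [h]; rfl
  have h2 : (ev s z) s = 1 := Fin.insertNth_apply_same (α := fun _ => ℝ) s (1 : ℝ) z
  rw [h2] at h1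
  exact one_ne_zero h1

theorem contDiff_Ec {d : ℕ} (s : Fin (d + 1)) : ContDiff ℝ 2 (Ec s : (Fin d → ℝ) → Eu (d + 1)) := by
  have h1 := contDiff_ev s
  have h2 : ContDiff ℝ 2 (fun z : Fin d → ℝ => ‖ev s z‖) := h1.norm ℝ (fun z => ev_ne s z)
  have h3 : ContDiff ℝ 2 (fun z : Fin d → ℝ => (‖ev s z‖)⁻¹) := h2.inv (fun z => norm_ne_zero_iff.2 (ev_ne s z))
  exact h3.smul h1

end CH3

theorem pCH3 : StCH3 := by
  intro d
  choose C hC0 hC using fun s : Fin (d + 1) => CH3.key (Ec s) (CH3.contDiff_Ec s)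
  refine ⟨∑ s, C s, Finset.sum_pos (fun s _ => hC0 s) Finset.univ_nonempty, ?_⟩
  intro s z ξ g hz hξ hg
  refine (hC s z ξ g hz hξ hg).trans ?_
  have h1 : C s ≤ ∑ s, C s := Finset.single_le_sum (fun i _ => (hC0 i).le) (Finset.mem_univ s)
  exact mul_le_mul_of_nonneg_right (mul_le_mul_of_nonneg_right h1 (norm_nonneg _)) (norm_nonneg _)

end DV
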