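import Pool.Agent.Helper53.DV.St

/-!
# DV project, module CH4
-/

set_option autoImplicit false

open scoped BigOperators RealInnerProductSpace

namespace DV

namespace CH4

variable {d : ℕ}

theorem ev_s (s : Fin (d + 1)) (z : Fin d → ℝ) : ev s z s = 1 := by
  simp [ev]

theorem ev_succ (s : Fin (d + 1)) (z : Fin d → ℝ) (i : Fin d) : ev s z (s.succAbove i) = z i := by
  simp [ev]

theorem abs_le_norm (x : Eu (d + 1)) (j : Fin (d + 1)) : |x j| ≤ ‖x‖ := by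
  have := PiLp.norm_apply_le x j
  rwa [Real.norm_eq_abs] at this

theorem norm_sq_ev (s : Fin (d + 1)) (z : Fin d → ℝ) : ‖ev s z‖ ^ 2 = 1 + ∑ i, z i ^ 2 := by
  rw [EuclideanSpace.norm_sq_eq, Fin.sum_univ_succAbove _ s, ev_s]
  simp only [ev_succ, Real.norm_eq_abs, sq_abs, one_pow]

theorem one_le_norm_ev (s : Fin (d + 1)) (z : Fin d → ℝ) : 1 ≤ ‖ev s z‖ := by
  have := abs_le_norm (ev s z) s
  rwa [ev_s, abs_one] at this

theorem norm_ev_le (s : Fin (d + 1)) (z : Fin d → ℝ) (hz : ‖z‖ ≤ 3) : ‖ev s z‖ ≤ 1 + 3 * d := by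
  have h1 : ∑ i, z i ^ 2 ≤ d * 9 := by
    have h2 : ∀ i ∈ (Finset.univ : Finset (Fin d)), z i ^ 2 ≤ 9 := by
      intro i _
      have h3 : |z i| ≤ 3 := by
        have := norm_le_pi_norm z i
        rw [Real.norm_eq_abs] at this
        exact this.trans hz
      have h4 := sq_abs (z i)
      nlinarith [abs_nonneg (z i)]
    have h5 := Finset.sum_le_card_nsmul Finset.univ _ 9 h2
    rwa [Finset.card_univ, Fintype.card_fin, nsmul_eq_mul] at h5
  have h6 := norm_sq_ev s z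
  have h7 : (0 : ℝ) ≤ d := Nat.cast_nonneg d
  refine abs_le_of_sq_le_sq' ?_ (by positivity) |>.2
  rw [h6]
  have h8 : (d : ℝ) ≤ d ^ 2 := by
    rcases Nat.eq_zero_or_pos d with h | h
    · subst h; simp
    · have : (1 : ℝ) ≤ d := by exact_mod_cast h
      nlinarith
  nlinarith

theorem Ec_s (s : Fin (d + 1)) (z : Fin d → ℝ) : Ec s z s = (‖ev s z‖)⁻¹ := by
  simp [Ec, ev_s]

theorem Ec_succ (s : Fin (d + 1)) (z : Fin d → ℝ) (i : Fin d) :
    Ec s z (s.succAbove i) = z i * Ec s z s := by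
  rw [Ec_s]
  simp [Ec, ev_succ, mul_comm]

theorem norm_Ec (s : Fin (d + 1)) (z : Fin d → ℝ) : ‖Ec s z‖ = 1 := by
  have h := one_le_norm_ev s z
  rw [Ec, norm_smul, norm_inv, norm_norm]
  exact inv_mul_cancel₀ (by linarith)

theorem le_Ec_s (s : Fin (d + 1)) (z : Fin d → ℝ) (hz : ‖z‖ ≤ 3) :
    (1 + 3 * (d : ℝ))⁻¹ ≤ Ec s z s := by
  rw [Ec_s]
  have h1 := one_le_norm_ev s z
  exact inv_anti₀ (by linarith) (norm_ev_le s z hz)

theorem of_pos (s : Fin (d + 1)) (x : Eu (d + 1)) (hx : ‖x‖ = 1) (h : 0 < x s) :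
    x = Ec s (fun i => x (s.succAbove i) / x s) := by
  have h1 : ev s (fun i => x (s.succAbove i) / x s) = (x s)⁻¹ • x := by
    ext j
    rcases eq_or_ne j s with hj | hj
    · subst hj
      rw [ev_s, PiLp.smul_apply, smul_eq_mul, inv_mul_cancel₀ h.ne']
    · obtain ⟨i, rfl⟩ := Fin.exists_succAbove_eq hj
      rw [ev_succ, PiLp.smul_apply, smul_eq_mul, div_eq_inv_mul]
  rw [Ec, h1, norm_smul, hx, mul_one, norm_inv, inv_inv, Real.norm_eq_abs, abs_of_pos h, smul_smul,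
    mul_inv_cancel₀ h.ne', one_smul]

theorem far (s : Fin (d + 1)) (x : Eu (d + 1)) (hx : ‖x‖ = 1)
    (h : ∀ ξ : Fin d → ℝ, ‖ξ‖ ≤ 3 → x ≠ Ec s ξ ∧ x ≠ -Ec s ξ) :
    ∃ i, 3 * |x s| ≤ |x (s.succAbove i)| := by
  by_contra hne
  push Not at hne
  have h0 : x s ≠ 0 := by
    intro h0
    have : x = 0 := by
      ext j
      rcases eq_or_ne j s with hj | hj
      · subst hj
        simpa using h0
      · obtain ⟨i, rfl⟩ := Fin.exists_succAbove_eq hj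
        have := hne i
        rw [h0, abs_zero, mul_zero] at this
        exact absurd this (not_lt.mpr (abs_nonneg _))
    rw [this, norm_zero] at hx
    exact zero_ne_one hx
  have hξ : ‖fun i => x (s.succAbove i) / x s‖ ≤ 3 := by
    refine (pi_norm_le_iff_of_nonneg (by norm_num)).mpr fun i => ?_
    rw [Real.norm_eq_abs, abs_div, div_le_iff₀ (abs_pos.mpr h0)]
    exact (hne i).le
  obtain ⟨h1, h2⟩ := h _ hξ
  rcases lt_or_gt_of_ne h0 with hlt | hgt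
  · apply h2
    have h3 := of_pos s (-x) (by rw [norm_neg, hx]) (by rw [PiLp.neg_apply]; linarith)
    have h4 : (fun i => (-x) (s.succAbove i) / (-x) s) = fun i => x (s.succAbove i) / x s := by
      funext i
      rw [PiLp.neg_apply, PiLp.neg_apply, neg_div_neg_eq]
    rw [h4] at h3
    rw [← h3, neg_neg]
  · exact h1 (of_pos s x hx hgt)

theorem first : ∀ d : ℕ, ∃ c : ℝ, 0 < c ∧ ∀ (s : Fin (d + 1)) (x : Eu (d + 1)), ‖x‖ = 1 →
    (∀ ξ : Fin d → ℝ, ‖ξ‖ ≤ 3 → x ≠ Ec s ξ ∧ x ≠ -Ec s ξ) →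
      ∀ z : Fin d → ℝ, ‖z‖ ≤ 5 / 2 → |⟪Ec s z, x⟫| ≤ 1 - c := by
  intro d
  have hd : (0 : ℝ) < (1 + 3 * (d : ℝ))⁻¹ := by positivity
  refine ⟨((1 + 3 * (d : ℝ))⁻¹) ^ 2 / 128, by positivity, fun s x hx h z hz => ?_⟩
  obtain ⟨i, hi⟩ := far s x hx h
  have h1 := le_Ec_s s z (hz.trans (by norm_num))
  have h2 := Ec_succ s z i
  have h3 : |z i| ≤ 5 / 2 := by
    have := norm_le_pi_norm z i
    rw [Real.norm_eq_abs] at this
    exact this.trans hz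
  obtain ⟨w, hw, hw'⟩ : ∃ w : ℝ, |w| = 1 ∧ |⟪Ec s z, x⟫| = ⟪w • Ec s z, x⟫ := by
    rcases le_total 0 ⟪Ec s z, x⟫ with h4 | h4
    · exact ⟨1, abs_one, by rw [one_smul, abs_of_nonneg h4]⟩
    · exact ⟨-1, by rw [abs_neg, abs_one], by
        rw [neg_one_smul, inner_neg_left, abs_of_nonpos h4]⟩
  have hE : ‖w • Ec s z‖ = 1 := by rw [norm_smul, norm_Ec, mul_one, Real.norm_eq_abs, hw]
  have h5 : ‖w • Ec s z - x‖ ^ 2 = 2 - 2 * |⟪Ec s z, x⟫| := by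
    rw [norm_sub_sq_real, hE, hx, ← hw']
    ring
  have h6 := abs_le_norm (w • Ec s z - x) s
  have h7 := abs_le_norm (w • Ec s z - x) (s.succAbove i)
  rw [PiLp.sub_apply, PiLp.smul_apply, smul_eq_mul] at h6 h7
  rw [h2] at h7
  set r := ‖w • Ec s z - x‖
  set e := Ec s z s
  have he : 0 < e := lt_of_lt_of_le hd h1
  have h8 : |w * e| = e := by rw [abs_mul, hw, one_mul, abs_of_pos he]
  have h9 : |w * (z i * e)| ≤ 5 / 2 * e := by
    rw [abs_mul, hw, one_mul, abs_mul, abs_of_pos he]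
    exact mul_le_mul_of_nonneg_right h3 he.le
  have h10 : e - |x s| ≤ r := by
    have := abs_sub_abs_le_abs_sub (w * e) (x s)
    rw [h8] at this
    exact this.trans h6
  have h11 : |x (s.succAbove i)| - 5 / 2 * e ≤ r := by
    have := abs_sub_abs_le_abs_sub (x (s.succAbove i)) (w * (z i * e))
    rw [abs_sub_comm] at this
    linarith
  have h12 : (1 + 3 * (d : ℝ))⁻¹ ≤ 8 * r := by linarith
  have h13 : ((1 + 3 * (d : ℝ))⁻¹) ^ 2 ≤ (8 * r) ^ 2 := pow_le_pow_left₀ hd.le h12 2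
  nlinarith

theorem second : ∀ d : ℕ, ∃ c C : ℝ, 0 < c ∧ 0 < C ∧
    ∀ (s : Fin (d + 1)) (ξ : Fin d → ℝ) (y : Eu (d + 1)), ‖ξ‖ ≤ 3 →
      ‖y‖ = 1 → ‖Ec s ξ - y‖ ≤ c →
        ∃ ξ' : Fin d → ℝ, ‖ξ'‖ ≤ 4 ∧ y = Ec s ξ' ∧ ‖ξ - ξ'‖ ≤ C * ‖Ec s ξ - y‖ := by
  intro d
  have hd : (0 : ℝ) < (1 + 3 * (d : ℝ))⁻¹ := by positivity
  have hd' : (1 + 3 * (d : ℝ)) * (1 + 3 * (d : ℝ))⁻¹ = 1 := mul_inv_cancel₀ (by positivity)
  have hd1 : (0 : ℝ) < 1 + 3 * (d : ℝ) := by positivity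
  refine ⟨(1 + 3 * (d : ℝ))⁻¹ / 8, 8 * (1 + 3 * (d : ℝ)), by positivity, by positivity,
    fun s ξ y hξ hy hc => ?_⟩
  have h1 := le_Ec_s s ξ hξ
  have h2 := abs_le_norm (Ec s ξ - y) s
  have h3 : ∀ i, |Ec s ξ (s.succAbove i) - y (s.succAbove i)| ≤ ‖Ec s ξ - y‖ := fun i => by
    have := abs_le_norm (Ec s ξ - y) (s.succAbove i)
    rwa [PiLp.sub_apply] at this
  rw [PiLp.sub_apply] at h2
  have h4 : (1 + 3 * (d : ℝ))⁻¹ / 2 ≤ y s := by
    have := le_abs_self (Ec s ξ s - y s)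
    linarith
  have hys : 0 < y s := by linarith
  have h5 : ∀ i, |ξ i - y (s.succAbove i) / y s| ≤ 8 * (1 + 3 * (d : ℝ)) * ‖Ec s ξ - y‖ := by
    intro i
    have h6 : ξ i - y (s.succAbove i) / y s
        = ((Ec s ξ (s.succAbove i) - y (s.succAbove i)) - ξ i * (Ec s ξ s - y s)) / y s := by
      rw [Ec_succ]
      field_simp
      ring
    have h7 : |ξ i| ≤ 3 := by
      have := norm_le_pi_norm ξ i
      rw [Real.norm_eq_abs] at this
      exact this.trans hξ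
    have h8 : |ξ i * (Ec s ξ s - y s)| ≤ 3 * ‖Ec s ξ - y‖ := by
      rw [abs_mul]
      exact mul_le_mul h7 h2 (abs_nonneg _) (by norm_num)
    have h9 := abs_sub (Ec s ξ (s.succAbove i) - y (s.succAbove i)) (ξ i * (Ec s ξ s - y s))
    rw [h6, abs_div, abs_of_pos hys, div_le_iff₀ hys]
    have h10 : 4 * ‖Ec s ξ - y‖ ≤ 8 * (1 + 3 * (d : ℝ)) * ‖Ec s ξ - y‖ * y s := by
      have h11 : 4 ≤ 8 * (1 + 3 * (d : ℝ)) * y s := by nlinarith
      nlinarith [norm_nonneg (Ec s ξ - y)]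
    linarith [h3 i]
  refine ⟨fun i => y (s.succAbove i) / y s, ?_, of_pos s y hy hys, ?_⟩
  · refine (pi_norm_le_iff_of_nonneg (by norm_num)).mpr fun i => ?_
    have h6 : |ξ i| ≤ 3 := by
      have := norm_le_pi_norm ξ i
      rw [Real.norm_eq_abs] at this
      exact this.trans hξ
    have h7 := h5 i
    have h8 : 8 * (1 + 3 * (d : ℝ)) * ‖Ec s ξ - y‖ ≤ 1 := by
      have h9 : 8 * (1 + 3 * (d : ℝ)) * ‖Ec s ξ - y‖
          ≤ 8 * (1 + 3 * (d : ℝ)) * ((1 + 3 * (d : ℝ))⁻¹ / 8) :=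
        mul_le_mul_of_nonneg_left hc (by positivity)
      have h10 : 8 * (1 + 3 * (d : ℝ)) * ((1 + 3 * (d : ℝ))⁻¹ / 8) = 1 := by
        linarith
      linarith
    rw [Real.norm_eq_abs]
    have h9 := abs_sub_abs_le_abs_sub (y (s.succAbove i) / y s) (ξ i)
    rw [abs_sub_comm] at h9
    linarith
  · refine (pi_norm_le_iff_of_nonneg (by positivity)).mpr fun i => ?_
    rw [Real.norm_eq_abs]
    exact h5 i

end CH4

theorem pCH4 : StCH4 := ⟨CH4.first, CH4.second⟩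

end DV
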