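import Pool.Agent.Helper53.DV.St

/-!
# DV project, module CP: the contraction principle for absolute values
-/

set_option autoImplicit false

open scoped BigOperators

namespace DV

namespace CP

/-- change one sign -/
def flip {b : ℕ} (a : Fin b) (s : Fin b → Bool) : Fin b → Bool := Function.update s a (!(s a))

theorem flip_same {b : ℕ} (a : Fin b) (s : Fin b → Bool) : flip a s a = !(s a) := by
  unfold flip
  rw [Function.update_self]

theorem flip_ne {b : ℕ} {a j : Fin b} (h : j ≠ a) (s : Fin b → Bool) : flip a s j = s j := by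
  unfold flip
  rw [Function.update_of_ne h]

theorem flip_flip {b : ℕ} (a : Fin b) (s : Fin b → Bool) : flip a (flip a s) = s := by
  funext j
  by_cases h : j = a
  · rw [h, flip_same, flip_same, Bool.not_not]
  · rw [flip_ne h, flip_ne h]

theorem sum_flip {b : ℕ} (a : Fin b) (G : (Fin b → Bool) → ℝ) : ∑ s, G (flip a s) = ∑ s, G s := by
  have h : Function.Involutive (flip a) := flip_flip a
  exact Equiv.sum_comp h.toPerm G

theorem sg_not (c : Bool) : sg (!c) = -sg c := by
  cases c <;> simp [sg]

theorem abs_sg (c : Bool) : |sg c| = 1 := by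
  cases c <;> simp [sg]

theorem bdd_of_abs {I : Type} {f : I → ℝ} {C : ℝ} (h : ∀ i, |f i| ≤ C) : BddAbove (Set.range f) := by
  refine ⟨C, ?_⟩
  rintro _ ⟨i, rfl⟩
  exact (le_abs_self _).trans (h i)

theorem two_sup_aux {I : Type} [Nonempty I] (u v : I → ℝ) (h1 : BddAbove (Set.range fun i => u i + v i))
    (h2 : BddAbove (Set.range fun i => u i - v i)) :
    (⨆ i, (u i + |v i|)) + (⨆ i, (u i - |v i|)) ≤ (⨆ i, (u i + v i)) + ⨆ i, (u i - v i) := by
  apply ciSup_add_ciSup_le
  intro i i'
  have a1 : u i + v i ≤ ⨆ i, (u i + v i) := le_ciSup h1 i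
  have a2 : u i' + v i' ≤ ⨆ i, (u i + v i) := le_ciSup h1 i'
  have a3 : u i - v i ≤ ⨆ i, (u i - v i) := le_ciSup h2 i
  have a4 : u i' - v i' ≤ ⨆ i, (u i - v i) := le_ciSup h2 i'
  have a5 := abs_sub_abs_le_abs_sub (v i) (v i')
  rcases abs_cases (v i - v i') with ⟨h, -⟩ | ⟨h, -⟩ <;> linarith

theorem two_sup {I : Type} [Nonempty I] (u v : I → ℝ) (c : Bool) (h1 : BddAbove (Set.range fun i => u i + v i))
    (h2 : BddAbove (Set.range fun i => u i - v i)) :
    (⨆ i, (u i + sg c * |v i|)) + (⨆ i, (u i + -sg c * |v i|)) ≤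
      (⨆ i, (u i + sg c * v i)) + ⨆ i, (u i + -sg c * v i) := by
  have h := two_sup_aux u v h1 h2
  cases c
  · simp only [sg, Bool.false_eq_true, if_false, neg_neg, one_mul, neg_mul, ← sub_eq_add_neg]
    linarith
  · simp only [sg, if_true, one_mul, neg_mul, ← sub_eq_add_neg]
    exact h

/-- some absolute values -/
noncomputable def mix {b : ℕ} {I : Type} (t : I → Fin b → ℝ) (A : Finset (Fin b)) (i : I) (j : Fin b) : ℝ :=
  if j ∈ A then |t i j| else t i j

theorem abs_mix {b : ℕ} {I : Type} (t : I → Fin b → ℝ) (A : Finset (Fin b)) (i : I) (j : Fin b) :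
    |mix t A i j| = |t i j| := by
  unfold mix
  split_ifs
  · exact abs_abs _
  · rfl

/-- the sum of the suprema -/
noncomputable def F {b : ℕ} {I : Type} (t : I → Fin b → ℝ) (A : Finset (Fin b)) (s : Fin b → Bool) : ℝ :=
  ⨆ i, ∑ j, sg (s j) * mix t A i j

theorem step {b : ℕ} {I : Type} [Nonempty I] (t : I → Fin b → ℝ) (B : ℝ) (hB : ∀ i j, |t i j| ≤ B)
    (A : Finset (Fin b)) (a : Fin b) (ha : a ∉ A) : ∑ s, F t (insert a A) s ≤ ∑ s, F t A s := by
  have key : ∀ s, F t (insert a A) s + F t (insert a A) (flip a s) ≤ F t A s + F t A (flip a s) := by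
    intro s
    let u : I → ℝ := fun i => ∑ j ∈ Finset.univ.erase a, sg (s j) * mix t A i j
    have hu : ∀ i, |u i| ≤ ∑ j ∈ (Finset.univ : Finset (Fin b)).erase a, B := by
      intro i
      refine (Finset.abs_sum_le_sum_abs _ _).trans (Finset.sum_le_sum fun j _ => ?_)
      rw [abs_mul, abs_sg, one_mul, abs_mix]
      exact hB i j
    have hs1 : ∀ i, ∑ j, sg (s j) * mix t A i j = u i + sg (s a) * t i a := by
      intro i
      rw [← Finset.sum_erase_add _ _ (Finset.mem_univ a)]
      have h1 : mix t A i a = t i a := by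
        unfold mix
        rw [if_neg ha]
      rw [h1]
    have hs2 : ∀ i, ∑ j, sg (s j) * mix t (insert a A) i j = u i + sg (s a) * |t i a| := by
      intro i
      rw [← Finset.sum_erase_add _ _ (Finset.mem_univ a)]
      have h1 : mix t (insert a A) i a = |t i a| := by
        unfold mix
        rw [if_pos (Finset.mem_insert_self a A)]
      rw [h1]
      congr 1
      refine Finset.sum_congr rfl fun j hj => ?_
      have hj' : j ≠ a := Finset.ne_of_mem_erase hj
      unfold mix
      simp only [Finset.mem_insert, hj', false_or]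
    have hs3 : ∀ i, ∑ j, sg (flip a s j) * mix t A i j = u i + -sg (s a) * t i a := by
      intro i
      rw [← Finset.sum_erase_add _ _ (Finset.mem_univ a), flip_same, sg_not]
      have h1 : mix t A i a = t i a := by
        unfold mix
        rw [if_neg ha]
      rw [h1]
      congr 1
      refine Finset.sum_congr rfl fun j hj => ?_
      rw [flip_ne (Finset.ne_of_mem_erase hj)]
    have hs4 : ∀ i, ∑ j, sg (flip a s j) * mix t (insert a A) i j = u i + -sg (s a) * |t i a| := by
      intro i
      rw [← Finset.sum_erase_add _ _ (Finset.mem_univ a), flip_same, sg_not]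
      have h1 : mix t (insert a A) i a = |t i a| := by
        unfold mix
        rw [if_pos (Finset.mem_insert_self a A)]
      rw [h1]
      congr 1
      refine Finset.sum_congr rfl fun j hj => ?_
      have hj' : j ≠ a := Finset.ne_of_mem_erase hj
      rw [flip_ne hj']
      unfold mix
      simp only [Finset.mem_insert, hj', false_or]
    unfold F
    simp only [hs1, hs2, hs3, hs4]
    apply two_sup
    · apply bdd_of_abs (C := (∑ j ∈ (Finset.univ : Finset (Fin b)).erase a, B) + B)
      intro i
      exact (abs_add_le _ _).trans (add_le_add (hu i) (hB i a))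
    · apply bdd_of_abs (C := (∑ j ∈ (Finset.univ : Finset (Fin b)).erase a, B) + B)
      intro i
      exact (abs_sub _ _).trans (add_le_add (hu i) (hB i a))
  have h1 := Finset.sum_le_sum fun s (_ : s ∈ (Finset.univ : Finset (Fin b → Bool))) => key s
  rw [Finset.sum_add_distrib, Finset.sum_add_distrib, sum_flip a, sum_flip a] at h1
  linarith

theorem all {b : ℕ} {I : Type} [Nonempty I] (t : I → Fin b → ℝ) (B : ℝ) (hB : ∀ i j, |t i j| ≤ B)
    (A : Finset (Fin b)) : ∑ s, F t A s ≤ ∑ s, F t ∅ s := by
  induction A using Finset.induction_on with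
  | empty => exact le_refl _
  | insert a A ha ih => exact (step t B hB A a ha).trans ih

end CP

open CP in
/-- MODULE CP. -/
theorem pCP : StCP := by
  intro b I _ t B hB
  have h := all t B hB Finset.univ
  unfold F mix at h
  simpa using h

end DV
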