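import Pool.Agent.Helper53.DV.St

/-!
# DV project, module CU: the cut-off functions
-/

set_option autoImplicit false

namespace DV

namespace CU

/-- the truncated exponential -/
private noncomputable def uu (η L t : ℝ) : ℝ := min (1 + η) (max η (η * Real.exp (L * (t - 3 / 2))))

private theorem uu_ge {η : ℝ} (L t : ℝ) (_h : 0 < η) : η ≤ uu η L t := by
  unfold uu
  exact le_min (by linarith) (le_max_left _ _)

private theorem uu_le (η L t : ℝ) : uu η L t ≤ 1 + η := min_le_left _ _

private theorem uu_mul {η L : ℝ} (h : 0 < η) (hL : 0 ≤ L) (t t' : ℝ) :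
    uu η L t' ≤ uu η L t * Real.exp (L * |t - t'|) := by
  have hs : 1 ≤ Real.exp (L * |t - t'|) := Real.one_le_exp (by positivity)
  have h0 : 0 ≤ Real.exp (L * |t - t'|) := by linarith
  unfold uu
  rw [min_mul_of_nonneg _ _ h0, max_mul_of_nonneg _ _ h0]
  apply min_le_min
  · nlinarith
  · apply max_le_max
    · nlinarith
    · rw [mul_assoc, ← Real.exp_add]
      apply mul_le_mul_of_nonneg_left _ h.le
      apply Real.exp_le_exp.2
      have h1 : t' - t ≤ |t - t'| := by
        rw [abs_sub_comm]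
        exact le_abs_self _
      nlinarith

private theorem uu_lip {η L : ℝ} (h : 0 < η) (hL : 0 ≤ L) (t t' : ℝ) (ht : L * |t - t'| ≤ 1) :
    |uu η L t - uu η L t'| ≤ 2 * (L * |t - t'|) * uu η L t := by
  have h1 := uu_mul h hL t t'
  have h2 := uu_mul h hL t' t
  rw [abs_sub_comm t' t] at h2
  have hs0 : 0 ≤ L * |t - t'| := by positivity
  have hu : 0 < uu η L t := lt_of_lt_of_le h (uu_ge L t h)
  have hu' : 0 < uu η L t' := lt_of_lt_of_le h (uu_ge L t' h)
  have h3 : Real.exp (L * |t - t'|) - 1 ≤ 2 * (L * |t - t'|) := by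
    have h4 := Real.abs_exp_sub_one_le (x := L * |t - t'|) (by rwa [abs_of_nonneg hs0])
    rw [abs_of_nonneg hs0] at h4
    exact (le_abs_self _).trans h4
  have h5 : 1 - L * |t - t'| ≤ Real.exp (-(L * |t - t'|)) := by
    have h6 := Real.add_one_le_exp (-(L * |t - t'|))
    linarith
  rw [abs_le]
  constructor
  · nlinarith
  · -- `u t - u t' ≤ s u t`
    have h7 : uu η L t * Real.exp (-(L * |t - t'|)) ≤ uu η L t' := by
      have h8 : uu η L t * Real.exp (-(L * |t - t'|)) ≤
          uu η L t' * Real.exp (L * |t - t'|) * Real.exp (-(L * |t - t'|)) :=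
        mul_le_mul_of_nonneg_right h2 (Real.exp_pos _).le
      rwa [mul_assoc, ← Real.exp_add, add_neg_cancel, Real.exp_zero, mul_one] at h8
    have h9 : uu η L t * (1 - L * |t - t'|) ≤ uu η L t * Real.exp (-(L * |t - t'|)) :=
      mul_le_mul_of_nonneg_left h5 hu.le
    nlinarith

end CU

theorem pCU : StCU := by
  intro η h0 h1
  have hlog : 0 ≤ Real.log (1 + 1 / η) := Real.log_nonneg (by
    have : 0 < 1 / η := by positivity
    linarith)
  have hL : 0 ≤ 2 * Real.log (1 + 1 / η) := by linarith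
  refine ⟨fun t => 1 + η - CU.uu η (2 * Real.log (1 + 1 / η)) t, fun t => ⟨?_, ?_⟩, fun t ht => ?_, fun t ht => ?_,
    fun t t' ht => ?_⟩
  · have := CU.uu_le η (2 * Real.log (1 + 1 / η)) t
    show 0 ≤ 1 + η - _
    linarith
  · have := CU.uu_ge (2 * Real.log (1 + 1 / η)) t h0
    show 1 + η - _ ≤ 1
    linarith
  · show 1 + η - _ = 1
    have h2 : CU.uu η (2 * Real.log (1 + 1 / η)) t = η := by
      unfold CU.uu
      have h3 : Real.exp (2 * Real.log (1 + 1 / η) * (t - 3 / 2)) ≤ 1 := by
        apply Real.exp_le_one_iff.2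
        exact mul_nonpos_of_nonneg_of_nonpos hL (by linarith)
      rw [max_eq_left (by nlinarith), min_eq_right (by linarith)]
    rw [h2]
    ring
  · show 1 + η - _ = 0
    have h2 : CU.uu η (2 * Real.log (1 + 1 / η)) t = 1 + η := by
      unfold CU.uu
      apply min_eq_left
      apply le_max_of_le_right
      have h3 : Real.log (1 + 1 / η) ≤ 2 * Real.log (1 + 1 / η) * (t - 3 / 2) := by nlinarith
      have h4 : 1 + 1 / η ≤ Real.exp (2 * Real.log (1 + 1 / η) * (t - 3 / 2)) := by
        rw [← Real.log_le_iff_le_exp (by positivity)]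
        exact h3
      calc 1 + η = η * (1 + 1 / η) := by field_simp; ring
        _ ≤ _ := mul_le_mul_of_nonneg_left h4 h0.le
    rw [h2]
    ring
  · have h2 := CU.uu_lip h0 hL t t' ht
    show |1 + η - _ - (1 + η - _)| ≤ _ * (η + (1 - (1 + η - _)))
    rw [abs_sub_comm] at h2 ⊢
    calc _ = |CU.uu η (2 * Real.log (1 + 1 / η)) t - CU.uu η (2 * Real.log (1 + 1 / η)) t'| := by
          congr 1
          ring
      _ ≤ 2 * (2 * Real.log (1 + 1 / η) * |t - t'|) * CU.uu η (2 * Real.log (1 + 1 / η)) t := by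
          rw [abs_sub_comm]; exact h2
      _ = _ := by ring

end DV
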