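import Pool.Agent.Helper53.DV.St

/-!
# DV project, module DR1: the map of maximal determinant
-/

set_option autoImplicit false

open scoped BigOperators Topology

namespace DV

namespace DR1

/-- comparison of the derivatives at zero -/
theorem trace_le {n : ℕ} (A : Eu n →ₗ[ℝ] Eu n) (c : ℝ)
    (h : ∀ t : ℝ, 0 ≤ t → LinearMap.det (LinearMap.id + t • A) ≤ (1 + t * c) ^ n) :
    LinearMap.trace ℝ (Eu n) A ≤ n * c := by
  let B := (EuclideanSpace.basisFun (Fin n) ℝ).toBasis
  set M := LinearMap.toMatrix B B A with hM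
  have htr : LinearMap.trace ℝ (Eu n) A = Matrix.trace M := LinearMap.trace_eq_matrix_trace ℝ B A
  set Q : Polynomial ℝ :=
    (Matrix.det (1 + (Polynomial.X : Polynomial ℝ) • M.map Polynomial.C)).divX.divX with hQ
  have hdet : ∀ t : ℝ, LinearMap.det (LinearMap.id + t • A) =
      1 + Matrix.trace M * t + Q.eval t * t ^ 2 := by
    intro t
    rw [← LinearMap.det_toMatrix B, map_add, map_smul, LinearMap.toMatrix_id]
    exact Matrix.det_one_add_smul t M
  have h1 : HasDerivAt (fun t : ℝ => (1 + t * c) ^ n) (n * c) 0 := by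
    have h := (((hasDerivAt_id (0 : ℝ)).mul_const c).const_add 1).pow n
    exact h.congr_deriv (by simp)
  have h2 : HasDerivAt (fun t : ℝ => 1 + Matrix.trace M * t + Q.eval t * t ^ 2)
      (Matrix.trace M) 0 := by
    have a := ((hasDerivAt_id (0 : ℝ)).const_mul (Matrix.trace M)).const_add 1
    have b := (Q.hasDerivAt 0).mul ((hasDerivAt_id (0 : ℝ)).pow 2)
    exact (a.add b).congr_deriv (by simp)
  have h3 := (h1.sub h2).tendsto_slope_zero_right
  have h4 : 0 ≤ (n : ℝ) * c - Matrix.trace M := by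
    refine ge_of_tendsto h3 ?_
    filter_upwards [self_mem_nhdsWithin] with t ht
    have ht' : 0 < t := ht
    have h5 := h t ht'.le
    rw [hdet] at h5
    simp only [Pi.sub_apply, zero_add, smul_eq_mul]
    refine mul_nonneg (inv_nonneg.2 ht'.le) ?_
    simp
    linarith
  rw [htr]
  linarith

end DR1

/-- MODULE DR1. -/
theorem pDR1 : StDR1 := by
  intro X _ _ _ n hn hn0
  have hfin : Module.finrank ℝ (Eu n) = Module.finrank ℝ X := by
    rw [hn, finrank_euclideanSpace_fin]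
  let b : Eu n ≃L[ℝ] X := ContinuousLinearEquiv.ofFinrankEq hfin
  have hne : Nonempty (Fin n) := ⟨⟨0, hn0⟩⟩
  have hnt : Nontrivial (Eu n) := inferInstance
  have hpr : ProperSpace (Eu n →L[ℝ] X) := FiniteDimensional.proper_real _
  -- the maximum
  let f : (Eu n →L[ℝ] X) → ℝ := fun u => |((b.symm : X →L[ℝ] Eu n).comp u).det|
  have hf : Continuous f := by
    apply continuous_abs.comp
    apply ContinuousLinearMap.continuous_det.comp
    exact continuous_const.clm_comp continuous_id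
  have hK : IsCompact (Metric.closedBall (0 : Eu n →L[ℝ] X) 1) := isCompact_closedBall _ _
  obtain ⟨u₀, hu₀, hmax⟩ := hK.exists_isMaxOn
    ⟨0, Metric.mem_closedBall_self zero_le_one⟩ hf.continuousOn
  have hu₀' : ‖u₀‖ ≤ 1 := by
    rwa [mem_closedBall_zero_iff] at hu₀
  have hmax' : ∀ u : Eu n →L[ℝ] X, ‖u‖ ≤ 1 → f u ≤ f u₀ := fun u hu =>
    hmax (by rw [mem_closedBall_zero_iff]; exact hu)
  have hfs : ∀ (t : ℝ) (u : Eu n →L[ℝ] X), f (t • u) = |t| ^ n * f u := by
    intro t u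
    show |((b.symm : X →L[ℝ] Eu n).comp (t • u)).det| = |t| ^ n *
      |((b.symm : X →L[ℝ] Eu n).comp u).det|
    have e1 : (b.symm : X →L[ℝ] Eu n).comp (t • u) = t • (b.symm : X →L[ℝ] Eu n).comp u := by
      rw [ContinuousLinearMap.comp_smul]
    rw [e1]
    have e2 : (t • (b.symm : X →L[ℝ] Eu n).comp u).det =
        t ^ n * ((b.symm : X →L[ℝ] Eu n).comp u).det := by
      show LinearMap.det (t • (((b.symm : X →L[ℝ] Eu n).comp u : Eu n →L[ℝ] Eu n) :
        Eu n →ₗ[ℝ] Eu n)) = _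
      rw [LinearMap.det_smul, finrank_euclideanSpace_fin]
    rw [e2, abs_mul, abs_pow]
  have hb0 : 0 < ‖(b : Eu n →L[ℝ] X)‖ := by
    rw [norm_pos_iff]
    intro h
    obtain ⟨x, hx⟩ := exists_ne (0 : Eu n)
    apply hx
    have h1 : (b : Eu n →L[ℝ] X) x = 0 := by rw [h]; rfl
    exact b.map_eq_zero_iff.1 h1
  have hfb : f (b : Eu n →L[ℝ] X) = 1 := by
    show |((b.symm : X →L[ℝ] Eu n).comp (b : Eu n →L[ℝ] X)).det| = 1
    rw [ContinuousLinearEquiv.coe_symm_comp_coe]
    show |LinearMap.det (LinearMap.id : Eu n →ₗ[ℝ] Eu n)| = 1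
    rw [LinearMap.det_id, abs_one]
  have hf0 : 0 < f u₀ := by
    have h1 := hmax' ((‖(b : Eu n →L[ℝ] X)‖)⁻¹ • (b : Eu n →L[ℝ] X)) (by
      rw [norm_smul, norm_inv, norm_norm, inv_mul_cancel₀ hb0.ne'])
    rw [hfs, hfb, mul_one] at h1
    refine lt_of_lt_of_le ?_ h1
    positivity
  -- the equivalence
  let g : Eu n →ₗ[ℝ] Eu n := (((b.symm : X →L[ℝ] Eu n).comp u₀ : Eu n →L[ℝ] Eu n) :
        Eu n →ₗ[ℝ] Eu n)
  have hg : LinearMap.det g ≠ 0 := by
    intro h
    have h1 : f u₀ = |LinearMap.det g| := rfl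
    rw [h1, h, abs_zero] at hf0
    exact lt_irrefl _ hf0
  let ge : Eu n ≃ₗ[ℝ] Eu n := LinearMap.equivOfDetNeZero g hg
  have hge : ∀ a, ge a = g a := fun a => rfl
  let u : Eu n ≃ₗ[ℝ] X := ge.trans b.toLinearEquiv
  have hu : ∀ a, u a = u₀ a := by
    intro a
    show b (g a) = u₀ a
    show b (b.symm (u₀ a)) = u₀ a
    exact b.apply_symm_apply _
  refine ⟨u, fun a => ?_, fun v c hv => ?_⟩
  · rw [hu]
    calc ‖u₀ a‖ ≤ ‖u₀‖ * ‖a‖ := u₀.le_opNorm a
      _ ≤ 1 * ‖a‖ := mul_le_mul_of_nonneg_right hu₀' (norm_nonneg _)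
      _ = ‖a‖ := one_mul _
  · have hc : 0 ≤ c := by
      obtain ⟨x, hx⟩ := exists_ne (0 : Eu n)
      have h1 := (norm_nonneg _).trans (hv x)
      have h2 : 0 < ‖x‖ := norm_pos_iff.2 hx
      by_contra hcon
      rw [not_le] at hcon
      have := mul_neg_of_neg_of_pos hcon h2
      linarith
    apply DR1.trace_le
    intro t ht
    have htc : 0 < 1 + t * c := by positivity
    let vc : Eu n →L[ℝ] X := LinearMap.toContinuousLinearMap v
    have hvc : ∀ a, vc a = v a := fun a => rfl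
    let w : Eu n →L[ℝ] X := u₀ + t • vc
    have hw : ‖w‖ ≤ 1 + t * c := by
      refine ContinuousLinearMap.opNorm_le_bound _ htc.le fun a => ?_
      have h1 : ‖u₀ a‖ ≤ ‖a‖ := by
        calc ‖u₀ a‖ ≤ ‖u₀‖ * ‖a‖ := u₀.le_opNorm a
          _ ≤ 1 * ‖a‖ := mul_le_mul_of_nonneg_right hu₀' (norm_nonneg _)
          _ = ‖a‖ := one_mul _
      have h2 : w a = u₀ a + t • v a := rfl
      rw [h2]
      calc ‖u₀ a + t • v a‖ ≤ ‖u₀ a‖ + ‖t • v a‖ := norm_add_le _ _
        _ ≤ ‖a‖ + t * (c * ‖a‖) := by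
            rw [norm_smul, Real.norm_of_nonneg ht]
            exact add_le_add h1 (mul_le_mul_of_nonneg_left (hv a) ht)
        _ = (1 + t * c) * ‖a‖ := by ring
    have h1 := hmax' ((1 + t * c)⁻¹ • w) (by
      rw [norm_smul, norm_inv, Real.norm_of_nonneg htc.le, inv_mul_le_iff₀ htc, mul_one]
      exact hw)
    rw [hfs, abs_of_pos (inv_pos.2 htc)] at h1
    -- the determinant of `w`
    have h2 : f w = |LinearMap.det (LinearMap.id + t • (u.symm.toLinearMap ∘ₗ v))| * f u₀ := by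
      show |LinearMap.det ((((b.symm : X →L[ℝ] Eu n).comp w : Eu n →L[ℝ] Eu n) :
        Eu n →ₗ[ℝ] Eu n))| = _
      have e1 : ((((b.symm : X →L[ℝ] Eu n).comp w : Eu n →L[ℝ] Eu n) : Eu n →ₗ[ℝ] Eu n)) =
          g ∘ₗ (LinearMap.id + t • (u.symm.toLinearMap ∘ₗ v)) := by
        ext1 a
        show b.symm (w a) = g (a + t • u.symm (v a))
        have e3 : w a = u₀ a + t • v a := rfl
        have e4 : u₀ (u.symm (v a)) = v a := by
          rw [← hu]
          exact u.apply_symm_apply _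
        rw [e3]
        show b.symm (u₀ a + t • v a) = b.symm (u₀ (a + t • u.symm (v a)))
        rw [map_add u₀, map_smul u₀, e4]
      rw [e1, LinearMap.det_comp, abs_mul, mul_comm]
    rw [h2] at h1
    have h3 : ((1 + t * c)⁻¹) ^ n *
        |LinearMap.det (LinearMap.id + t • (u.symm.toLinearMap ∘ₗ v))| ≤ 1 := by
      by_contra hcon
      rw [not_le] at hcon
      have := mul_lt_mul_of_pos_right hcon hf0
      rw [one_mul, mul_assoc] at this
      linarith
    rw [inv_pow, inv_mul_le_iff₀ (by positivity), mul_one] at h3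
    exact (le_abs_self _).trans h3

end DV
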