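import Pool.Agent.Helper53.DV.St

/-!
# DV project, module DR2: half of the dimension many vectors with weak `ℓ_2` norm one
-/

set_option autoImplicit false

open scoped BigOperators RealInnerProductSpace

namespace DV

namespace DR2

/-- A subspace of dimension `f` contains a unit vector `a` with `‖u a‖ ≥ f / n`. -/
theorem exists_unit {X : Type} [NormedAddCommGroup X] [NormedSpace ℝ X] {n : ℕ} (hn0 : 0 < n)
    (u : Eu n ≃ₗ[ℝ] X)
    (hu : ∀ (v : Eu n →ₗ[ℝ] X) (c : ℝ), (∀ a, ‖v a‖ ≤ c * ‖a‖) →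
      LinearMap.trace ℝ (Eu n) (u.symm.toLinearMap ∘ₗ v) ≤ n * c)
    (F : Submodule ℝ (Eu n)) (hF : 0 < Module.finrank ℝ F) :
    ∃ b : Eu n, b ∈ F ∧ ‖b‖ = 1 ∧ (Module.finrank ℝ F : ℝ) / n ≤ ‖u b‖ := by
  have hn : (0 : ℝ) < n := Nat.cast_pos.2 hn0
  have huc : Continuous (fun x : Eu n => u x) := u.toLinearMap.continuous_of_finiteDimensional
  have hnt : Nontrivial F := Module.finrank_pos_iff.1 hF
  have hK : IsCompact (Metric.sphere (0 : F) 1) := isCompact_sphere _ _
  have hKne : (Metric.sphere (0 : F) 1).Nonempty := NormedSpace.sphere_nonempty.2 zero_le_one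
  obtain ⟨b, hb, hmax⟩ := hK.exists_isMaxOn hKne
    ((continuous_norm.comp (huc.comp continuous_subtype_val)).continuousOn)
  have hb1 : ‖(b : Eu n)‖ = 1 := by
    have := mem_sphere_zero_iff_norm.1 hb
    simpa using this
  refine ⟨b, b.2, hb1, ?_⟩
  set c : ℝ := ‖u (b : Eu n)‖ with hc
  have hc0 : 0 ≤ c := norm_nonneg _
  have hbound : ∀ z : F, ‖u (z : Eu n)‖ ≤ c * ‖z‖ := by
    intro z
    by_cases hz : z = 0
    · subst hz; simp
    · have hz' : 0 < ‖z‖ := norm_pos_iff.2 hz
      have h1 : (‖z‖⁻¹ • z) ∈ Metric.sphere (0 : F) 1 := by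
        rw [mem_sphere_zero_iff_norm, norm_smul, norm_inv, norm_norm, inv_mul_cancel₀ hz'.ne']
      have h2 : ‖u ((‖z‖⁻¹ • z : F) : Eu n)‖ ≤ c := hmax h1
      rw [Submodule.coe_smul, map_smul, norm_smul, norm_inv, norm_norm, inv_mul_le_iff₀ hz'] at h2
      linarith [mul_comm c ‖z‖]
  let v : Eu n →ₗ[ℝ] X := u.toLinearMap ∘ₗ (F.starProjection : Eu n →ₗ[ℝ] Eu n)
  have hv : ∀ a, ‖v a‖ ≤ c * ‖a‖ := by
    intro a
    have h1 : v a = u ((F.orthogonalProjectionOnto a : F) : Eu n) := rfl
    rw [h1]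
    refine (hbound _).trans (mul_le_mul_of_nonneg_left ?_ hc0)
    exact F.norm_orthogonalProjectionOnto_apply_le a
  have htr := hu v c hv
  have hcomp : u.symm.toLinearMap ∘ₗ v = (F.starProjection : Eu n →ₗ[ℝ] Eu n) := by
    ext1 a
    show u.symm (u (F.starProjection a)) = F.starProjection a
    exact u.symm_apply_apply _
  have hproj : LinearMap.IsProj F (F.starProjection : Eu n →ₗ[ℝ] Eu n) := by
    refine ⟨fun x => ?_, fun x hx => ?_⟩
    · exact (F.orthogonalProjectionOnto x).2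
    · exact Submodule.starProjection_eq_self_iff.2 hx
  rw [hcomp, hproj.trace] at htr
  rw [div_le_iff₀ hn]
  linarith [mul_comm (n : ℝ) c]

/-- Successive choice of the orthonormal vectors. -/
theorem exists_family {X : Type} [NormedAddCommGroup X] [NormedSpace ℝ X] {n : ℕ} (hn0 : 0 < n)
    (u : Eu n ≃ₗ[ℝ] X)
    (hu : ∀ (v : Eu n →ₗ[ℝ] X) (c : ℝ), (∀ a, ‖v a‖ ≤ c * ‖a‖) →
      LinearMap.trace ℝ (Eu n) (u.symm.toLinearMap ∘ₗ v) ≤ n * c) :
    ∀ j : ℕ, 2 * j ≤ n + 1 → ∃ a : Fin j → Eu n, Orthonormal ℝ a ∧ ∀ i, 1 / 2 ≤ ‖u (a i)‖ := by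
  intro j
  induction j with
  | zero =>
    intro _
    refine ⟨Fin.elim0, ⟨fun i => i.elim0, fun i => i.elim0⟩, fun i => i.elim0⟩
  | succ j ih =>
    intro hj
    obtain ⟨a, ha, hua⟩ := ih (by omega)
    set G : Submodule ℝ (Eu n) := Submodule.span ℝ (Set.range a) with hG
    have hGf : Module.finrank ℝ G = j := by
      have := finrank_span_eq_card ha.linearIndependent
      rw [Fintype.card_fin] at this
      exact this
    have hsum : Module.finrank ℝ G + Module.finrank ℝ Gᗮ = n := by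
      rw [Submodule.finrank_add_finrank_orthogonal, finrank_euclideanSpace_fin]
    have hF : 0 < Module.finrank ℝ Gᗮ := by omega
    obtain ⟨b, hbF, hb1, hub⟩ := exists_unit hn0 u hu Gᗮ hF
    have hn : (0 : ℝ) < n := Nat.cast_pos.2 hn0
    have hhalf : (1 : ℝ) / 2 ≤ ‖u b‖ := by
      refine le_trans ?_ hub
      rw [div_le_div_iff₀ (by norm_num) hn]
      have h1 : n ≤ Module.finrank ℝ Gᗮ * 2 := by omega
      have h2 : (n : ℝ) ≤ (Module.finrank ℝ Gᗮ : ℝ) * 2 := by exact_mod_cast h1
      linarith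
    have hab : ∀ i, ⟪b, a i⟫ = 0 := by
      intro i
      have h1 : a i ∈ G := Submodule.subset_span ⟨i, rfl⟩
      exact Submodule.inner_left_of_mem_orthogonal h1 hbF
    refine ⟨Fin.cons b a, ⟨?_, ?_⟩, ?_⟩
    · intro i
      refine Fin.cases ?_ (fun i => ?_) i
      · simpa using hb1
      · simpa using ha.1 i
    · intro i k hik
      induction i using Fin.cases with
      | zero =>
        induction k using Fin.cases with
        | zero => exact absurd rfl hik
        | succ k => simpa using hab k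
      | succ i =>
        induction k using Fin.cases with
        | zero =>
          have := hab i
          rw [real_inner_comm] at this
          simpa using this
        | succ k =>
          have h1 : i ≠ k := fun h => hik (by rw [h])
          simpa using ha.2 h1
    · intro i
      refine Fin.cases ?_ (fun i => ?_) i
      · simpa using hhalf
      · simpa using hua i

end DR2

/-- MODULE DR2. -/
theorem pDR2 (h1 : StDR1) : StDR2 := by
  intro X _ _ _ n hn hn0
  obtain ⟨u, hu1, hu2⟩ := h1 X n hn hn0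
  obtain ⟨a, ha, hua⟩ := DR2.exists_family hn0 u hu2 ((n + 1) / 2) (by omega)
  refine ⟨(n + 1) / 2, by omega, fun i => u (a i), fun c => ?_, hua⟩
  have e1 : ∑ i, c i • u (a i) = u (∑ i, c i • a i) := by
    rw [map_sum]
    exact Finset.sum_congr rfl fun i _ => (map_smul u (c i) (a i)).symm
  rw [e1]
  refine (hu1 _).trans (le_of_eq ?_)
  rw [eq_comm, Real.sqrt_eq_iff_mul_self_eq (Finset.sum_nonneg fun i _ => sq_nonneg _) (norm_nonneg _),
    ← real_inner_self_eq_norm_mul_norm, ha.inner_sum]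
  refine Finset.sum_congr rfl fun i _ => ?_
  simp [sq]

end DV
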