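import Pool.Agent.Helper53.DV.St

/-! DV project, module FI: the number `N(k, ε)`. -/

set_option autoImplicit false

namespace DV

namespace FI

/-- A linear map with `‖z‖ ≤ ‖T z‖ ≤ (1 + ε) ‖z‖` gives an almost Euclidean subspace. -/
theorem almost {k : ℕ} {ε : ℝ} (hε : 0 < ε) {X : Type} [NormedAddCommGroup X] [NormedSpace ℝ X] [FiniteDimensional ℝ X]
    (h : HasEu k ε X) : AlmostEuclidean k ε X := by
  obtain ⟨T, hT⟩ := h
  have hinj : Function.Injective T := by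
    rw [injective_iff_map_eq_zero]
    intro z hz
    have := (hT z).1
    rw [hz, norm_zero] at this
    exact norm_le_zero_iff.1 this
  have hfr : Module.finrank ℝ (LinearMap.range T) = k := by
    rw [LinearMap.finrank_range_of_inj hinj, finrank_euclideanSpace, Fintype.card_fin]
  refine ⟨LinearMap.range T, hfr, ?_⟩
  -- the equivalence
  let e : Eu k ≃ₗ[ℝ] LinearMap.range T := LinearEquiv.ofInjective T hinj
  have he : ∀ z, ((e z : LinearMap.range T) : X) = T z := fun z => rfl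
  let S : LinearMap.range T ≃L[ℝ] Eu k := e.symm.toContinuousLinearEquiv
  have h1 : ‖(S : LinearMap.range T →L[ℝ] Eu k)‖ ≤ 1 := by
    refine ContinuousLinearMap.opNorm_le_bound _ zero_le_one fun y => ?_
    have h2 := (hT (e.symm y)).1
    have h3 : T (e.symm y) = (y : X) := by
      rw [← he, LinearEquiv.apply_symm_apply]
    rw [h3] at h2
    rw [one_mul]
    exact h2
  have h2 : ‖(S.symm : Eu k →L[ℝ] LinearMap.range T)‖ ≤ 1 + ε := by
    refine ContinuousLinearMap.opNorm_le_bound _ (by linarith) fun z => ?_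
    exact (hT z).2
  have hbdd : BddBelow {r : ℝ | ∃ T' : LinearMap.range T ≃L[ℝ] Eu k,
      r = ‖(T' : LinearMap.range T →L[ℝ] Eu k)‖ * ‖(T'.symm : Eu k →L[ℝ] LinearMap.range T)‖} := by
    refine ⟨0, ?_⟩
    rintro r ⟨T', rfl⟩
    positivity
  refine (csInf_le hbdd ⟨S, rfl⟩).trans ?_
  calc ‖(S : LinearMap.range T →L[ℝ] Eu k)‖ * ‖(S.symm : Eu k →L[ℝ] LinearMap.range T)‖ ≤ 1 * (1 + ε) := by
        gcongr
    _ = 1 + ε := one_mul _

end FI

theorem pFI (hTD : StTD) : StFI := by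
  intro k hk
  obtain ⟨C, hC, h⟩ := hTD k hk
  -- a lower bound for the exponent
  have hlog : ∀ ε : ℝ, 0 < ε → ε ≤ 1 / 2 →
      Real.log 2 ^ 3 ≤ ε ^ (-(2 / 3 : ℝ)) * Real.log (1 / ε) ^ 3 := by
    intro ε h0 h1
    have h2 : (1 : ℝ) ≤ ε ^ (-(2 / 3 : ℝ)) :=
      Real.one_le_rpow_of_pos_of_le_one_of_nonpos h0 (by linarith) (by norm_num)
    have h3 : Real.log 2 ≤ Real.log (1 / ε) := by
      refine Real.log_le_log (by norm_num) ?_
      rw [le_div_iff₀ h0]
      linarith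
    have h4 : 0 ≤ Real.log 2 := Real.log_nonneg (by norm_num)
    have h5 : Real.log 2 ^ 3 ≤ Real.log (1 / ε) ^ 3 := pow_le_pow_left₀ h4 h3 3
    have h6 : 0 ≤ Real.log (1 / ε) ^ 3 := le_trans (by positivity) h5
    nlinarith
  have hl2 : 0 < Real.log 2 ^ 3 := by
    have : 0 < Real.log 2 := Real.log_pos (by norm_num)
    positivity
  -- enlarge the constant so that `exp (C E) + 1 ≤ exp (C' E)`
  refine ⟨C + 2 / Real.log 2 ^ 3, by positivity, fun ε h0 h1 => ?_⟩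
  set E : ℝ := ε ^ (-(2 / 3 : ℝ)) * Real.log (1 / ε) ^ 3 with hE
  have hEl := hlog ε h0 h1
  have hE0 : 0 < E := lt_of_lt_of_le hl2 hEl
  have hmul : ∀ c : ℝ, c * ε ^ (-(2 / 3 : ℝ)) * Real.log (1 / ε) ^ 3 = c * E := fun c => by rw [hE]; ring
  rw [hmul]
  have hle : C * E ≤ (C + 2 / Real.log 2 ^ 3) * E := by
    have : 0 ≤ 2 / Real.log 2 ^ 3 := by positivity
    nlinarith
  have hcl : ∀ n : ℕ, Real.exp (C * E) ≤ n →
      ∀ (X : Type) [NormedAddCommGroup X] [NormedSpace ℝ X] [FiniteDimensional ℝ X],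
        Module.finrank ℝ X = n → AlmostEuclidean k ε X := by
    intro n hn X _ _ _ hX
    refine FI.almost h0 (h ε h0 h1 X ?_)
    rw [hmul, hX]
    exact hn
  refine ⟨fun n hn X _ _ _ hX => hcl n ((Real.exp_le_exp.2 hle).trans hn) X hX, ?_⟩
  have h2 : NDv k ε ≤ ⌈Real.exp (C * E)⌉₊ :=
    Nat.sInf_le fun X _ _ _ hX => hcl _ (Nat.le_ceil _) X hX
  have h3 : ((⌈Real.exp (C * E)⌉₊ : ℕ) : ℝ) ≤ Real.exp (C * E) + 1 :=
    (Nat.ceil_lt_add_one (Real.exp_pos _).le).le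
  have h4 : (NDv k ε : ℝ) ≤ (⌈Real.exp (C * E)⌉₊ : ℕ) := by exact_mod_cast h2
  have h5 : 2 ≤ 2 / Real.log 2 ^ 3 * E := by
    rw [div_mul_eq_mul_div, le_div_iff₀ hl2]
    nlinarith
  have h6 : Real.exp (C * E) + 1 ≤ Real.exp ((C + 2 / Real.log 2 ^ 3) * E) := by
    have h7 : (1 : ℝ) ≤ Real.exp (C * E) := Real.one_le_exp (by positivity)
    have h8 : (2 : ℝ) ≤ Real.exp (2 / Real.log 2 ^ 3 * E) := by
      have := Real.add_one_le_exp (2 / Real.log 2 ^ 3 * E)
      linarith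
    rw [add_mul, Real.exp_add]
    nlinarith
  linarith

end DV
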