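import Pool.Agent.Helper53.DV.St

/-!
# DV project (MP_d684b1_an), module FS: assembly of the first stage
-/

set_option autoImplicit false

open scoped BigOperators
open MeasureTheory

namespace DV

namespace FS

theorem log_ge {x : ℝ} (h0 : 0 ≤ x) (h1 : x ≤ 1) : x / 2 ≤ Real.log (1 + x) := by
  have h2 : 0 < 1 + x := by linarith
  have h3 := Real.one_sub_inv_le_log_of_pos h2
  have h4 : x / 2 ≤ 1 - (1 + x)⁻¹ := by
    have h5 : (1 + x)⁻¹ * (1 + x) = 1 := inv_mul_cancel₀ h2.ne'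
    have h6 : 0 < (1 + x)⁻¹ := inv_pos.2 h2
    nlinarith
  exact h4.trans h3

theorem quot {a b c η : ℝ} (ha : a ≤ c) (hc : 0 ≤ c) (hη : 0 < η) (hb : η / 16 ≤ b) :
    a / b ≤ c * 16 / η := by
  have h1 : a / b ≤ c / (η / 16) := div_le_div₀ hc ha (by positivity) hb
  have h2 : c / (η / 16) = c * 16 / η := by field_simp
  rwa [h2] at h1

theorem fin {l lam η A A₂ K Lt : ℝ} (hη : 0 < η) (hη2 : η ≤ 1 / 2) (hl : Real.log 2 ≤ l)
    (hlam : Real.log 2 ≤ lam) (hA : 0 ≤ A) (hK : 0 < K) (hLt : 0 < Lt)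
    (hlogK : Real.log K ≤ A * l) (hlogL : Real.log Lt ≤ A₂ * (l * lam / η)) :
    2592 * (K * Lt) ^ 2 ≤ Real.exp ((9 + 2 * A + 2 * A₂) * l * lam / η) := by
  have hl2 : (0.6931471803 : ℝ) < Real.log 2 := Real.log_two_gt_d9
  have hl0 : 0 < l := by linarith
  have hlam0 : 0 < lam := by linarith
  set W : ℝ := l * lam / η with hW
  have hW1 : 0.9 ≤ W := by
    rw [hW, le_div_iff₀ hη]
    nlinarith
  have hlW : l ≤ W := by
    rw [hW, le_div_iff₀ hη]
    have : η ≤ lam := by linarith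
    exact mul_le_mul_of_nonneg_left this hl0.le
  have hexp : Real.exp ((9 + 2 * A + 2 * A₂) * l * lam / η) =
      Real.exp (9 * W) * (Real.exp (A * W) * Real.exp (A₂ * W)) ^ 2 := by
    rw [← Real.exp_add, ← Real.exp_nat_mul, ← Real.exp_add]
    congr 1
    rw [hW]
    push_cast
    ring
  rw [hexp]
  have h9 : (2592 : ℝ) ≤ Real.exp (9 * W) := by
    have h1 : Real.exp 8 ≤ Real.exp (9 * W) := Real.exp_le_exp.2 (by linarith)
    have h2 : (2592 : ℝ) ≤ Real.exp 8 := by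
      have h3 : Real.exp 8 = Real.exp 1 ^ 8 := by
        rw [← Real.exp_nat_mul]
        norm_num
      rw [h3]
      have h4 : (2.7182818283 : ℝ) < Real.exp 1 := Real.exp_one_gt_d9
      calc (2592 : ℝ) ≤ 2.7182818283 ^ 8 := by norm_num
        _ ≤ Real.exp 1 ^ 8 := pow_le_pow_left₀ (by norm_num) h4.le 8
    exact h2.trans h1
  have hKe : K ≤ Real.exp (A * W) := by
    rw [← Real.log_le_iff_le_exp hK]
    exact hlogK.trans (mul_le_mul_of_nonneg_left hlW hA)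
  have hLe : Lt ≤ Real.exp (A₂ * W) := by
    rw [← Real.log_le_iff_le_exp hLt]
    exact hlogL
  have hprod : K * Lt ≤ Real.exp (A * W) * Real.exp (A₂ * W) :=
    mul_le_mul hKe hLe hLt.le (Real.exp_pos _).le
  exact mul_le_mul h9 (pow_le_pow_left₀ (by positivity) hprod 2) (by positivity)
    (Real.exp_pos _).le

theorem logmul {c l : ℝ} (hc : 0 ≤ c) (hl : Real.log 2 ≤ l) : c ≤ c / Real.log 2 * l := by
  have hl2 : (0.6931471803 : ℝ) < Real.log 2 := Real.log_two_gt_d9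
  have h0 : 0 < Real.log 2 := by linarith
  calc c = c / Real.log 2 * Real.log 2 := by field_simp
    _ ≤ c / Real.log 2 * l := mul_le_mul_of_nonneg_left hl (by positivity)

/-- the size computation -/
theorem size (k : ℕ) (C₁ : ℝ) (hC₁ : 0 < C₁) : ∃ C : ℝ, 0 < C ∧ ∀ ε η : ℝ, 0 < ε → ε ≤ 1 / 2 →
    0 < η → η ≤ 1 / 2 → ∀ L : ℕ, 2 ≤ L → ∃ t : ℕ,
      4 * (1 + 2 * (C₁ * (1 / ε) ^ (k + 2))) < (1 + η / 8) ^ t ∧
      2592 * ((1 + 2 * (C₁ * (1 / ε) ^ (k + 2))) * (L : ℝ) ^ (t + 1)) ^ 2 ≤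
        Real.exp (C * Real.log (1 / ε) * Real.log L / η) := by
  have hl2 : (0.6931471803 : ℝ) < Real.log 2 := Real.log_two_gt_d9
  have hl2' : 0 < Real.log 2 := by linarith
  have hD1 : 1 ≤ 1 + 2 * C₁ := by linarith
  have hlD : 0 ≤ Real.log (1 + 2 * C₁) := Real.log_nonneg hD1
  have hl5 : 0 ≤ Real.log 5 := Real.log_nonneg (by norm_num)
  obtain ⟨A, hA⟩ : ∃ A : ℝ, A = Real.log (1 + 2 * C₁) / Real.log 2 + (k + 2) := ⟨_, rfl⟩
  have hA0 : 0 ≤ A := by
    rw [hA]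
    positivity
  obtain ⟨A₁, hA₁⟩ : ∃ A₁ : ℝ, A₁ = Real.log 5 / Real.log 2 + A := ⟨_, rfl⟩
  have hA₁0 : 0 ≤ A₁ := by
    rw [hA₁]
    positivity
  refine ⟨9 + 2 * A + 2 * (16 * A₁ + 2), by positivity, ?_⟩
  intro ε η hε hε2 hη hη2 L hL
  have hε1 : 2 ≤ 1 / ε := by
    rw [le_div_iff₀ hε]
    linarith
  have hε0 : 0 < 1 / ε := by linarith
  obtain ⟨l, hl⟩ : ∃ l : ℝ, l = Real.log (1 / ε) := ⟨_, rfl⟩
  have hll : Real.log 2 ≤ l := by
    rw [hl]
    exact Real.log_le_log (by norm_num) hε1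
  have hl0 : 0 < l := lt_of_lt_of_le hl2' hll
  have hLr : (2 : ℝ) ≤ L := by exact_mod_cast hL
  have hL0 : (0 : ℝ) < L := by linarith
  obtain ⟨lam, hlam⟩ : ∃ lam : ℝ, lam = Real.log L := ⟨_, rfl⟩
  have hlam2 : Real.log 2 ≤ lam := by
    rw [hlam]
    exact Real.log_le_log (by norm_num) hLr
  have hlam0 : 0 < lam := lt_of_lt_of_le hl2' hlam2
  have hp1 : 1 ≤ (1 / ε) ^ (k + 2) := one_le_pow₀ (by linarith)
  obtain ⟨K, hK⟩ : ∃ K : ℝ, K = 1 + 2 * (C₁ * (1 / ε) ^ (k + 2)) := ⟨_, rfl⟩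
  have hK1 : 1 ≤ K := by
    have : 0 ≤ C₁ * (1 / ε) ^ (k + 2) := by positivity
    linarith
  have hK0 : 0 < K := by linarith
  have hKD : K ≤ (1 + 2 * C₁) * (1 / ε) ^ (k + 2) := by
    rw [hK]
    nlinarith
  have hlogK : Real.log K ≤ A * l := by
    have h1 : Real.log K ≤ Real.log ((1 + 2 * C₁) * (1 / ε) ^ (k + 2)) :=
      Real.log_le_log hK0 hKD
    rw [Real.log_mul (by linarith) (by positivity), Real.log_pow, ← hl] at h1
    have h2 := logmul hlD hll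
    have h3 : ((k + 2 : ℕ) : ℝ) = (k : ℝ) + 2 := by push_cast; ring
    rw [h3] at h1
    rw [hA, add_mul]
    linarith
  have hlog4 : Real.log (4 * K + 1) ≤ A₁ * l := by
    have h1 : Real.log (4 * K + 1) ≤ Real.log (5 * K) :=
      Real.log_le_log (by linarith) (by linarith)
    rw [Real.log_mul (by norm_num) hK0.ne'] at h1
    have h2 := logmul hl5 hll
    rw [hA₁, add_mul]
    linarith
  have hlogη : η / 16 ≤ Real.log (1 + η / 8) := by
    have := log_ge (x := η / 8) (by positivity) (by linarith)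
    linarith
  have hlogη0 : 0 < Real.log (1 + η / 8) := by
    have : 0 < η / 16 := by positivity
    linarith
  have hlog40 : 0 ≤ Real.log (4 * K + 1) := Real.log_nonneg (by linarith)
  have hAl : 0 ≤ A₁ * l := by positivity
  obtain ⟨t, ht⟩ : ∃ t : ℕ, t = ⌈Real.log (4 * K + 1) / Real.log (1 + η / 8)⌉₊ := ⟨_, rfl⟩
  have ht1 : Real.log (4 * K + 1) / Real.log (1 + η / 8) ≤ t := by
    rw [ht]
    exact Nat.le_ceil _
  have ht2 : (t : ℝ) < Real.log (4 * K + 1) / Real.log (1 + η / 8) + 1 := by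
    rw [ht]
    exact Nat.ceil_lt_add_one (div_nonneg hlog40 hlogη0.le)
  have ht3 := quot hlog4 hAl hη hlogη
  rw [← hK, ← hl, ← hlam]
  refine ⟨t, ?_, ?_⟩
  · have h1 : Real.log (4 * K + 1) ≤ t * Real.log (1 + η / 8) := by
      rwa [div_le_iff₀ hlogη0] at ht1
    have h2 : 4 * K + 1 ≤ (1 + η / 8) ^ t := by
      rw [← Real.log_le_log_iff (by linarith) (by positivity), Real.log_pow]
      exact h1
    linarith
  · refine fin hη hη2 hll hlam2 hA0 hK0 (by positivity) hlogK ?_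
    rw [Real.log_pow, ← hlam]
    have h2 : (t : ℝ) + 1 ≤ A₁ * l * 16 / η + 2 := by linarith
    have h3 : lam ≤ l * lam / η := by
      rw [le_div_iff₀ hη]
      have h5 : η ≤ l := by linarith
      calc lam * η ≤ lam * l := mul_le_mul_of_nonneg_left h5 hlam0.le
        _ = l * lam := mul_comm _ _
    have h4 : ((t + 1 : ℕ) : ℝ) = (t : ℝ) + 1 := by push_cast; ring
    rw [h4]
    calc ((t : ℝ) + 1) * lam ≤ (A₁ * l * 16 / η + 2) * lam :=
          mul_le_mul_of_nonneg_right h2 hlam0.le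
      _ = 16 * A₁ * (l * lam / η) + 2 * lam := by ring
      _ ≤ 16 * A₁ * (l * lam / η) + 2 * (l * lam / η) := by linarith
      _ = (16 * A₁ + 2) * (l * lam / η) := by ring

end FS

theorem pFS (hDR : StDR2) (hRE : StRE) (hRC : StRC) (hAM : StAM) (hLS : StLS) (hJA : StJA) :
    StFS := by
  intro k hk
  obtain ⟨C₁, hC₁, hRE⟩ := hRE k hk
  obtain ⟨C₂, hC₂, hRC⟩ := hRC k hk
  obtain ⟨C, hC, hsize⟩ := FS.size k (C₂ * C₁) (by positivity)
  refine ⟨C, hC, ?_⟩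
  intro ε η hε hε2 hη hη2 L hL X _ _ _ hdim
  have hn0 : 0 < Module.finrank ℝ X := by
    have : (0 : ℝ) < Module.finrank ℝ X := lt_of_lt_of_le (Real.exp_pos _) hdim
    exact_mod_cast this
  obtain ⟨m, hnm, x, hx2, hx⟩ := hDR X _ rfl hn0
  rcases hRE ε hε hε2 X m x hx2 with hEu | hint
  · exact Or.inl hEu
  right
  obtain ⟨t, ht, hts⟩ := hsize ε η hε hε2 hη hη2 L hL
  set K0 : ℝ := C₂ * C₁ * (1 / ε) ^ (k + 2) with hK0
  have hrad : radAvg x ≤ K0 := by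
    set e : Eu k := EuclideanSpace.single (⟨0, hk⟩ : Fin k) (1 : ℝ) with he
    have he1 : ‖e‖ = 1 := by
      rw [he]
      simp
    calc radAvg x ≤ C₂ * ∫ v : Fin m → Eu k, ‖∑ i, inner ℝ (v i) e • x i‖
          ∂(Measure.pi fun _ => ballM k) := hRC X m x e he1
      _ ≤ C₂ * (C₁ * (1 / ε) ^ (k + 2)) := mul_le_mul_of_nonneg_left (hint e he1) hC₂.le
      _ = K0 := by
          rw [hK0]
          ring
  have hK0n : 0 ≤ K0 := by
    rw [hK0]
    positivity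
  set K : ℝ := 1 + 2 * K0 with hK
  have hK1 : 1 ≤ K := by linarith
  obtain ⟨ι₁, hι₁, hup₁⟩ := hAM X m (Nat.sqrt m) (Nat.sqrt_le' m) x hx2 K0 hrad
  have hbK : ((L ^ (t + 1) : ℕ) : ℝ) * (18 * K) ≤ (Nat.sqrt m : ℕ) := by
    by_contra hcon
    push Not at hcon
    push_cast at hcon
    set b : ℝ := (Nat.sqrt m : ℝ) with hb
    set Y : ℝ := (L : ℝ) ^ (t + 1) * (18 * K) with hY
    have hLr : (1 : ℝ) ≤ L := by
      have : (2 : ℝ) ≤ L := by exact_mod_cast hL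
      linarith
    have hL1 : 1 ≤ (L : ℝ) ^ (t + 1) := one_le_pow₀ hLr
    have hY1 : 1 ≤ Y := by
      rw [hY]
      nlinarith
    have hb0 : 0 ≤ b := Nat.cast_nonneg _
    have h1 : (m : ℝ) < (b + 1) ^ 2 := by
      have := Nat.lt_succ_sqrt' m
      have h2 : (m : ℝ) < ((Nat.succ (Nat.sqrt m) ^ 2 : ℕ) : ℝ) := by exact_mod_cast this
      rw [hb]
      push_cast at h2
      exact h2
    have h2 : (Module.finrank ℝ X : ℝ) ≤ 2 * m := by exact_mod_cast hnm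
    have h3 : (b + 1) ^ 2 ≤ (2 * Y) ^ 2 := pow_le_pow_left₀ (by linarith) (by linarith) 2
    have h4 : 2592 * (K * (L : ℝ) ^ (t + 1)) ^ 2 = 2 * (2 * Y) ^ 2 := by
      rw [hY]
      ring
    have h5 : 2 * (2 * Y) ^ 2 ≤ Module.finrank ℝ X := by
      rw [← h4]
      exact hts.trans hdim
    linarith
  obtain ⟨ι₂, hι₂, hlow⟩ := hLS X (Nat.sqrt m) (L ^ (t + 1)) (fun j => x (ι₁ j))
    (fun j => hx _) K hK1 (fun a ha => hup₁ a ha) hbK
  have hup₂ : ∀ a : Fin (L ^ (t + 1)) → ℝ, (∀ j, |a j| ≤ 1) →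
      ‖∑ j, a j • x (ι₁ (ι₂ j))‖ ≤ K := by
    intro a ha
    have h1 := hup₁ (Function.extend ι₂ a 0) (fun j => by
      by_cases hj : ∃ i, ι₂ i = j
      · obtain ⟨i, rfl⟩ := hj
        rw [hι₂.extend_apply]
        exact ha i
      · rw [Function.extend_apply' _ _ _ hj]
        simp)
    have h2 : ∑ j, a j • x (ι₁ (ι₂ j)) = ∑ j, Function.extend ι₂ a 0 j • x (ι₁ j) := by
      refine Fintype.sum_of_injective ι₂ hι₂ _ _ ?_ ?_
      · intro j hj
        rw [Function.extend_apply' _ _ _ (fun h => hj h)]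
        simp
      · intro i
        rw [hι₂.extend_apply]
    rw [h2]
    exact h1
  obtain ⟨S, hS⟩ := hJA X L t (by omega) (fun j => x (ι₁ (ι₂ j))) K (η / 8) (by positivity)
    (by linarith) ht hup₂ hlow
  have hq : 0 < 1 - 2 * (η / 8) := by linarith
  refine ⟨(1 - 2 * (η / 8))⁻¹ • S, fun a => ?_⟩
  have hna : 0 ≤ ‖a‖ := norm_nonneg a
  rw [LinearMap.smul_apply, norm_smul, Real.norm_of_nonneg (inv_pos.2 hq).le]
  obtain ⟨h1, h2⟩ := hS a
  constructor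
  · rw [inv_mul_eq_div, le_div_iff₀ hq]
    linarith
  · rw [inv_mul_eq_div, div_le_iff₀ hq]
    refine h2.trans ?_
    have h3 : 1 ≤ (1 + η) * (1 - 2 * (η / 8)) := by nlinarith
    calc ‖a‖ = 1 * ‖a‖ := (one_mul _).symm
      _ ≤ ((1 + η) * (1 - 2 * (η / 8))) * ‖a‖ := mul_le_mul_of_nonneg_right h3 hna
      _ = (1 + η) * ‖a‖ * (1 - 2 * (η / 8)) := by ring

end DV
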