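import Pool.Agent.Helper53.DV.St

/-! # DV project: module JA (James blocking) -/

set_option autoImplicit false

open scoped BigOperators RealInnerProductSpace
open MeasureTheory

namespace DV

namespace JA

variable {X : Type} [NormedAddCommGroup X] [NormedSpace ℝ X]

lemma exists_max {ι : Type} [Fintype ι] (y : ι → X) : ∃ a₀ : ι → ℝ, (∀ j, |a₀ j| ≤ 1) ∧
    ∀ a : ι → ℝ, (∀ j, |a j| ≤ 1) → ‖∑ i, a i • y i‖ ≤ ‖∑ i, a₀ i • y i‖ := by
  have hc : IsCompact (Set.pi Set.univ fun _ : ι => Set.Icc (-1 : ℝ) 1) :=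
    isCompact_univ_pi fun _ => isCompact_Icc
  have hne : (Set.pi Set.univ fun _ : ι => Set.Icc (-1 : ℝ) 1).Nonempty :=
    ⟨0, fun i _ => by simp⟩
  have hf : ContinuousOn (fun a : ι → ℝ => ‖∑ i, a i • y i‖)
      (Set.pi Set.univ fun _ : ι => Set.Icc (-1 : ℝ) 1) := by
    apply Continuous.continuousOn
    fun_prop
  obtain ⟨a₀, h0, h1⟩ := hc.exists_isMaxOn hne hf
  refine ⟨a₀, fun j => abs_le.2 (h0 j (Set.mem_univ j)), fun a ha => ?_⟩
  exact h1 (fun j _ => abs_le.1 (ha j))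

lemma scale {ι : Type} [Fintype ι] (y : ι → X) (M s : ℝ) (hs : 0 ≤ s)
    (hM : ∀ a : ι → ℝ, (∀ j, |a j| ≤ 1) → ‖∑ i, a i • y i‖ ≤ M) (b : ι → ℝ)
    (hb : ∀ j, |b j| ≤ s) : ‖∑ i, b i • y i‖ ≤ s * M := by
  rcases hs.eq_or_lt with h | h
  · subst h
    have h0 : ∀ j, b j = 0 := fun j => abs_nonpos_iff.1 (hb j)
    simp [h0]
  · have h1 := hM (fun j => b j / s) (fun j => by
      rw [abs_div, abs_of_pos h, div_le_one h]
      exact hb j)
    have h2 : ∑ i, b i • y i = s • ∑ i, (b i / s) • y i := by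
      rw [Finset.smul_sum]
      refine Finset.sum_congr rfl fun i _ => ?_
      rw [smul_smul, mul_div_cancel₀ _ h.ne']
    rw [h2, norm_smul, Real.norm_of_nonneg h.le]
    exact mul_le_mul_of_nonneg_left h1 h.le

/-- the construction of the operator -/
lemma build {ι κ : Type} [Fintype ι] [Fintype κ] {L : ℕ} (hL : 1 ≤ L) (e : ι ≃ Fin L × κ)
    (y : ι → X) (M η : ℝ) (hM0 : 0 < M) (h0 : 0 < η)
    (hM : ∀ a : ι → ℝ, (∀ j, |a j| ≤ 1) → ‖∑ i, a i • y i‖ ≤ M)
    (α : Fin L → κ → ℝ) (hα : ∀ l i, |α l i| ≤ 1)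
    (hlow : ∀ l, M / (1 + η) ≤ ‖∑ i, α l i • y (e.symm (l, i))‖) :
    ∃ S : (Fin L → ℝ) →ₗ[ℝ] X, ∀ c : Fin L → ℝ, (1 - 2 * η) * ‖c‖ ≤ ‖S c‖ ∧ ‖S c‖ ≤ ‖c‖ := by
  classical
  let u : Fin L → X := fun l => ∑ i, α l i • y (e.symm (l, i))
  have hup : ∀ (c : Fin L → ℝ) (s : ℝ), 0 ≤ s → (∀ l, |c l| ≤ s) →
      ‖∑ l, c l • u l‖ ≤ s * M := by
    intro c s hs hc
    have h1 : ∑ l, c l • u l = ∑ j, (c (e j).1 * α (e j).1 (e j).2) • y j := by
      rw [← e.symm.sum_comp (fun j => (c (e j).1 * α (e j).1 (e j).2) • y j),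
        Fintype.sum_prod_type]
      refine Finset.sum_congr rfl fun l _ => ?_
      simp only [u, Finset.smul_sum, smul_smul, Equiv.apply_symm_apply]
    rw [h1]
    refine scale y M s hs hM _ fun j => ?_
    rw [abs_mul]
    calc |c (e j).1| * |α (e j).1 (e j).2| ≤ s * 1 :=
          mul_le_mul (hc _) (hα _ _) (abs_nonneg _) hs
      _ = s := mul_one s
  let S : (Fin L → ℝ) →ₗ[ℝ] X :=
    { toFun := fun c => M⁻¹ • ∑ l, c l • u l
      map_add' := fun c c' => by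
        simp only [Pi.add_apply, add_smul, Finset.sum_add_distrib, smul_add]
      map_smul' := fun r c => by
        simp only [Pi.smul_apply, smul_eq_mul, mul_smul, RingHom.id_apply]
        rw [← Finset.smul_sum, smul_comm] }
  have hS : ∀ c, S c = M⁻¹ • ∑ l, c l • u l := fun c => rfl
  have hSn : ∀ c, M * ‖S c‖ = ‖∑ l, c l • u l‖ := by
    intro c
    rw [hS, norm_smul, norm_inv, Real.norm_of_nonneg hM0.le, ← mul_assoc, mul_inv_cancel₀ hM0.ne',
      one_mul]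
  refine ⟨S, fun c => ⟨?_, ?_⟩⟩
  · haveI : Nonempty (Fin L) := ⟨⟨0, hL⟩⟩
    obtain ⟨l₁, hl₁⟩ : ∃ l₁, ‖c‖ = |c l₁| := by
      obtain ⟨l₁, -, h⟩ := Finset.exists_max_image Finset.univ (fun l => |c l|) Finset.univ_nonempty
      refine ⟨l₁, le_antisymm ?_ ?_⟩
      · exact (pi_norm_le_iff_of_nonneg (abs_nonneg _)).2 fun l => h l (Finset.mem_univ l)
      · exact norm_le_pi_norm c l₁
    have h1 : ∑ l, c l • u l = c l₁ • u l₁ + ∑ l ∈ Finset.univ.erase l₁, c l • u l :=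
      (Finset.add_sum_erase _ _ (Finset.mem_univ l₁)).symm
    let c' : Fin L → ℝ := fun l => if l = l₁ then c l else - c l
    have h2 : ∑ l, c' l • u l = c l₁ • u l₁ - ∑ l ∈ Finset.univ.erase l₁, c l • u l := by
      rw [← Finset.add_sum_erase _ _ (Finset.mem_univ l₁), sub_eq_add_neg, ← Finset.sum_neg_distrib]
      congr 1
      · simp [c']
      · refine Finset.sum_congr rfl fun l hl => ?_
        have : l ≠ l₁ := (Finset.mem_erase.1 hl).1
        simp [c', this]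
    have h3 : ‖∑ l, c' l • u l‖ ≤ ‖c‖ * M := by
      refine hup c' ‖c‖ (norm_nonneg c) fun l => ?_
      by_cases h : l = l₁
      · simp only [c', if_pos h]
        exact norm_le_pi_norm c l
      · simp only [c', if_neg h, abs_neg]
        exact norm_le_pi_norm c l
    have h4 : (2 : ℝ) * (‖c‖ * ‖u l₁‖) ≤ M * ‖S c‖ + ‖c‖ * M := by
      have h5 : (2 : ℝ) • (c l₁ • u l₁) = (∑ l, c l • u l) + ∑ l, c' l • u l := by
        rw [h1, h2, two_smul]
        abel
      have h6 : ‖(2 : ℝ) • (c l₁ • u l₁)‖ = 2 * (‖c‖ * ‖u l₁‖) := by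
        rw [norm_smul, norm_smul, Real.norm_of_nonneg (by norm_num : (0 : ℝ) ≤ 2), hl₁,
          Real.norm_eq_abs]
      rw [← h6, h5, hSn]
      exact (norm_add_le _ _).trans (add_le_add_right h3 _)
    have h7 : M / (1 + η) ≤ ‖u l₁‖ := hlow l₁
    have h8 : ‖c‖ * (M / (1 + η)) ≤ ‖c‖ * ‖u l₁‖ := mul_le_mul_of_nonneg_left h7 (norm_nonneg c)
    have h9 : 1 - η ≤ 1 / (1 + η) := by
      rw [le_div_iff₀ (by linarith)]
      nlinarith
    have h10 : ‖c‖ * M * (1 - η) ≤ ‖c‖ * (M / (1 + η)) := by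
      have h11 : ‖c‖ * (M / (1 + η)) = ‖c‖ * M * (1 / (1 + η)) := by ring
      rw [h11]
      exact mul_le_mul_of_nonneg_left h9 (mul_nonneg (norm_nonneg c) hM0.le)
    have h12 : M * ((1 - 2 * η) * ‖c‖) ≤ M * ‖S c‖ := by linarith
    exact le_of_mul_le_mul_left h12 hM0
  · have h1 := hup c ‖c‖ (norm_nonneg c) (fun l => norm_le_pi_norm c l)
    rw [← hSn] at h1
    rw [mul_comm ‖c‖ M] at h1
    exact le_of_mul_le_mul_left h1 hM0

lemma main {L : ℕ} (hL : 1 ≤ L) (η : ℝ) (h0 : 0 < η) : ∀ (r : ℕ) (ι : Type) [Fintype ι],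
    Fintype.card ι = L ^ r → ∀ y : ι → X,
    (∀ (a : ι → ℝ) (j : ι), |a j| / 4 ≤ ‖∑ i, a i • y i‖) →
    (∃ S : (Fin L → ℝ) →ₗ[ℝ] X, ∀ c : Fin L → ℝ, (1 - 2 * η) * ‖c‖ ≤ ‖S c‖ ∧ ‖S c‖ ≤ ‖c‖) ∨
    ∃ a : ι → ℝ, (∀ j, |a j| ≤ 1) ∧ (1 + η) ^ r / 4 ≤ ‖∑ i, a i • y i‖ := by
  classical
  intro r
  induction r with
  | zero =>
    intro ι _ hι y hy
    right
    rw [pow_zero] at hι
    obtain ⟨j, -⟩ := Fintype.card_eq_one_iff.1 hι
    refine ⟨fun _ => 1, fun _ => by simp, ?_⟩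
    have := hy (fun _ => 1) j
    simpa using this
  | succ r ih =>
    intro ι _ hι y hy
    have hcard : Fintype.card ι = Fintype.card (Fin L × Fin (L ^ r)) := by
      rw [hι, Fintype.card_prod, Fintype.card_fin, Fintype.card_fin, pow_succ, mul_comm]
    have e : ι ≃ Fin L × Fin (L ^ r) := Fintype.equivOfCardEq hcard
    by_cases hex : ∃ S : (Fin L → ℝ) →ₗ[ℝ] X, ∀ c : Fin L → ℝ,
        (1 - 2 * η) * ‖c‖ ≤ ‖S c‖ ∧ ‖S c‖ ≤ ‖c‖
    · exact Or.inl hex
    right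
    obtain ⟨a₀, ha₀, hmax⟩ := exists_max y
    refine ⟨a₀, ha₀, ?_⟩
    have hpart : ∀ l : Fin L, ∃ a : Fin (L ^ r) → ℝ, (∀ j, |a j| ≤ 1) ∧
        (1 + η) ^ r / 4 ≤ ‖∑ i, a i • y (e.symm (l, i))‖ := by
      intro l
      rcases ih (Fin (L ^ r)) (Fintype.card_fin _) (fun i => y (e.symm (l, i))) (by
        intro a j
        have h := hy (fun j => if (e j).1 = l then a (e j).2 else 0) (e.symm (l, j))
        simp only [Equiv.apply_symm_apply, if_true] at h
        refine h.trans (le_of_eq ?_)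
        congr 1
        rw [← e.symm.sum_comp (fun i => (if (e i).1 = l then a (e i).2 else 0) • y i),
          Fintype.sum_prod_type, Finset.sum_eq_single l]
        · refine Finset.sum_congr rfl fun i _ => ?_
          simp
        · intro l' _ hl'
          refine Finset.sum_eq_zero fun i _ => ?_
          simp [hl']
        · intro h
          exact absurd (Finset.mem_univ l) h) with h | h
      · exact absurd h hex
      · exact h
    choose α hα1 hα2 using fun l : Fin L => exists_max (fun i : Fin (L ^ r) => y (e.symm (l, i)))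
    have hlow : ∀ l, (1 + η) ^ r / 4 ≤ ‖∑ i, α l i • y (e.symm (l, i))‖ := by
      intro l
      obtain ⟨a, ha, h⟩ := hpart l
      exact h.trans (hα2 l a ha)
    by_contra hcon
    push_neg at hcon
    have hM0 : 0 < ‖∑ i, a₀ i • y i‖ := by
      have hne : Nonempty ι := ⟨e.symm (⟨0, hL⟩, ⟨0, Nat.pow_pos hL⟩)⟩
      obtain ⟨j⟩ := hne
      have h1 := hy (fun _ => 1) j
      have h2 := hmax (fun _ => 1) (fun _ => by simp)
      have h3 : (0 : ℝ) < |(1 : ℝ)| / 4 := by norm_num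
      exact lt_of_lt_of_le h3 (h1.trans h2)
    refine hex (build hL e y ‖∑ i, a₀ i • y i‖ η hM0 h0 hmax α hα1 fun l => ?_)
    refine le_trans ?_ (hlow l)
    rw [div_le_iff₀ (by linarith)]
    have : (1 + η) ^ (r + 1) / 4 = (1 + η) ^ r / 4 * (1 + η) := by ring
    rw [← this]
    exact hcon.le

end JA

theorem pJA : StJA := by
  intro X _ _ L t hL x K η h0 h1 hK hup hlow
  rcases JA.main hL η h0 (t + 1) (Fin (L ^ (t + 1))) (Fintype.card_fin _) x hlow with h | ⟨a, ha, h⟩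
  · exact h
  · exfalso
    have h2 := hup a ha
    have h3 : (1 + η) ^ t ≤ (1 + η) ^ (t + 1) := pow_le_pow_right₀ (by linarith) (Nat.le_succ t)
    linarith

end DV
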