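import Pool.Agent.Helper53.DV.St

/-!
# DV project, module MO: modulation of the amplitudes
-/

set_option autoImplicit false
set_option linter.unusedSectionVars false
set_option linter.unusedVariables false

open scoped BigOperators RealInnerProductSpace
open MeasureTheory

namespace DV

namespace MO

/-- elementary product inequality -/
theorem prod3 {a b c : ℝ} (ha : 0 ≤ a) (ha1 : a ≤ 1) (hb : 0 ≤ b) (hb1 : b ≤ 1) (hc : 0 ≤ c) :
    1 - a - b - c ≤ (1 - a) * (1 - b) * (1 - c) := by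
  have h1 : 0 ≤ a * b := mul_nonneg ha hb
  have h2 : (1 - a) * (1 - b) ≤ 1 := by nlinarith
  have h3 : (1 - a) * (1 - b) * c ≤ 1 * c := mul_le_mul_of_nonneg_right h2 hc
  nlinarith

/-- distance of two unit vectors, up to the sign -/
theorem dist_unit {k : ℕ} (x v : Eu k) (hx : ‖x‖ = 1) (hv : ‖v‖ = 1) :
    (‖x - v‖ ^ 2 = 2 * (1 - ⟪v, x⟫)) ∧ (‖x + v‖ ^ 2 = 2 * (1 + ⟪v, x⟫)) ∧ |⟪v, x⟫| ≤ 1 := by
  refine ⟨?_, ?_, ?_⟩
  · rw [norm_sub_sq_real, hx, hv, real_inner_comm]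
    ring
  · rw [norm_add_sq_real, hx, hv, real_inner_comm]
    ring
  · have := abs_real_inner_le_norm v x
    rwa [hv, hx, one_mul] at this

section

variable {k : ℕ} {ι : Type} [Fintype ι] (Φ : Seminorm ℝ (ι → ℝ)) (a : ι → ℝ) (v : ι → Eu k)

/-- the function on the sphere -/
noncomputable def F (x : Eu k) : ℝ := Φ (fun i => a i * ⟪v i, x⟫)

/-- its regularisation -/
noncomputable def G (K : ℝ) (x : Eu k) : ℝ := ⨅ y : {y : Eu k // ‖y‖ = 1}, (F Φ a v y.1 + K * ‖x - y.1‖)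

theorem F_neg (x : Eu k) : F Φ a v (-x) = F Φ a v x := by
  unfold F
  have : (fun i => a i * ⟪v i, -x⟫) = -(fun i => a i * ⟪v i, x⟫) := by
    funext i
    rw [Pi.neg_apply, inner_neg_right]
    ring
  rw [this, map_neg_eq_map]

variable {K : ℝ}

theorem bdd (hK : 0 ≤ K) (x : Eu k) :
    BddBelow (Set.range fun y : {y : Eu k // ‖y‖ = 1} => F Φ a v y.1 + K * ‖x - y.1‖) := by
  refine ⟨0, ?_⟩
  rintro _ ⟨y, rfl⟩
  exact add_nonneg (apply_nonneg Φ _) (mul_nonneg hK (norm_nonneg _))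

theorem G_le (hK : 0 ≤ K) (x y : Eu k) (hy : ‖y‖ = 1) : G Φ a v K x ≤ F Φ a v y + K * ‖x - y‖ :=
  ciInf_le (bdd Φ a v hK x) ⟨y, hy⟩

theorem le_G (x : Eu k) (hne : ∃ y : Eu k, ‖y‖ = 1) (c : ℝ)
    (h : ∀ y : Eu k, ‖y‖ = 1 → c ≤ F Φ a v y + K * ‖x - y‖) : c ≤ G Φ a v K x := by
  obtain ⟨y, hy⟩ := hne
  have : Nonempty {y : Eu k // ‖y‖ = 1} := ⟨⟨y, hy⟩⟩
  exact le_ciInf fun z => h z.1 z.2

theorem G_lip (hK : 0 ≤ K) (hne : ∃ y : Eu k, ‖y‖ = 1) (x y : Eu k) :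
    G Φ a v K x - K * ‖x - y‖ ≤ G Φ a v K y := by
  refine le_G Φ a v y hne _ fun z hz => ?_
  have h1 := G_le Φ a v hK x z hz
  have h2 : ‖x - z‖ ≤ ‖x - y‖ + ‖y - z‖ := norm_sub_le_norm_sub_add_norm_sub x y z
  have h3 := mul_le_mul_of_nonneg_left h2 hK
  linarith

theorem G_neg_le (hK : 0 ≤ K) (hne : ∃ y : Eu k, ‖y‖ = 1) (x : Eu k) :
    G Φ a v K (-x) ≤ G Φ a v K x := by
  refine le_G Φ a v x hne _ fun z hz => ?_
  have h1 := G_le Φ a v hK (-x) (-z) (by rw [norm_neg, hz])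
  rw [F_neg] at h1
  have h2 : ‖-x - -z‖ = ‖x - z‖ := by
    rw [← norm_neg (-x - -z)]
    congr 1
    abel
  rwa [h2] at h1

theorem G_neg (hK : 0 ≤ K) (hne : ∃ y : Eu k, ‖y‖ = 1) (x : Eu k) :
    G Φ a v K (-x) = G Φ a v K x := by
  refine le_antisymm (G_neg_le Φ a v hK hne x) ?_
  have := G_neg_le Φ a v hK hne (-x)
  rwa [neg_neg] at this

/-- the modulated map -/
noncomputable def T (ρ : Eu k → ℝ) : Eu k →ₗ[ℝ] (ι → ℝ) where
  toFun x i := ρ (v i) * (a i * ⟪v i, x⟫)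
  map_add' x y := by
    funext i
    rw [Pi.add_apply, inner_add_right]
    ring
  map_smul' c x := by
    funext i
    rw [Pi.smul_apply, inner_smul_right, smul_eq_mul, RingHom.id_apply]
    ring

end

end MO

open MO

theorem pMO (hNL : StNL) : StMO := by
  intro C0 C1 hC0 hC1
  set C : ℝ := 2 * C0 + C1 + 2 with hC
  have hCpos : 0 ≤ C := by positivity
  refine ⟨2 * C1 + 12 * (3 + C) * C1 + 1, by positivity, ?_⟩
  intro k ε η K hε hεη hη h0η h1η hη1 hK ι _ Φ hΦ a v ha hv hlow hlip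
  by_cases hne : ∃ y : Eu k, ‖y‖ = 1
  swap
  · exact ⟨0, fun x hx => absurd ⟨x, hx⟩ hne⟩
  have hL : 0 ≤ C1 * K := mul_nonneg hC1 hK
  set Fx : Eu k → ℝ := F Φ a v with hFx
  set Gx : Eu k → ℝ := G Φ a v (C1 * K) with hGx
  have hFdef : ∀ x, Fx x = Φ (fun i => a i * ⟪v i, x⟫) := fun x => rfl
  -- entries
  have hent : ∀ x : Eu k, ‖x‖ = 1 → ∀ i, |a i * ⟪v i, x⟫| ≤ |⟪v i, x⟫| := by
    intro x _ i
    rw [abs_mul]
    exact mul_le_of_le_one_left (abs_nonneg _) (ha i)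
  have hin : ∀ x : Eu k, ‖x‖ = 1 → ∀ i, |⟪v i, x⟫| ≤ 1 := fun x hx i =>
    (dist_unit x (v i) hx (hv i)).2.2
  have hFup : ∀ x : Eu k, ‖x‖ = 1 → Fx x ≤ 1 + η := by
    intro x hx
    refine (hΦ _).2.trans ?_
    refine mul_le_of_le_one_right (by linarith) ?_
    refine (pi_norm_le_iff_of_nonneg zero_le_one).2 fun i => ?_
    rw [Real.norm_eq_abs]
    exact (hent x hx i).trans (hin x hx i)
  have hGF : ∀ x : Eu k, ‖x‖ = 1 → Gx x ≤ Fx x := by
    intro x hx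
    have := G_le Φ a v hL x x hx
    rwa [sub_self, norm_zero, mul_zero, add_zero] at this
  have hFG : ∀ x : Eu k, ‖x‖ = 1 → Fx x - C1 * ε ≤ Gx x := by
    intro x hx
    refine le_G Φ a v x hne _ fun y hy => ?_
    have h1 := (abs_le.1 (hlip x y hx hy)).2
    have h2 : Fx x - Fx y ≤ C1 * (ε + K * ‖x - y‖) := h1
    show Fx x - C1 * ε ≤ Fx y + C1 * K * ‖x - y‖
    nlinarith
  have hCε : C1 * ε ≤ C1 * η := mul_le_mul_of_nonneg_left hεη hC1
  have hsum : (C0 + C1) * η ≤ 1 / 2 := by linarith [add_mul C0 C1 η]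
  have hsum0 : 0 ≤ (C0 + C1) * η := by positivity
  have hGlow : ∀ x : Eu k, ‖x‖ = 1 → 1 - (C0 + C1) * η ≤ Gx x := by
    intro x hx
    have h1 := hlow x hx
    have h2 := hFG x hx
    have h3 : 1 - C0 * η ≤ Fx x := h1
    linarith [add_mul C0 C1 η]
  have hGlip : ∀ x y : Eu k, |Gx x - Gx y| ≤ C1 * K * ‖x - y‖ := by
    intro x y
    have h1 := G_lip Φ a v hL hne x y
    have h2 := G_lip Φ a v hL hne y x
    rw [norm_sub_rev] at h2
    rw [abs_le]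
    constructor
    · show -(C1 * K * ‖x - y‖) ≤ Gx x - Gx y
      have : Gx y - C1 * K * ‖x - y‖ ≤ Gx x := h2
      linarith
    · have : Gx x - C1 * K * ‖x - y‖ ≤ Gx y := h1
      linarith
  have hGneg : ∀ x : Eu k, Gx (-x) = Gx x := fun x => G_neg Φ a v hL hne x
  set R : ℝ := 1 / (1 - (C0 + C1) * η) with hR
  have hden : (1 : ℝ) / 2 ≤ 1 - (C0 + C1) * η := by linarith
  have hden0 : 0 < 1 - (C0 + C1) * η := by linarith
  have hR0 : 0 < R := by rw [hR]; positivity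
  have hR1 : 1 ≤ R := by
    rw [hR, le_div_iff₀ hden0]
    linarith
  have hR2 : R ≤ 2 := by
    rw [hR, div_le_iff₀ hden0]
    linarith
  have hRd : R * (1 - (C0 + C1) * η) = 1 := by
    rw [hR]
    field_simp
  set ρ : Eu k → ℝ := fun x => 1 / Gx x with hρ
  have hGpos : ∀ x : Eu k, ‖x‖ = 1 → 0 < Gx x := fun x hx => lt_of_lt_of_le hden0 (hGlow x hx)
  have hρG : ∀ x : Eu k, ‖x‖ = 1 → ρ x * Gx x = 1 := by
    intro x hx
    have := (hGpos x hx).ne'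
    show 1 / Gx x * Gx x = 1
    field_simp
  have hρ0 : ∀ x : Eu k, ‖x‖ = 1 → 0 < ρ x := fun x hx => one_div_pos.2 (hGpos x hx)
  have hρR : ∀ x : Eu k, ‖x‖ = 1 → ρ x ≤ R := fun x hx =>
    one_div_le_one_div_of_le hden0 (hGlow x hx)
  have hρ2 : ∀ x : Eu k, ‖x‖ = 1 → ρ x ≤ 2 := fun x hx => (hρR x hx).trans hR2
  have hρlow : ∀ x : Eu k, ‖x‖ = 1 → 1 / (1 + η) ≤ ρ x := fun x hx =>
    one_div_le_one_div_of_le (hGpos x hx) ((hGF x hx).trans (hFup x hx))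
  have hρlip : ∀ x y : Eu k, ‖x‖ = 1 → ‖y‖ = 1 → |ρ x - ρ y| ≤ 4 * (C1 * K * ‖x - y‖) := by
    intro x y hx hy
    have e1 : ρ x - ρ y = (ρ x * ρ y) * (Gx y - Gx x) := by
      linear_combination ρ y * hρG x hx - ρ x * hρG y hy
    have hxy : ρ x * ρ y ≤ 4 := by
      have := mul_le_mul (hρ2 x hx) (hρ2 y hy) (hρ0 y hy).le (by norm_num)
      linarith
    rw [e1, abs_mul, abs_of_pos (mul_pos (hρ0 x hx) (hρ0 y hy)), abs_sub_comm]
    exact mul_le_mul hxy (hGlip x y) (abs_nonneg _) (by norm_num)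
  have hρneg : ∀ x : Eu k, ρ (-x) = ρ x := by
    intro x
    show 1 / Gx (-x) = 1 / Gx x
    rw [hGneg]
  refine ⟨T a v ρ, fun x hx => ?_⟩
  have hTx : T a v ρ x = fun i => ρ (v i) * (a i * ⟪v i, x⟫) := rfl
  set z : ι → ℝ := fun i => a i * ⟪v i, x⟫ with hz
  set Y : ι → ℝ := fun i => ρ x * z i / R with hY
  set Y' : ι → ℝ := fun i => ρ (v i) * z i / R with hY'
  have hz1 : ∀ i, |z i| ≤ |⟪v i, x⟫| := hent x hx
  have hzi : ∀ i, |z i| ≤ 1 := fun i => (hz1 i).trans (hin x hx i)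
  have hYz : ∀ i, |Y i| ≤ |z i| := by
    intro i
    show |ρ x * z i / R| ≤ |z i|
    rw [abs_div, abs_mul, abs_of_pos (hρ0 x hx), abs_of_pos hR0, div_le_iff₀ hR0]
    have := mul_le_mul_of_nonneg_right (hρR x hx) (abs_nonneg (z i))
    linarith
  have hYz' : ∀ i, |Y' i| ≤ |z i| := by
    intro i
    show |ρ (v i) * z i / R| ≤ |z i|
    rw [abs_div, abs_mul, abs_of_pos (hρ0 _ (hv i)), abs_of_pos hR0, div_le_iff₀ hR0]
    have := mul_le_mul_of_nonneg_right (hρR _ (hv i)) (abs_nonneg (z i))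
    linarith
  have hYe : Y = (ρ x / R) • z := by
    funext i
    show ρ x * z i / R = (ρ x / R) * z i
    ring
  have hΦY : Φ Y = ρ x / R * Fx x := by
    rw [hYe, map_smul_eq_mul, Real.norm_eq_abs, abs_of_pos (div_pos (hρ0 x hx) hR0)]
    rfl
  have hTY : T a v ρ x = R • Y' := by
    rw [hTx]
    funext i
    show ρ (v i) * (a i * ⟪v i, x⟫) = R * (ρ (v i) * z i / R)
    have : R ≠ 0 := hR0.ne'
    rw [hz]
    field_simp
  have hΦT : Φ (T a v ρ x) = R * Φ Y' := by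
    rw [hTY, map_smul_eq_mul, Real.norm_eq_abs, abs_of_pos hR0]
  have hρF : 1 ≤ ρ x * Fx x := by
    rw [← hρG x hx]
    exact mul_le_mul_of_nonneg_left (hGF x hx) (hρ0 x hx).le
  have hCη : (C0 + C1) * η ≤ C * η := mul_le_mul_of_nonneg_right (by rw [hC]; linarith) hη.le
  -- lower bound for `Y`
  have hYlow : 1 - C * η ≤ Φ Y := by
    have h1 : 1 / R ≤ ρ x / R * Fx x := by
      rw [div_mul_eq_mul_div]
      exact div_le_div_of_nonneg_right hρF hR0.le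
    have h2 : 1 / R = 1 - (C0 + C1) * η := by
      rw [div_eq_iff hR0.ne']
      linarith [hRd]
    rw [hΦY]
    linarith
  -- lower bound for `Y'`
  have hYlow' : 1 - C * η ≤ Φ Y' := by
    have h1 : ‖z‖ ≤ (1 + η) * R * ‖Y'‖ := by
      refine (pi_norm_le_iff_of_nonneg (by positivity)).2 fun i => ?_
      have h2 : ‖Y' i‖ ≤ ‖Y'‖ := norm_le_pi_norm Y' i
      have h3 : |z i| ≤ (1 + η) * R * |Y' i| := by
        have h4 : |Y' i| = ρ (v i) * |z i| / R := by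
          show |ρ (v i) * z i / R| = _
          rw [abs_div, abs_mul, abs_of_pos (hρ0 _ (hv i)), abs_of_pos hR0]
        have h5 : 1 ≤ (1 + η) * ρ (v i) := by
          have := hρlow _ (hv i)
          rw [div_le_iff₀ (by linarith)] at this
          linarith
        have h6 := mul_le_mul_of_nonneg_right h5 (abs_nonneg (z i))
        rw [h4]
        have h7 : (1 + η) * R * (ρ (v i) * |z i| / R) = (1 + η) * ρ (v i) * |z i| := by
          field_simp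
        rw [h7]
        linarith
      rw [Real.norm_eq_abs] at h2 ⊢
      exact h3.trans (mul_le_mul_of_nonneg_left h2 (by positivity))
    have h2 : ‖Y'‖ ≤ Φ Y' := (hΦ Y').1
    have h3 : Fx x ≤ (1 + η) * ‖z‖ := (hΦ z).2
    have h4 : 1 - C0 * η ≤ Fx x := hlow x hx
    have h5 : 1 - C0 * η ≤ (1 + η) * ((1 + η) * R * Φ Y') := by
      refine h4.trans (h3.trans ?_)
      refine mul_le_mul_of_nonneg_left ?_ (by linarith)
      exact h1.trans (mul_le_mul_of_nonneg_left h2 (by positivity))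
    have h6 : (1 - C0 * η) * (1 - (C0 + C1) * η) ≤ (1 + η) ^ 2 * Φ Y' := by
      have h7 := mul_le_mul_of_nonneg_right h5 hden0.le
      calc (1 - C0 * η) * (1 - (C0 + C1) * η)
          ≤ (1 + η) * ((1 + η) * R * Φ Y') * (1 - (C0 + C1) * η) := h7
        _ = (1 + η) ^ 2 * Φ Y' * (R * (1 - (C0 + C1) * η)) := by ring
        _ = (1 + η) ^ 2 * Φ Y' := by rw [hRd, mul_one]
    have hΦ0 : 0 ≤ Φ Y' := apply_nonneg Φ _
    have h8 : (1 + η) ^ 2 * (1 - 2 * η) ≤ 1 := by nlinarith [sq_nonneg η, mul_nonneg hη.le (sq_nonneg η)]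
    have h9 := prod3 (a := C0 * η) (b := (C0 + C1) * η) (c := 2 * η) (by positivity) (by linarith)
      hsum0 (by linarith) (by linarith)
    by_cases h10 : 0 ≤ 1 - 2 * η
    · have h11 := mul_le_mul_of_nonneg_right h6 h10
      have h12 : (1 + η) ^ 2 * Φ Y' * (1 - 2 * η) ≤ Φ Y' := by
        calc (1 + η) ^ 2 * Φ Y' * (1 - 2 * η) = ((1 + η) ^ 2 * (1 - 2 * η)) * Φ Y' := by ring
          _ ≤ 1 * Φ Y' := mul_le_mul_of_nonneg_right h8 hΦ0
          _ = Φ Y' := one_mul _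
      have h13 : 1 - C * η = 1 - C0 * η - (C0 + C1) * η - 2 * η := by rw [hC]; ring
      rw [h13]
      linarith
    · have h13 : 1 - C * η = 1 - C0 * η - (C0 + C1) * η - 2 * η := by rw [hC]; ring
      have : 0 ≤ C0 * η := by positivity
      rw [h13]
      linarith
  -- comparison of the entries
  have hdiff : ∀ i, |Y i - Y' i| ≤ 6 * (C1 * K) * Real.sqrt (1 - |⟪v i, x⟫|) := by
    intro i
    have h1 : Y i - Y' i = (ρ x - ρ (v i)) * (z i / R) := by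
      show ρ x * z i / R - ρ (v i) * z i / R = _
      ring
    have h2 : |z i / R| ≤ 1 := by
      rw [abs_div, abs_of_pos hR0, div_le_iff₀ hR0]
      linarith [hzi i]
    obtain ⟨d1, d2, d3⟩ := dist_unit x (v i) hx (hv i)
    have h3 : ∃ w : Eu k, ‖w‖ = 1 ∧ ρ w = ρ (v i) ∧ ‖x - w‖ ^ 2 = 2 * (1 - |⟪v i, x⟫|) := by
      rcases abs_cases (⟪v i, x⟫) with ⟨h, -⟩ | ⟨h, -⟩
      · exact ⟨v i, hv i, rfl, by rw [d1, h]⟩
      · refine ⟨-(v i), by rw [norm_neg, hv], hρneg _, ?_⟩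
        rw [sub_neg_eq_add, d2, h]
        ring
    obtain ⟨w, hw, hρw, hdw⟩ := h3
    have h4 : ‖x - w‖ = Real.sqrt 2 * Real.sqrt (1 - |⟪v i, x⟫|) := by
      rw [← Real.sqrt_mul (by norm_num), ← hdw, Real.sqrt_sq (norm_nonneg _)]
    have h5 := hρlip x w hx hw
    rw [hρw, h4] at h5
    have h6 : Real.sqrt 2 ≤ 3 / 2 := by
      rw [Real.sqrt_le_left (by norm_num)]
      norm_num
    have h7 : 0 ≤ Real.sqrt (1 - |⟪v i, x⟫|) := Real.sqrt_nonneg _
    rw [h1, abs_mul]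
    calc |ρ x - ρ (v i)| * |z i / R| ≤ |ρ x - ρ (v i)| * 1 :=
          mul_le_mul_of_nonneg_left h2 (abs_nonneg _)
      _ ≤ 4 * (C1 * K * (Real.sqrt 2 * Real.sqrt (1 - |⟪v i, x⟫|))) := by rw [mul_one]; exact h5
      _ = 4 * (C1 * K) * (Real.sqrt 2 * Real.sqrt (1 - |⟪v i, x⟫|)) := by ring
      _ ≤ 4 * (C1 * K) * (3 / 2 * Real.sqrt (1 - |⟪v i, x⟫|)) :=
          mul_le_mul_of_nonneg_left (mul_le_mul_of_nonneg_right h6 h7) (by positivity)
      _ = 6 * (C1 * K) * Real.sqrt (1 - |⟪v i, x⟫|) := by ring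
  have hcmp : ∀ (W : ι → ℝ), (∀ i, |W i| ≤ |z i|) → ∀ i,
      |Y i - Y' i| ≤ 0 * (η + (1 - |W i|)) + 6 * (C1 * K) * Real.sqrt (1 - |W i|) + 0 := by
    intro W hW i
    have h1 : Real.sqrt (1 - |⟪v i, x⟫|) ≤ Real.sqrt (1 - |W i|) :=
      Real.sqrt_le_sqrt (by linarith [(hW i).trans (hz1 i)])
    have h2 := mul_le_mul_of_nonneg_left h1 (show 0 ≤ 6 * (C1 * K) by positivity)
    rw [zero_mul, zero_add, add_zero]
    exact (hdiff i).trans h2
  have hfin := hNL ι η C 0 (6 * (C1 * K)) 0 hη hη1 hCpos le_rfl (by positivity) le_rfl Φ hΦ Y Y'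
    (fun i => (hYz i).trans (hzi i)) (fun i => (hYz' i).trans (hzi i)) hYlow hYlow'
    (hcmp Y hYz) (hcmp Y' hYz')
  have h1 : |ρ x * Fx x - Φ (T a v ρ x)| ≤ 12 * (3 + C) * C1 * (K * Real.sqrt η) := by
    have e1 : ρ x * Fx x - Φ (T a v ρ x) = R * (Φ Y - Φ Y') := by
      rw [hΦT, hΦY]
      field_simp
    rw [e1, abs_mul, abs_of_pos hR0]
    have h2 := mul_le_mul hR2 hfin (abs_nonneg _) (by norm_num)
    refine h2.trans (le_of_eq ?_)
    ring
  have h2 : |ρ x * Fx x - 1| ≤ 2 * C1 * ε := by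
    have e1 : ρ x * Fx x - 1 = ρ x * (Fx x - Gx x) := by
      rw [← hρG x hx]
      ring
    have h3 : 0 ≤ Fx x - Gx x := sub_nonneg.2 (hGF x hx)
    have h4 : Fx x - Gx x ≤ C1 * ε := by linarith [hFG x hx]
    rw [e1, abs_mul, abs_of_pos (hρ0 x hx), abs_of_nonneg h3]
    have := mul_le_mul (hρ2 x hx) h4 h3 (by norm_num)
    linarith
  have h3 : |Φ (T a v ρ x) - 1| ≤ 12 * (3 + C) * C1 * (K * Real.sqrt η) + 2 * C1 * ε := by
    have e1 : Φ (T a v ρ x) - 1 = -(ρ x * Fx x - Φ (T a v ρ x)) + (ρ x * Fx x - 1) := by ring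
    rw [e1]
    refine (abs_add_le _ _).trans ?_
    rw [abs_neg]
    exact add_le_add h1 h2
  refine h3.trans ?_
  have g1 : 0 ≤ K * Real.sqrt η := by positivity
  have g2 : 0 ≤ 12 * (3 + C) * C1 := by positivity
  nlinarith [mul_nonneg g2 hε.le, mul_nonneg hC1 g1]

end DV
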