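import Pool.Agent.Helper53.DV.St

/-!
# DV project, module NE: nets of the sphere
-/

set_option autoImplicit false

open scoped BigOperators ENNReal
open MeasureTheory Metric Module

namespace DV

namespace NE

/-- The volume bound for separated sets of unit vectors. -/
theorem card_le {k : ℕ} {ρ : ℝ} (hρ : 0 < ρ) (hρ1 : ρ ≤ 1) (s : Finset (Eu k)) (hs : ∀ c ∈ s, ‖c‖ = 1)
    (h : ∀ c ∈ s, ∀ d ∈ s, c ≠ d → ρ < ‖c - d‖) : (s.card : ℝ) ≤ (3 / ρ) ^ k := by
  let μ : Measure (Eu k) := volume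
  have hfin : finrank ℝ (Eu k) = k := by simp
  set δ : ℝ := ρ / 2 with hδ
  set R : ℝ := (3 : ℝ) / 2 with hR
  have δpos : 0 < δ := by positivity
  have Rpos : 0 < R := by norm_num [hR]
  set A := ⋃ c ∈ s, ball (c : Eu k) δ with hA
  have D : Set.Pairwise (s : Set (Eu k)) (Function.onFun Disjoint fun c => ball (c : Eu k) δ) := by
    rintro c hc d hd hcd
    apply ball_disjoint_ball
    rw [dist_eq_norm]
    have h1 := h c hc d hd hcd
    have h2 : δ + δ = ρ := by rw [hδ]; ring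
    rw [h2]
    exact h1.le
  have A_subset : A ⊆ ball (0 : Eu k) R := by
    refine Set.iUnion₂_subset fun x hx => ?_
    apply ball_subset_ball'
    rw [dist_zero_right, hs x hx, hδ, hR]
    linarith
  have I : (s.card : ℝ≥0∞) * ENNReal.ofReal (δ ^ k) * μ (ball 0 1) ≤ ENNReal.ofReal (R ^ k) * μ (ball 0 1) :=
    calc
      (s.card : ℝ≥0∞) * ENNReal.ofReal (δ ^ k) * μ (ball 0 1) = μ A := by
        rw [hA, measure_biUnion_finset D fun c _ => measurableSet_ball]
        have h1 : ∀ c ∈ s, μ (ball c δ) = ENNReal.ofReal (δ ^ k) * μ (ball 0 1) := by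
          intro c _
          have h2 := μ.addHaar_ball_of_pos c δpos
          rwa [hfin] at h2
        rw [Finset.sum_congr rfl h1, Finset.sum_const, nsmul_eq_mul, mul_assoc]
      _ ≤ μ (ball (0 : Eu k) R) := measure_mono A_subset
      _ = ENNReal.ofReal (R ^ k) * μ (ball 0 1) := by
        have h2 := μ.addHaar_ball_of_pos (0 : Eu k) Rpos
        rwa [hfin] at h2
  have J : (s.card : ℝ≥0∞) * ENNReal.ofReal (δ ^ k) ≤ ENNReal.ofReal (R ^ k) :=
    (ENNReal.mul_le_mul_iff_left (measure_ball_pos _ _ zero_lt_one).ne' measure_ball_lt_top.ne).1 I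
  have K := ENNReal.toReal_le_of_le_ofReal (pow_nonneg Rpos.le _) J
  rw [ENNReal.toReal_mul, ENNReal.toReal_natCast, ENNReal.toReal_ofReal (pow_nonneg δpos.le _)] at K
  have h3 : (3 / ρ) ^ k = R ^ k / δ ^ k := by
    rw [← div_pow, hR, hδ]
    congr 1
    field_simp
  rw [h3, le_div_iff₀ (pow_pos δpos _)]
  exact K

end NE

theorem pNE : StNE := by
  intro k
  refine ⟨3, by norm_num, fun ρ hρ hρ1 => ?_⟩
  classical
  let S : Set ℕ := {n | ∃ s : Finset (Eu k), s.card = n ∧ (∀ c ∈ s, ‖c‖ = 1) ∧ ∀ c ∈ s, ∀ d ∈ s, c ≠ d → ρ < ‖c - d‖}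
  have hS0 : S.Nonempty := ⟨0, ∅, rfl, by simp, by simp⟩
  have hSb : BddAbove S := by
    refine ⟨⌊(3 / ρ) ^ k⌋₊, ?_⟩
    rintro n ⟨s, rfl, h1, h2⟩
    exact Nat.le_floor (NE.card_le hρ hρ1 s h1 h2)
  obtain ⟨s, hs, h1, h2⟩ := Nat.sSup_mem hS0 hSb
  refine ⟨s, h1, NE.card_le hρ hρ1 s h1 h2, fun y hy => ?_⟩
  by_contra hcon
  push Not at hcon
  have hys : y ∉ s := by
    intro h
    have h3 := hcon y h
    rw [sub_self, norm_zero] at h3
    linarith
  have hmem : (insert y s).card ∈ S := by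
    refine ⟨insert y s, rfl, ?_, ?_⟩
    · intro c hc
      rcases Finset.mem_insert.1 hc with rfl | hc
      · exact hy
      · exact h1 c hc
    · intro c hc d hd hcd
      rcases Finset.mem_insert.1 hc with h5 | h5 <;> rcases Finset.mem_insert.1 hd with h6 | h6
      · exact absurd (h5.trans h6.symm) hcd
      · rw [h5, norm_sub_rev]
        exact hcon d h6
      · rw [h6]
        exact hcon c h5
      · exact h2 c h5 d h6 hcd
  have h4 := le_csSup hSb hmem
  rw [Finset.card_insert_of_notMem hys, ← hs] at h4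
  omega

end DV
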