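import Pool.Agent.Helper53.DV.St

/-!
# DV project, module NL
-/

set_option autoImplicit false

open scoped BigOperators

namespace DV

namespace NL

/-- a norming functional -/
theorem exists_func {ι : Type} [Fintype ι] (Φ : Seminorm ℝ (ι → ℝ)) (Y : ι → ℝ) :
    ∃ w : (ι → ℝ) →ₗ[ℝ] ℝ, (∀ y, w y ≤ Φ y) ∧ w Y = Φ Y := by
  by_cases hY : Y = 0
  · refine ⟨0, fun y => ?_, ?_⟩
    · simpa using apply_nonneg Φ y
    · subst hY
      simp
  · obtain ⟨g, hg1, hg2⟩ := exists_extension_of_le_sublinear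
      (LinearPMap.mkSpanSingleton Y (Φ Y) hY) (fun y => Φ y)
      (fun c hc x => by rw [map_smul_eq_mul, Real.norm_of_nonneg (le_of_lt hc)])
      (fun x y => map_add_le_add Φ x y)
      (by
        rintro ⟨x, hx⟩
        obtain ⟨c, rfl⟩ := Submodule.mem_span_singleton.1 hx
        have h1 := LinearPMap.mkSpanSingleton'_apply (R := ℝ) Y (Φ Y)
          (fun c hc => by
            rcases smul_eq_zero.1 hc with h | h
            · rw [h, map_zero, zero_smul]
            · exact absurd h hY) c hx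
        have h2 : (LinearPMap.mkSpanSingleton Y (Φ Y) hY) ⟨c • Y, hx⟩ = c • Φ Y := h1
        rw [h2]
        change c • Φ Y ≤ Φ (c • Y)
        rw [map_smul_eq_mul, smul_eq_mul]
        exact mul_le_mul_of_nonneg_right (le_abs_self c) (apply_nonneg Φ Y))
    refine ⟨g, hg2, ?_⟩
    have hm : Y ∈ (LinearPMap.mkSpanSingleton Y (Φ Y) hY : (ι → ℝ) →ₗ.[ℝ] ℝ).domain :=
      (Submodule.mem_span_singleton_self Y : Y ∈ Submodule.span ℝ {Y})
    have h3 := hg1 ⟨Y, hm⟩
    rw [LinearPMap.mkSpanSingleton_apply] at h3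
    exact h3

theorem half {ι : Type} [Fintype ι] (η C A B D : ℝ) (hη : 0 < η) (hη1 : η ≤ 1) (hC : 0 ≤ C)
    (hA : 0 ≤ A) (hB : 0 ≤ B) (hD : 0 ≤ D) (Φ : Seminorm ℝ (ι → ℝ)) (hΦ : NearMax η Φ)
    (Y Y' : ι → ℝ) (hY : ∀ i, |Y i| ≤ 1) (hΦY : 1 - C * η ≤ Φ Y)
    (h : ∀ i, |Y i - Y' i| ≤ A * (η + (1 - |Y i|)) + B * Real.sqrt (1 - |Y i|) + D) :
    Φ Y - Φ Y' ≤ (3 + C) * (A * η + B * Real.sqrt η + D) := by
  classical
  obtain ⟨w, hw1, hw2⟩ := exists_func Φ Y
  set W : ι → ℝ := fun i => w (Pi.single i 1) with hW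
  have hw : ∀ y : ι → ℝ, w y = ∑ i, y i * W i := by
    intro y
    have h1 : y = ∑ i, y i • (Pi.single i (1 : ℝ) : ι → ℝ) := by
      funext j
      rw [Finset.sum_apply]
      simp [Pi.single_apply]
    conv_lhs => rw [h1]
    rw [map_sum]
    refine Finset.sum_congr rfl fun i _ => ?_
    rw [map_smul, smul_eq_mul]
  set S : ℝ := ∑ i, |W i| with hS
  have hS0 : 0 ≤ S := Finset.sum_nonneg fun i _ => abs_nonneg _
  have hS1 : S ≤ 1 + η := by
    have h1 : w (fun i => (SignType.sign (W i) : ℝ)) = S := by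
      rw [hw]
      refine Finset.sum_congr rfl fun i _ => ?_
      exact sign_mul_self (W i)
    have h2 : ‖(fun i => (SignType.sign (W i) : ℝ))‖ ≤ 1 := by
      refine (pi_norm_le_iff_of_nonneg zero_le_one).2 fun i => ?_
      rcases lt_trichotomy (W i) 0 with h3 | h3 | h3
      · rw [sign_neg h3]; simp
      · rw [h3]; simp
      · rw [sign_pos h3]; simp
    rw [← h1]
    refine (hw1 _).trans ((hΦ _).2.trans ?_)
    have : (0 : ℝ) ≤ 1 + η := by linarith
    nlinarith
  set R : ℝ := ∑ i, |W i| * (1 - |Y i|) with hR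
  have hR0 : 0 ≤ R := Finset.sum_nonneg fun i _ => mul_nonneg (abs_nonneg _) (by linarith [hY i])
  have hR1 : R ≤ (1 + C) * η := by
    have h1 : w Y ≤ ∑ i, |W i| * |Y i| := by
      rw [hw]
      refine Finset.sum_le_sum fun i _ => ?_
      rw [← abs_mul, mul_comm]
      exact le_abs_self _
    have h2 : R = S - ∑ i, |W i| * |Y i| := by
      rw [hR, hS, ← Finset.sum_sub_distrib]
      refine Finset.sum_congr rfl fun i _ => ?_
      ring
    rw [hw2] at h1
    rw [h2]
    linarith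
  set Q : ℝ := ∑ i, |W i| * Real.sqrt (1 - |Y i|) with hQ
  have hQ0 : 0 ≤ Q := Finset.sum_nonneg fun i _ => mul_nonneg (abs_nonneg _) (Real.sqrt_nonneg _)
  have hQ1 : Q ≤ (2 + C) * Real.sqrt η := by
    have h1 : Q ^ 2 ≤ S * R := by
      have h2 := Finset.sum_mul_sq_le_sq_mul_sq Finset.univ (fun i => Real.sqrt |W i|)
        (fun i => Real.sqrt |W i| * Real.sqrt (1 - |Y i|))
      have e1 : ∑ i, Real.sqrt |W i| * (Real.sqrt |W i| * Real.sqrt (1 - |Y i|)) = Q := by
        refine Finset.sum_congr rfl fun i _ => ?_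
        rw [← mul_assoc, Real.mul_self_sqrt (abs_nonneg _)]
      have e2 : ∑ i, (Real.sqrt |W i|) ^ 2 = S := by
        refine Finset.sum_congr rfl fun i _ => ?_
        rw [Real.sq_sqrt (abs_nonneg _)]
      have e3 : ∑ i, (Real.sqrt |W i| * Real.sqrt (1 - |Y i|)) ^ 2 = R := by
        refine Finset.sum_congr rfl fun i _ => ?_
        rw [mul_pow, Real.sq_sqrt (abs_nonneg _), Real.sq_sqrt (by linarith [hY i])]
      rw [e1, e2, e3] at h2
      exact h2
    have h3 : S * R ≤ 2 * ((1 + C) * η) := mul_le_mul (by linarith) hR1 hR0 (by norm_num)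
    have h4 : ((2 + C) * Real.sqrt η) ^ 2 = (2 + C) ^ 2 * η := by
      rw [mul_pow, Real.sq_sqrt hη.le]
    have h5 : 2 * ((1 + C) * η) ≤ (2 + C) ^ 2 * η := by
      have h6 : 2 * (1 + C) ≤ (2 + C) ^ 2 := by nlinarith
      calc 2 * ((1 + C) * η) = (2 * (1 + C)) * η := by ring
        _ ≤ (2 + C) ^ 2 * η := mul_le_mul_of_nonneg_right h6 hη.le
    have h7 : 0 ≤ (2 + C) * Real.sqrt η := mul_nonneg (by linarith) (Real.sqrt_nonneg _)
    refine le_of_sq_le_sq ?_ h7
    rw [h4]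
    linarith
  have hmain : Φ Y - Φ Y' ≤ A * (η * S + R) + B * Q + D * S := by
    have h1 : Φ Y - Φ Y' ≤ w (Y - Y') := by
      rw [map_sub, hw2]
      linarith [hw1 Y']
    refine h1.trans ?_
    rw [hw]
    have h2 : ∑ i, (Y - Y') i * W i ≤
        ∑ i, |W i| * (A * (η + (1 - |Y i|)) + B * Real.sqrt (1 - |Y i|) + D) := by
      refine Finset.sum_le_sum fun i _ => ?_
      have h3 : (Y - Y') i * W i ≤ |W i| * |Y i - Y' i| := by
        rw [← abs_mul, mul_comm]
        exact le_abs_self _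
      exact h3.trans (mul_le_mul_of_nonneg_left (h i) (abs_nonneg _))
    refine h2.trans (le_of_eq ?_)
    rw [hS, hR, hQ, Finset.mul_sum, Finset.mul_sum, Finset.mul_sum, ← Finset.sum_add_distrib,
      Finset.mul_sum, ← Finset.sum_add_distrib, ← Finset.sum_add_distrib]
    refine Finset.sum_congr rfl fun i _ => ?_
    ring
  have k1 : A * (η * S + R) ≤ A * ((3 + C) * η) := by
    refine mul_le_mul_of_nonneg_left ?_ hA
    have : η * S ≤ η * 2 := mul_le_mul_of_nonneg_left (by linarith) hη.le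
    linarith
  have k2 : B * Q ≤ B * ((3 + C) * Real.sqrt η) := by
    refine mul_le_mul_of_nonneg_left (hQ1.trans ?_) hB
    exact mul_le_mul_of_nonneg_right (by linarith) (Real.sqrt_nonneg _)
  have k3 : D * S ≤ D * (3 + C) := mul_le_mul_of_nonneg_left (by linarith) hD
  calc Φ Y - Φ Y' ≤ A * (η * S + R) + B * Q + D * S := hmain
    _ ≤ A * ((3 + C) * η) + B * ((3 + C) * Real.sqrt η) + D * (3 + C) := by linarith
    _ = (3 + C) * (A * η + B * Real.sqrt η + D) := by ring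

end NL

/-- MODULE NL -/
theorem pNL : StNL := by
  intro ι _ η C A B D hη hη1 hC hA hB hD Φ hΦ Y Y' hY hY' hΦY hΦY' h h'
  rw [abs_le]
  constructor
  · have h1 := NL.half η C A B D hη hη1 hC hA hB hD Φ hΦ Y' Y hY' hΦY' (fun i => by
      rw [abs_sub_comm]; exact h' i)
    linarith
  · exact NL.half η C A B D hη hη1 hC hA hB hD Φ hΦ Y Y' hY hΦY h

end DV
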