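import Pool.Agent.Helper53.DV.St

/-! DV project, module PC1: the lower bound for the norm of the test functions. -/

set_option autoImplicit false

open scoped BigOperators RealInnerProductSpace
open MeasureTheory

namespace DV

theorem pPC1 (h1 : StCH1) : StPC1 := by
  intro d
  obtain ⟨hu, hcov, hLip⟩ := h1
  obtain ⟨C, hC, hLip⟩ := hLip d
  refine ⟨64 + 2 * C ^ 2, by positivity, ?_⟩
  intro η δ hη hη1 hδ hδη P π hT χ hχ N Φ hΦ a n ha hcovj x hx
  by_cases hbig : 1 ≤ (64 + 2 * C ^ 2) * η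
  · have := apply_nonneg Φ (fun c => a c.1 c.2 * tf π χ x c.2 (n c.1))
    linarith
  push Not at hbig
  have hη64 : η ≤ 1 / 64 := by nlinarith [mul_nonneg (sq_nonneg C) hη.le]
  have hCη : 2 * C ^ 2 * η ≤ 1 := by nlinarith
  have hsq0 : 0 ≤ Real.sqrt η := Real.sqrt_nonneg η
  have hsqsq : Real.sqrt η * Real.sqrt η = η := Real.mul_self_sqrt hη.le
  have hsq : Real.sqrt η ≤ 1 / 8 := by
    by_contra h
    push Not at h
    nlinarith
  obtain ⟨s, ξ, hξ, hxξ⟩ := hcov d x hx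
  obtain ⟨-, -, hadd, -, hden⟩ := hT
  obtain ⟨g, hg⟩ := hden (fun q => ξ q.2) (fun q => by
    have h2 := norm_le_pi_norm ξ q.2
    rw [Real.norm_eq_abs] at h2
    linarith)
  obtain ⟨j, hj⟩ := hcovj s g
  obtain ⟨ha0, ha1⟩ := ha j s
  -- the covering point is near to the origin
  have hη' : 1 - η ≤ 1 / (1 + η) := by
    rw [le_div_iff₀ (by linarith)]
    nlinarith
  have hm1 : max 0 (1 - ‖pr π s (n j - g)‖ ^ 2) ≤ 1 :=
    max_le zero_le_one (by nlinarith [sq_nonneg ‖pr π s (n j - g)‖])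
  have hm0 : 0 ≤ max 0 (1 - ‖pr π s (n j - g)‖ ^ 2) := le_max_left _ _
  have haj : 1 - η ≤ a j s := by nlinarith
  have hm : 1 - η ≤ max 0 (1 - ‖pr π s (n j - g)‖ ^ 2) := by nlinarith
  have hq2 : ‖pr π s (n j - g)‖ ^ 2 ≤ η := by
    rcases le_max_iff.1 hm with h | h <;> linarith
  have hq : ‖pr π s (n j - g)‖ ≤ Real.sqrt η := Real.le_sqrt_of_sq_le hq2
  have hqi : ∀ i, |π (n j - g) (s, i)| ≤ Real.sqrt η := fun i => by
    have h2 := norm_le_pi_norm (pr π s (n j - g)) i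
    rw [Real.norm_eq_abs] at h2
    exact le_trans h2 hq
  have hgi : ∀ i, |π g (s, i) - ξ i| ≤ δ := fun i => hg (s, i)
  have hξi : ∀ i, |ξ i| ≤ 1 := fun i => by
    have h2 := norm_le_pi_norm ξ i
    rw [Real.norm_eq_abs] at h2
    linarith
  have hz : ∀ i, π (n j) (s, i) = π (n j - g) (s, i) + π g (s, i) := by
    intro i
    have h2 := hadd (n j - g) g (s, i) (by
      have h3 := abs_add_le (π g (s, i) - ξ i) (ξ i)
      rw [sub_add_cancel] at h3
      linarith [hqi i, hgi i, hξi i])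
    rwa [sub_add_cancel] at h2
  have hzξ : ‖pr π s (n j) - ξ‖ ≤ 2 * Real.sqrt η := by
    rw [pi_norm_le_iff_of_nonneg (by positivity)]
    intro i
    have h2 : (pr π s (n j) - ξ) i = π (n j - g) (s, i) + (π g (s, i) - ξ i) := by
      rw [Pi.sub_apply]
      change π (n j) (s, i) - ξ i = _
      rw [hz i]
      ring
    rw [h2, Real.norm_eq_abs]
    have h3 := abs_add_le (π (n j - g) (s, i)) (π g (s, i) - ξ i)
    linarith [hqi i, hgi i]
  have hzn : ‖pr π s (n j)‖ ≤ 3 / 2 := by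
    have h2 := norm_add_le (pr π s (n j) - ξ) ξ
    rw [sub_add_cancel] at h2
    linarith
  have hχ1 : χ ‖pr π s (n j)‖ = 1 := hχ.2.1 _ hzn
  -- the inner product
  have hE : ‖Ec s (pr π s (n j)) - Ec s ξ‖ ^ 2 ≤ 4 * C ^ 2 * η := by
    have h2 := hLip s (pr π s (n j)) ξ
    have h3 : ‖Ec s (pr π s (n j)) - Ec s ξ‖ ≤ 2 * C * Real.sqrt η := by nlinarith
    have h4 : ‖Ec s (pr π s (n j)) - Ec s ξ‖ ^ 2 ≤ (2 * C * Real.sqrt η) ^ 2 :=
      pow_le_pow_left₀ (norm_nonneg _) h3 2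
    have h5 : (2 * C * Real.sqrt η) ^ 2 = 4 * C ^ 2 * (Real.sqrt η * Real.sqrt η) := by ring
    rw [h5, hsqsq] at h4
    exact h4
  have hin : 1 - 2 * C ^ 2 * η ≤ ⟪Ec s (pr π s (n j)), Ec s ξ⟫ := by
    have h2 := norm_sub_sq_real (Ec s (pr π s (n j))) (Ec s ξ)
    rw [hu, hu] at h2
    linarith
  have habs : 1 - 2 * C ^ 2 * η ≤ |⟪Ec s (pr π s (n j)), x⟫| := by
    rcases hxξ with h | h
    · rw [h]
      exact le_trans hin (le_abs_self _)
    · rw [h, inner_neg_right, abs_neg]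
      exact le_trans hin (le_abs_self _)
  -- conclusion
  have h2 := (hΦ (fun c => a c.1 c.2 * tf π χ x c.2 (n c.1))).1
  have h3 := norm_le_pi_norm (fun c : Fin N × Fin (d + 1) => a c.1 c.2 * tf π χ x c.2 (n c.1)) (j, s)
  have h4 : ‖a j s * tf π χ x s (n j)‖ = a j s * |⟪Ec s (pr π s (n j)), x⟫| := by
    unfold tf
    rw [hχ1, one_mul, Real.norm_eq_abs, abs_mul, abs_of_nonneg ha0]
  have h5 : ‖a j s * tf π χ x s (n j)‖ ≤ Φ (fun c => a c.1 c.2 * tf π χ x c.2 (n c.1)) := le_trans h3 h2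
  rw [h4] at h5
  have h6 : (1 - η) * (1 - 2 * C ^ 2 * η) ≤ a j s * |⟪Ec s (pr π s (n j)), x⟫| :=
    mul_le_mul haj habs (by linarith) ha0
  nlinarith [mul_nonneg (mul_nonneg (sq_nonneg C) hη.le) hη.le]

end DV
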