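import Pool.Agent.Helper53.DV.St

/-!
# DV project (MP_d684b1_an): module PC2
-/

set_option autoImplicit false

open scoped BigOperators RealInnerProductSpace
open MeasureTheory

namespace DV

namespace PC2

theorem tf_abs {P d : ℕ} (π : ZMod P → Fin (d + 1) × Fin d → ℝ) (χ : ℝ → ℝ)
    (hχ : ∀ t, 0 ≤ χ t ∧ χ t ≤ 1) (h1 : StCH1) (x : Eu (d + 1)) (hx : ‖x‖ = 1) (s : Fin (d + 1))
    (g : ZMod P) : |tf π χ x s g| ≤ 1 := by
  unfold tf
  rw [abs_mul]
  have a1 : |χ ‖pr π s g‖| ≤ 1 := by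
    rw [abs_of_nonneg (hχ _).1]
    exact (hχ _).2
  have a2 : |⟪Ec s (pr π s g), x⟫| ≤ 1 := by
    have h := abs_real_inner_le_norm (Ec s (pr π s g)) x
    rw [h1.1, hx, one_mul] at h
    exact h
  calc |χ ‖pr π s g‖| * |⟪Ec s (pr π s g), x⟫| ≤ 1 * 1 := mul_le_mul a1 a2 (abs_nonneg _) zero_le_one
    _ = 1 := one_mul _

theorem entry_abs {P d : ℕ} (π : ZMod P → Fin (d + 1) × Fin d → ℝ) (χ : ℝ → ℝ)
    (hχ : ∀ t, 0 ≤ χ t ∧ χ t ≤ 1) (h1 : StCH1) (x : Eu (d + 1)) (hx : ‖x‖ = 1) (s : Fin (d + 1))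
    (g : ZMod P) (a : ℝ) (ha0 : 0 ≤ a) (ha1 : a ≤ 1) : |a * tf π χ x s g| ≤ 1 := by
  rw [abs_mul, abs_of_nonneg ha0]
  calc a * |tf π χ x s g| ≤ 1 * 1 := mul_le_mul ha1 (tf_abs π χ hχ h1 x hx s g) (abs_nonneg _) zero_le_one
    _ = 1 := one_mul _

theorem lam_ge (η : ℝ) (h0 : 0 < η) (h1 : η ≤ 1) : 1 ≤ 2 * Real.log (1 + 1 / η) := by
  have h2 : (1 : ℝ) ≤ 1 / η := by
    rw [le_div_iff₀ h0]
    linarith
  have h3 : Real.log 2 ≤ Real.log (1 + 1 / η) := Real.log_le_log (by norm_num) (by linarith)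
  have h4 := Real.log_two_gt_d9
  linarith

end PC2

open PC2 in
theorem pPC2 (hNL : StNL) (hEN : StEN) (h1 : StCH1) : StPC2 := by
  intro d C0 hC0
  obtain ⟨c, C, hc, hC, hE⟩ := hEN d
  set c' : ℝ := min c (1 / 2) with hc'
  have hc'0 : 0 < c' := lt_min hc (by norm_num)
  have hK : 0 < (3 + C0) * C := by positivity
  have hK2 : 0 < (1 + C0) / c' := by positivity
  refine ⟨(3 + C0) * C + (1 + C0) / c', by positivity, ?_⟩
  intro η δ hη hη1 hδ hδη P π hT χ hχ N Φ hΦ a n ha hlow x y hx hy hinv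
  obtain ⟨hχ1, hχ2, hχ3, hχ4⟩ := hχ
  obtain ⟨hT0, hT1, hT2, hT3, hT4⟩ := hT
  have hΛ := lam_ge η hη hη1
  set Λ : ℝ := 2 * Real.log (1 + 1 / η) with hΛdef
  have hxy : 0 ≤ ‖x - y‖ := norm_nonneg _
  have hsq : 0 ≤ Real.sqrt η := Real.sqrt_nonneg _
  have hup : ∀ x : Eu (d + 1), ‖x‖ = 1 → Φ (fun c => a c.1 c.2 * tf π χ x c.2 (n c.1)) ≤ 1 + η := by
    intro x hx
    refine (hΦ _).2.trans ?_
    have h2 : ‖(fun c : Fin N × Fin (d + 1) => a c.1 c.2 * tf π χ x c.2 (n c.1))‖ ≤ 1 := by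
      rw [pi_norm_le_iff_of_nonneg zero_le_one]
      intro c
      rw [Real.norm_eq_abs]
      exact entry_abs π χ hχ1 h1 x hx _ _ _ (ha _ _).1 (ha _ _).2
    calc (1 + η) * ‖(fun c : Fin N × Fin (d + 1) => a c.1 c.2 * tf π χ x c.2 (n c.1))‖ ≤ (1 + η) * 1 :=
          mul_le_mul_of_nonneg_left h2 (by linarith)
      _ = 1 + η := mul_one _
  have hR0 : 0 ≤ Λ * η * (‖x - y‖ + δ) := by positivity
  have hR1 : 0 ≤ δ * Real.sqrt η + δ ^ 2 := by positivity
  by_cases hcase : Λ * (‖x - y‖ + δ) ≤ c'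
  · -- the close case
    have hcc : Λ * (‖x - y‖ + δ) ≤ c := hcase.trans (min_le_left _ _)
    have hδ2 : δ ≤ 1 / 2 := by
      have h2 : Λ * (‖x - y‖ + δ) ≤ 1 / 2 := hcase.trans (min_le_right _ _)
      have h3 : 1 * (‖x - y‖ + δ) ≤ Λ * (‖x - y‖ + δ) := mul_le_mul_of_nonneg_right hΛ (by linarith)
      linarith
    obtain ⟨u, hu, hmain⟩ := hE Λ η δ χ hΛ hη hη1 hδ hχ1 hχ3 hχ4 x y hx hy hcc
    obtain ⟨g, hg⟩ := hT4 (fun p => u p.1 p.2) (by
      intro p
      have h2 := norm_le_pi_norm (u p.1) p.2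
      rw [Real.norm_eq_abs] at h2
      have h3 := hu p.1
      linarith)
    have hgu : ∀ s, ‖pr π s g - u s‖ ≤ δ := by
      intro s
      rw [pi_norm_le_iff_of_nonneg hδ.le]
      intro i
      rw [Real.norm_eq_abs]
      exact hg (s, i)
    have hgs : ∀ s i, |π g (s, i)| ≤ 5 / 8 := by
      intro s i
      have h2 := hg (s, i)
      have h3 := norm_le_pi_norm (u s) i
      rw [Real.norm_eq_abs] at h3
      have h4 := hu s
      have h5 : |π g (s, i)| ≤ |π g (s, i) - u s i| + |u s i| := by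
        have h6 := abs_add_le (π g (s, i) - u s i) (u s i)
        rwa [sub_add_cancel] at h6
      have h7 : |π g (s, i) - u s i| ≤ δ := h2
      linarith
    -- the two cases for a label
    have hlab : ∀ (s : Fin (d + 1)) (m : ZMod P), ‖pr π s (m + g) - pr π s m - u s‖ ≤ δ ∨
        (χ ‖pr π s m‖ = 0 ∧ χ ‖pr π s (m + g)‖ = 0) := by
      intro s m
      by_cases hz : ‖pr π s m‖ ≤ 7
      · left
        have h2 : pr π s (m + g) = pr π s m + pr π s g := by
          funext i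
          show π (m + g) (s, i) = π m (s, i) + π g (s, i)
          apply hT2
          have h3 := norm_le_pi_norm (pr π s m) i
          rw [Real.norm_eq_abs] at h3
          have h4 : |π m (s, i)| ≤ ‖pr π s m‖ := h3
          have h5 := hgs s i
          linarith
        rw [h2, add_sub_cancel_left]
        exact hgu s
      · right
        push Not at hz
        refine ⟨hχ3 _ (by linarith), ?_⟩
        by_contra hne
        have hz' : ‖pr π s (m + g)‖ < 2 := by
          by_contra h2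
          push Not at h2
          exact hne (hχ3 _ h2)
        have h2 : ‖pr π s m‖ ≤ 3 := by
          rw [pi_norm_le_iff_of_nonneg (by norm_num)]
          intro i
          rw [Real.norm_eq_abs]
          show |π m (s, i)| ≤ 3
          have h3 := norm_le_pi_norm (pr π s (m + g)) i
          rw [Real.norm_eq_abs] at h3
          have h4 : |π (m + g) (s, i)| ≤ ‖pr π s (m + g)‖ := h3
          have h5 := hgs s i
          have h6 : π (-g) (s, i) = -π g (s, i) := hT3 g (s, i) (by linarith)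
          have h7 : π (m + g + -g) (s, i) = π (m + g) (s, i) + π (-g) (s, i) := by
            apply hT2
            rw [h6, abs_neg]
            linarith
          rw [add_neg_cancel_right, h6] at h7
          rw [h7]
          have h8 := abs_add_le (π (m + g) (s, i)) (-π g (s, i))
          rw [abs_neg] at h8
          linarith
        linarith
    set A : ℝ := C * (Λ * (‖x - y‖ + δ)) with hA
    set B : ℝ := C * δ with hB
    set D : ℝ := C * δ ^ 2 with hD
    have hA0 : 0 ≤ A := by positivity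
    have hB0 : 0 ≤ B := by positivity
    have hD0 : 0 ≤ D := by positivity
    set Y : Fin N × Fin (d + 1) → ℝ := fun c => a c.1 c.2 * tf π χ y c.2 (n c.1) with hY
    set Y' : Fin N × Fin (d + 1) → ℝ := fun c => a c.1 c.2 * tf π χ x c.2 (n c.1 + g) with hY'
    have hY1 : ∀ i, |Y i| ≤ 1 := fun i => entry_abs π χ hχ1 h1 y hy _ _ _ (ha _ _).1 (ha _ _).2
    have hY1' : ∀ i, |Y' i| ≤ 1 := fun i => entry_abs π χ hχ1 h1 x hx _ _ _ (ha _ _).1 (ha _ _).2
    have hΦY' : Φ Y' = Φ (fun c => a c.1 c.2 * tf π χ x c.2 (n c.1)) := hinv g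
    have hpair : ∀ i, |Y i - Y' i| ≤ A * (η + (1 - |Y i|)) + B * Real.sqrt (1 - |Y i|) + D ∧
        |Y i - Y' i| ≤ A * (η + (1 - |Y' i|)) + B * Real.sqrt (1 - |Y' i|) + D := by
      intro i
      have hn1 : 0 ≤ A * (η + (1 - |Y i|)) + B * Real.sqrt (1 - |Y i|) + D := by
        have h2 := hY1 i
        have h3 : 0 ≤ A * (η + (1 - |Y i|)) := mul_nonneg hA0 (by linarith)
        have h4 : 0 ≤ B * Real.sqrt (1 - |Y i|) := mul_nonneg hB0 (Real.sqrt_nonneg _)
        linarith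
      have hn2 : 0 ≤ A * (η + (1 - |Y' i|)) + B * Real.sqrt (1 - |Y' i|) + D := by
        have h2 := hY1' i
        have h3 : 0 ≤ A * (η + (1 - |Y' i|)) := mul_nonneg hA0 (by linarith)
        have h4 : 0 ≤ B * Real.sqrt (1 - |Y' i|) := mul_nonneg hB0 (Real.sqrt_nonneg _)
        linarith
      rcases hlab i.2 (n i.1) with h2 | ⟨h2, h3⟩
      · have h3 := hmain i.2 (pr π i.2 (n i.1)) (pr π i.2 (n i.1 + g)) h2 (a i.1 i.2) (ha _ _).1 (ha _ _).2
        exact h3
      · have h4 : Y i = 0 := by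
          show a i.1 i.2 * (χ ‖pr π i.2 (n i.1)‖ * ⟪Ec i.2 (pr π i.2 (n i.1)), y⟫) = 0
          rw [h2, zero_mul, mul_zero]
        have h5 : Y' i = 0 := by
          show a i.1 i.2 * (χ ‖pr π i.2 (n i.1 + g)‖ * ⟪Ec i.2 (pr π i.2 (n i.1 + g)), x⟫) = 0
          rw [h3, zero_mul, mul_zero]
        have h6 : |Y i - Y' i| = 0 := by rw [h4, h5, sub_zero, abs_zero]
        rw [h6]
        exact ⟨hn1, hn2⟩
    have hfin := hNL (Fin N × Fin (d + 1)) η C0 A B D hη hη1 hC0.le hA0 hB0 hD0 Φ hΦ Y Y' hY1 hY1'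
      (hlow y hy) (by rw [hΦY']; exact hlow x hx) (fun i => (hpair i).1) (fun i => (hpair i).2)
    rw [hΦY', abs_sub_comm] at hfin
    refine hfin.trans ?_
    have e : (3 + C0) * (A * η + B * Real.sqrt η + D) =
        (3 + C0) * C * (Λ * η * (‖x - y‖ + δ) + δ * Real.sqrt η + δ ^ 2) := by
      rw [hA, hB, hD]
      ring
    rw [e]
    refine mul_le_mul_of_nonneg_right ?_ (by linarith)
    linarith
  · -- the far case
    push Not at hcase
    have h2 := hlow x hx
    have h3 := hlow y hy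
    have h4 := hup x hx
    have h5 := hup y hy
    have h6 : |Φ (fun c => a c.1 c.2 * tf π χ x c.2 (n c.1)) - Φ (fun c => a c.1 c.2 * tf π χ y c.2 (n c.1))| ≤
        (1 + C0) * η := by
      rw [abs_le]
      constructor
      · linarith
      · linarith
    refine h6.trans ?_
    have h7 : (1 + C0) * η ≤ (1 + C0) / c' * (Λ * η * (‖x - y‖ + δ)) := by
      have h8 : (1 + C0) * η = (1 + C0) / c' * (η * c') := by
        field_simp
      rw [h8]
      refine mul_le_mul_of_nonneg_left ?_ hK2.le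
      calc η * c' ≤ η * (Λ * (‖x - y‖ + δ)) := mul_le_mul_of_nonneg_left hcase.le hη.le
        _ = Λ * η * (‖x - y‖ + δ) := by ring
    have h8 : 0 ≤ (3 + C0) * C * (Λ * η * (‖x - y‖ + δ) + δ * Real.sqrt η + δ ^ 2) :=
      mul_nonneg hK.le (by linarith)
    have h9 : 0 ≤ (1 + C0) / c' * (δ * Real.sqrt η + δ ^ 2) := mul_nonneg hK2.le hR1
    have e : ((3 + C0) * C + (1 + C0) / c') * (Λ * η * (‖x - y‖ + δ) + δ * Real.sqrt η + δ ^ 2) =
        (3 + C0) * C * (Λ * η * (‖x - y‖ + δ) + δ * Real.sqrt η + δ ^ 2) +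
          ((1 + C0) / c' * (Λ * η * (‖x - y‖ + δ)) + (1 + C0) / c' * (δ * Real.sqrt η + δ ^ 2)) := by ring
    rw [e]
    linarith

end DV
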