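import Pool.Agent.Helper53.DV.St

/-!
# DV project (MP_d684b1_an), module PC3
-/

set_option autoImplicit false

open scoped BigOperators RealInnerProductSpace
open MeasureTheory

namespace DV

namespace PC3

/-- The counting of dimensions. -/
theorem count {ε CN CT C2 : ℝ} (d D q P N : ℕ) (hε : 0 < ε) (hε1 : ε ≤ 1) (hCN : 0 < CN) (hCT : 0 < CT) (hC2 : 0 < C2)
    (hq : (q : ℝ) ≤ (CN / ε) ^ (d + 1)) (hP : (P : ℝ) ≤ (CT / ε) ^ (D + 1)) (hP1 : 1 ≤ P)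
    (hN : ((C2 + 2 * (CN + CT + ((d : ℝ) + 1) + 1) + ((d : ℝ) + D + 2)) / ε) ^
      (C2 + 2 * (CN + CT + ((d : ℝ) + 1) + 1) + ((d : ℝ) + D + 2)) ≤ (N : ℝ)) :
    (q + (d + 1)) * (P - 1) + 1 ≤ N := by
  set B : ℝ := CN + CT + ((d : ℝ) + 1) + 1 with hB
  set C : ℝ := C2 + 2 * B + ((d : ℝ) + D + 2) with hC
  have hd : (0 : ℝ) ≤ d := Nat.cast_nonneg d
  have hD : (0 : ℝ) ≤ D := Nat.cast_nonneg D
  have hB1 : 1 ≤ B := by rw [hB]; linarith
  have hX1 : 1 ≤ B / ε := by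
    rw [le_div_iff₀ hε]; linarith
  have hq' : (q : ℝ) ≤ (B / ε) ^ (d + 1) := by
    refine hq.trans (pow_le_pow_left₀ (by positivity) ?_ _)
    gcongr
    rw [hB]; linarith
  have hP' : (P : ℝ) ≤ (B / ε) ^ (D + 1) := by
    refine hP.trans (pow_le_pow_left₀ (by positivity) ?_ _)
    gcongr
    rw [hB]; linarith
  have hd' : (d : ℝ) + 1 ≤ (B / ε) ^ (d + 1) := by
    have h1 : (d : ℝ) + 1 ≤ B / ε := by
      rw [le_div_iff₀ hε]
      have : ((d : ℝ) + 1) * ε ≤ ((d : ℝ) + 1) * 1 := by gcongr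
      rw [hB]; linarith
    refine h1.trans ?_
    calc B / ε = (B / ε) ^ 1 := (pow_one _).symm
      _ ≤ (B / ε) ^ (d + 1) := pow_le_pow_right₀ hX1 (by omega)
  have hsum : (q : ℝ) + (d + 1) ≤ (2 * B / ε) ^ (d + 1) := by
    have h2 : (2 * B / ε) ^ (d + 1) = 2 ^ (d + 1) * (B / ε) ^ (d + 1) := by
      rw [← mul_pow]; ring
    have h3 : (2 : ℝ) ≤ 2 ^ (d + 1) := by
      calc (2 : ℝ) = 2 ^ 1 := (pow_one _).symm
        _ ≤ 2 ^ (d + 1) := pow_le_pow_right₀ (by norm_num) (by omega)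
    rw [h2]
    have h4 : (0 : ℝ) ≤ (B / ε) ^ (d + 1) := by positivity
    nlinarith
  have hPP : (P : ℝ) ≤ (2 * B / ε) ^ (D + 1) := by
    refine hP'.trans (pow_le_pow_left₀ (by positivity) ?_ _)
    gcongr
    linarith
  have hprod : ((q : ℝ) + (d + 1)) * P ≤ (2 * B / ε) ^ (d + 1 + (D + 1)) := by
    rw [pow_add]
    gcongr
  have hCB : 2 * B / ε ≤ C / ε := by
    gcongr
    rw [hC]; linarith
  have hC1 : 1 ≤ C / ε := le_trans (by
    have : B / ε ≤ 2 * B / ε := by gcongr; linarith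
    linarith) hCB
  have hfin : ((q : ℝ) + (d + 1)) * P ≤ N := by
    refine hprod.trans (le_trans ?_ hN)
    calc (2 * B / ε) ^ (d + 1 + (D + 1)) ≤ (C / ε) ^ (d + 1 + (D + 1)) :=
          pow_le_pow_left₀ (by positivity) hCB _
      _ = (C / ε) ^ ((d + 1 + (D + 1) : ℕ) : ℝ) := (Real.rpow_natCast _ _).symm
      _ ≤ (C / ε) ^ C := Real.rpow_le_rpow_of_exponent_le hC1 (by
          rw [hC]; push_cast; linarith)
  have hnat : (q + (d + 1)) * P ≤ N := by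
    exact_mod_cast hfin
  obtain ⟨P', rfl⟩ : ∃ P', P = P' + 1 := ⟨P - 1, by omega⟩
  simp only [Nat.add_sub_cancel]
  have : (q + (d + 1)) * (P' + 1) = (q + (d + 1)) * P' + (q + (d + 1)) := by ring
  omega

/-- `2 log (1 + 1/η) ≥ 1`. -/
theorem one_le_L {η : ℝ} (h0 : 0 < η) (h1 : η ≤ 1) : 1 ≤ 2 * Real.log (1 + 1 / η) := by
  have h2 : (2 : ℝ) ≤ 1 + 1 / η := by
    have : 1 ≤ 1 / η := by rw [le_div_iff₀ h0]; linarith
    linarith
  have h3 : Real.log 2 ≤ Real.log (1 + 1 / η) := Real.log_le_log (by norm_num) h2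
  have h4 := Real.log_two_gt_d9
  linarith

end PC3

/-- MODULE PC3. -/
theorem pPC3 (hCF : StCF) (hTO : StTO) (hCU : StCU) (hNE : StNE) (hP1 : StPC1) (hP2 : StPC2) (hMO : StMO)
    (h1 : StCH1) : StPC3 := by
  intro d
  obtain ⟨CT, hCT, hT⟩ := hTO (Fin (d + 1) × Fin d)
  obtain ⟨CN, hCN, hN⟩ := hNE (d + 1)
  obtain ⟨C0, hC0, hp1⟩ := hP1 d
  obtain ⟨C1, hC1, hp2⟩ := hP2 d C0 hC0
  obtain ⟨C2, hC2, hmo⟩ := hMO C0 (8 * C1) hC0.le (by positivity)
  set D : ℕ := Fintype.card (Fin (d + 1) × Fin d) with hD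
  refine ⟨min (1 / (4 * C0)) (1 / (32 * C1)),
    C2 + 2 * (CN + CT + ((d : ℝ) + 1) + 1) + ((d : ℝ) + D + 2), by positivity, by positivity, ?_⟩
  intro ε η hε hεη hηc hη1 hΛ N hNN Φ hΦ
  set L : ℝ := 2 * Real.log (1 + 1 / η) with hL
  have hη : 0 < η := lt_of_lt_of_le hε hεη
  have hL1 : 1 ≤ L := PC3.one_le_L hη hη1
  set r : ℝ := Real.sqrt η with hr
  have hr0 : 0 < r := Real.sqrt_pos.2 hη
  have hrr : r * r = η := Real.mul_self_sqrt hη.le
  have hr1 : r ≤ 1 := by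
    rw [hr]; exact Real.sqrt_le_one.2 hη1
  have hε1 : ε ≤ 1 := hεη.trans hη1
  -- the parameters
  set δ : ℝ := ε / r with hδ
  have hδ0 : 0 < δ := by positivity
  have hδr : δ ≤ r := by
    rw [hδ, div_le_iff₀ hr0, hrr]; exact hεη
  have hδ1 : δ ≤ 1 := hδr.trans hr1
  have hδε : δ * r = ε := by
    rw [hδ, div_mul_cancel₀ _ hr0.ne']
  set ρ : ℝ := ε / (L * η) with hρ
  have hLη : 0 < L * η := by positivity
  have hρ0 : 0 < ρ := by positivity
  have hρε : L * η * ρ = ε := by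
    rw [hρ, mul_div_cancel₀ _ hLη.ne']
  have hρ1 : ρ ≤ 1 := by
    rw [hρ, div_le_one hLη]
    nlinarith
  have hLη1 : L * η ≤ 1 := by
    rw [← hrr, ← mul_assoc]
    nlinarith
  obtain ⟨P, hPp, hPle, π, hπ⟩ := hT δ hδ0 hδ1
  have : Fact P.Prime := ⟨hPp⟩
  obtain ⟨χ, hχ⟩ := hCU η hη hη1
  obtain ⟨X0, hX1, hXc, hXn⟩ := hN ρ hρ0 hρ1
  -- the size of `N`
  have hsize : (X0.card + (d + 1)) * (P - 1) + 1 ≤ N := by
    refine PC3.count d D X0.card P N hε hε1 hCN hCT hC2 ?_ ?_ hPp.one_lt.le hNN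
    · refine hXc.trans (pow_le_pow_left₀ (by positivity) ?_ _)
      rw [div_le_div_iff₀ hρ0 hε]
      have : ε ≤ ρ := by
        rw [hρ, le_div_iff₀ hLη]
        nlinarith
      gcongr
    · refine hPle.trans (pow_le_pow_left₀ (by positivity) ?_ _)
      rw [div_le_div_iff₀ hδ0 hε]
      have : ε ≤ δ := by
        rw [hδ, le_div_iff₀ hr0]
        nlinarith
      gcongr
  -- the configuration
  obtain ⟨a, n, ha, hβ, hinv⟩ := hCF P (d + 1) X0.card N hsize η hη.le Φ hΦ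
    (fun i s g => tf π χ ((X0.equivFin.symm i : X0) : Eu (d + 1)) s g)
    (fun s g => max 0 (1 - ‖pr π s g‖ ^ 2))
    (by
      intro s g
      refine ⟨le_max_left _ _, max_le zero_le_one ?_⟩
      have : 0 ≤ ‖pr π s g‖ ^ 2 := by positivity
      linarith)
    (by
      intro s
      have h0 : pr π s 0 = 0 := by
        funext i
        exact hπ.1 (s, i)
      simp [h0])
  have hlow := hp1 η δ hη hη1 hδ0 hδr P π hπ χ hχ N Φ hΦ a n ha hβ
  have hdif := hp2 η δ hη hη1 hδ0 hδr P π hπ χ hχ N Φ hΦ a n ha hlow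
  rw [← hr, ← hL] at hdif
  set F : Eu (d + 1) → ℝ := fun x => Φ (fun c => a c.1 c.2 * tf π χ x c.2 (n c.1)) with hF
  have hLηδ : L * η * δ ≤ ε := by
    have h2 : L * η * δ = (L * r) * (δ * r) := by rw [← hrr]; ring
    rw [h2, hδε]
    nlinarith
  have hδδ : δ ^ 2 ≤ ε := by
    have : δ ^ 2 ≤ δ * r := by
      rw [pow_two]
      exact mul_le_mul_of_nonneg_left hδr hδ0.le
    rwa [hδε] at this
  -- the differences at points of the net
  have hnet : ∀ x ∈ X0, ∀ y : Eu (d + 1), ‖y‖ = 1 → |F x - F y| ≤ C1 * (L * η * ‖x - y‖ + 3 * ε) := by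
    intro x hx y hy
    have h2 := hdif x y (hX1 x hx) hy (by
      intro g
      have h3 := hinv (X0.equivFin ⟨x, hx⟩) g
      simpa using h3)
    refine h2.trans (mul_le_mul_of_nonneg_left ?_ hC1.le)
    have h4 : L * η * (‖x - y‖ + δ) = L * η * ‖x - y‖ + L * η * δ := by ring
    rw [h4, hδε]
    linarith
  have hall : ∀ x y : Eu (d + 1), ‖x‖ = 1 → ‖y‖ = 1 → |F x - F y| ≤ 8 * C1 * (ε + L * η * ‖x - y‖) := by
    intro x y hx hy
    obtain ⟨x0, hx0, hd0⟩ := hXn x hx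
    have h2 := hnet x0 hx0 x hx
    have h3 := hnet x0 hx0 y hy
    have h4 : ‖x0 - y‖ ≤ ρ + ‖x - y‖ := by
      calc ‖x0 - y‖ = ‖(x0 - x) + (x - y)‖ := by rw [sub_add_sub_cancel]
        _ ≤ ‖x0 - x‖ + ‖x - y‖ := norm_add_le _ _
        _ ≤ ρ + ‖x - y‖ := by gcongr
    have h5 : |F x - F y| ≤ |F x0 - F x| + |F x0 - F y| := by
      have : F x - F y = -(F x0 - F x) + (F x0 - F y) := by ring
      rw [this]
      exact (abs_add_le _ _).trans (by rw [abs_neg])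
    have h6 : L * η * ‖x0 - x‖ ≤ ε := by
      calc L * η * ‖x0 - x‖ ≤ L * η * ρ := by gcongr
        _ = ε := hρε
    have h7 : L * η * ‖x0 - y‖ ≤ ε + L * η * ‖x - y‖ := by
      calc L * η * ‖x0 - y‖ ≤ L * η * (ρ + ‖x - y‖) := by gcongr
        _ = ε + L * η * ‖x - y‖ := by rw [mul_add, hρε]
    have h8 : C1 * (L * η * ‖x0 - x‖ + 3 * ε) ≤ C1 * (4 * ε) :=
      mul_le_mul_of_nonneg_left (by linarith) hC1.le
    have h9 : C1 * (L * η * ‖x0 - y‖ + 3 * ε) ≤ C1 * (4 * ε + L * η * ‖x - y‖) :=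
      mul_le_mul_of_nonneg_left (by linarith) hC1.le
    have h10 : 0 ≤ C1 * (L * η * ‖x - y‖) := by positivity
    nlinarith
  -- the map
  have hηC0 : C0 * η ≤ 1 / 4 := by
    have h2 : η ≤ 1 / (4 * C0) := hηc.trans (min_le_left _ _)
    rw [le_div_iff₀ (by positivity)] at h2
    linarith
  have hηC1 : 8 * C1 * η ≤ 1 / 4 := by
    have h2 : η ≤ 1 / (32 * C1) := hηc.trans (min_le_right _ _)
    rw [le_div_iff₀ (by positivity)] at h2
    linarith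
  have hFe : ∀ x : Eu (d + 1), Φ (fun i : Fin N × Fin (d + 1) =>
      (a i.1 i.2 * χ ‖pr π i.2 (n i.1)‖) * ⟪Ec i.2 (pr π i.2 (n i.1)), x⟫) = F x := by
    intro x
    rw [hF]
    congr 1
    funext c
    rw [tf]
    ring
  obtain ⟨T, hT'⟩ := hmo (d + 1) ε η (L * η) hε hεη hη hηC0 hηC1 hη1 hLη.le (Fin N × Fin (d + 1)) Φ hΦ
    (fun i => a i.1 i.2 * χ ‖pr π i.2 (n i.1)‖) (fun i => Ec i.2 (pr π i.2 (n i.1)))
    (by
      intro i
      have h2 := ha i.1 i.2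
      have h3 := hχ.1 ‖pr π i.2 (n i.1)‖
      rw [abs_of_nonneg (mul_nonneg h2.1 h3.1)]
      exact mul_le_one₀ h2.2 h3.1 h3.2)
    (fun i => h1.1 d i.2 _)
    (by
      intro x hx
      rw [hFe x]
      exact hlow x hx)
    (by
      intro x y hx hy
      rw [hFe x, hFe y]
      exact hall x y hx hy)
  refine ⟨T, fun x hx => (hT' x hx).trans ?_⟩
  rw [← hr]
  refine mul_le_mul_of_nonneg_right ?_ (by positivity)
  have : (0 : ℝ) ≤ d := Nat.cast_nonneg d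
  have : (0 : ℝ) ≤ D := Nat.cast_nonneg D
  linarith

end DV
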