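import Pool.Agent.Helper53.DV.St

/-! # DV project: module PC4 -/

set_option autoImplicit false

open scoped BigOperators

namespace DV

namespace PC4

private theorem ana (c1 ε : ℝ) (hc1 : 0 < c1) (hε : 0 < ε) (h1 : ε ≤ 1 / 10 ^ 8)
    (h2 : ε ≤ (min 1 c1) ^ 2) :
    ∃ s : ℝ, 0 < s ∧ (ε / Real.log (1 / ε)) ^ (2 / 3 : ℝ) = s ^ 2 ∧ ε ≤ s ^ 2 ∧ s ^ 2 ≤ c1 ∧
      s ^ 2 ≤ 1 ∧ 2 * Real.log (1 + 1 / s ^ 2) * s ≤ 1 ∧
      2 * Real.log (1 + 1 / s ^ 2) * s ^ 2 * s ≤ 4 * ε := by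
  obtain ⟨ℓ, hℓ⟩ : ∃ ℓ : ℝ, ℓ = Real.log (1 / ε) := ⟨_, rfl⟩
  have hinv : (10 : ℝ) ^ 8 ≤ 1 / ε := by
    rw [le_div_iff₀ hε]
    rw [le_div_iff₀ (by positivity)] at h1
    linarith
  have hε1 : ε ≤ 1 := h1.trans (by norm_num)
  have hℓ1 : 1 ≤ ℓ := by
    rw [hℓ, Real.le_log_iff_exp_le (by positivity)]
    refine le_trans ?_ hinv
    have := Real.exp_one_lt_d9
    linarith [show (2.7182818286 : ℝ) ≤ 10 ^ 8 by norm_num]
  have hℓ0 : 0 < ℓ := by linarith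
  obtain ⟨t, ht⟩ : ∃ t : ℝ, t = (1 / ε) ^ (1 / 4 : ℝ) := ⟨_, rfl⟩
  have ht0 : 0 < t := by rw [ht]; positivity
  have ht4 : t ^ 4 = 1 / ε := by
    rw [ht, ← Real.rpow_natCast, ← Real.rpow_mul (by positivity)]
    norm_num
  have hℓt : ℓ ≤ 4 * t := by
    have h := Real.log_le_rpow_div (x := 1 / ε) (by positivity) (ε := (1 / 4 : ℝ)) (by norm_num)
    rw [← hℓ, ← ht] at h
    linarith
  have ht2 : (10 : ℝ) ^ 4 ≤ t ^ 2 := by
    have h3 : ((10 : ℝ) ^ 4) ^ 2 ≤ (t ^ 2) ^ 2 := by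
      calc ((10 : ℝ) ^ 4) ^ 2 = 10 ^ 8 := by norm_num
        _ ≤ 1 / ε := hinv
        _ = (t ^ 2) ^ 2 := by rw [← ht4]; ring
    exact le_of_sq_le_sq h3 (by positivity)
  obtain ⟨x, hx⟩ : ∃ x : ℝ, x = ε / ℓ := ⟨_, rfl⟩
  have hx0 : 0 < x := by rw [hx]; positivity
  have hxε : x ≤ ε := by rw [hx]; exact div_le_self hε.le hℓ1
  obtain ⟨s, hs⟩ : ∃ s : ℝ, s = x ^ (1 / 3 : ℝ) := ⟨_, rfl⟩
  have hs0 : 0 < s := by rw [hs]; positivity
  have hs3 : s ^ 3 = x := by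
    rw [hs, ← Real.rpow_natCast, ← Real.rpow_mul hx0.le]
    norm_num
  have hs2 : x ^ (2 / 3 : ℝ) = s ^ 2 := by
    rw [hs, ← Real.rpow_natCast, ← Real.rpow_mul hx0.le]
    norm_num
  have hℓx : ℓ * x = ε := by rw [hx]; field_simp
  -- the main smallness
  have hεt : ε * t ^ 4 = 1 := by rw [ht4]; field_simp
  have hcube : (6 * (ℓ * s)) ^ 3 ≤ 1 := by
    have h4 : (6 * (ℓ * s)) ^ 3 = 216 * (ℓ ^ 2 * ε) := by
      rw [← hℓx, ← hs3]; ring
    rw [h4]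
    have h5 : ℓ ^ 2 ≤ 16 * t ^ 2 := by nlinarith
    have h6 : ε * t ^ 2 ≤ 1 / 10 ^ 4 := by
      rw [le_div_iff₀ (by positivity)]
      calc ε * t ^ 2 * 10 ^ 4 ≤ ε * t ^ 2 * t ^ 2 := by
            exact mul_le_mul_of_nonneg_left ht2 (by positivity)
        _ = ε * t ^ 4 := by ring
        _ = 1 := hεt
    have h7 : ℓ ^ 2 * ε ≤ 16 * t ^ 2 * ε := mul_le_mul_of_nonneg_right h5 hε.le
    nlinarith
  have hls : 6 * (ℓ * s) ≤ 1 := by
    by_contra hcon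
    push Not at hcon
    have : 1 < (6 * (ℓ * s)) ^ 3 := one_lt_pow₀ hcon (by norm_num)
    linarith
  have hls0 : 0 < ℓ * s := by positivity
  have hεs : ε ≤ s ^ 2 := by
    have : ε = ℓ * s * s ^ 2 := by rw [← hℓx, ← hs3]; ring
    rw [this]
    have h8 : ℓ * s ≤ 1 := by linarith
    nlinarith [sq_nonneg s]
  obtain ⟨m, hm⟩ : ∃ m : ℝ, m = min 1 c1 := ⟨_, rfl⟩
  have hm0 : 0 < m := by rw [hm]; exact lt_min one_pos hc1
  have hm1 : m ≤ 1 := by rw [hm]; exact min_le_left _ _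
  have hmc : m ≤ c1 := by rw [hm]; exact min_le_right _ _
  have hsm : s ^ 2 ≤ m := by
    by_contra hcon
    push Not at hcon
    have h9 : m ^ 3 < (s ^ 2) ^ 3 := pow_lt_pow_left₀ hcon hm0.le (by norm_num)
    have h10 : (s ^ 2) ^ 3 = x ^ 2 := by rw [← hs3]; ring
    have h11 : x ^ 2 ≤ (m ^ 2) ^ 2 :=
      pow_le_pow_left₀ hx0.le (hxε.trans (by rw [hm]; exact h2)) 2
    have h12 : (m ^ 2) ^ 2 ≤ m ^ 3 := by
      have : (m ^ 2) ^ 2 = m ^ 3 * m := by ring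
      rw [this]
      exact mul_le_of_le_one_right (by positivity) hm1
    linarith
  have hlog : Real.log (1 + 1 / s ^ 2) ≤ 2 * ℓ := by
    have h13 : 1 + 1 / s ^ 2 ≤ (1 / ε) ^ 2 := by
      have h14 : 1 / s ^ 2 ≤ 1 / ε := one_div_le_one_div_of_le hε hεs
      nlinarith
    calc Real.log (1 + 1 / s ^ 2) ≤ Real.log ((1 / ε) ^ 2) :=
          Real.log_le_log (by positivity) h13
      _ = 2 * ℓ := by rw [Real.log_pow, hℓ]; norm_num
  refine ⟨s, hs0, ?_, hεs, hsm.trans hmc, hsm.trans hm1, ?_, ?_⟩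
  · rw [← hℓ, ← hx]; exact hs2
  · have h15 : 2 * Real.log (1 + 1 / s ^ 2) * s ≤ 2 * (2 * ℓ) * s :=
      mul_le_mul_of_nonneg_right (by linarith) hs0.le
    nlinarith
  · have h16 : 2 * Real.log (1 + 1 / s ^ 2) * s ^ 2 * s ≤ 2 * (2 * ℓ) * s ^ 2 * s := by
      refine mul_le_mul_of_nonneg_right (mul_le_mul_of_nonneg_right (by linarith) (by positivity)) hs0.le
    have h17 : 2 * (2 * ℓ) * s ^ 2 * s = 4 * ε := by
      rw [← hℓx, ← hs3]; ring
    linarith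

private theorem ext_norm {ι κ : Type} [Fintype ι] [Fintype κ] (f : ι → κ)
    (hf : Function.Injective f) (y : ι → ℝ) :
    ‖Function.ExtendByZero.linearMap ℝ f y‖ = ‖y‖ := by
  apply le_antisymm
  · rw [pi_norm_le_iff_of_nonneg (norm_nonneg _)]
    intro k
    by_cases hk : ∃ i, f i = k
    · obtain ⟨i, rfl⟩ := hk
      have : Function.ExtendByZero.linearMap ℝ f y (f i) = y i := hf.extend_apply _ _ _
      rw [this]
      exact norm_le_pi_norm y i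
    · have : Function.ExtendByZero.linearMap ℝ f y k = 0 := Function.extend_apply' _ _ _ hk
      rw [this, norm_zero]
      exact norm_nonneg _
  · rw [pi_norm_le_iff_of_nonneg (norm_nonneg _)]
    intro i
    have : Function.ExtendByZero.linearMap ℝ f y (f i) = y i := hf.extend_apply _ _ _
    rw [← this]
    exact norm_le_pi_norm _ (f i)

end PC4

open PC4 in
theorem pPC4 (hP3 : StPC3) : StCore := by
  intro d
  obtain ⟨c1, C1, hc1, hC1, H⟩ := hP3 d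
  obtain ⟨A, hA⟩ : ∃ A : ℝ, A = ((d : ℝ) + 1) * (C1 ^ C1 + 1) := ⟨_, rfl⟩
  have hCC : 0 < C1 ^ C1 := Real.rpow_pos_of_pos hC1 _
  have hA1 : 1 ≤ A := by
    rw [hA]
    have h1 : (0 : ℝ) ≤ d := Nat.cast_nonneg d
    nlinarith
  have hm0 : 0 < min 1 c1 := lt_min one_pos hc1
  refine ⟨min (1 / 10 ^ 8) ((min 1 c1) ^ 2), A + 8 * C1, lt_min (by positivity) (by positivity),
    (min_le_left _ _).trans (by norm_num), by linarith, ?_⟩
  intro ε hε hεc L hL Φ hΦ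
  obtain ⟨c, hc⟩ : ∃ c : ℝ, c = min (1 / 10 ^ 8) ((min 1 c1) ^ 2) := ⟨_, rfl⟩
  have hc0 : 0 ≤ c := by rw [hc]; exact (lt_min (by positivity) (by positivity)).le
  have hcle : c ≤ 1 := by rw [hc]; exact (min_le_left _ _).trans (by norm_num)
  rw [← hc] at hΦ
  have h1 : ε ≤ 1 / 10 ^ 8 := hεc.trans (min_le_left _ _)
  have h2 : ε ≤ (min 1 c1) ^ 2 := hεc.trans (min_le_right _ _)
  obtain ⟨s, hs0, hse, hεs, hsc, hs1, hl1, hl2⟩ := ana c1 ε hc1 hε h1 h2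
  have hsqrt : Real.sqrt (s ^ 2) = s := Real.sqrt_sq hs0.le
  have hinv : (2 : ℝ) ≤ 1 / ε := by
    rw [le_div_iff₀ hε]
    have : ε ≤ 1 / 2 := h1.trans (by norm_num)
    linarith
  have hinv0 : 0 < 1 / ε := by positivity
  -- the size
  obtain ⟨N, hN⟩ : ∃ N : ℕ, N = L / (d + 1) := ⟨_, rfl⟩
  have hNL : N * (d + 1) ≤ L := by rw [hN]; exact Nat.div_mul_le_self _ _
  have hLN : (L : ℝ) ≤ ((d : ℝ) + 1) * (N + 1) := by
    have h3 : L < (N + 1) * (d + 1) := by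
      rw [hN]
      have h31 := Nat.lt_div_mul_add (a := L) (b := d + 1) (Nat.succ_pos d)
      nlinarith
    have h4 : (L : ℝ) < ((N : ℝ) + 1) * ((d : ℝ) + 1) := by exact_mod_cast h3
    linarith [mul_comm ((N : ℝ) + 1) ((d : ℝ) + 1)]
  have hsize : (C1 / ε) ^ C1 ≤ (N : ℝ) := by
    have h5 : (C1 / ε) ^ C1 = C1 ^ C1 * (1 / ε) ^ C1 := by
      rw [← Real.mul_rpow hC1.le hinv0.le]
      congr 1
      ring
    have h6 : (1 : ℝ) ≤ (1 / ε) ^ C1 := Real.one_le_rpow (by linarith) hC1.le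
    have h7 : A * (1 / ε) ^ C1 ≤ L := by
      refine le_trans ?_ hL
      calc A * (1 / ε) ^ C1 ≤ (1 / ε) ^ A * (1 / ε) ^ C1 := by
            refine mul_le_mul_of_nonneg_right ?_ (by positivity)
            have h8 : (2 : ℝ) ^ A ≤ (1 / ε) ^ A := Real.rpow_le_rpow (by norm_num) hinv (by linarith)
            refine le_trans ?_ h8
            have h9 := one_add_mul_self_le_rpow_one_add (s := (1 : ℝ)) (by norm_num) hA1
            have h10 : (1 + 1 : ℝ) = 2 := by norm_num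
            rw [h10] at h9
            linarith
        _ = (1 / ε) ^ (A + C1) := (Real.rpow_add hinv0 _ _).symm
        _ ≤ (1 / ε) ^ (A + 8 * C1) := Real.rpow_le_rpow_of_exponent_le (by linarith) (by linarith)
    rw [h5]
    have hd1 : (0 : ℝ) < (d : ℝ) + 1 := by positivity
    have h11 : ((d : ℝ) + 1) * ((C1 ^ C1 + 1) * (1 / ε) ^ C1) ≤ ((d : ℝ) + 1) * (N + 1) := by
      rw [← mul_assoc, ← hA]
      exact h7.trans hLN
    have h12 := le_of_mul_le_mul_left h11 hd1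
    nlinarith
  -- the embedding
  let f : Fin N × Fin (d + 1) → Fin L := fun q => Fin.castLE hNL (finProdFinEquiv q)
  have hf : Function.Injective f := by
    intro q q' h
    exact finProdFinEquiv.injective (Fin.castLE_injective hNL h)
  let J : (Fin N × Fin (d + 1) → ℝ) →ₗ[ℝ] (Fin L → ℝ) := Function.ExtendByZero.linearMap ℝ f
  have hJ : ∀ y, ‖J y‖ = ‖y‖ := ext_norm f hf
  have hNM : NearMax (s ^ 2) (Φ.comp J) := by
    intro y
    have h3 := hΦ (J y)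
    rw [hJ] at h3
    refine ⟨h3.1, h3.2.trans ?_⟩
    refine mul_le_mul_of_nonneg_right ?_ (norm_nonneg _)
    rw [hse]
    nlinarith [sq_nonneg s]
  obtain ⟨T, hT⟩ := H ε (s ^ 2) hε hεs hsc hs1 (by rw [hsqrt]; exact hl1) N hsize (Φ.comp J) hNM
  refine ⟨J ∘ₗ T, ?_⟩
  intro x hx
  have h3 := hT x hx
  rw [Seminorm.comp_apply, hsqrt] at h3
  rw [LinearMap.comp_apply]
  refine h3.trans ?_
  calc C1 * (ε + 2 * Real.log (1 + 1 / s ^ 2) * s ^ 2 * s) ≤ C1 * (ε + 4 * ε) :=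
        mul_le_mul_of_nonneg_left (by linarith) hC1.le
    _ ≤ (A + 8 * C1) * ε := by nlinarith

end DV
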