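import Pool.Agent.Helper53.DV.St

/-!
# DV project, MODULE RC

The Rademacher average of a system is at most a constant times the mean of the norm of the system with
random coefficients `⟪v i, e⟫`, `v i` uniform in the unit ball.
-/

set_option autoImplicit false

open scoped BigOperators RealInnerProductSpace
open MeasureTheory

namespace DV

namespace RC

variable {k : ℕ}

private lemma sg_abs (b : Bool) : |sg b| = 1 := by
  cases b <;> simp [sg]

/-- Integrability of norms of combinations with bounded measurable coefficients. -/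
private lemma integ {X : Type} [NormedAddCommGroup X] [NormedSpace ℝ X] {m : ℕ} (x : Fin m → X)
    [IsProbabilityMeasure (ballM k)] (hb : ∀ᵐ v ∂(ballM k), ‖v‖ ≤ 1) (e : Eu k) (he : ‖e‖ = 1)
    (φ : Fin m → ℝ → ℝ) (hφ : ∀ i, Continuous (φ i)) (hφ1 : ∀ i t, |φ i t| ≤ |t|) :
    Integrable (fun v : Fin m → Eu k => ‖∑ i, φ i ⟪v i, e⟫ • x i‖) (Measure.pi fun _ => ballM k) := by
  have hcont : Continuous fun v : Fin m → Eu k => ‖∑ i, φ i ⟪v i, e⟫ • x i‖ := by
    refine continuous_norm.comp (continuous_finsetSum _ fun i _ => ?_)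
    refine Continuous.smul ((hφ i).comp ?_) continuous_const
    exact Continuous.inner (continuous_apply i) continuous_const
  have hae : ∀ᵐ v : Fin m → Eu k ∂(Measure.pi fun _ => ballM k), ∀ i, ‖v i‖ ≤ 1 := by
    rw [ae_all_iff]
    intro i
    exact (measurePreserving_eval (fun _ : Fin m => ballM k) i).quasiMeasurePreserving.ae hb
  refine Integrable.of_bound hcont.aestronglyMeasurable (∑ i, ‖x i‖) ?_
  filter_upwards [hae] with v hv
  rw [norm_norm]
  refine (norm_sum_le _ _).trans (Finset.sum_le_sum fun i _ => ?_)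
  rw [norm_smul, Real.norm_eq_abs]
  have h1 : |⟪v i, e⟫| ≤ 1 := by
    have := abs_real_inner_le_norm (v i) e
    rw [he, mul_one] at this
    exact this.trans (hv i)
  have h2 : |φ i ⟪v i, e⟫| ≤ 1 := (hφ1 i _).trans h1
  nlinarith [norm_nonneg (x i)]

private lemma intabs [IsProbabilityMeasure (ballM k)] (hb : ∀ᵐ v ∂(ballM k), ‖v‖ ≤ 1) (e : Eu k)
    (he : ‖e‖ = 1) : Integrable (fun v : Eu k => |⟪v, e⟫|) (ballM k) := by
  have hcont : Continuous fun v : Eu k => |⟪v, e⟫| :=
    continuous_abs.comp (Continuous.inner continuous_id continuous_const)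
  refine Integrable.of_bound hcont.aestronglyMeasurable 1 ?_
  filter_upwards [hb] with v hv
  rw [Real.norm_eq_abs, abs_abs]
  have := abs_real_inner_le_norm v e
  rw [he, mul_one] at this
  exact this.trans hv

/-- Symmetry: the signs may be inserted. -/
private lemma sym {X : Type} [NormedAddCommGroup X] [NormedSpace ℝ X] {m : ℕ} (x : Fin m → X)
    [IsProbabilityMeasure (ballM k)]
    (hR : ∀ R : Eu k ≃ₗᵢ[ℝ] Eu k, MeasurePreserving R (ballM k) (ballM k)) (e : Eu k) (s : Fin m → Bool) :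
    ∫ v : Fin m → Eu k, ‖∑ i, ⟪v i, e⟫ • x i‖ ∂(Measure.pi fun _ => ballM k) =
      ∫ v : Fin m → Eu k, ‖∑ i, (sg (s i) * ⟪v i, e⟫) • x i‖ ∂(Measure.pi fun _ => ballM k) := by
  set f : Fin m → Eu k → Eu k := fun i v => sg (s i) • v with hf
  have hmp : ∀ i, MeasurePreserving (f i) (ballM k) (ballM k) := by
    intro i
    rcases hs : s i with _ | _
    · have h := hR (LinearIsometryEquiv.neg ℝ)
      have : f i = (LinearIsometryEquiv.neg ℝ : Eu k ≃ₗᵢ[ℝ] Eu k) := by
        funext v; simp [hf, hs, sg]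
      rw [this]; exact h
    · have : f i = id := by funext v; simp [hf, hs, sg]
      rw [this]; exact MeasurePreserving.id _
  have hpi := measurePreserving_pi (fun _ : Fin m => ballM k) (fun _ : Fin m => ballM k) hmp
  have hcont : Continuous fun v : Fin m → Eu k => ‖∑ i, ⟪v i, e⟫ • x i‖ := by
    refine continuous_norm.comp (continuous_finsetSum _ fun i _ => ?_)
    refine Continuous.smul ?_ continuous_const
    exact Continuous.inner (continuous_apply i) continuous_const
  have h1 : ∫ v : Fin m → Eu k, ‖∑ i, ⟪v i, e⟫ • x i‖ ∂(Measure.pi fun _ => ballM k) =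
      ∫ v : Fin m → Eu k, (fun v : Fin m → Eu k => ‖∑ i, ⟪v i, e⟫ • x i‖) ((fun a i ↦ f i (a i)) v)
        ∂(Measure.pi fun _ => ballM k) := by
    conv_lhs => rw [← hpi.map_eq]
    exact integral_map hpi.measurable.aemeasurable hcont.aestronglyMeasurable
  rw [h1]
  refine integral_congr_ae (Filter.Eventually.of_forall fun v => ?_)
  simp only [hf, real_inner_smul_left]

/-- Lower bound for one sign vector. -/
private lemma low {X : Type} [NormedAddCommGroup X] [NormedSpace ℝ X] {m : ℕ} (x : Fin m → X)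
    [IsProbabilityMeasure (ballM k)] (hb : ∀ᵐ v ∂(ballM k), ‖v‖ ≤ 1) (e : Eu k) (he : ‖e‖ = 1)
    (s : Fin m → Bool) :
    (∫ v, |⟪v, e⟫| ∂(ballM k)) * ‖∑ i, sg (s i) • x i‖ ≤
      ∫ v : Fin m → Eu k, ‖∑ i, (sg (s i) * |⟪v i, e⟫|) • x i‖ ∂(Measure.pi fun _ => ballM k) := by
  obtain ⟨g, hg1, hg2⟩ := exists_dual_vector'' ℝ (∑ i, sg (s i) • x i)
  have hint : ∀ i, Integrable (fun v : Fin m → Eu k => |⟪v i, e⟫|) (Measure.pi fun _ => ballM k) := fun i =>
    integrable_comp_eval (μ := fun _ : Fin m => ballM k) (i := i) (f := fun v => |⟪v, e⟫|) (intabs hb e he)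
  have hev : ∀ i, ∫ v : Fin m → Eu k, |⟪v i, e⟫| ∂(Measure.pi fun _ => ballM k) =
      ∫ v, |⟪v, e⟫| ∂(ballM k) := fun i =>
    integral_comp_eval (μ := fun _ : Fin m => ballM k) (i := i) (f := fun v => |⟪v, e⟫|)
      (intabs hb e he).aestronglyMeasurable
  have h1 : ∫ v : Fin m → Eu k, ∑ i, (sg (s i) * g (x i)) * |⟪v i, e⟫| ∂(Measure.pi fun _ => ballM k) =
      (∫ v, |⟪v, e⟫| ∂(ballM k)) * ‖∑ i, sg (s i) • x i‖ := by
    rw [integral_finsetSum _ fun i _ => (hint i).const_mul _]
    simp_rw [integral_const_mul, hev]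
    rw [← Finset.sum_mul, mul_comm]
    congr 1
    rw [map_sum] at hg2
    simp only [map_smul, smul_eq_mul, RCLike.ofReal_real_eq_id, id_eq] at hg2
    exact hg2
  rw [← h1]
  refine integral_mono (integrable_finsetSum _ fun i _ => (hint i).const_mul _)
    (integ x hb e he (fun i t => sg (s i) * |t|) (fun i => by fun_prop) ?_) ?_
  · intro i t
    rw [abs_mul, sg_abs, one_mul, abs_abs]
  · intro v
    have h2 : g (∑ i, (sg (s i) * |⟪v i, e⟫|) • x i) = ∑ i, (sg (s i) * g (x i)) * |⟪v i, e⟫| := by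
      rw [map_sum]
      refine Finset.sum_congr rfl fun i _ => ?_
      rw [map_smul, smul_eq_mul]; ring
    change ∑ i, (sg (s i) * g (x i)) * |⟪v i, e⟫| ≤ ‖∑ i, (sg (s i) * |⟪v i, e⟫|) • x i‖
    rw [← h2]
    refine (le_abs_self _).trans ?_
    rw [← Real.norm_eq_abs]
    refine (g.le_opNorm _).trans ?_
    nlinarith [norm_nonneg (∑ i, (sg (s i) * |⟪v i, e⟫|) • x i)]

/-- Pointwise: the average over the signs does not see the signs of the coefficients. -/
private lemma xorsum {X : Type} [NormedAddCommGroup X] [NormedSpace ℝ X] {m : ℕ} (x : Fin m → X)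
    (t : Fin m → ℝ) :
    ∑ s : Fin m → Bool, ‖∑ i, (sg (s i) * t i) • x i‖ = ∑ s : Fin m → Bool, ‖∑ i, (sg (s i) * |t i|) • x i‖ := by
  classical
  refine Fintype.sum_equiv
    (Equiv.piCongrRight fun i => if 0 ≤ t i then Equiv.refl Bool else Equiv.boolNot) _ _ fun s => ?_
  congr 1
  refine Finset.sum_congr rfl fun i _ => ?_
  congr 1
  simp only [Equiv.piCongrRight_apply, Pi.map_apply]
  split_ifs with h
  · rw [abs_of_nonneg h]; rfl
  · rw [abs_of_neg (not_le.mp h)]
    cases s i <;> simp [sg]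

end RC

theorem pRC (hBM : StBM) : StRC := by
  obtain ⟨hP, hR, hb, -, hc⟩ := hBM
  intro k _
  obtain ⟨c, hc0, hc⟩ := hc k
  refine ⟨1 / c, by positivity, ?_⟩
  intro X _ _ m x e he
  have := hP k
  have h1 : ∀ s : Fin m → Bool, Integrable
      (fun v : Fin m → Eu k => ‖∑ i, (sg (s i) * ⟪v i, e⟫) • x i‖) (Measure.pi fun _ => ballM k) := fun s =>
    RC.integ x (hb k) e he (fun i t => sg (s i) * t) (fun i => by fun_prop) fun i t => by
      rw [abs_mul, RC.sg_abs, one_mul]
  have h2 : ∀ s : Fin m → Bool, Integrable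
      (fun v : Fin m → Eu k => ‖∑ i, (sg (s i) * |⟪v i, e⟫|) • x i‖) (Measure.pi fun _ => ballM k) := fun s =>
    RC.integ x (hb k) e he (fun i t => sg (s i) * |t|) (fun i => by fun_prop) fun i t => by
      rw [abs_mul, RC.sg_abs, one_mul, abs_abs]
  set A := ∫ v : Fin m → Eu k, ‖∑ i, ⟪v i, e⟫ • x i‖ ∂(Measure.pi fun _ => ballM k) with hA
  have h3 : (2 : ℝ) ^ m * A = ∑ s : Fin m → Bool,
      ∫ v : Fin m → Eu k, ‖∑ i, (sg (s i) * |⟪v i, e⟫|) • x i‖ ∂(Measure.pi fun _ => ballM k) := by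
    rw [← integral_finsetSum _ fun s _ => h2 s]
    simp_rw [← RC.xorsum]
    rw [integral_finsetSum _ fun s _ => h1 s]
    simp_rw [← RC.sym x (hR k) e, ← hA]
    simp
  have h4 : c * ∑ s : Fin m → Bool, ‖∑ i, sg (s i) • x i‖ ≤ (2 : ℝ) ^ m * A := by
    rw [h3, Finset.mul_sum]
    refine Finset.sum_le_sum fun s _ => ?_
    refine le_trans ?_ (RC.low x (hb k) e he s)
    exact mul_le_mul_of_nonneg_right (hc e he) (norm_nonneg _)
  unfold radAvg
  rw [Fintype.card_fin, div_le_iff₀ (by positivity), mul_comm (1 / c) A, mul_assoc, one_div,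
    ← div_eq_inv_mul, ← mul_div_assoc, le_div_iff₀ hc0, mul_comm _ c]
  linarith

end DV
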