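import Pool.Agent.Helper53.DV.St

/-! # DV project: module TD -/

set_option autoImplicit false

open scoped BigOperators

namespace DV

namespace TD

private theorem mono {k : ℕ} {ε ε' : ℝ} (h : ε ≤ ε') {X : Type} [NormedAddCommGroup X]
    [NormedSpace ℝ X] (hE : HasEu k ε X) : HasEu k ε' X := by
  obtain ⟨T, hT⟩ := hE
  refine ⟨T, fun z => ⟨(hT z).1, (hT z).2.trans ?_⟩⟩
  exact mul_le_mul_of_nonneg_right (by linarith) (norm_nonneg _)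

/-- from almost isometric on the sphere to `HasEu` -/
private theorem scale {k : ℕ} {ε : ℝ} (h0 : 0 < ε) (h1 : ε ≤ 1 / 2) {X : Type} [NormedAddCommGroup X]
    [NormedSpace ℝ X] (R : Eu k →ₗ[ℝ] X) (hR : ∀ x : Eu k, ‖x‖ = 1 → |‖R x‖ - 1| ≤ ε / 4) :
    HasEu k ε X := by
  have hp : 0 < 1 - ε / 4 := by linarith
  refine ⟨(1 - ε / 4)⁻¹ • R, fun z => ?_⟩
  have hz : (1 - ε / 4) * ‖z‖ ≤ ‖R z‖ ∧ ‖R z‖ ≤ (1 + ε / 4) * ‖z‖ := by
    by_cases h : z = 0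
    · subst h; simp
    · have hn : 0 < ‖z‖ := norm_pos_iff.2 h
      have hx : ‖(‖z‖)⁻¹ • z‖ = 1 := by
        rw [norm_smul, norm_inv, norm_norm, inv_mul_cancel₀ hn.ne']
      have h2 := hR _ hx
      rw [map_smul, norm_smul, norm_inv, norm_norm, abs_le] at h2
      have h3 : ‖R z‖ = ‖z‖ * ((‖z‖)⁻¹ * ‖R z‖) := by
        rw [← mul_assoc, mul_inv_cancel₀ hn.ne', one_mul]
      constructor
      · rw [h3, mul_comm (1 - ε / 4)]
        exact mul_le_mul_of_nonneg_left (by linarith [h2.1]) hn.le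
      · rw [h3, mul_comm (1 + ε / 4)]
        exact mul_le_mul_of_nonneg_left (by linarith [h2.2]) hn.le
  rw [LinearMap.smul_apply, norm_smul, norm_inv, Real.norm_of_nonneg hp.le]
  constructor
  · rw [← div_eq_inv_mul, le_div_iff₀ hp]
    linarith [hz.1]
  · rw [← div_eq_inv_mul, div_le_iff₀ hp]
    have h4 : 0 ≤ ‖z‖ := norm_nonneg _
    have h5 : 1 + ε / 4 ≤ (1 + ε) * (1 - ε / 4) := by nlinarith
    calc ‖R z‖ ≤ (1 + ε / 4) * ‖z‖ := hz.2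
      _ ≤ ((1 + ε) * (1 - ε / 4)) * ‖z‖ := mul_le_mul_of_nonneg_right h5 h4
      _ = (1 + ε) * ‖z‖ * (1 - ε / 4) := by ring

/-- the computation -/
private theorem ana (c1 C1 C2 M ε : ℝ) (hc1 : 0 < c1) (hc11 : c1 ≤ 1) (hC1 : 0 < C1) (hC2 : 0 < C2)
    (hM : M = 4 * C1 + 4) (hε : 0 < ε) (h8 : ε ≤ 1 / 8) (hεM : ε ≤ 1 / M) :
    0 < c1 * ((ε / M) / Real.log (1 / (ε / M))) ^ (2 / 3 : ℝ) ∧
    c1 * ((ε / M) / Real.log (1 / (ε / M))) ^ (2 / 3 : ℝ) ≤ 1 / 2 ∧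
    C2 * Real.log (1 / ε) * Real.log ((⌈(1 / (ε / M)) ^ C1⌉₊ + 2 : ℕ) : ℝ) /
      (c1 * ((ε / M) / Real.log (1 / (ε / M))) ^ (2 / 3 : ℝ)) ≤
    (C2 * (2 + 2 * C1) * (2 * M) / c1) * ε ^ (-(2 / 3 : ℝ)) * Real.log (1 / ε) ^ 3 := by
  have hM4 : 4 ≤ M := by rw [hM]; linarith
  have hM0 : 0 < M := by linarith
  obtain ⟨ℓ, hℓ⟩ : ∃ ℓ : ℝ, ℓ = Real.log (1 / ε) := ⟨_, rfl⟩
  obtain ⟨e', he'⟩ : ∃ e' : ℝ, e' = ε / M := ⟨_, rfl⟩
  obtain ⟨ℓ', hℓ'⟩ : ∃ ℓ' : ℝ, ℓ' = Real.log (1 / e') := ⟨_, rfl⟩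
  have he'0 : 0 < e' := by rw [he']; positivity
  have hinv : (8 : ℝ) ≤ 1 / ε := by
    rw [le_div_iff₀ hε]
    linarith
  have hℓ1 : 1 ≤ ℓ := by
    rw [hℓ, Real.le_log_iff_exp_le (by positivity)]
    refine le_trans ?_ hinv
    have := Real.exp_one_lt_d9
    linarith
  have hℓ0 : 0 < ℓ := by linarith
  have he'e : 1 / e' = (1 / ε) * M := by rw [he']; field_simp
  have hMinv : M ≤ 1 / ε := by
    rw [le_div_iff₀ hε]
    rw [le_div_iff₀ hM0] at hεM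
    linarith
  have hℓℓ : ℓ' = ℓ + Real.log M := by
    rw [hℓ', he'e, Real.log_mul (by positivity) (by positivity), hℓ]
  have hlM : Real.log M ≤ ℓ := by rw [hℓ]; exact Real.log_le_log hM0 hMinv
  have hlM0 : 0 ≤ Real.log M := Real.log_nonneg (by linarith)
  have hℓ'2 : ℓ' ≤ 2 * ℓ := by linarith
  have hℓ'1 : 1 ≤ ℓ' := by linarith
  have hℓ'0 : 0 < ℓ' := by linarith
  have he'8 : e' ≤ 1 / 8 := by
    rw [he', div_le_iff₀ hM0]
    linarith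
  rw [← he', ← hℓ', ← hℓ]
  obtain ⟨η, hη⟩ : ∃ η : ℝ, η = c1 * (e' / ℓ') ^ (2 / 3 : ℝ) := ⟨_, rfl⟩
  have hη0 : 0 < η := by rw [hη]; positivity
  rw [← hη]
  refine ⟨hη0, ?_, ?_⟩
  · rw [hη]
    have h1 : (e' / ℓ') ^ (2 / 3 : ℝ) ≤ (1 / 8 : ℝ) ^ (2 / 3 : ℝ) := by
      refine Real.rpow_le_rpow (by positivity) ?_ (by norm_num)
      exact (div_le_self he'0.le hℓ'1).trans he'8
    have h2 : (1 / 8 : ℝ) ^ (2 / 3 : ℝ) = 1 / 4 := by
      have : (1 / 8 : ℝ) = (1 / 2 : ℝ) ^ (3 : ℝ) := by norm_num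
      rw [this, ← Real.rpow_mul (by norm_num)]
      norm_num
    rw [h2] at h1
    have h3 : 0 < (e' / ℓ') ^ (2 / 3 : ℝ) := by positivity
    nlinarith
  · -- the logarithm of `L`
    have hone : 1 ≤ (1 / e') ^ C1 := by
      refine Real.one_le_rpow ?_ hC1.le
      rw [le_div_iff₀ he'0]
      linarith
    have hL : Real.log ((⌈(1 / e') ^ C1⌉₊ + 2 : ℕ) : ℝ) ≤ (2 + 2 * C1) * ℓ := by
      have h1 : ((⌈(1 / e') ^ C1⌉₊ + 2 : ℕ) : ℝ) ≤ 4 * (1 / e') ^ C1 := by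
        push_cast
        have := Nat.ceil_lt_add_one (a := (1 / e') ^ C1) (by positivity)
        linarith
      have h2 : Real.log ((⌈(1 / e') ^ C1⌉₊ + 2 : ℕ) : ℝ) ≤ Real.log (4 * (1 / e') ^ C1) :=
        Real.log_le_log (by positivity) h1
      rw [Real.log_mul (by norm_num) (by positivity), Real.log_rpow (by positivity), ← hℓ'] at h2
      have h3 : Real.log 4 ≤ 2 := by
        have : (4 : ℝ) = 2 ^ 2 := by norm_num
        rw [this, Real.log_pow]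
        have := Real.log_two_lt_d9
        push_cast
        linarith
      nlinarith
    have hL0 : 0 ≤ Real.log ((⌈(1 / e') ^ C1⌉₊ + 2 : ℕ) : ℝ) := Real.log_natCast_nonneg _
    -- `1 / η`
    have hηi : 1 / η ≤ 2 * M / c1 * (ℓ * ε ^ (-(2 / 3 : ℝ))) := by
      have h1 : 1 / η = 1 / c1 * (ℓ' / e') ^ (2 / 3 : ℝ) := by
        rw [hη, one_div, mul_inv, ← Real.inv_rpow (by positivity), inv_div, one_div]
      rw [h1]
      have h2 : ℓ' / e' ≤ (2 * M) * (ℓ * (1 / ε)) := by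
        rw [div_eq_mul_one_div, he'e]
        have : ℓ' * (1 / ε * M) ≤ (2 * ℓ) * (1 / ε * M) :=
          mul_le_mul_of_nonneg_right hℓ'2 (by positivity)
        linarith
      have h3 : (ℓ' / e') ^ (2 / 3 : ℝ) ≤ ((2 * M) * (ℓ * (1 / ε))) ^ (2 / 3 : ℝ) :=
        Real.rpow_le_rpow (by positivity) h2 (by norm_num)
      have h4 : ((2 * M) * (ℓ * (1 / ε))) ^ (2 / 3 : ℝ) =
          (2 * M) ^ (2 / 3 : ℝ) * (ℓ ^ (2 / 3 : ℝ) * ε ^ (-(2 / 3 : ℝ))) := by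
        rw [Real.mul_rpow (x := 2 * M) (y := ℓ * (1 / ε)) (by positivity) (by positivity),
          Real.mul_rpow (x := ℓ) (y := 1 / ε) (by positivity) (by positivity),
          one_div, Real.inv_rpow hε.le, Real.rpow_neg hε.le]
      have h5 : (2 * M) ^ (2 / 3 : ℝ) ≤ 2 * M := by
        calc (2 * M) ^ (2 / 3 : ℝ) ≤ (2 * M) ^ (1 : ℝ) :=
              Real.rpow_le_rpow_of_exponent_le (by linarith) (by norm_num)
          _ = 2 * M := Real.rpow_one _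
      have h6 : ℓ ^ (2 / 3 : ℝ) ≤ ℓ := by
        calc ℓ ^ (2 / 3 : ℝ) ≤ ℓ ^ (1 : ℝ) :=
              Real.rpow_le_rpow_of_exponent_le hℓ1 (by norm_num)
          _ = ℓ := Real.rpow_one _
      have h7 : 0 < ε ^ (-(2 / 3 : ℝ)) := by positivity
      have h8 : (ℓ' / e') ^ (2 / 3 : ℝ) ≤ 2 * M * (ℓ * ε ^ (-(2 / 3 : ℝ))) := by
        refine h3.trans ?_
        rw [h4]
        exact mul_le_mul h5 (mul_le_mul_of_nonneg_right h6 h7.le) (by positivity) (by positivity)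
      calc 1 / c1 * (ℓ' / e') ^ (2 / 3 : ℝ) ≤ 1 / c1 * (2 * M * (ℓ * ε ^ (-(2 / 3 : ℝ)))) :=
            mul_le_mul_of_nonneg_left h8 (by positivity)
        _ = 2 * M / c1 * (ℓ * ε ^ (-(2 / 3 : ℝ))) := by ring
    calc C2 * ℓ * Real.log ((⌈(1 / e') ^ C1⌉₊ + 2 : ℕ) : ℝ) / η =
          C2 * ℓ * Real.log ((⌈(1 / e') ^ C1⌉₊ + 2 : ℕ) : ℝ) * (1 / η) := by ring
      _ ≤ C2 * ℓ * ((2 + 2 * C1) * ℓ) * (2 * M / c1 * (ℓ * ε ^ (-(2 / 3 : ℝ)))) := by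
          refine mul_le_mul ?_ hηi (by positivity) (by positivity)
          exact mul_le_mul_of_nonneg_left hL (by positivity)
      _ = (C2 * (2 + 2 * C1) * (2 * M) / c1) * ε ^ (-(2 / 3 : ℝ)) * ℓ ^ 3 := by ring

end TD

open TD in
theorem pTD (hFS : StFS) (hCo : StCore) : StTD := by
  intro k hk
  obtain ⟨d, rfl⟩ : ∃ d, k = d + 1 := ⟨k - 1, by omega⟩
  obtain ⟨c1, C1, hc1, hc11, hC1, HC⟩ := hCo d
  obtain ⟨C2, hC2, HF⟩ := hFS (d + 1) (by omega)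
  obtain ⟨M, hM⟩ : ∃ M : ℝ, M = 4 * C1 + 4 := ⟨_, rfl⟩
  have hM4 : 4 ≤ M := by rw [hM]; linarith
  have hM0 : 0 < M := by linarith
  obtain ⟨C0, hC0⟩ : ∃ C0 : ℝ, C0 = C2 * (2 + 2 * C1) * (2 * M) / c1 := ⟨_, rfl⟩
  have hC0p : 0 < C0 := by rw [hC0]; positivity
  obtain ⟨ε0, hε0⟩ : ∃ ε0 : ℝ, ε0 = min c1 (min (1 / 8) (1 / M)) := ⟨_, rfl⟩
  have hε0p : 0 < ε0 := by rw [hε0]; exact lt_min hc1 (lt_min (by norm_num) (by positivity))
  have hε0c : ε0 ≤ c1 := by rw [hε0]; exact min_le_left _ _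
  have hε08 : ε0 ≤ 1 / 8 := by rw [hε0]; exact (min_le_right _ _).trans (min_le_left _ _)
  have hε0M : ε0 ≤ 1 / M := by rw [hε0]; exact (min_le_right _ _).trans (min_le_right _ _)
  -- small `ε`
  have main : ∀ ε : ℝ, 0 < ε → ε ≤ ε0 → ∀ (X : Type) [NormedAddCommGroup X] [NormedSpace ℝ X]
      [FiniteDimensional ℝ X],
      Real.exp (C0 * ε ^ (-(2 / 3 : ℝ)) * Real.log (1 / ε) ^ 3) ≤ Module.finrank ℝ X →
        HasEu (d + 1) ε X := by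
    intro ε hε hεε X _ _ _ hX
    have h8 : ε ≤ 1 / 8 := hεε.trans hε08
    have h2 : ε ≤ 1 / 2 := h8.trans (by norm_num)
    obtain ⟨hη0, hη2, hexp⟩ := ana c1 C1 C2 M ε hc1 hc11 hC1 hC2 hM hε h8 (hεε.trans hε0M)
    rw [← hC0] at hexp
    have h3 := (Real.exp_le_exp.2 hexp).trans hX
    rcases HF ε _ hε h2 hη0 hη2 (⌈(1 / (ε / M)) ^ C1⌉₊ + 2) (by omega) X h3 with h | ⟨S, hS⟩
    · exact h
    · have he'0 : 0 < ε / M := by positivity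
      have he'c : ε / M ≤ c1 := by
        have : ε / M ≤ ε := div_le_self hε.le (by linarith)
        linarith
      obtain ⟨T, hT⟩ := HC (ε / M) he'0 he'c (⌈(1 / (ε / M)) ^ C1⌉₊ + 2)
        (by push_cast; have := Nat.le_ceil ((1 / (ε / M)) ^ C1); linarith)
        ((normSeminorm ℝ X).comp S) (fun y => hS y)
      refine scale hε h2 (S ∘ₗ T) fun x hx => ?_
      have h4 := hT x hx
      have h5 : ((normSeminorm ℝ X).comp S) (T x) = ‖(S ∘ₗ T) x‖ := rfl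
      rw [h5] at h4
      refine h4.trans ?_
      rw [hM, mul_div_assoc', div_le_iff₀ (by linarith)]
      nlinarith
  -- all `ε`
  obtain ⟨K0, hK0⟩ : ∃ K0 : ℝ, K0 = C0 * ε0 ^ (-(2 / 3 : ℝ)) * Real.log (1 / ε0) ^ 3 := ⟨_, rfl⟩
  have hK0n : 0 ≤ K0 := by
    rw [hK0]
    have : 0 ≤ Real.log (1 / ε0) := by
      refine Real.log_nonneg ?_
      rw [le_div_iff₀ hε0p]
      linarith
    positivity
  refine ⟨C0 + 4 * K0, by linarith, ?_⟩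
  intro ε hε hε2 X _ _ _ hX
  have hl2 : (0.69 : ℝ) ≤ Real.log (1 / ε) := by
    have h1 : Real.log 2 ≤ Real.log (1 / ε) := by
      refine Real.log_le_log (by norm_num) ?_
      rw [le_div_iff₀ hε]
      linarith
    have := Real.log_two_gt_d9
    linarith
  have hlog3 : (0.3 : ℝ) ≤ Real.log (1 / ε) ^ 3 := by
    calc (0.3 : ℝ) ≤ 0.69 ^ 3 := by norm_num
      _ ≤ Real.log (1 / ε) ^ 3 := pow_le_pow_left₀ (by norm_num) hl2 3
  have hpow : 1 ≤ ε ^ (-(2 / 3 : ℝ)) :=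
    Real.one_le_rpow_of_pos_of_le_one_of_nonpos hε (by linarith) (by norm_num)
  have hprod : (0.3 : ℝ) ≤ ε ^ (-(2 / 3 : ℝ)) * Real.log (1 / ε) ^ 3 := by nlinarith
  by_cases hc : ε ≤ ε0
  · refine main ε hε hc X (le_trans (Real.exp_le_exp.2 ?_) hX)
    have : C0 * (ε ^ (-(2 / 3 : ℝ)) * Real.log (1 / ε) ^ 3) ≤
        (C0 + 4 * K0) * (ε ^ (-(2 / 3 : ℝ)) * Real.log (1 / ε) ^ 3) :=
      mul_le_mul_of_nonneg_right (by linarith) (by linarith)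
    linarith
  · push Not at hc
    refine mono hc.le (main ε0 hε0p le_rfl X (le_trans (Real.exp_le_exp.2 ?_) hX))
    rw [← hK0]
    have h1 : (C0 + 4 * K0) * 0.3 ≤
        (C0 + 4 * K0) * (ε ^ (-(2 / 3 : ℝ)) * Real.log (1 / ε) ^ 3) :=
      mul_le_mul_of_nonneg_left hprod (by linarith)
    linarith

end DV
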