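import Pool.Agent.Helper53.DV.St

/-!
# DV project, module TO: homomorphisms of `ZMod P` to the torus with dense image
-/

set_option autoImplicit false

open scoped BigOperators

namespace DV

namespace TO

/-- the representative modulo `16` in `[-8, 8)` -/
noncomputable def rep (y : ℝ) : ℝ := toIcoMod (by norm_num : (0 : ℝ) < 16) (-8) y

theorem rep_ge (y : ℝ) : -8 ≤ rep y := left_le_toIcoMod _ _ _

theorem rep_lt (y : ℝ) : rep y < 8 := by
  have h := toIcoMod_lt_right (by norm_num : (0 : ℝ) < 16) (-8) y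
  unfold rep
  linarith

theorem rep_cong (y : ℝ) : ∃ k : ℤ, rep y = y - 16 * k := by
  refine ⟨toIcoDiv (by norm_num : (0 : ℝ) < 16) (-8) y, ?_⟩
  have h := self_sub_toIcoDiv_zsmul (by norm_num : (0 : ℝ) < 16) (-8) y
  unfold rep
  rw [← h, zsmul_eq_mul]
  ring

theorem eq_of_cong {u v : ℝ} (k : ℤ) (h : u = v + 16 * k) (h1 : |u - v| < 16) : u = v := by
  have h2 : k = 0 := by
    rw [h, abs_lt] at h1
    have h3 : (-1 : ℝ) < k := by linarith [h1.1]
    have h4 : (k : ℝ) < 1 := by linarith [h1.2]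
    have h5 : (-1 : ℤ) < k := by exact_mod_cast h3
    have h6 : k < 1 := by exact_mod_cast h4
    omega
  rw [h, h2]
  simp

theorem rep_eq {y z : ℝ} (k : ℤ) (h : z = y + 16 * k) (h1 : -8 ≤ z) (h2 : z < 8) : rep y = z := by
  obtain ⟨m, hm⟩ := rep_cong y
  apply eq_of_cong (-m - k)
  · rw [hm, h]
    push_cast
    ring
  · have h3 := rep_ge y
    have h4 := rep_lt y
    rw [abs_lt]
    constructor <;> linarith

/-- simultaneous approximation in base `Q` -/
theorem digits (Q : ℕ) (hQ : 2 ≤ Q) (D : ℕ) : ∀ x : ℕ → ℝ, ∃ β : ℝ, 0 ≤ β ∧ β < 1 ∧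
    ∀ a < D, ∃ k : ℤ, |β * (Q : ℝ) ^ a - k - x a| ≤ 1 / Q := by
  have hQ0 : (0 : ℝ) < Q := by
    have : 0 < Q := by omega
    exact_mod_cast this
  induction D with
  | zero =>
    intro x
    exact ⟨0, le_refl _, by norm_num, fun a ha => absurd ha (by omega)⟩
  | succ D ih =>
    intro x
    obtain ⟨β', h0, h1, hk⟩ := ih (fun a => x (a + 1))
    set y : ℝ := Int.fract (x 0) with hy
    have hy0 : 0 ≤ y := Int.fract_nonneg _
    have hy1 : y < 1 := Int.fract_lt_one _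
    set d : ℤ := ⌊(Q : ℝ) * y⌋ with hd
    have hd0 : 0 ≤ d := Int.floor_nonneg.2 (by positivity)
    have hd1 : d < Q := by
      rw [hd, Int.floor_lt]
      push_cast
      nlinarith
    have hd2 : (d : ℝ) ≤ Q * y := Int.floor_le _
    have hd3 : (Q : ℝ) * y < d + 1 := Int.lt_floor_add_one _
    have hd0' : (0 : ℝ) ≤ d := by exact_mod_cast hd0
    have hd1' : (d : ℝ) + 1 ≤ Q := by
      have : d + 1 ≤ (Q : ℤ) := by omega
      exact_mod_cast this
    refine ⟨(d + β') / Q, by positivity, ?_, ?_⟩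
    · rw [div_lt_one hQ0]
      linarith
    · intro a ha
      rcases a with _ | a
      · refine ⟨-⌊x 0⌋, ?_⟩
        have h2 : x 0 = ⌊x 0⌋ + y := by rw [hy]; exact (Int.floor_add_fract _).symm
        have h3 : (d + β') / Q * (Q : ℝ) ^ 0 - ((-⌊x 0⌋ : ℤ) : ℝ) - x 0 = (d + β' - Q * y) / Q := by
          rw [pow_zero]
          push_cast
          field_simp
          linear_combination -(Q : ℝ) * h2
        rw [h3, abs_div, abs_of_pos hQ0]
        apply div_le_div_of_nonneg_right _ hQ0.le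
        rw [abs_le]
        constructor <;> linarith
      · obtain ⟨k, hk'⟩ := hk a (by omega)
        refine ⟨d * (Q : ℤ) ^ a + k, ?_⟩
        have h3 : (d + β') / Q * (Q : ℝ) ^ (a + 1) - ((d * (Q : ℤ) ^ a + k : ℤ) : ℝ) - x (a + 1) =
            β' * (Q : ℝ) ^ a - k - x (a + 1) := by
          push_cast
          rw [pow_succ]
          field_simp
          ring
        rw [h3]
        exact hk'

end TO

open TO in
/-- MODULE TO. -/
theorem pTO : StTO := by
  intro ι _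
  refine ⟨130, by norm_num, ?_⟩
  intro δ hδ0 hδ1
  set D : ℕ := Fintype.card ι with hD
  let e : ι ≃ Fin D := Fintype.equivFin ι
  set Q : ℕ := ⌈64 / δ⌉₊ with hQ
  have hQ1 : 64 / δ ≤ Q := Nat.le_ceil _
  have hQ2 : (Q : ℝ) < 64 / δ + 1 := Nat.ceil_lt_add_one (by positivity)
  have h64 : 64 ≤ 64 / δ := by
    rw [le_div_iff₀ hδ0]
    linarith
  have hQ3 : (64 : ℝ) ≤ Q := le_trans h64 hQ1
  have hQ4 : 64 ≤ Q := by exact_mod_cast hQ3
  have hQ0 : (0 : ℝ) < Q := by linarith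
  have hQ5 : (Q : ℝ) ≤ 65 / δ := by
    have : 1 ≤ 1 / δ := by
      rw [le_div_iff₀ hδ0]
      linarith
    have h2 : 65 / δ = 64 / δ + 1 / δ := by ring
    linarith
  have hQ6 : 32 / (Q : ℝ) ≤ δ / 2 := by
    rw [div_le_iff₀ hQ0]
    rw [div_le_iff₀ hδ0] at hQ1
    linarith
  obtain ⟨P, hP, hP1, hP2⟩ := Nat.exists_prime_lt_and_le_two_mul (Q ^ D) (pow_ne_zero _ (by omega))
  have : Fact P.Prime := ⟨hP⟩
  have hP0 : (0 : ℝ) < P := by exact_mod_cast hP.pos
  have hP1' : (Q : ℝ) ^ D < P := by exact_mod_cast hP1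
  refine ⟨P, hP, ?_, ?_⟩
  · calc (P : ℝ) ≤ 2 * (Q : ℝ) ^ D := by exact_mod_cast hP2
      _ ≤ 2 * (65 / δ) ^ D := by
          have := pow_le_pow_left₀ hQ0.le hQ5 D
          linarith
      _ ≤ (130 / δ) * (130 / δ) ^ D := by
          have h1 : (65 / δ) ^ D ≤ (130 / δ) ^ D :=
            pow_le_pow_left₀ (by positivity) (div_le_div_of_nonneg_right (by norm_num) hδ0.le) D
          have h2 : 2 ≤ 130 / δ := by
            rw [le_div_iff₀ hδ0]
            linarith
          have h3 : 0 ≤ (65 / δ) ^ D := by positivity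
          nlinarith
      _ = (130 / δ) ^ (D + 1) := by ring
  -- the homomorphism
  let y : ZMod P → ι → ℝ := fun n i => 16 * (n.val : ℝ) * (Q : ℝ) ^ (e i : ℕ) / P
  have hadd : ∀ (n n' : ZMod P) (i : ι), ∃ k : ℤ, y (n + n') i = y n i + y n' i + 16 * k := by
    intro n n' i
    refine ⟨-((((n.val + n'.val) / P * Q ^ (e i : ℕ) : ℕ)) : ℤ), ?_⟩
    have h1 : (n + n').val + P * ((n.val + n'.val) / P) = n.val + n'.val := by
      rw [ZMod.val_add]
      exact Nat.mod_add_div _ _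
    have h2 : ((n + n').val : ℝ) + P * (((n.val + n'.val) / P : ℕ) : ℝ) = n.val + n'.val := by
      exact_mod_cast h1
    show 16 * ((n + n').val : ℝ) * (Q : ℝ) ^ (e i : ℕ) / P = 16 * (n.val : ℝ) * (Q : ℝ) ^ (e i : ℕ) / P +
      16 * (n'.val : ℝ) * (Q : ℝ) ^ (e i : ℕ) / P + 16 * ((-((((n.val + n'.val) / P * Q ^ (e i : ℕ) : ℕ)) : ℤ) : ℤ) : ℝ)
    rw [Int.cast_neg, Int.cast_natCast, Nat.cast_mul, Nat.cast_pow]
    field_simp
    linear_combination h2
  have hadd' : ∀ (n n' : ZMod P) (i : ι), ∃ k : ℤ, rep (y (n + n') i) = rep (y n i) + rep (y n' i) + 16 * k := by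
    intro n n' i
    obtain ⟨k, hk⟩ := hadd n n' i
    obtain ⟨k1, hk1⟩ := rep_cong (y (n + n') i)
    obtain ⟨k2, hk2⟩ := rep_cong (y n i)
    obtain ⟨k3, hk3⟩ := rep_cong (y n' i)
    refine ⟨k - k1 + k2 + k3, ?_⟩
    push_cast
    linear_combination hk + hk1 - hk2 - hk3
  have hzero : ∀ i : ι, rep (y 0 i) = 0 := by
    intro i
    apply rep_eq 0 _ (by norm_num) (by norm_num)
    show (0 : ℝ) = 16 * (((0 : ZMod P).val : ℕ) : ℝ) * (Q : ℝ) ^ (e i : ℕ) / P + 16 * ((0 : ℤ) : ℝ)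
    rw [ZMod.val_zero]
    simp
  have habs : ∀ z : ℝ, |rep z| ≤ 8 := fun z => abs_le.2 ⟨rep_ge z, (rep_lt z).le⟩
  refine ⟨fun n i => rep (y n i), hzero, fun n i => habs _, ?_, ?_, ?_⟩
  · intro n n' i h
    obtain ⟨k, hk⟩ := hadd' n n' i
    apply eq_of_cong k hk
    have h1 := habs (y (n + n') i)
    have h2 := abs_add_le (rep (y n i)) (rep (y n' i))
    calc |rep (y (n + n') i) - (rep (y n i) + rep (y n' i))|
        ≤ |rep (y (n + n') i)| + |rep (y n i) + rep (y n' i)| := abs_sub _ _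
      _ < 16 := by linarith
  · intro n i h
    obtain ⟨k, hk⟩ := hadd' (-n) n i
    rw [neg_add_cancel, hzero] at hk
    apply eq_of_cong (-k)
    · push_cast
      linear_combination -hk
    · have h1 := habs (y (-n) i)
      calc |rep (y (-n) i) - -rep (y n i)| ≤ |rep (y (-n) i)| + |-rep (y n i)| := abs_sub _ _
        _ = |rep (y (-n) i)| + |rep (y n i)| := by rw [abs_neg]
        _ < 16 := by linarith
  · intro θ hθ
    obtain ⟨β, hβ0, hβ1, hβ⟩ := digits Q (by omega) D (fun a => if h : a < D then θ (e.symm ⟨a, h⟩) / 16 else 0)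
    have hn : ⌊β * P⌋₊ < P := by
      rw [Nat.floor_lt (by positivity)]
      nlinarith
    have hval : ((⌊β * P⌋₊ : ℕ) : ZMod P).val = ⌊β * P⌋₊ := ZMod.val_natCast_of_lt hn
    have hn1 : ((⌊β * P⌋₊ : ℕ) : ℝ) ≤ β * P := Nat.floor_le (by positivity)
    have hn2 : β * P < ((⌊β * P⌋₊ : ℕ) : ℝ) + 1 := Nat.lt_floor_add_one _
    refine ⟨((⌊β * P⌋₊ : ℕ) : ZMod P), fun i => ?_⟩
    set n : ℕ := ⌊β * P⌋₊ with hndef
    obtain ⟨k, hk⟩ := hβ (e i : ℕ) (e i).2
    rw [dif_pos (e i).2, Fin.eta, Equiv.symm_apply_apply] at hk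
    set q : ℝ := (Q : ℝ) ^ (e i : ℕ) with hq
    have hq0 : 0 < q := by positivity
    -- `Q ^ a / P ≤ 1 / Q`
    have hqP : q / P ≤ 1 / Q := by
      rw [div_le_div_iff₀ hP0 hQ0, one_mul]
      have h1 : q * Q = (Q : ℝ) ^ ((e i : ℕ) + 1) := by rw [hq, pow_succ]
      rw [h1]
      have h2 : (Q : ℝ) ^ ((e i : ℕ) + 1) ≤ (Q : ℝ) ^ D := pow_le_pow_right₀ (by linarith) (e i).2
      linarith
    have hy : y ((n : ℕ) : ZMod P) i = 16 * (n : ℝ) * q / P := by
      show 16 * ((((n : ℕ) : ZMod P).val : ℕ) : ℝ) * (Q : ℝ) ^ (e i : ℕ) / P = _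
      rw [hval]
    have hdist : |y ((n : ℕ) : ZMod P) i + 16 * ((-k : ℤ) : ℝ) - θ i| ≤ δ / 2 := by
      have h1 : |(n : ℝ) * q / P - β * q| ≤ 1 / Q := by
        have h2 : (n : ℝ) * q / P - β * q = -((β * P - n) * (q / P)) := by
          field_simp
          ring
        rw [h2, abs_neg, abs_of_nonneg (mul_nonneg (by linarith) (by positivity))]
        calc (β * P - n) * (q / P) ≤ 1 * (q / P) := by
              apply mul_le_mul_of_nonneg_right (by linarith) (by positivity)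
          _ ≤ 1 / Q := by rw [one_mul]; exact hqP
      have h3 : y ((n : ℕ) : ZMod P) i + 16 * ((-k : ℤ) : ℝ) - θ i =
          16 * (((n : ℝ) * q / P - β * q) + (β * q - k - θ i / 16)) := by
        rw [hy]
        push_cast
        ring
      rw [h3, abs_mul, abs_of_pos (by norm_num : (0 : ℝ) < 16)]
      have h4 := abs_add_le ((n : ℝ) * q / P - β * q) (β * q - k - θ i / 16)
      have h5 : 32 / (Q : ℝ) = 16 * (1 / Q + 1 / Q) := by ring
      calc 16 * |((n : ℝ) * q / P - β * q) + (β * q - k - θ i / 16)| ≤ 16 * (1 / Q + 1 / Q) := by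
            apply mul_le_mul_of_nonneg_left _ (by norm_num)
            linarith
        _ ≤ δ / 2 := by rw [← h5]; exact hQ6
    have hθ' := abs_le.1 (hθ i)
    have hd := abs_le.1 hdist
    have hrep : rep (y ((n : ℕ) : ZMod P) i) = y ((n : ℕ) : ZMod P) i + 16 * ((-k : ℤ) : ℝ) :=
      rep_eq (-k) rfl (by linarith [hθ'.1, hd.1]) (by linarith [hθ'.2, hd.2])
    show |rep (y ((n : ℕ) : ZMod P) i) - θ i| ≤ δ
    rw [hrep]
    linarith

end DV
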