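import Pool.Agent.Helper53.DV.PBU1
import Pool.Agent.Helper53.DV.PBU2
import Pool.Agent.Helper53.DV.PBU3
import Pool.Agent.Helper53.DV.PBU4
import Pool.Agent.Helper53.DV.PCF
import Pool.Agent.Helper53.DV.PNL
import Pool.Agent.Helper53.DV.PMO
import Pool.Agent.Helper53.DV.PTO
import Pool.Agent.Helper53.DV.PCU
import Pool.Agent.Helper53.DV.PCH1
import Pool.Agent.Helper53.DV.PCH2
import Pool.Agent.Helper53.DV.PCH3
import Pool.Agent.Helper53.DV.PCH4
import Pool.Agent.Helper53.DV.PEN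
import Pool.Agent.Helper53.DV.PNE
import Pool.Agent.Helper53.DV.PPC1
import Pool.Agent.Helper53.DV.PPC2
import Pool.Agent.Helper53.DV.PPC3
import Pool.Agent.Helper53.DV.PPC4
import Pool.Agent.Helper53.DV.PDR1
import Pool.Agent.Helper53.DV.PDR2
import Pool.Agent.Helper53.DV.PES
import Pool.Agent.Helper53.DV.PBM
import Pool.Agent.Helper53.DV.PRE
import Pool.Agent.Helper53.DV.PRC
import Pool.Agent.Helper53.DV.PCP
import Pool.Agent.Helper53.DV.PAM
import Pool.Agent.Helper53.DV.PLS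
import Pool.Agent.Helper53.DV.PJA
import Pool.Agent.Helper53.DV.PFS
import Pool.Agent.Helper53.DV.PTD
import Pool.Agent.Helper53.DV.PFI

/-! DV project: all modules together. -/

set_option autoImplicit false

namespace DV

theorem all : StFI := by
  have hBU4 : StBU4 := pBU4 (pBU3 pBU1 pBU2)
  have hEN : StEN := pEN pCH1 pCH2 pCH3 pCH4
  have hPC3 : StPC3 := pPC3 (pCF hBU4) pTO pCU pNE (pPC1 pCH1) (pPC2 pNL hEN pCH1) (pMO pNL) pCH1
  have hFS : StFS := pFS (pDR2 pDR1) (pRE pES pBM pNE) (pRC pBM) (pAM pCP) pLS pJA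
  exact pFI (pTD hFS (pPC4 hPC3))

end DV
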