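import Mathlib

/-!
# DV project (MP_d684b1_an): Dvoretzky's theorem with `log N(k, ε) ≤ C ε ^ (-2/3) log ^ 3`

Common definitions.
-/

set_option autoImplicit false

open scoped BigOperators

namespace DV

/-! ## Lists chains (Borsuk-Ulam) -/

/-- Augmented ordered chains with coefficients in `ZMod p`: formal combinations of lists. -/
abbrev Ch (p : ℕ) (E : Type*) : Type _ := List E →₀ ZMod p

/-- Put `a` in front of all lists. -/
noncomputable def cone (p : ℕ) {E : Type*} (a : E) : Ch p E →ₗ[ZMod p] Ch p E :=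
  Finsupp.lmapDomain (ZMod p) (ZMod p) (List.cons a)

/-- The boundary of a list: `d [] = 0`, `d (a :: l) = l - a :: d l`. -/
noncomputable def dl (p : ℕ) {E : Type*} : List E → Ch p E
  | [] => 0
  | a :: l => Finsupp.single l 1 - cone p a (dl p l)

/-- The boundary. -/
noncomputable def dd (p : ℕ) {E : Type*} : Ch p E →ₗ[ZMod p] Ch p E :=
  Finsupp.lsum (ZMod p) fun l => LinearMap.toSpanSingleton (ZMod p) (Ch p E) (dl p l)

/-- The chain map of a map of the vertices. -/
noncomputable def mp (p : ℕ) {E F : Type*} (f : E → F) : Ch p E →ₗ[ZMod p] Ch p F :=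
  Finsupp.lmapDomain (ZMod p) (ZMod p) (List.map f)

/-- The alternation of `g - 1` (odd `j`) and of the norm `∑ g ^ i` (even `j`), for an action `g : ZMod p → E → E`. -/
noncomputable def al (p : ℕ) [NeZero p] {E : Type*} (g : ZMod p → E → E) (j : ℕ) : Ch p E →ₗ[ZMod p] Ch p E :=
  if Odd j then mp p (g 1) - LinearMap.id else ∑ k : ZMod p, mp p (g k)

/-- The action of `ZMod p` on labels. -/
def shl {p T : ℕ} (k : ZMod p) (v : ZMod p × Fin T) : ZMod p × Fin T := (v.1 + k, v.2)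

/-- The list of labels contains no full fibre. -/
def NoFib {p T : ℕ} (l : List (ZMod p × Fin T)) : Prop := ∀ a : Fin T, ∃ g : ZMod p, (g, a) ∉ l

/-- `x` is a combination of lists of length `n` with property `P`. -/
def Supp {p : ℕ} {E : Type*} (n : ℕ) (P : List E → Prop) (x : Ch p E) : Prop :=
  ∀ l ∈ x.support, l.length = n ∧ P l

/-! ## Norms and spaces -/

/-- The Euclidean space. -/
abbrev Eu (k : ℕ) : Type := EuclideanSpace ℝ (Fin k)

/-- `Φ` is `(1 + η)`-equivalent to the maximum norm on `ℝ ^ ι`. -/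
def NearMax {ι : Type*} [Fintype ι] (η : ℝ) (Φ : Seminorm ℝ (ι → ℝ)) : Prop :=
  ∀ y : ι → ℝ, ‖y‖ ≤ Φ y ∧ Φ y ≤ (1 + η) * ‖y‖

/-- The space `X` has a `k`-dimensional subspace which is Euclidean up to the factor `1 + ε`. -/
def HasEu (k : ℕ) (ε : ℝ) (X : Type*) [NormedAddCommGroup X] [NormedSpace ℝ X] : Prop :=
  ∃ T : Eu k →ₗ[ℝ] X, ∀ z, ‖z‖ ≤ ‖T z‖ ∧ ‖T z‖ ≤ (1 + ε) * ‖z‖

/-- The system `x` has weak `ℓ_2` norm at most one. -/
def Weak2 {X : Type*} [NormedAddCommGroup X] [NormedSpace ℝ X] {m : ℕ} (x : Fin m → X) : Prop :=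
  ∀ a : Fin m → ℝ, ‖∑ i, a i • x i‖ ≤ Real.sqrt (∑ i, a i ^ 2)

/-- The sign of a Boolean. -/
def sg (b : Bool) : ℝ := if b then 1 else -1

/-- The Rademacher average of the system `x`. -/
noncomputable def radAvg {X : Type*} [NormedAddCommGroup X] [NormedSpace ℝ X] {ι : Type*} [Fintype ι] [DecidableEq ι]
    (x : ι → X) : ℝ :=
  (∑ s : ι → Bool, ‖∑ i, sg (s i) • x i‖) / (2 : ℝ) ^ Fintype.card ι

/-- The uniform probability measure on the unit ball. -/
noncomputable def ballM (k : ℕ) : MeasureTheory.Measure (Eu k) :=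
  (MeasureTheory.volume (Metric.ball (0 : Eu k) 1))⁻¹ • MeasureTheory.volume.restrict (Metric.ball (0 : Eu k) 1)

/-- Charts of the sphere: the chart `s` sends `z ∈ ℝ ^ d` to the unit vector proportional to `z` with `1` inserted at
the place `s`. -/
noncomputable def ev {d : ℕ} (s : Fin (d + 1)) (z : Fin d → ℝ) : Eu (d + 1) :=
  WithLp.toLp 2 (s.insertNth (1 : ℝ) z)

/-- The normalised chart. -/
noncomputable def Ec {d : ℕ} (s : Fin (d + 1)) (z : Fin d → ℝ) : Eu (d + 1) := (‖ev s z‖)⁻¹ • ev s z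

end DV
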