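import Pool.Agent.Helper53.DV.St
import Pool.Agent.Helper53.DV.Api

/-! DV project, module BU1: the combinatorial core of the Borsuk-Ulam theorem. -/

set_option autoImplicit false

open scoped BigOperators

namespace DV

namespace BU1

variable {p : ℕ} {V W : Type}

/-- The relations: alternating chains. -/
noncomputable def Z (p : ℕ) (V : Type) : Submodule (ZMod p) (Ch p V) :=
  Submodule.span (ZMod p)
    ({x | ∃ (l₁ : List V) (a b : V) (l₂ : List V),
        x = Finsupp.single (l₁ ++ a :: b :: l₂) 1 + Finsupp.single (l₁ ++ b :: a :: l₂) 1} ∪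
      {x | ∃ (l₁ : List V) (a : V) (l₂ : List V), x = Finsupp.single (l₁ ++ a :: a :: l₂) 1})

theorem Z_swap (l₁ : List V) (a b : V) (l₂ : List V) :
    (Finsupp.single (l₁ ++ a :: b :: l₂) 1 + Finsupp.single (l₁ ++ b :: a :: l₂) 1 : Ch p V) ∈ Z p V :=
  Submodule.subset_span (Or.inl ⟨l₁, a, b, l₂, rfl⟩)

theorem Z_dup (l₁ : List V) (a : V) (l₂ : List V) :
    (Finsupp.single (l₁ ++ a :: a :: l₂) 1 : Ch p V) ∈ Z p V :=
  Submodule.subset_span (Or.inr ⟨l₁, a, l₂, rfl⟩)

/-- A linear map which sends generators to `M` sends `Z` to `M`. -/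
theorem Z_map {N : Type*} [AddCommGroup N] [Module (ZMod p) N] (f : Ch p V →ₗ[ZMod p] N) (M : Submodule (ZMod p) N)
    (h1 : ∀ (l₁ : List V) (a b : V) (l₂ : List V),
      f (Finsupp.single (l₁ ++ a :: b :: l₂) 1) + f (Finsupp.single (l₁ ++ b :: a :: l₂) 1) ∈ M)
    (h2 : ∀ (l₁ : List V) (a : V) (l₂ : List V), f (Finsupp.single (l₁ ++ a :: a :: l₂) 1) ∈ M) {x : Ch p V}
    (hx : x ∈ Z p V) : f x ∈ M := by
  have h : Z p V ≤ M.comap f := by
    refine Submodule.span_le.2 ?_
    rintro y (⟨l₁, a, b, l₂, rfl⟩ | ⟨l₁, a, l₂, rfl⟩)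
    · rw [SetLike.mem_coe, Submodule.mem_comap, map_add]
      exact h1 l₁ a b l₂
    · exact h2 l₁ a l₂
  exact h hx

theorem Z_cone (a : V) {x : Ch p V} (hx : x ∈ Z p V) : cone p a x ∈ Z p V := by
  refine Z_map (cone p a) (Z p V) (fun l₁ b c l₂ => ?_) (fun l₁ b l₂ => ?_) hx
  · rw [cone_single, cone_single]
    exact Z_swap (a :: l₁) b c l₂
  · rw [cone_single]
    exact Z_dup (a :: l₁) b l₂

theorem Z_mp (f : V → W) {x : Ch p V} (hx : x ∈ Z p V) : mp p f x ∈ Z p W := by
  refine Z_map (mp p f) (Z p W) (fun l₁ b c l₂ => ?_) (fun l₁ b l₂ => ?_) hx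
  · rw [mp_single, mp_single, List.map_append, List.map_append]
    exact Z_swap (l₁.map f) (f b) (f c) (l₂.map f)
  · rw [mp_single, List.map_append]
    exact Z_dup (l₁.map f) (f b) (l₂.map f)

theorem cc_swap (a b : V) (x : Ch p V) : cone p a (cone p b x) + cone p b (cone p a x) ∈ Z p V := by
  induction x using Finsupp.induction_linear with
  | zero => simp
  | add x y hx hy =>
    have : cone p a (cone p b (x + y)) + cone p b (cone p a (x + y)) =
        (cone p a (cone p b x) + cone p b (cone p a x)) + (cone p a (cone p b y) + cone p b (cone p a y)) := by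
      simp only [map_add]; abel
    rw [this]
    exact (Z p V).add_mem hx hy
  | single l c =>
    have : cone p a (cone p b (Finsupp.single l c)) + cone p b (cone p a (Finsupp.single l c)) =
        c • (Finsupp.single ([] ++ a :: b :: l) 1 + Finsupp.single ([] ++ b :: a :: l) 1 : Ch p V) := by
      simp
    rw [this]
    exact (Z p V).smul_mem c (Z_swap [] a b l)

theorem cc_dup (a : V) (x : Ch p V) : cone p a (cone p a x) ∈ Z p V := by
  induction x using Finsupp.induction_linear with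
  | zero => simp
  | add x y hx hy =>
    rw [map_add, map_add]
    exact (Z p V).add_mem hx hy
  | single l c =>
    have : cone p a (cone p a (Finsupp.single l c)) = c • (Finsupp.single ([] ++ a :: a :: l) 1 : Ch p V) := by
      simp
    rw [this]
    exact (Z p V).smul_mem c (Z_dup [] a l)

theorem dl_swap (l₁ : List V) (a b : V) (l₂ : List V) :
    dl p (l₁ ++ a :: b :: l₂) + dl p (l₁ ++ b :: a :: l₂) ∈ Z p V := by
  induction l₁ with
  | nil =>
    have : dl p ([] ++ a :: b :: l₂) + dl p ([] ++ b :: a :: l₂) =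
        cone p a (cone p b (dl p l₂)) + cone p b (cone p a (dl p l₂)) := by
      simp only [List.nil_append, dl_cons, map_sub, cone_single]
      abel
    rw [this]
    exact cc_swap a b _
  | cons x l₁ ih =>
    have : dl p (x :: l₁ ++ a :: b :: l₂) + dl p (x :: l₁ ++ b :: a :: l₂) =
        (Finsupp.single (l₁ ++ a :: b :: l₂) 1 + Finsupp.single (l₁ ++ b :: a :: l₂) 1) -
          cone p x (dl p (l₁ ++ a :: b :: l₂) + dl p (l₁ ++ b :: a :: l₂)) := by
      simp only [List.cons_append, dl_cons, map_add]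
      abel
    rw [this]
    exact (Z p V).sub_mem (Z_swap l₁ a b l₂) (Z_cone x ih)

theorem dl_dup (l₁ : List V) (a : V) (l₂ : List V) : dl p (l₁ ++ a :: a :: l₂) ∈ Z p V := by
  induction l₁ with
  | nil =>
    have : dl p ([] ++ a :: a :: l₂) = cone p a (cone p a (dl p l₂)) := by
      simp only [List.nil_append, dl_cons, map_sub, cone_single]
      abel
    rw [this]
    exact cc_dup a _
  | cons x l₁ ih =>
    rw [List.cons_append, dl_cons]
    exact (Z p V).sub_mem (Z_dup l₁ a l₂) (Z_cone x ih)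

theorem Z_dd {x : Ch p V} (hx : x ∈ Z p V) : dd p x ∈ Z p V := by
  refine Z_map (dd p) (Z p V) (fun l₁ b c l₂ => ?_) (fun l₁ b l₂ => ?_) hx
  · rw [dd_single, dd_single, one_smul, one_smul]
    exact dl_swap l₁ b c l₂
  · rw [dd_single, one_smul]
    exact dl_dup l₁ b l₂

/-- A list with a repeated entry is a relation. -/
theorem Z_mem_dup (l₁ : List V) (a : V) (l₂ l₃ : List V) :
    (Finsupp.single (l₁ ++ a :: (l₂ ++ a :: l₃)) 1 : Ch p V) ∈ Z p V := by
  induction l₂ generalizing l₁ with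
  | nil => exact Z_dup l₁ a l₃
  | cons b l₂ ih =>
    have h1 := Z_swap (p := p) l₁ a b (l₂ ++ a :: l₃)
    have h2 := ih (l₁ ++ [b])
    have h3 : (l₁ ++ [b]) ++ a :: (l₂ ++ a :: l₃) = l₁ ++ b :: a :: (l₂ ++ a :: l₃) := by simp
    rw [h3] at h2
    have h4 := (Z p V).sub_mem h1 h2
    rw [add_sub_cancel_right] at h4
    exact h4

theorem Z_of_not_nodup {l : List V} (h : ¬ l.Nodup) : (Finsupp.single l 1 : Ch p V) ∈ Z p V := by
  classical
  induction l with
  | nil => exact absurd List.nodup_nil h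
  | cons a l ih =>
    by_cases ha : a ∈ l
    · obtain ⟨s, t, rfl⟩ := List.append_of_mem ha
      exact Z_mem_dup [] a s t
    · have hl : ¬ l.Nodup := fun hl => h (List.nodup_cons.2 ⟨ha, hl⟩)
      have := Z_cone a (ih hl)
      rwa [cone_single] at this

theorem Z_coeff {x : Ch p V} (hx : x ∈ Z p V) : x [] = 0 := by
  have h := Z_map (p := p) (V := V) (Finsupp.lapply (R := ZMod p) (M := ZMod p) ([] : List V)) ⊥
    (fun l₁ b c l₂ => ?_) (fun l₁ b l₂ => ?_) hx
  · simpa using h
  · simp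
  · simp

/-- Chains supported on lists of length `n` with property `P`. -/
theorem supp_add {n : ℕ} {P : List V → Prop} {x y : Ch p V} (hx : Supp n P x) (hy : Supp n P y) :
    Supp n P (x + y) := by
  classical
  intro l hl
  rcases Finset.mem_union.1 (Finsupp.support_add hl) with h | h
  · exact hx l h
  · exact hy l h

theorem supp_sub {n : ℕ} {P : List V → Prop} {x y : Ch p V} (hx : Supp n P x) (hy : Supp n P y) :
    Supp n P (x - y) := by
  classical
  intro l hl
  rcases Finset.mem_union.1 (Finsupp.support_sub hl) with h | h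
  · exact hx l h
  · exact hy l h

theorem supp_zero {n : ℕ} {P : List V → Prop} : Supp n P (0 : Ch p V) := by
  intro l hl
  simp at hl

theorem supp_sum {n : ℕ} {P : List V → Prop} {ι : Type*} (s : Finset ι) (x : ι → Ch p V)
    (h : ∀ i ∈ s, Supp n P (x i)) : Supp n P (∑ i ∈ s, x i) := by
  classical
  induction s using Finset.induction_on with
  | empty => simpa using supp_zero
  | insert a s ha ih =>
    rw [Finset.sum_insert ha]
    exact supp_add (h a (Finset.mem_insert_self a s)) (ih fun i hi => h i (Finset.mem_insert_of_mem hi))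

/-- Induction on chains with a given support. -/
theorem supp_ind {n : ℕ} {P : List V → Prop} {x : Ch p V} (hx : Supp n P x) (M : Submodule (ZMod p) (Ch p V))
    (h : ∀ l : List V, l.length = n → P l → (Finsupp.single l 1 : Ch p V) ∈ M) : x ∈ M := by
  rw [← Finsupp.sum_single x, Finsupp.sum]
  refine M.sum_mem fun l hl => ?_
  obtain ⟨h1, h2⟩ := hx l hl
  have : (Finsupp.single l (x l) : Ch p V) = x l • Finsupp.single l 1 := by simp
  rw [this]
  exact M.smul_mem _ (h l h1 h2)

variable {T : ℕ}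

abbrev Lb (p T : ℕ) : Type := ZMod p × Fin T

theorem noFib_shl {l : List (Lb p T)} (h : NoFib l) (k : ZMod p) : NoFib (l.map (shl k)) := by
  intro a
  obtain ⟨g, hg⟩ := h a
  refine ⟨g + k, fun h1 => hg ?_⟩
  obtain ⟨⟨g', a'⟩, h2, h3⟩ := List.mem_map.1 h1
  simp only [shl, Prod.mk.injEq, add_left_inj] at h3
  rw [← h3.1, ← h3.2]
  exact h2

theorem noFib_sub {l m : List (Lb p T)} (h : NoFib l) (hm : m.Sublist l) : NoFib m := by
  intro a
  obtain ⟨g, hg⟩ := h a
  exact ⟨g, fun h1 => hg (hm.subset h1)⟩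

theorem supp_mp {n : ℕ} {x : Ch p (Lb p T)} (hx : Supp n NoFib x) (k : ZMod p) : Supp n NoFib (mp p (shl k) x) := by
  intro l hl
  obtain ⟨m, hm, rfl⟩ := support_mp _ x hl
  obtain ⟨h1, h2⟩ := hx m hm
  exact ⟨by simpa using h1, noFib_shl h2 k⟩

theorem supp_dd {n : ℕ} {x : Ch p (Lb p T)} (hx : Supp (n + 1) NoFib x) : Supp n NoFib (dd p x) := by
  intro l hl
  obtain ⟨m, hm, h1, h2⟩ := support_dd x hl
  obtain ⟨h3, h4⟩ := hx m hm
  exact ⟨by omega, noFib_sub h4 h1⟩

theorem shl_shl (k k' : ZMod p) : (shl k : Lb p T → Lb p T) ∘ shl k' = shl (k + k') := by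
  funext v
  simp [shl, add_assoc, add_comm k k']

theorem mp_shl_mp_shl (k k' : ZMod p) (x : Ch p (Lb p T)) : mp p (shl k) (mp p (shl k') x) = mp p (shl (k + k')) x := by
  rw [mp_mp, shl_shl]

theorem mp_shl_zero (x : Ch p (Lb p T)) : mp p (shl 0) x = x := by
  have : (shl 0 : Lb p T → Lb p T) = fun a => a := by
    funext v
    simp [shl]
  rw [this, mp_id]

section

variable [Fact p.Prime]

open Classical in
/-- The set of the shifts over `a`. -/
noncomputable def fib (l : List (Lb p T)) (a : Fin T) : Finset (ZMod p) := Finset.univ.filter fun g => (g, a) ∈ l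

open Classical in
/-- The weight with respect to the fibre over `a`. -/
noncomputable def wt (l : List (Lb p T)) (a : Fin T) : ZMod p :=
  ((fib l a).card : ZMod p)⁻¹ * (if (0, a) ∈ l then 1 else 0)

open Classical in
/-- The weight of a list. -/
noncomputable def cw (l : List (Lb p T)) : ZMod p :=
  if h : ∃ a : Fin T, (fib l a).Nonempty then
    wt l (Finset.min' (Finset.univ.filter fun a : Fin T => (fib l a).Nonempty)
      (by obtain ⟨a, ha⟩ := h; exact ⟨a, by simp [ha]⟩)) else 0

theorem mem_fib {l : List (Lb p T)} {a : Fin T} {g : ZMod p} : g ∈ fib l a ↔ (g, a) ∈ l := by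
  simp [fib]

theorem cw_congr {l l' : List (Lb p T)} (h : ∀ v, v ∈ l ↔ v ∈ l') : cw l = cw l' := by
  have h1 : ∀ a, fib l a = fib l' a := by
    intro a
    ext g
    rw [mem_fib, mem_fib, h]
  have h2 : ∀ a, wt l a = wt l' a := by
    intro a
    unfold wt
    rw [h1 a]
    simp only [h]
  unfold cw
  simp only [h1, h2]

theorem mem_shl {l : List (Lb p T)} {k g : ZMod p} {a : Fin T} : (g, a) ∈ l.map (shl k) ↔ (g - k, a) ∈ l := by
  constructor
  · intro h
    obtain ⟨⟨g', a'⟩, h2, h3⟩ := List.mem_map.1 h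
    simp only [shl, Prod.mk.injEq] at h3
    rw [← h3.1, ← h3.2, add_sub_cancel_right]
    exact h2
  · intro h
    exact List.mem_map.2 ⟨_, h, by simp [shl]⟩

theorem sum_cw {l : List (Lb p T)} (hl : l ≠ []) (hn : NoFib l) : ∑ k : ZMod p, cw (l.map (shl k)) = 1 := by
  classical
  -- the nonempty fibres
  have hne : ∃ a : Fin T, (fib l a).Nonempty := by
    obtain ⟨⟨g, a⟩, hv⟩ := List.exists_mem_of_ne_nil l hl
    exact ⟨a, g, mem_fib.2 hv⟩
  have hfib : ∀ (k : ZMod p) (a : Fin T), fib (l.map (shl k)) a = (fib l a).map (addRightEmbedding k) := by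
    intro k a
    ext g
    rw [mem_fib, mem_shl, Finset.mem_map]
    constructor
    · intro h
      exact ⟨g - k, mem_fib.2 h, by simp⟩
    · rintro ⟨g', h1, rfl⟩
      simpa using mem_fib.1 h1
  have hfne : ∀ (k : ZMod p) (a : Fin T), (fib (l.map (shl k)) a).Nonempty ↔ (fib l a).Nonempty := by
    intro k a
    rw [hfib, Finset.map_nonempty]
  set A : Finset (Fin T) := Finset.univ.filter fun a : Fin T => (fib l a).Nonempty with hA
  have hAne : A.Nonempty := by
    obtain ⟨a, ha⟩ := hne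
    exact ⟨a, by simp [hA, ha]⟩
  set a0 := A.min' hAne with ha0
  have ha0mem : (fib l a0).Nonempty := (Finset.mem_filter.1 (A.min'_mem hAne)).2
  have hcw : ∀ k : ZMod p, cw (l.map (shl k)) = wt (l.map (shl k)) a0 := by
    intro k
    unfold cw
    have h1 : ∃ a : Fin T, (fib (l.map (shl k)) a).Nonempty := ⟨a0, (hfne k a0).2 ha0mem⟩
    rw [dif_pos h1]
    congr 1
    simp only [hfne]
    rfl
  rw [Finset.sum_congr rfl fun k _ => hcw k]
  have hwt : ∀ k : ZMod p, wt (l.map (shl k)) a0 = ((fib l a0).card : ZMod p)⁻¹ * (if -k ∈ fib l a0 then 1 else 0) := by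
    intro k
    unfold wt
    rw [hfib, Finset.card_map]
    congr 1
    refine if_congr ?_ rfl rfl
    rw [mem_shl, mem_fib, zero_sub]
  rw [Finset.sum_congr rfl fun k _ => hwt k, ← Finset.mul_sum]
  have hsum : ∑ k : ZMod p, (if -k ∈ fib l a0 then (1 : ZMod p) else 0) = ((fib l a0).card : ZMod p) := by
    rw [← Equiv.sum_comp (Equiv.neg (ZMod p)) (fun k => if -k ∈ fib l a0 then (1 : ZMod p) else 0)]
    simp
  rw [hsum]
  have hc1 : 0 < (fib l a0).card := Finset.card_pos.2 ha0mem
  have hc2 : (fib l a0).card < p := by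
    obtain ⟨g, hg⟩ := hn a0
    have h1 : (fib l a0).card < (Finset.univ : Finset (ZMod p)).card :=
      Finset.card_lt_card ⟨Finset.subset_univ _, fun h => hg (mem_fib.1 (h (Finset.mem_univ g)))⟩
    simpa [ZMod.card] using h1
  have hc3 : ((fib l a0).card : ZMod p) ≠ 0 := by
    intro h
    rw [ZMod.natCast_eq_zero_iff] at h
    exact absurd (Nat.le_of_dvd hc1 h) (by omega)
  exact inv_mul_cancel₀ hc3

/-- Multiplication by the weights. -/
noncomputable def mu : Ch p (Lb p T) →ₗ[ZMod p] Ch p (Lb p T) :=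
  Finsupp.lsum (ZMod p) fun l => LinearMap.toSpanSingleton (ZMod p) (Ch p (Lb p T)) (Finsupp.single l (cw l))

theorem mu_single (l : List (Lb p T)) (c : ZMod p) : mu (Finsupp.single l c) = Finsupp.single l (c * cw l) := by
  simp [mu]

theorem Z_mu {x : Ch p (Lb p T)} (hx : x ∈ Z p (Lb p T)) : mu x ∈ Z p (Lb p T) := by
  refine Z_map mu (Z p (Lb p T)) (fun l₁ b c l₂ => ?_) (fun l₁ b l₂ => ?_) hx
  · rw [mu_single, mu_single]
    have h : cw (l₁ ++ b :: c :: l₂) = cw (l₁ ++ c :: b :: l₂) := by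
      refine cw_congr fun v => ?_
      simp only [List.mem_append, List.mem_cons]
      tauto
    rw [h]
    have h2 := (Z p (Lb p T)).smul_mem (cw (l₁ ++ c :: b :: l₂)) (Z_swap l₁ b c l₂)
    simpa [smul_add] using h2
  · rw [mu_single]
    have h2 := (Z p (Lb p T)).smul_mem (cw (l₁ ++ b :: b :: l₂)) (Z_dup l₁ b l₂)
    simpa using h2

theorem supp_mu {n : ℕ} {x : Ch p (Lb p T)} (hx : Supp n NoFib x) : Supp n NoFib (mu x) := by
  intro l hl
  obtain ⟨m, hm, h1⟩ := support_lin mu x hl
  rw [mu_single] at h1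
  have := Finsupp.support_single_subset h1
  rw [Finset.mem_singleton] at this
  rw [this]
  exact hx m hm

/-- The decomposition of the identity. -/
theorem decomp {n : ℕ} (hn : 1 ≤ n) {x : Ch p (Lb p T)} (hx : Supp n NoFib x) :
    ∑ k : ZMod p, mp p (shl k) (mu (mp p (shl (-k)) x)) = x := by
  have h := supp_ind hx (LinearMap.eqLocus (∑ k : ZMod p, (mp p (shl k)) ∘ₗ mu ∘ₗ (mp p (shl (-k)))) LinearMap.id)
    (fun l hl hP => ?_)
  · rw [LinearMap.mem_eqLocus] at h
    simpa [LinearMap.sum_apply] using h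
  · rw [LinearMap.mem_eqLocus, LinearMap.sum_apply]
    have hne : l ≠ [] := by
      rintro rfl
      simp at hl
      omega
    have h1 : ∀ k : ZMod p, ((mp p (shl k)) ∘ₗ mu ∘ₗ (mp p (shl (-k)))) (Finsupp.single l 1) =
        Finsupp.single l (cw (l.map (shl (-k)))) := by
      intro k
      rw [LinearMap.comp_apply, LinearMap.comp_apply, mp_single, mu_single, mp_single, one_mul, List.map_map, shl_shl,
        add_neg_cancel]
      congr 1
      have : (shl 0 : Lb p T → Lb p T) = id := by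
        funext v
        simp [shl]
      rw [this, List.map_id]
    rw [Finset.sum_congr rfl fun k _ => h1 k, ← Finsupp.single_finsetSum]
    have h2 : ∑ k : ZMod p, cw (l.map (shl (-k))) = 1 := by
      rw [← sum_cw hne hP]
      exact Equiv.sum_comp (Equiv.neg (ZMod p)) (fun k => cw (l.map (shl k)))
    rw [h2]
    rfl

/-- The norm. -/
noncomputable def Nm (x : Ch p (Lb p T)) : Ch p (Lb p T) := ∑ k : ZMod p, mp p (shl k) x

/-- Partial geometric sums. -/
theorem geom (i : ℕ) (x : Ch p (Lb p T)) :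
    mp p (shl 1) (∑ m ∈ Finset.range i, mp p (shl (m : ZMod p)) x) - ∑ m ∈ Finset.range i, mp p (shl (m : ZMod p)) x =
      mp p (shl (i : ZMod p)) x - x := by
  induction i with
  | zero => simp [mp_shl_zero]
  | succ i ih =>
    rw [Finset.sum_range_succ, map_add, add_sub_add_comm, ih, mp_shl_mp_shl]
    have : (1 + (i : ZMod p)) = ((i + 1 : ℕ) : ZMod p) := by push_cast; ring
    rw [this]
    abel

/-- Exactness, first case. -/
theorem exact_nm {n : ℕ} (hn : 1 ≤ n) {x : Ch p (Lb p T)} (hx : Supp n NoFib x) (h : Nm x ∈ Z p (Lb p T)) :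
    ∃ y : Ch p (Lb p T), Supp n NoFib y ∧ x - (mp p (shl 1) y - y) ∈ Z p (Lb p T) := by
  refine ⟨∑ k : ZMod p, ∑ m ∈ Finset.range k.val, mp p (shl (m : ZMod p)) (mu (mp p (shl (-k)) x)), ?_, ?_⟩
  · exact supp_sum _ _ fun k _ => supp_sum _ _ fun m _ => supp_mp (supp_mu (supp_mp hx _)) _
  · have h1 : mp p (shl 1) (∑ k : ZMod p, ∑ m ∈ Finset.range k.val, mp p (shl (m : ZMod p)) (mu (mp p (shl (-k)) x))) -
        ∑ k : ZMod p, ∑ m ∈ Finset.range k.val, mp p (shl (m : ZMod p)) (mu (mp p (shl (-k)) x)) =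
        x - mu (Nm x) := by
      rw [map_sum, ← Finset.sum_sub_distrib]
      have h2 : ∀ k : ZMod p, (mp p (shl 1) (∑ m ∈ Finset.range k.val, mp p (shl (m : ZMod p)) (mu (mp p (shl (-k)) x))) -
          ∑ m ∈ Finset.range k.val, mp p (shl (m : ZMod p)) (mu (mp p (shl (-k)) x))) =
          mp p (shl k) (mu (mp p (shl (-k)) x)) - mu (mp p (shl (-k)) x) := by
        intro k
        rw [geom, ZMod.natCast_zmod_val]
      rw [Finset.sum_congr rfl fun k _ => h2 k, Finset.sum_sub_distrib, decomp hn hx, ← map_sum]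
      congr 2
      exact Equiv.sum_comp (Equiv.neg (ZMod p)) (fun k => mp p (shl k) x)
    rw [h1, sub_sub_cancel]
    exact Z_mu h

/-- Exactness, second case. -/
theorem exact_gm {n : ℕ} (hn : 1 ≤ n) {x : Ch p (Lb p T)} (hx : Supp n NoFib x)
    (h : mp p (shl 1) x - x ∈ Z p (Lb p T)) :
    ∃ y : Ch p (Lb p T), Supp n NoFib y ∧ x - Nm y ∈ Z p (Lb p T) := by
  refine ⟨mu x, supp_mu hx, ?_⟩
  have h1 : ∀ i : ℕ, mp p (shl (i : ZMod p)) x - x ∈ Z p (Lb p T) := by
    intro i
    induction i with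
    | zero => simp [mp_shl_zero]
    | succ i ih =>
      have h2 := (Z p (Lb p T)).add_mem (Z_mp (shl 1) ih) h
      have h3 : mp p (shl 1) (mp p (shl (i : ZMod p)) x - x) + (mp p (shl 1) x - x) =
          mp p (shl ((i + 1 : ℕ) : ZMod p)) x - x := by
        rw [map_sub, mp_shl_mp_shl]
        have : (1 + (i : ZMod p)) = ((i + 1 : ℕ) : ZMod p) := by push_cast; ring
        rw [this]
        abel
      rwa [h3] at h2
  have h2 : ∀ k : ZMod p, mp p (shl k) x - x ∈ Z p (Lb p T) := by
    intro k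
    have := h1 k.val
    rwa [ZMod.natCast_zmod_val] at this
  have h3 : x - Nm (mu x) = ∑ k : ZMod p, mp p (shl k) (mu (mp p (shl (-k)) x - x)) := by
    rw [← decomp hn hx]
    conv_rhs => rw [decomp hn hx]
    simp only [map_sub, Finset.sum_sub_distrib]
    rw [decomp hn hx]
    rfl
  rw [h3]
  exact (Z p (Lb p T)).sum_mem fun k _ => Z_mp _ (Z_mu (h2 (-k)))

theorem Z_al (j : ℕ) {x : Ch p (Lb p T)} (hx : x ∈ Z p (Lb p T)) : al p shl j x ∈ Z p (Lb p T) := by
  by_cases hj : Odd j
  · rw [al_odd _ hj]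
    exact (Z p (Lb p T)).sub_mem (Z_mp _ hx) hx
  · rw [al_even _ hj]
    exact (Z p (Lb p T)).sum_mem fun k _ => Z_mp _ hx

theorem exact_al (j : ℕ) {n : ℕ} (hn : 1 ≤ n) {x : Ch p (Lb p T)} (hx : Supp n NoFib x)
    (h : al p shl (j + 1) x ∈ Z p (Lb p T)) :
    ∃ y : Ch p (Lb p T), Supp n NoFib y ∧ x - al p shl j y ∈ Z p (Lb p T) := by
  by_cases hj : Odd j
  · have h1 : ¬ Odd (j + 1) := fun h2 => by
      rw [Nat.odd_iff] at hj h2
      omega
    rw [al_even _ h1] at h
    obtain ⟨y, hy, h2⟩ := exact_nm hn hx h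
    exact ⟨y, hy, by rw [al_odd _ hj]; exact h2⟩
  · have h1 : Odd (j + 1) := by
      rw [Nat.odd_iff] at hj ⊢
      omega
    rw [al_odd _ h1] at h
    obtain ⟨y, hy, h2⟩ := exact_gm hn hx h
    exact ⟨y, hy, by rw [al_even _ hj]; exact h2⟩

/-- Pigeonhole. -/
theorem not_nodup {l : List (Lb p T)} (hn : NoFib l) (hl : T * (p - 1) < l.length) : ¬ l.Nodup := by
  classical
  intro hd
  have h1 : l.toFinset.card = l.length := List.toFinset_card_of_nodup hd
  have h2 : l.toFinset.card = ∑ a : Fin T, (l.toFinset.filter fun v => v.2 = a).card :=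
    Finset.card_eq_sum_card_fiberwise fun v _ => Finset.mem_univ v.2
  have h3 : ∀ a : Fin T, (l.toFinset.filter fun v => v.2 = a).card ≤ p - 1 := by
    intro a
    obtain ⟨g, hg⟩ := hn a
    have h4 : ((l.toFinset.filter fun v => v.2 = a).image Prod.fst) ⊆ Finset.univ.erase g := by
      intro g' hg'
      obtain ⟨v, hv, rfl⟩ := Finset.mem_image.1 hg'
      rw [Finset.mem_filter, List.mem_toFinset] at hv
      refine Finset.mem_erase.2 ⟨fun h => hg ?_, Finset.mem_univ _⟩
      rw [← h, ← hv.2]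
      exact hv.1
    have h5 : ((l.toFinset.filter fun v => v.2 = a).image Prod.fst).card = (l.toFinset.filter fun v => v.2 = a).card := by
      refine Finset.card_image_of_injOn fun v hv w hw h => ?_
      rw [Finset.mem_coe, Finset.mem_filter] at hv hw
      exact Prod.ext h (hv.2.trans hw.2.symm)
    rw [← h5]
    refine (Finset.card_le_card h4).trans ?_
    rw [Finset.card_erase_of_mem (Finset.mem_univ g), Finset.card_univ, ZMod.card]
  have h6 : ∑ a : Fin T, (l.toFinset.filter fun v => v.2 = a).card ≤ T * (p - 1) := by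
    refine (Finset.sum_le_sum fun a _ => h3 a).trans ?_
    simp
  omega

theorem top_mem {n : ℕ} (hn : T * (p - 1) < n) {x : Ch p (Lb p T)} (hx : Supp n NoFib x) : x ∈ Z p (Lb p T) :=
  supp_ind hx _ fun l hl hP => Z_of_not_nodup (not_nodup hP (by omega))

theorem descend (x : ℕ → Ch p (Lb p T)) (hs : ∀ j ≤ T * (p - 1), Supp (j + 1) NoFib (x j))
    (h1 : ∀ j < T * (p - 1), dd p (x (j + 1)) = al p shl (j + 1) (x j)) (i : ℕ) :
    ∀ j, j + i = T * (p - 1) → ∃ b b' : Ch p (Lb p T), Supp (j + 2) NoFib b ∧ Supp (j + 1) NoFib b' ∧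
      x j - dd p b - al p shl j b' ∈ Z p (Lb p T) := by
  induction i with
  | zero =>
    intro j hj
    refine ⟨0, 0, supp_zero, supp_zero, ?_⟩
    rw [map_zero, map_zero, sub_zero, sub_zero]
    exact top_mem (by omega) (hs j (by omega))
  | succ i ih =>
    intro j hj
    obtain ⟨b, b', hb, hb', h⟩ := ih (j + 1) (by omega)
    have h2 := Z_dd h
    rw [map_sub, map_sub, dd_dd, sub_zero, h1 j (by omega), dd_al, ← map_sub] at h2
    have h3 : Supp (j + 1) NoFib (x j - dd p b') := supp_sub (hs j (by omega)) (supp_dd hb')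
    obtain ⟨y, hy, h4⟩ := exact_al j (by omega) h3 h2
    exact ⟨b', y, hb', hy, h4⟩

end

end BU1

open BU1 in
theorem pBU1 : StBU1 := by
  intro p T _ x hs h0 h1
  obtain ⟨b, b', hb, hb', h⟩ := descend x hs h1 (T * (p - 1)) 0 (by omega)
  have h2 := Z_dd h
  rw [map_sub, map_sub, dd_dd, sub_zero, h0, dd_al] at h2
  have h3 : Supp 0 NoFib (dd p b') := supp_dd hb'
  have h4 : dd p b' = Finsupp.single [] (dd p b' []) := by
    ext l
    by_cases hl : l = []
    · subst hl
      simp
    · rw [Finsupp.single_eq_of_ne hl]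
      by_contra hne
      have := (h3 l (Finsupp.mem_support_iff.2 hne)).1
      exact hl (List.length_eq_zero_iff.1 this)
  have h5 : al p shl 0 (dd p b') = 0 := by
    rw [al_even _ (by decide)]
    have h6 : ∀ k : ZMod p, mp p (shl k) (dd p b') = dd p b' := by
      intro k
      rw [h4, mp_single, List.map_nil]
    rw [Finset.sum_congr rfl fun k _ => h6 k, Finset.sum_const, Finset.card_univ, ZMod.card]
    ext l
    simp
  rw [h5, sub_zero] at h2
  have h6 := Z_coeff h2
  rw [Finsupp.single_eq_same] at h6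
  exact one_ne_zero h6

end DV
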