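import Pool.Agent.Helper53.DV.St

/-!
# DV project, module EN (entry lemma)
-/

set_option autoImplicit false

open scoped BigOperators RealInnerProductSpace
open MeasureTheory

namespace DV

namespace EN

/-- combination of the cut-off and of the inner products -/
theorem comb {a χ χ' P P' e δ Λ η K₀ K : ℝ} (ha : 0 ≤ a) (ha1 : a ≤ 1) (hχ : 0 ≤ χ) (hχ1 : χ ≤ 1)
    (hP : |P| ≤ 1) (hP' : |P'| ≤ 1) (he : 0 ≤ e) (hδ : 0 ≤ δ) (hΛ : 1 ≤ Λ) (hη : 0 ≤ η)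
    (hK : 0 ≤ K) (hK₀ : 0 ≤ K₀)
    (h1 : |χ - χ'| ≤ 2 * Λ * (K₀ * (e + δ)) * (η + (1 - χ)))
    (h2 : |P - P'| ≤ K * ((e + δ) * (1 - |P|) + δ * Real.sqrt (1 - |P|) + δ ^ 2)) :
    |a * (χ * P) - a * (χ' * P')| ≤
      (2 * K₀ + K) * (Λ * (e + δ)) * (η + (1 - |a * (χ * P)|)) +
        (2 * K₀ + K) * δ * Real.sqrt (1 - |a * (χ * P)|) + (2 * K₀ + K) * δ ^ 2 := by
  set Y : ℝ := a * (χ * P) with hY
  have hYabs : |Y| = a * (χ * |P|) := by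
    rw [hY, abs_mul, abs_mul, abs_of_nonneg ha, abs_of_nonneg hχ]
  have hP0 : 0 ≤ |P| := abs_nonneg P
  have hYP : |Y| ≤ |P| := by
    rw [hYabs]
    have h3 : χ * |P| ≤ |P| := by nlinarith
    have h4 : 0 ≤ χ * |P| := mul_nonneg hχ hP0
    nlinarith
  have hYχ : |Y| ≤ χ := by
    rw [hYabs]
    have h3 : χ * |P| ≤ χ := by nlinarith
    have h4 : 0 ≤ χ * |P| := mul_nonneg hχ hP0
    nlinarith
  have hs : Real.sqrt (1 - |P|) ≤ Real.sqrt (1 - |Y|) := Real.sqrt_le_sqrt (by linarith)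
  have hs0 : 0 ≤ Real.sqrt (1 - |Y|) := Real.sqrt_nonneg _
  have hed : 0 ≤ e + δ := by linarith
  -- the difference
  have hdiff : Y - a * (χ' * P') = a * ((χ - χ') * P') + a * (χ * (P - P')) := by
    rw [hY]
    ring
  have h3 : |a * ((χ - χ') * P')| ≤ |χ - χ'| := by
    rw [abs_mul, abs_mul, abs_of_nonneg ha]
    have h4 : |χ - χ'| * |P'| ≤ |χ - χ'| := by
      nlinarith [abs_nonneg (χ - χ'), abs_nonneg P']
    have h5 : 0 ≤ |χ - χ'| * |P'| := mul_nonneg (abs_nonneg _) (abs_nonneg _)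
    nlinarith
  have h4 : |a * (χ * (P - P'))| ≤ |P - P'| := by
    rw [abs_mul, abs_mul, abs_of_nonneg ha, abs_of_nonneg hχ]
    have h4 : χ * |P - P'| ≤ |P - P'| := by
      nlinarith [abs_nonneg (P - P')]
    have h5 : 0 ≤ χ * |P - P'| := mul_nonneg hχ (abs_nonneg _)
    nlinarith
  have h5 : 2 * Λ * (K₀ * (e + δ)) * (η + (1 - χ)) ≤
      2 * K₀ * (Λ * (e + δ)) * (η + (1 - |Y|)) := by
    have h6 : 2 * Λ * (K₀ * (e + δ)) = 2 * K₀ * (Λ * (e + δ)) := by ring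
    rw [h6]
    exact mul_le_mul_of_nonneg_left (by linarith) (by positivity)
  have h6 : K * ((e + δ) * (1 - |P|) + δ * Real.sqrt (1 - |P|) + δ ^ 2) ≤
      K * ((Λ * (e + δ)) * (η + (1 - |Y|)) + δ * Real.sqrt (1 - |Y|) + δ ^ 2) := by
    refine mul_le_mul_of_nonneg_left ?_ hK
    have h7 : (e + δ) * (1 - |P|) ≤ (Λ * (e + δ)) * (η + (1 - |Y|)) := by
      refine mul_le_mul ?_ (by linarith) (by linarith) (by positivity)
      nlinarith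
    have h8 : δ * Real.sqrt (1 - |P|) ≤ δ * Real.sqrt (1 - |Y|) := mul_le_mul_of_nonneg_left hs hδ
    linarith
  have h7 : |Y - a * (χ' * P')| ≤ |χ - χ'| + |P - P'| := by
    rw [hdiff]
    exact le_trans (abs_add_le _ _) (by linarith)
  have h8 : 0 ≤ 2 * K₀ * δ * Real.sqrt (1 - |Y|) := by positivity
  have h9 : 0 ≤ 2 * K₀ * δ ^ 2 := by positivity
  nlinarith [h7, h1, h2, h5, h6, h8, h9]

/-- near case -/
theorem near_bd {d : ℕ} {K₀ : ℝ} (hK₀ : 1 ≤ K₀) {s : Fin (d + 1)}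
    (hunit : ∀ z : Fin d → ℝ, ‖Ec s z‖ = 1)
    (hL : ∀ z ξ : Fin d → ℝ, ‖Ec s z - Ec s ξ‖ ≤ K₀ * ‖z - ξ‖)
    (h2 : ∀ z ξ : Fin d → ℝ, ‖z‖ ≤ 8 → ‖ξ‖ ≤ 8 → ‖z - ξ‖ ^ 2 ≤ K₀ * (1 - |⟪Ec s z, Ec s ξ⟫|))
    (h3 : ∀ z ξ g : Fin d → ℝ, ‖z‖ ≤ 8 → ‖ξ‖ ≤ 8 → ‖g‖ ≤ 8 →
      ‖Ec s (z + g) - Ec s (ξ + g) - Ec s z + Ec s ξ‖ ≤ K₀ * ‖g‖ * ‖z - ξ‖)
    {z z' ξ ξ' : Fin d → ℝ} {e δ : ℝ} (hz : ‖z‖ ≤ 8) (hξ : ‖ξ'‖ ≤ 8) (hu : ‖ξ - ξ'‖ ≤ 1)
    (hue : ‖ξ - ξ'‖ ≤ K₀ * e) (he : 0 ≤ e) (hδ : 0 ≤ δ) (hzz : ‖z' - z - (ξ - ξ')‖ ≤ δ) :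
    |⟪Ec s z, Ec s ξ'⟫ - ⟪Ec s z', Ec s ξ⟫| ≤
      2 * K₀ ^ 4 * ((e + δ) * (1 - |⟪Ec s z, Ec s ξ'⟫|) +
        δ * Real.sqrt (1 - |⟪Ec s z, Ec s ξ'⟫|) + δ ^ 2) := by
  set P : ℝ := ⟪Ec s z, Ec s ξ'⟫ with hP
  set P' : ℝ := ⟪Ec s z', Ec s ξ⟫ with hP'
  set w : ℝ := ‖z - ξ'‖ with hw
  set U : ℝ := ‖ξ - ξ'‖ with hU
  have hw0 : 0 ≤ w := norm_nonneg _
  have hU0 : 0 ≤ U := norm_nonneg _
  have hw2 : w ^ 2 ≤ K₀ * (1 - |P|) := h2 z ξ' hz hξ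
  have hP1 : 0 ≤ 1 - |P| := by
    by_contra h
    push Not at h
    nlinarith [sq_nonneg w]
  set r : ℝ := Real.sqrt (1 - |P|) with hr
  have hr0 : 0 ≤ r := Real.sqrt_nonneg _
  have hr2 : r ^ 2 = 1 - |P| := Real.sq_sqrt hP1
  have hwr : w ≤ K₀ * r := by
    have h4 : w ^ 2 ≤ (K₀ * r) ^ 2 := by
      calc w ^ 2 ≤ K₀ * (1 - |P|) := hw2
        _ ≤ K₀ * K₀ * (1 - |P|) := by
          refine mul_le_mul_of_nonneg_right ?_ hP1
          nlinarith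
        _ = (K₀ * r) ^ 2 := by
          rw [← hr2]
          ring
    exact le_of_sq_le_sq h4 (by positivity)
  -- the norms
  have hna : ‖Ec s z - Ec s ξ'‖ ^ 2 = 2 - 2 * P := by
    rw [norm_sub_sq_real, hunit, hunit, hP]
    ring
  have hnb : ‖Ec s z' - Ec s ξ‖ ^ 2 = 2 - 2 * P' := by
    rw [norm_sub_sq_real, hunit, hunit, hP']
    ring
  set A : ℝ := ‖Ec s z - Ec s ξ'‖ with hA
  set B : ℝ := ‖Ec s z' - Ec s ξ‖ with hB
  have hA0 : 0 ≤ A := norm_nonneg _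
  have hB0 : 0 ≤ B := norm_nonneg _
  have hAw : A ≤ K₀ * w := hL _ _
  have hAB : |A - B| ≤ K₀ * δ + K₀ * U * w := by
    have h4 : |A - B| ≤ ‖(Ec s z - Ec s ξ') - (Ec s z' - Ec s ξ)‖ := abs_norm_sub_norm_le _ _
    have h5 : (Ec s z - Ec s ξ') - (Ec s z' - Ec s ξ) =
        -((Ec s z' - Ec s (z + (ξ - ξ'))) +
          (Ec s (z + (ξ - ξ')) - Ec s (ξ' + (ξ - ξ')) - Ec s z + Ec s ξ')) := by
      have h6 : ξ' + (ξ - ξ') = ξ := by abel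
      rw [h6]
      abel
    have h6 : ‖Ec s z' - Ec s (z + (ξ - ξ'))‖ ≤ K₀ * δ := by
      refine le_trans (hL _ _) (mul_le_mul_of_nonneg_left ?_ (by linarith))
      have h7 : z' - (z + (ξ - ξ')) = z' - z - (ξ - ξ') := by abel
      rw [h7]
      exact hzz
    have h7 := h3 z ξ' (ξ - ξ') hz hξ (by linarith)
    rw [h5, norm_neg] at h4
    refine le_trans h4 (le_trans (norm_add_le _ _) ?_)
    exact add_le_add h6 h7
  have hBw : B ≤ A + (K₀ * δ + K₀ * U * w) := by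
    have h4 := neg_abs_le (A - B)
    linarith
  -- the difference
  have hdiff : |P - P'| = |A - B| * (A + B) / 2 := by
    have h4 : P - P' = -((A - B) * (A + B) / 2) := by
      have h5 : A ^ 2 - B ^ 2 = (A - B) * (A + B) := by ring
      rw [← h5, hna, hnb]
      ring
    rw [h4, abs_neg, abs_div, abs_mul, abs_of_nonneg (show (0 : ℝ) ≤ A + B by linarith),
      abs_of_pos (show (0 : ℝ) < 2 by norm_num)]
  have hB2 : B ≤ K₀ * w + K₀ * δ := by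
    refine le_trans (hL z' ξ) ?_
    rw [← mul_add]
    refine mul_le_mul_of_nonneg_left ?_ (by linarith)
    have h4 : z' - ξ = (z - ξ') + (z' - z - (ξ - ξ')) := by abel
    rw [h4]
    exact le_trans (norm_add_le _ _) (add_le_add le_rfl hzz)
  have hmain : |P - P'| ≤ (K₀ * δ + K₀ * U * w) * (2 * K₀ * w + K₀ * δ) / 2 := by
    rw [hdiff]
    refine div_le_div_of_nonneg_right ?_ (by norm_num)
    exact mul_le_mul hAB (by linarith) (by linarith) (by positivity)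
  refine le_trans hmain ?_
  have hK2 : K₀ ^ 2 ≤ K₀ ^ 4 := pow_le_pow_right₀ hK₀ (by norm_num)
  have hK3 : K₀ ^ 3 ≤ K₀ ^ 4 := pow_le_pow_right₀ hK₀ (by norm_num)
  have hK0 : 0 < K₀ := by linarith
  have h4 : (K₀ * δ + K₀ * U * w) * (2 * K₀ * w + K₀ * δ) / 2 =
      K₀ ^ 2 * (U * w ^ 2) + K₀ ^ 2 * (δ * w) + K₀ ^ 2 / 2 * (U * (δ * w)) + K₀ ^ 2 / 2 * δ ^ 2 := by
    ring
  rw [h4]
  have h5 : K₀ ^ 2 * (U * w ^ 2) ≤ K₀ ^ 4 * (e * (1 - |P|)) := by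
    have h6 : U * w ^ 2 ≤ (K₀ * e) * (K₀ * (1 - |P|)) :=
      mul_le_mul hue hw2 (sq_nonneg w) (by positivity)
    calc K₀ ^ 2 * (U * w ^ 2) ≤ K₀ ^ 2 * ((K₀ * e) * (K₀ * (1 - |P|))) :=
          mul_le_mul_of_nonneg_left h6 (by positivity)
      _ = K₀ ^ 4 * (e * (1 - |P|)) := by ring
  have h6 : δ * w ≤ K₀ * (δ * r) := by
    calc δ * w ≤ δ * (K₀ * r) := mul_le_mul_of_nonneg_left hwr hδ
      _ = K₀ * (δ * r) := by ring
  have hδr : 0 ≤ δ * r := mul_nonneg hδ hr0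
  have hδw : 0 ≤ δ * w := mul_nonneg hδ hw0
  have h7 : K₀ ^ 2 * (δ * w) ≤ K₀ ^ 4 * (δ * r) := by
    calc K₀ ^ 2 * (δ * w) ≤ K₀ ^ 2 * (K₀ * (δ * r)) := mul_le_mul_of_nonneg_left h6 (by positivity)
      _ = K₀ ^ 3 * (δ * r) := by ring
      _ ≤ K₀ ^ 4 * (δ * r) := mul_le_mul_of_nonneg_right hK3 hδr
  have h8 : K₀ ^ 2 / 2 * (U * (δ * w)) ≤ K₀ ^ 4 / 2 * (δ * r) := by
    have h9 : U * (δ * w) ≤ δ * w := by nlinarith
    calc K₀ ^ 2 / 2 * (U * (δ * w)) ≤ K₀ ^ 2 / 2 * (δ * w) :=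
          mul_le_mul_of_nonneg_left h9 (by positivity)
      _ = K₀ ^ 2 * (δ * w) / 2 := by ring
      _ ≤ K₀ ^ 4 * (δ * r) / 2 := by linarith
      _ = _ := by ring
  have h9 : K₀ ^ 2 / 2 * δ ^ 2 ≤ K₀ ^ 4 * δ ^ 2 := by
    have h10 : 0 ≤ δ ^ 2 := sq_nonneg _
    have h11 : K₀ ^ 2 / 2 ≤ K₀ ^ 4 := by nlinarith [sq_nonneg K₀]
    exact mul_le_mul_of_nonneg_right h11 h10
  have h10 : 0 ≤ K₀ ^ 4 * (δ * (1 - |P|)) := by positivity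
  have h11 : 0 ≤ K₀ ^ 4 * (e * (1 - |P|)) := by positivity
  have h12 : 0 ≤ K₀ ^ 4 * (δ * r) := by positivity
  have h13 : 0 ≤ K₀ ^ 4 * δ ^ 2 := by positivity
  nlinarith [h5, h7, h8, h9, h10, h11, h12, h13]

/-- far case -/
theorem far_bd {V : Type*} [NormedAddCommGroup V] [InnerProductSpace ℝ V] {K₀ e δ c₀ : ℝ}
    (hK₀ : 1 ≤ K₀) (hc₀ : 1 / K₀ ≤ c₀) {p q x y : V} (hq : ‖q‖ = 1)
    (hy : ‖y‖ = 1) (he : ‖x - y‖ ≤ e) (hδ : 0 ≤ δ) (hpq : ‖p - q‖ ≤ K₀ * δ)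
    (hfar : c₀ / 2 ≤ 1 - |⟪p, y⟫|) :
    |⟪p, y⟫ - ⟪q, x⟫| ≤ 2 * K₀ ^ 4 * ((e + δ) * (1 - |⟪p, y⟫|) +
      δ * Real.sqrt (1 - |⟪p, y⟫|) + δ ^ 2) := by
  have hK0 : 0 < K₀ := by linarith
  have he0 : 0 ≤ e := le_trans (norm_nonneg _) he
  have hc0 : 0 < c₀ := lt_of_lt_of_le (by positivity) hc₀
  have h1 : ⟪p, y⟫ - ⟪q, x⟫ = ⟪p - q, y⟫ - ⟪q, x - y⟫ := by
    rw [inner_sub_left, inner_sub_right]
    ring
  have h2 : |⟪p - q, y⟫| ≤ K₀ * δ := by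
    refine le_trans (abs_real_inner_le_norm _ _) ?_
    rw [hy, mul_one]
    exact hpq
  have h3 : |⟪q, x - y⟫| ≤ e := by
    refine le_trans (abs_real_inner_le_norm _ _) ?_
    rw [hq, one_mul]
    exact he
  have h4 : |⟪p, y⟫ - ⟪q, x⟫| ≤ K₀ * δ + e := by
    rw [h1]
    exact le_trans (abs_sub _ _) (by linarith)
  set m : ℝ := 1 - |⟪p, y⟫| with hm
  have hm0 : 0 < m := by linarith
  have hKm : 1 ≤ 2 * K₀ * m := by
    have h5 : 1 ≤ K₀ * c₀ := by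
      rw [div_le_iff₀ hK0] at hc₀
      linarith
    nlinarith
  have h5 : K₀ * δ + e ≤ K₀ * (e + δ) := by nlinarith
  have h6 : K₀ * (e + δ) ≤ K₀ * (e + δ) * (2 * K₀ * m) := by
    have h7 : 0 ≤ K₀ * (e + δ) := by positivity
    nlinarith
  have h7 : K₀ * (e + δ) * (2 * K₀ * m) ≤ 2 * K₀ ^ 4 * ((e + δ) * m) := by
    have h8 : K₀ ^ 2 ≤ K₀ ^ 4 := pow_le_pow_right₀ hK₀ (by norm_num)
    have h9 : 0 ≤ (e + δ) * m := by positivity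
    nlinarith
  have h8 : 0 ≤ 2 * K₀ ^ 4 * (δ * Real.sqrt m) := by positivity
  have h9 : 0 ≤ 2 * K₀ ^ 4 * δ ^ 2 := by positivity
  nlinarith [h4, h5, h6, h7, h8, h9]

end EN

open EN in
theorem pEN (h1 : StCH1) (h2 : StCH2) (h3 : StCH3) (h4 : StCH4) : StEN := by
  classical
  intro d
  obtain ⟨hunit, -, hLip⟩ := h1
  obtain ⟨L₁, hL₁, hL⟩ := hLip d
  obtain ⟨C₂, hC₂, hc2⟩ := h2 d
  obtain ⟨C₃, hC₃, hc3⟩ := h3 d
  obtain ⟨h4a, h4b⟩ := h4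
  obtain ⟨c₀, hc₀, hfar⟩ := h4a d
  obtain ⟨c₄, C₄, hc₄, hC₄, hnear⟩ := h4b d
  have h1c : 0 < 1 / c₀ := by positivity
  set K₀ : ℝ := 1 + L₁ + C₂ + C₃ + C₄ + 1 / c₀ with hK
  have hK1 : 1 ≤ K₀ := by linarith
  have hK0 : 0 < K₀ := by linarith
  have hc₀K : 1 / K₀ ≤ c₀ := by
    rw [div_le_iff₀ hK0]
    have h5 : 1 / c₀ ≤ K₀ := by linarith
    rw [div_le_iff₀ hc₀] at h5
    linarith
  -- the facts with the constant `K₀`
  have hL' : ∀ (s : Fin (d + 1)) (z ξ : Fin d → ℝ), ‖Ec s z - Ec s ξ‖ ≤ K₀ * ‖z - ξ‖ := by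
    intro s z ξ
    exact le_trans (hL s z ξ) (mul_le_mul_of_nonneg_right (by linarith) (norm_nonneg _))
  have hin1 : ∀ (s : Fin (d + 1)) (z : Fin d → ℝ) (y : Eu (d + 1)), ‖y‖ = 1 →
      |⟪Ec s z, y⟫| ≤ 1 := by
    intro s z y hy
    refine le_trans (abs_real_inner_le_norm _ _) ?_
    rw [hunit, hy, mul_one]
  have hc2' : ∀ (s : Fin (d + 1)) (z ξ : Fin d → ℝ), ‖z‖ ≤ 8 → ‖ξ‖ ≤ 8 →
      ‖z - ξ‖ ^ 2 ≤ K₀ * (1 - |⟪Ec s z, Ec s ξ⟫|) := by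
    intro s z ξ hz hξ
    refine le_trans (hc2 s z ξ hz hξ) (mul_le_mul_of_nonneg_right (by linarith) ?_)
    have h5 := hin1 s z (Ec s ξ) (hunit d s ξ)
    linarith
  have hc3' : ∀ (s : Fin (d + 1)) (z ξ g : Fin d → ℝ), ‖z‖ ≤ 8 → ‖ξ‖ ≤ 8 → ‖g‖ ≤ 8 →
      ‖Ec s (z + g) - Ec s (ξ + g) - Ec s z + Ec s ξ‖ ≤ K₀ * ‖g‖ * ‖z - ξ‖ := by
    intro s z ξ g hz hξ hg
    refine le_trans (hc3 s z ξ g hz hξ hg) ?_
    refine mul_le_mul_of_nonneg_right ?_ (norm_nonneg _)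
    exact mul_le_mul_of_nonneg_right (by linarith) (norm_nonneg _)
  set c : ℝ := min (min c₄ (c₀ / 2)) (1 / (16 * K₀)) with hcdef
  have hc0 : 0 < c := by
    refine lt_min (lt_min hc₄ (by linarith)) (by positivity)
  have hcc4 : c ≤ c₄ := le_trans (min_le_left _ _) (min_le_left _ _)
  have hcc0 : c ≤ c₀ / 2 := le_trans (min_le_left _ _) (min_le_right _ _)
  have hcK : c * (16 * K₀) ≤ 1 := by
    have h5 : c ≤ 1 / (16 * K₀) := min_le_right _ _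
    rwa [le_div_iff₀ (by positivity)] at h5
  refine ⟨c, 2 * K₀ + 2 * K₀ ^ 4, hc0, by positivity, ?_⟩
  intro Λ η δ χ hΛ hη hη1 hδ hχ hχ2 hχL x y hx hy hxy
  set e : ℝ := ‖x - y‖ with he
  have he0 : 0 ≤ e := norm_nonneg _
  have hed : 0 < e + δ := by linarith
  have hedc : e + δ ≤ c := by
    have h5 : e + δ ≤ Λ * (e + δ) := by nlinarith
    linarith
  have hKed : K₀ * (Λ * (e + δ)) ≤ 1 / 16 := by
    have h5 : K₀ * (Λ * (e + δ)) ≤ K₀ * c := mul_le_mul_of_nonneg_left hxy hK0.le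
    nlinarith
  have hKed' : K₀ * (e + δ) ≤ 1 / 16 := by
    have h5 : K₀ * (e + δ) ≤ K₀ * c := mul_le_mul_of_nonneg_left hedc hK0.le
    nlinarith
  -- the inner products
  have key : ∀ s : Fin (d + 1), ∃ us : Fin d → ℝ, ‖us‖ ≤ K₀ * e ∧ ∀ z z' : Fin d → ℝ,
      ‖z' - z - us‖ ≤ δ → ‖z‖ ≤ 5 / 2 → ‖z'‖ ≤ 5 / 2 →
      |⟪Ec s z, y⟫ - ⟪Ec s z', x⟫| ≤ 2 * K₀ ^ 4 * ((e + δ) * (1 - |⟪Ec s z, y⟫|) +
        δ * Real.sqrt (1 - |⟪Ec s z, y⟫|) + δ ^ 2) ∧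
      |⟪Ec s z', x⟫ - ⟪Ec s z, y⟫| ≤ 2 * K₀ ^ 4 * ((e + δ) * (1 - |⟪Ec s z', x⟫|) +
        δ * Real.sqrt (1 - |⟪Ec s z', x⟫|) + δ ^ 2) := by
    intro s
    by_cases hn : ∃ ξ : Fin d → ℝ, ‖ξ‖ ≤ 3 ∧ (x = Ec s ξ ∨ x = -Ec s ξ)
    · obtain ⟨ξ, hξ, hor⟩ := hn
      -- reduction to a positive sign
      have hpos : ∃ ξ' : Fin d → ℝ, ‖ξ'‖ ≤ 4 ∧ ‖ξ - ξ'‖ ≤ C₄ * e ∧
          ((x = Ec s ξ ∧ y = Ec s ξ') ∨ (x = -Ec s ξ ∧ y = -Ec s ξ')) := by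
        rcases hor with h | h
        · obtain ⟨ξ', h5, h6, h7⟩ := hnear s ξ y hξ hy (by rw [← h]; linarith)
          rw [← h] at h7
          exact ⟨ξ', h5, h7, Or.inl ⟨h, h6⟩⟩
        · have h8 : ‖Ec s ξ - -y‖ = e := by
            rw [he, h, ← norm_neg]
            congr 1
            abel
          obtain ⟨ξ', h5, h6, h7⟩ := hnear s ξ (-y) hξ (by rw [norm_neg]; exact hy)
            (by rw [h8]; linarith)
          rw [h8] at h7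
          exact ⟨ξ', h5, h7, Or.inr ⟨h, by rw [← h6, neg_neg]⟩⟩
      obtain ⟨ξ', hξ', hu, hsg⟩ := hpos
      have huK : ‖ξ - ξ'‖ ≤ K₀ * e :=
        le_trans hu (mul_le_mul_of_nonneg_right (by linarith) he0)
      have hu1 : ‖ξ - ξ'‖ ≤ 1 := by nlinarith
      refine ⟨ξ - ξ', huK, ?_⟩
      intro z z' hzz hz hz'
      have hA := near_bd hK1 (hunit d s) (hL' s) (hc2' s) (hc3' s) (z := z) (z' := z') (ξ := ξ)
        (ξ' := ξ') (e := e) (δ := δ) (by linarith) (by linarith) hu1 huK he0 hδ.le hzz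
      have hzz' : ‖z - z' - (ξ' - ξ)‖ ≤ δ := by
        have h5 : z - z' - (ξ' - ξ) = -(z' - z - (ξ - ξ')) := by abel
        rw [h5, norm_neg]
        exact hzz
      have hB := near_bd hK1 (hunit d s) (hL' s) (hc2' s) (hc3' s) (z := z') (z' := z) (ξ := ξ')
        (ξ' := ξ) (e := e) (δ := δ) (by linarith) (by linarith) (by rw [norm_sub_rev]; exact hu1)
        (by rw [norm_sub_rev]; exact huK) he0 hδ.le hzz'
      rcases hsg with ⟨h5, h6⟩ | ⟨h5, h6⟩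
      · rw [h5, h6]
        exact ⟨hA, hB⟩
      · rw [h5, h6]
        simp only [inner_neg_right, abs_neg]
        have h7 : ∀ p q : ℝ, |(-p) - (-q)| = |p - q| := by
          intro p q
          rw [← abs_neg]
          congr 1
          ring
        rw [h7, h7]
        exact ⟨hA, hB⟩
    · push Not at hn
      have hfx : ∀ z : Fin d → ℝ, ‖z‖ ≤ 5 / 2 → |⟪Ec s z, x⟫| ≤ 1 - c₀ :=
        hfar s x hx (fun ξ hξ => hn ξ hξ)
      refine ⟨0, by rw [norm_zero]; positivity, ?_⟩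
      intro z z' hzz hz hz'
      rw [sub_zero] at hzz
      have hzL : ‖Ec s z' - Ec s z‖ ≤ K₀ * δ :=
        le_trans (hL' s z' z) (mul_le_mul_of_nonneg_left hzz hK0.le)
      have h5 : |⟪Ec s z, y⟫| ≤ 1 - c₀ / 2 := by
        have h6 : ⟪Ec s z, y⟫ = ⟪Ec s z, x⟫ - ⟪Ec s z, x - y⟫ := by
          rw [inner_sub_right]
          ring
        have h7 : |⟪Ec s z, x - y⟫| ≤ e := by
          refine le_trans (abs_real_inner_le_norm _ _) ?_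
          rw [hunit, one_mul]
        have h8 := hfx z hz
        rw [h6]
        exact le_trans (abs_sub _ _) (by linarith)
      refine ⟨far_bd hK1 hc₀K (hunit d s z') hy le_rfl hδ.le
        (by rw [norm_sub_rev]; exact hzL) (by linarith), ?_⟩
      refine far_bd hK1 hc₀K (hunit d s z) hx (by rw [norm_sub_rev]) hδ.le
        hzL ?_
      have h8 := hfx z' hz'
      linarith
  choose u hu hkey using key
  refine ⟨u, fun s => by nlinarith [hu s], ?_⟩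
  intro s z z' hzz a ha ha1
  -- both points far away
  by_cases hboth : 2 ≤ ‖z‖ ∧ 2 ≤ ‖z'‖
  · rw [hχ2 _ hboth.1, hχ2 _ hboth.2]
    simp only [zero_mul, mul_zero, sub_self, abs_zero, sub_zero]
    constructor <;> positivity
  have hdist : |‖z‖ - ‖z'‖| ≤ K₀ * (e + δ) := by
    have h5 : |‖z‖ - ‖z'‖| ≤ ‖z' - z‖ := by
      rw [norm_sub_rev]
      exact abs_norm_sub_norm_le _ _
    have h6 : z' - z = (z' - z - u s) + u s := by abel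
    have h7 : ‖z' - z‖ ≤ δ + K₀ * e := by
      rw [h6]
      exact le_trans (norm_add_le _ _) (add_le_add hzz (hu s))
    nlinarith
  have hz52 : ‖z‖ ≤ 5 / 2 ∧ ‖z'‖ ≤ 5 / 2 := by
    have h5 := abs_le.1 hdist
    by_cases h6 : 2 ≤ ‖z‖
    · have h7 : ¬ 2 ≤ ‖z'‖ := fun h => hboth ⟨h6, h⟩
      push Not at h7
      constructor <;> linarith [h5.1, h5.2]
    · push Not at h6
      constructor <;> linarith [h5.1, h5.2]
  obtain ⟨hk1, hk2⟩ := hkey s z z' hzz hz52.1 hz52.2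
  have hχd : ∀ t t' : ℝ, |t - t'| ≤ K₀ * (e + δ) →
      |χ t - χ t'| ≤ 2 * Λ * (K₀ * (e + δ)) * (η + (1 - χ t)) := by
    intro t t' ht
    have h5 : Λ * |t - t'| ≤ 1 := by
      have h6 : Λ * |t - t'| ≤ Λ * (K₀ * (e + δ)) := mul_le_mul_of_nonneg_left ht (by linarith)
      have h7 : Λ * (K₀ * (e + δ)) = K₀ * (Λ * (e + δ)) := by ring
      linarith
    refine le_trans (hχL t t' h5) ?_
    have h6 : 0 ≤ η + (1 - χ t) := by linarith [(hχ t).2]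
    refine mul_le_mul_of_nonneg_right ?_ h6
    exact mul_le_mul_of_nonneg_left ht (by linarith)
  constructor
  · exact comb ha ha1 (hχ _).1 (hχ _).2 (hin1 s z y hy) (hin1 s z' x hx) he0 hδ.le hΛ hη.le
      (by positivity) hK0.le (hχd _ _ hdist) hk1
  · rw [abs_sub_comm]
    exact comb ha ha1 (hχ _).1 (hχ _).2 (hin1 s z' x hx) (hin1 s z y hy) he0 hδ.le hΛ hη.le
      (by positivity) hK0.le (hχd _ _ (by rw [abs_sub_comm]; exact hdist)) hk2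

end DV
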