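import Mathlib
import Pool.Agent.Helper53.DV.St

set_option autoImplicit false

namespace DV

namespace LS

/-- greedy colouring -/
theorem colour {b : ℕ} (Q : ℕ) (hQ : 0 < Q) (v : Fin b → Fin b → ℝ) (hd : ∀ i, v i i = 0)
    (T : Finset (Fin b)) :
    ∃ κ : Fin b → Fin Q, ∑ i ∈ T, ∑ j ∈ T, (if κ i = κ j then v i j else 0) ≤
      (1 / (Q : ℝ)) * ∑ i ∈ T, ∑ j ∈ T, v i j := by
  classical
  have : NeZero Q := ⟨hQ.ne'⟩
  induction T using Finset.induction_on with
  | empty => exact ⟨fun _ => 0, by simp⟩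
  | insert a T ha ih =>
    obtain ⟨κ, hκ⟩ := ih
    -- weight of the colour `q` for `a`
    set D : Fin Q → ℝ := fun q => ∑ j ∈ T, (if q = κ j then v a j + v j a else 0) with hD
    obtain ⟨q, _, hq⟩ := Finset.exists_min_image (Finset.univ : Finset (Fin Q)) D
      ⟨0, Finset.mem_univ _⟩
    have hsum : ∑ c, D c = ∑ j ∈ T, (v a j + v j a) := by
      rw [hD, Finset.sum_comm]
      refine Finset.sum_congr rfl fun j _ => ?_
      rw [Finset.sum_ite_eq' Finset.univ (κ j)]
      simp
    have hDq : D q ≤ (1 / (Q : ℝ)) * ∑ j ∈ T, (v a j + v j a) := by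
      rw [← hsum]
      have h1 : ∑ _c : Fin Q, D q ≤ ∑ c, D c := Finset.sum_le_sum fun c _ => hq c (Finset.mem_univ _)
      rw [Finset.sum_const, Finset.card_univ, Fintype.card_fin, nsmul_eq_mul] at h1
      have hQ' : (0 : ℝ) < Q := by exact_mod_cast hQ
      rw [div_mul_eq_mul_div, one_mul, le_div_iff₀ hQ']
      linarith
    refine ⟨Function.update κ a q, ?_⟩
    have hne : ∀ j ∈ T, j ≠ a := fun j hj h => ha (h ▸ hj)
    have e1 : ∑ i ∈ insert a T, ∑ j ∈ insert a T,
        (if Function.update κ a q i = Function.update κ a q j then v i j else 0) =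
        D q + ∑ i ∈ T, ∑ j ∈ T, (if κ i = κ j then v i j else 0) := by
      rw [Finset.sum_insert ha, Finset.sum_insert ha]
      have h1 : ∑ j ∈ T, (if Function.update κ a q a = Function.update κ a q j then v a j else 0) =
          ∑ j ∈ T, (if q = κ j then v a j else 0) := by
        refine Finset.sum_congr rfl fun j hj => ?_
        rw [Function.update_self, Function.update_of_ne (hne j hj)]
      have h2 : ∑ i ∈ T, ∑ j ∈ insert a T,
          (if Function.update κ a q i = Function.update κ a q j then v i j else 0) =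
          ∑ i ∈ T, (if q = κ i then v i a else 0) +
          ∑ i ∈ T, ∑ j ∈ T, (if κ i = κ j then v i j else 0) := by
        rw [← Finset.sum_add_distrib]
        refine Finset.sum_congr rfl fun i hi => ?_
        rw [Finset.sum_insert ha, Function.update_self, Function.update_of_ne (hne i hi)]
        congr 1
        · by_cases h : κ i = q
          · rw [if_pos h, if_pos h.symm]
          · rw [if_neg h, if_neg (fun h' => h h'.symm)]
        · refine Finset.sum_congr rfl fun j hj => ?_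
          rw [Function.update_of_ne (hne j hj)]
      rw [h1, h2, if_pos rfl, hd, zero_add, ← add_assoc, ← Finset.sum_add_distrib, hD]
      congr 1
      refine Finset.sum_congr rfl fun j _ => ?_
      split_ifs <;> simp
    have e2 : ∑ i ∈ insert a T, ∑ j ∈ insert a T, v i j =
        ∑ j ∈ T, (v a j + v j a) + ∑ i ∈ T, ∑ j ∈ T, v i j := by
      rw [Finset.sum_insert ha, Finset.sum_insert ha, hd, zero_add]
      have h2 : ∑ i ∈ T, ∑ j ∈ insert a T, v i j = ∑ i ∈ T, v i a + ∑ i ∈ T, ∑ j ∈ T, v i j := by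
        rw [← Finset.sum_add_distrib]
        refine Finset.sum_congr rfl fun i _ => ?_
        rw [Finset.sum_insert ha]
      rw [h2, ← add_assoc, ← Finset.sum_add_distrib]
    rw [e1, e2, mul_add]
    exact add_le_add hDq hκ

end LS

theorem pLS : StLS := by
  classical
  intro X _ _ b n x hx K hK hup hn
  -- norming functionals
  choose f hf1 hf2 using fun i => exists_dual_vector'' ℝ (x i)
  set w : Fin b → Fin b → ℝ := fun i j => |f i (x j)| with hw
  have hwsum : ∀ i, ∑ j, w i j ≤ K := by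
    intro i
    set a : Fin b → ℝ := fun j => if 0 ≤ f i (x j) then 1 else -1 with ha
    have h1 : ∀ j, |a j| ≤ 1 := by
      intro j; rw [ha]; dsimp only; split_ifs <;> simp
    have h2 : f i (∑ j, a j • x j) = ∑ j, w i j := by
      rw [map_sum]
      refine Finset.sum_congr rfl fun j _ => ?_
      rw [map_smul, smul_eq_mul, ha, hw]
      dsimp only
      split_ifs with h
      · rw [one_mul, abs_of_nonneg h]
      · rw [abs_of_neg (not_le.1 h)]; ring
    rw [← h2]
    calc f i (∑ j, a j • x j) ≤ ‖f i (∑ j, a j • x j)‖ := le_abs_self _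
      _ ≤ ‖f i‖ * ‖∑ j, a j • x j‖ := (f i).le_opNorm _
      _ ≤ 1 * ‖∑ j, a j • x j‖ := mul_le_mul_of_nonneg_right (hf1 i) (norm_nonneg _)
      _ ≤ K := by rw [one_mul]; exact hup a h1
  -- the number of colours
  set Q : ℕ := ⌈8 * K⌉₊ with hQdef
  have hQ1 : 8 * K ≤ Q := Nat.le_ceil _
  have hQ2 : (Q : ℝ) ≤ 9 * K := by
    have := Nat.ceil_lt_add_one (by linarith : (0 : ℝ) ≤ 8 * K)
    rw [← hQdef] at this
    linarith
  have hQpos' : (0 : ℝ) < Q := by linarith
  have hQpos : 0 < Q := by exact_mod_cast hQpos'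
  have : NeZero Q := ⟨hQpos.ne'⟩
  set v : Fin b → Fin b → ℝ := fun i j => if i = j then 0 else w i j with hv
  have hv0 : ∀ i j, 0 ≤ v i j := by
    intro i j; rw [hv]; dsimp only; split_ifs
    · exact le_rfl
    · exact abs_nonneg _
  have hvw : ∀ i j, v i j ≤ w i j := by
    intro i j; rw [hv]; dsimp only; split_ifs
    · exact abs_nonneg _
    · exact le_rfl
  obtain ⟨κ, hκ⟩ := LS.colour Q hQpos v (fun i => by rw [hv]; simp) Finset.univ
  set g : Fin b → ℝ := fun i => ∑ j, (if κ i = κ j then v i j else 0) with hg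
  have hg0 : ∀ i, 0 ≤ g i := fun i => Finset.sum_nonneg fun j _ => by
    split_ifs
    · exact hv0 i j
    · exact le_rfl
  have hgs : ∑ i, g i ≤ b / 8 := by
    have h1 : ∑ i, ∑ j, v i j ≤ b * K := by
      calc ∑ i, ∑ j, v i j ≤ ∑ _i : Fin b, K :=
            Finset.sum_le_sum fun i _ => (Finset.sum_le_sum fun j _ => hvw i j).trans (hwsum i)
        _ = b * K := by simp
    have h2 : (1 / (Q : ℝ)) * ∑ i, ∑ j, v i j ≤ (1 / (Q : ℝ)) * (b * K) :=
      mul_le_mul_of_nonneg_left h1 (by positivity)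
    have h3 : (1 / (Q : ℝ)) * (b * K) ≤ b / 8 := by
      rw [div_mul_eq_mul_div, one_mul, div_le_div_iff₀ hQpos' (by norm_num)]
      have hb : (0 : ℝ) ≤ b := Nat.cast_nonneg b
      nlinarith
    exact hκ.trans (h2.trans h3)
  -- the good indices
  set G : Finset (Fin b) := Finset.univ.filter fun i => g i ≤ 1 / 4 with hG
  have hGcard : (b : ℝ) / 2 ≤ G.card := by
    have h1 : (1 / 4 : ℝ) * (Gᶜ.card) ≤ ∑ i, g i := by
      calc (1 / 4 : ℝ) * (Gᶜ.card) = ∑ _i ∈ Gᶜ, (1 / 4 : ℝ) := by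
            rw [Finset.sum_const, nsmul_eq_mul]; ring
        _ ≤ ∑ i ∈ Gᶜ, g i := by
            refine Finset.sum_le_sum fun i hi => ?_
            rw [Finset.mem_compl, hG, Finset.mem_filter] at hi
            have : ¬ g i ≤ 1 / 4 := fun h => hi ⟨Finset.mem_univ _, h⟩
            exact (not_le.1 this).le
        _ ≤ ∑ i, g i := Finset.sum_le_sum_of_subset_of_nonneg (Finset.subset_univ _)
            fun i _ _ => hg0 i
    have h2 : (G.card : ℝ) + Gᶜ.card = b := by
      have := Finset.card_add_card_compl G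
      rw [Fintype.card_fin] at this
      exact_mod_cast this
    linarith
  have hcard : Q * n ≤ G.card := by
    have h1 : (Q : ℝ) * n ≤ G.card := by
      have hn0 : (0 : ℝ) ≤ n := Nat.cast_nonneg n
      nlinarith
    exact_mod_cast h1
  obtain ⟨q, _, hq⟩ := Finset.exists_le_card_fiber_of_mul_le_card_of_maps_to
    (s := G) (t := (Finset.univ : Finset (Fin Q))) (f := κ) (n := n)
    (fun a _ => Finset.mem_univ _) ⟨0, Finset.mem_univ _⟩ (by simpa using hcard)
  obtain ⟨S, hS1, hS2⟩ := Finset.exists_subset_card_eq hq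
  set ι := S.orderEmbOfFin hS2 with hι
  have hιS : ∀ i, ι i ∈ S := fun i => Finset.orderEmbOfFin_mem S hS2 i
  have hιq : ∀ i, κ (ι i) = q := fun i => (Finset.mem_filter.1 (hS1 (hιS i))).2
  have hιG : ∀ i, g (ι i) ≤ 1 / 4 := fun i =>
    (Finset.mem_filter.1 (Finset.mem_filter.1 (hS1 (hιS i))).1).2
  refine ⟨ι, ι.injective, fun a j => ?_⟩
  obtain ⟨i0, _, hi0⟩ := Finset.exists_max_image (Finset.univ : Finset (Fin n)) (fun i => |a i|)
    ⟨j, Finset.mem_univ _⟩
  have hj : |a j| ≤ |a i0| := hi0 j (Finset.mem_univ _)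
  -- the value of the functional
  have h1 : ∑ i ∈ Finset.univ.erase i0, w (ι i0) (ι i) ≤ 1 / 4 := by
    have h2 : ∑ i ∈ Finset.univ.erase i0, w (ι i0) (ι i) =
        ∑ i ∈ Finset.univ.erase i0, (if κ (ι i0) = κ (ι i) then v (ι i0) (ι i) else 0) := by
      refine Finset.sum_congr rfl fun i hi => ?_
      rw [if_pos ((hιq i0).trans (hιq i).symm), hv]
      dsimp only
      rw [if_neg]
      intro h
      exact (Finset.mem_erase.1 hi).1 (ι.injective h).symm
    have h9 : ∑ i ∈ Finset.univ.erase i0, (if κ (ι i0) = κ (ι i) then v (ι i0) (ι i) else 0) =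
        ∑ j ∈ (Finset.univ.erase i0).map ι.toEmbedding,
          (if κ (ι i0) = κ j then v (ι i0) j else 0) := by
      rw [Finset.sum_map]
      rfl
    rw [h2, h9]
    refine (Finset.sum_le_sum_of_subset_of_nonneg (Finset.subset_univ _) fun j _ _ => ?_).trans
      (hιG i0)
    split_ifs
    · exact hv0 _ _
    · exact le_rfl
  have h3 : f (ι i0) (∑ i, a i • x (ι i)) = a i0 * ‖x (ι i0)‖ +
      ∑ i ∈ Finset.univ.erase i0, a i * f (ι i0) (x (ι i)) := by
    rw [map_sum, ← Finset.add_sum_erase _ _ (Finset.mem_univ i0)]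
    simp only [map_smul, smul_eq_mul]
    rw [hf2]
    simp
  have h4 : |∑ i ∈ Finset.univ.erase i0, a i * f (ι i0) (x (ι i))| ≤ |a i0| * (1 / 4) := by
    calc |∑ i ∈ Finset.univ.erase i0, a i * f (ι i0) (x (ι i))|
        ≤ ∑ i ∈ Finset.univ.erase i0, |a i * f (ι i0) (x (ι i))| := Finset.abs_sum_le_sum_abs _ _
      _ ≤ ∑ i ∈ Finset.univ.erase i0, |a i0| * w (ι i0) (ι i) := by
          refine Finset.sum_le_sum fun i _ => ?_
          rw [abs_mul]
          exact mul_le_mul_of_nonneg_right (hi0 i (Finset.mem_univ _)) (abs_nonneg _)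
      _ = |a i0| * ∑ i ∈ Finset.univ.erase i0, w (ι i0) (ι i) := by rw [Finset.mul_sum]
      _ ≤ |a i0| * (1 / 4) := mul_le_mul_of_nonneg_left h1 (abs_nonneg _)
  have h5 : |f (ι i0) (∑ i, a i • x (ι i))| ≤ ‖∑ i, a i • x (ι i)‖ := by
    calc |f (ι i0) (∑ i, a i • x (ι i))| ≤ ‖f (ι i0)‖ * ‖∑ i, a i • x (ι i)‖ :=
          (f (ι i0)).le_opNorm _
      _ ≤ 1 * ‖∑ i, a i • x (ι i)‖ := mul_le_mul_of_nonneg_right (hf1 _) (norm_nonneg _)
      _ = _ := one_mul _
  have h6 : |a i0| * ‖x (ι i0)‖ - |∑ i ∈ Finset.univ.erase i0, a i * f (ι i0) (x (ι i))| ≤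
      |f (ι i0) (∑ i, a i • x (ι i))| := by
    rw [h3]
    have h7 := abs_sub_abs_le_abs_sub (a i0 * ‖x (ι i0)‖)
      (-(∑ i ∈ Finset.univ.erase i0, a i * f (ι i0) (x (ι i))))
    rw [abs_neg, abs_mul, abs_norm, sub_neg_eq_add] at h7
    exact h7
  have h8 : |a i0| * (1 / 2) ≤ |a i0| * ‖x (ι i0)‖ :=
    mul_le_mul_of_nonneg_left (hx _) (abs_nonneg _)
  linarith

end DV
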